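import Pool.Agent.MP_c69980_ag.H88.Setup

/-!
Selection of balls: either the mass tends to infinity, or the growth is slow at exponential radii.
-/

set_option autoImplicit false

noncomputable section

namespace Pool.Agent.MP_c69980_ag.G2.Kob

open Real Set Filter Topology MeasureTheory Metric H4 H88
open scoped ENNReal

/-- The conclusion of the selection of a central ball. -/
def SelE (μ : Measure ℂ) (S : Set ℂ) (e η : ℝ) (M : ℕ) : Prop :=
  ∃ r : ℝ, 0 < r ∧ ball (0 : ℂ) (r * exp (3 * M)) ⊆ ball 0 (3 / 4) ∧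
    .ofReal e ≤ μ (ball 0 r ∩ S) ∧
    ∀ j ≤ M, μ (ball 0 (r * exp (3 * j))) ≤ .ofReal (48 / η * 2 ^ j) * μ (ball 0 r ∩ S)

/-- The sequence of selected balls. -/
def Out (ν : ℕ → ℂ → ℝ) (S : ℕ → Set ℂ) : Prop :=
  ∃ (φ : ℕ → ℕ) (c : ℕ → ℂ) (r R : ℕ → ℝ) (ε₁ : ℝ), 0 < ε₁ ∧ Tendsto R atTop atTop ∧
    (∀ k, 0 < r k ∧ 1 ≤ R k ∧ ball (c k) (r k * R k) ⊆ ball 0 1 ∧
      ENNReal.ofReal ε₁ ≤ mu (ν (φ k)) (S (φ k) ∩ ball (c k) (r k))) ∧
    ((Tendsto (fun k => mu (ν (φ k)) (S (φ k) ∩ ball (c k) (r k))) atTop (𝓝 ⊤) ∧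
      ∃ Λ : ℝ, ∀ᶠ k in atTop, mu (ν (φ k)) (ball (c k) (r k * 64)) ≤
        ENNReal.ofReal Λ * mu (ν (φ k)) (S (φ k) ∩ ball (c k) (r k))) ∨
    ∃ Λ : ℝ, ∀ j : ℕ, ∀ᶠ k in atTop, mu (ν (φ k)) (ball (c k) (r k * exp (3 * j))) ≤
      ENNReal.ofReal (Λ * 2 ^ j) * mu (ν (φ k)) (S (φ k) ∩ ball (c k) (r k)))

def SetupE : Prop := ∃ c₀ : ℝ, ∀ (ν : ℕ → ℂ → ℝ) (ρ : ℕ → ℝ) (ε : ℝ), 0 < ε →
  (∀ k, Den (ball 0 1) (ν k) ∧ 0 < ρ k ∧ ENNReal.ofReal ε ≤ mu (ν k) (ball 0 (16 * ρ k))) →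
  Tendsto ρ atTop (𝓝 0) → ∃ (g g' : ℕ → ℂ → ℝ) (T : ℕ → ℝ), Tendsto T atTop atTop ∧
  (∀ k, 0 < T k ∧ ∀ z, 0 ≤ g' k z) ∧
  (∀ᶠ k in atTop, TF c₀ (ball 0 (1 / 2)) (ball 0 (ρ k)) (g k) ∧
    TF c₀ (ball 0 (1 / 2)) (ball 0 (ρ k)) (g' k) ∧ (∀ z, g k z ≤ g' k z) ∧
    T k ≤ ∫ z, ν k z * g k z ∧ ∫ z, ν k z * g' k z ≤ 2 * T k ∧
    (∀ z ∉ ball 0 (ρ k), lap (g k) z ≤ T k * g' k z) ∧
    ∃ σ : ℂ → ℝ, Continuous σ ∧ (∀ z, 0 ≤ σ z) ∧ (∀ z w, ‖z‖ = ‖w‖ → σ z = σ w) ∧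
      tsupport σ ⊆ ball 0 (ρ k) ∧ ∀ z ∈ ball 0 (ρ k), lap (g k) z = -σ z) ∧
  (∀ η, 0 < η → ∀ᶠ k in atTop, ∃ Y : ℂ → ℝ, Integrable Y ∧ (∀ z, 0 ≤ Y z) ∧ ∫ z, Y z ≤ η * T k ∧
    ∀ z, ‖grad (g k) z‖ ^ 2 ≤ g' k z * Y z) ∧
  ∀ (S : ℕ → Set ℂ) (η : ℝ), (∀ k, MeasurableSet (S k)) → 0 < η →
    (∃ᶠ k in atTop, ENNReal.ofReal (η * T k) < mu (fun z => g' k z * ν k z) (S k)) → Out ν S

variable {ρ a h T η ε : ℝ} {N M : ℕ} {S : Set ℂ}

lemma innerE (μ : Measure ℂ) [SFinite μ] (hρ : 0 < ρ) (hh : 0 < h) (hη : 0 < η) (hε : 0 < ε)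
    (hT : 0 < T) (hN : 1 ≤ N) (hM : 3 * M ≤ N) (hr : rr ρ a ≤ 1 / 2) (ha : ε * a ≤ 2 * T)
    (h5 : ∫⁻ z, .ofReal (a + 2 * h - ll ρ z) ∂μ ≤ .ofReal (2 * T))
    (h3 : .ofReal (η * T / 2) <
      ∫⁻ z in S, indicator {z | ll ρ z ≤ a - 4 * N} (fun z => .ofReal (a - ll ρ z)) z ∂μ) :
    SelE μ S (η * ε / 24) η M := by
  have hN' : (1 : ℝ) ≤ N := by exact_mod_cast hN
  have hM' : 3 * (M : ℝ) ≤ N := by exact_mod_cast hM
  have hc : Continuous (rr ρ) := by unfold rr; fun_prop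
  have hx : ∀ s x : ℝ, x ≤ N → rr ρ s * exp x ≤ rr ρ (s + 2 * N) := fun s x hx => by
    rw [rr_add]
    exact mul_le_mul_of_nonneg_left (exp_le_exp.2 (by linarith)) (rr_pos hρ s).le
  have key := pick (volume : Measure ℝ) μ
    (p := indicator (Ioo 0 (a - 2 * N)) 1) (measurable_one.indicator measurableSet_Ioo)
    (B := fun t s => ball 0 (rr ρ s * exp (3 * ((t : ℝ) - 1)))) (S := S) (A := η * T / 12) (e := η * ε / 24)
    (lo := fun z => .ofReal (1 / 2) *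
      indicator {z | ll ρ z ≤ a - 4 * N} (fun z => .ofReal (a - ll ρ z)) z)
    (C := fun _ => 1) (Λ := fun t => 24 / η * 2 ^ t) (N := M + 1)
    (fun t => (isOpen_lt (f := fun q : ℝ × ℂ => dist q.2 0)
      (g := fun q => rr ρ q.1 * exp (3 * ((t : ℝ) - 1)))
      (by fun_prop) (by fun_prop)).measurableSet) (by positivity) (fun _ => by positivity)
    (fun _ => zero_le_one) (fun z => ?_) (fun t ht z => ?_) ?_ ?_ h5 fun t => ?_
  · obtain ⟨s, s1, s2, s3⟩ := key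
    have s4 : s < a - 2 * N := (mem_of_indicator_ne_zero s1).2
    simp only [Nat.cast_one, sub_self, mul_zero, exp_zero, mul_one] at s2 s3
    refine ⟨rr ρ s, rr_pos hρ s, ball_subset_ball ?_, s2, fun j hj => ?_⟩
    · linarith [(rr_sm hρ).monotone (show s + 2 * N ≤ a by linarith), hx s _ hM']
    · have := s3 (j + 1) (by omega)
      rwa [Nat.cast_add_one, add_sub_cancel_right,
        show 24 / η * 2 ^ (j + 1) = 48 / η * 2 ^ j by ring] at this
  · by_cases hz : ll ρ z ≤ a - 4 * N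
    · rw [indicator_of_mem (s := {z | ll ρ z ≤ a - 4 * N}) hz, ← ENNReal.ofReal_mul (by norm_num)]
      have h0 : 0 ≤ ll ρ z := uu_nonneg _
      calc _ ≤ volume (Ioo (ll ρ z) (a - 2 * N)) := by
            rw [Real.volume_Ioo]
            exact ENNReal.ofReal_le_ofReal (by linarith)
        _ = ∫⁻ s in Ioo (ll ρ z) (a - 2 * N), indicator (Ioo 0 (a - 2 * N)) 1 s := by
            rw [← setLIntegral_one]
            exact setLIntegral_congr_fun measurableSet_Ioo fun s hs =>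
              (indicator_of_mem (show s ∈ Ioo _ _ from ⟨h0.trans_lt hs.1, hs.2⟩) 1).symm
        _ ≤ _ := lintegral_mono_set fun s hs => by
            simpa using (Lg_lt hρ (by linarith [hs.1])).1 ((le_uu _).trans_lt hs.1)
    · simp [indicator_of_notMem (s := {z | ll ρ z ≤ a - 4 * N}) hz]
  · rw [ENNReal.ofReal_one, one_mul, lintegral_indicator_one measurableSet_Ioo,
      Measure.restrict_apply measurableSet_Ioo]
    calc _ ≤ volume (Ioo (ll ρ z - 2 * N) (a - 2 * N)) := measure_mono fun s hs => ⟨?_, hs.1.2⟩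
      _ ≤ _ := by
            rw [Real.volume_Ioo]
            exact ENNReal.ofReal_le_ofReal (by linarith)
    have h1 : ‖z‖ < rr ρ s * exp (3 * ((t : ℝ) - 1)) := by simpa using hs.2
    have ht' : (t : ℝ) ≤ M + 1 := by exact_mod_cast ht
    have h2 := hx s (3 * ((t : ℝ) - 1)) (by linarith)
    have h3 := (Lg_lt hρ (by linarith [hs.1.1])).2 (h1.trans_le h2)
    rcases le_total (Lg ρ z) 1 with H | H
    · linarith [uu_le H, hs.1.1, show ll ρ z = uu (Lg ρ z) from rfl]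
    · linarith [uu_eq H, show ll ρ z = uu (Lg ρ z) from rfl]
  · rw [lintegral_const_mul' _ _ ENNReal.ofReal_ne_top,
      show 3 * (η * T / 12) = 1 / 2 * (η * T / 2) by ring, ENNReal.ofReal_mul (by norm_num)]
    exact ENNReal.mul_lt_mul_right (by simp) ENNReal.ofReal_ne_top h3
  · rw [lintegral_indicator_one measurableSet_Ioo, Real.volume_Ioo,
      ← ENNReal.ofReal_mul (by positivity)]
    refine ENNReal.ofReal_le_ofReal ?_
    nlinarith [mul_le_mul_of_nonneg_left ha hη.le, mul_pos hη hε]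
  · refine le_of_eq ?_
    rw [one_div_pow]
    field_simp
    ring

lemma selectE (μ : Measure ℂ) [SFinite μ] (hρ : 0 < ρ) (hh : 0 < h) (hh1 : h ≤ 1) (hη : 0 < η)
    (hε : 0 < ε) {ε' : ℝ} (hε' : 0 < ε') (hN : 1 ≤ N) (hM : 3 * M ≤ N)
    (hr0 : 1 / 4 ≤ rr ρ a) (hr : rr ρ (a + h) ≤ 1 / 2)
    (ha : 4 * N + 3 ≤ a) (ha' : ε * a ≤ 2 * T)
    (hQ : 512 * N ^ 2 * (4 * N + 2) * ε' * exp (4 * N + 1) ≤ T * h ^ 2)
    (h5 : ∫⁻ z, .ofReal (a + 2 * h - ll ρ z) ∂μ ≤ .ofReal (2 * T))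
    (h3 : .ofReal (η * T) < ∫⁻ z in S, .ofReal (a - ll ρ z) ∂μ) :
    SelE μ S (η * ε / 24) η M ∨ Sel μ S (η * ε' / 24) η N := by
  have hT : 0 < T := by nlinarith [show 0 < ε * a from mul_pos hε (by linarith [(Nat.cast_nonneg N : (0 : ℝ) ≤ N)])]
  by_contra hn
  have k1 := not_lt.1 fun H => hn (.inl (innerE μ hρ hh hη hε hT hN hM
    (((rr_sm hρ).monotone (by linarith)).trans hr) ha' h5 H))
  have k2 := not_lt.1 fun H => hn (.inr (H88.outer μ hρ hh hh1 hη hε' hT hN hr ha ?_ h5 H))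
  · refine h3.not_ge (le_trans (lintegral_mono fun z => ?_)
      ((lintegral_add_left ?_ _).le.trans ((add_le_add k1 k2).trans_eq ?_)))
    · by_cases hz : ll ρ z ≤ a - 4 * N
      · rw [indicator_of_mem (s := {z | ll ρ z ≤ a - 4 * N}) hz]
        exact le_self_add
      · rw [indicator_of_mem (s := {z | a - 4 * N < ll ρ z}) (not_le.1 hz)]
        exact le_add_self
    · exact (continuous_const.sub (ll_cont hρ)).measurable.ennreal_ofReal.indicator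
        (isClosed_le (ll_cont hρ) continuous_const).measurableSet
    · rw [← ENNReal.ofReal_add (by positivity) (by positivity), add_halves]
  · have e := rr_add ρ (a - 4 * N - 1) (4 * N + 1)
    rw [show a - 4 * N - 1 + (4 * N + 1) = a by ring] at e
    have e2 : 1 / 16 ≤ rr ρ (a - 4 * N - 1) ^ 2 * exp (4 * N + 1) := by
      rw [← add_halves (4 * (N : ℝ) + 1), exp_add]
      nlinarith
    refine le_of_mul_le_mul_right ?_ (exp_pos (4 * N + 1))
    nlinarith [mul_le_mul_of_nonneg_left e2 (show 0 ≤ T * h ^ 2 by positivity)]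

lemma ms_cap {ν : ℂ → ℝ} {c : ℂ} {r R : ℝ} (hS : MeasurableSet S) (r0 : 0 < r) (R1 : 1 ≤ R)
    (h : ball c (r * R) ⊆ ball 0 (3 / 4)) : ms ν (ball c r ∩ S) = mu ν (S ∩ ball c r) := by
  rw [inter_comm S, ms_eq (measurableSet_ball.inter hS) (inter_subset_left.trans
    ((ball_subset_ball (le_mul_of_one_le_right r0.le R1)).trans h))]

lemma ms_ball {ν : ℂ → ℝ} {c : ℂ} {r R s : ℝ} (r0 : 0 < r) (hs : s ≤ R)
    (h : ball c (r * R) ⊆ ball 0 (3 / 4)) : ms ν (ball c (r * s)) = mu ν (ball c (r * s)) :=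
  ms_eq measurableSet_ball ((ball_subset_ball (mul_le_mul_of_nonneg_left hs r0.le)).trans h)

lemma out_of {ν : ℕ → ℂ → ℝ} {S : ℕ → Set ℂ} (hη : 0 < η) (hε : 0 < ε)
    (hS : ∀ k, MeasurableSet (S k))
    (hN : ∀ n : ℕ, ∃ k, SelE (ms (ν k)) (S k) (η * ε / 24) η n ∨
      Sel (ms (ν k)) (S k) (η * (n + 1) / 24) η (3 * n + 64)) : Out ν S := by
  have b1 : ball (0 : ℂ) (3 / 4) ⊆ ball 0 1 := ball_subset_ball (by norm_num)
  by_cases hc : ∀ m : ℕ, ∃ n, m ≤ n ∧ ∃ k, SelE (ms (ν k)) (S k) (η * ε / 24) η n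
  · choose n hn φ r r0 s0 s1 s2 using hc
    have R1 : ∀ m, 1 ≤ exp (3 * (n m : ℝ)) := fun m => one_le_exp (by positivity)
    refine ⟨φ, fun _ => 0, r, fun m => exp (3 * n m), η * ε / 24, by positivity, ?_, fun m =>
      ⟨r0 m, R1 m, (s0 m).trans b1, (s1 m).trans_eq (ms_cap (hS _) (r0 m) (R1 m) (s0 m))⟩,
      .inr ⟨48 / η, fun j => (eventually_ge_atTop j).mono fun m hm => ?_⟩⟩
    · exact tendsto_exp_atTop.comp ((tendsto_natCast_atTop_atTop.comp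
        (tendsto_atTop_mono hn tendsto_id)).const_mul_atTop three_pos)
    · have h1 : (j : ℝ) ≤ n m := by exact_mod_cast hm.trans (hn m)
      rw [← ms_cap (hS _) (r0 m) (R1 m) (s0 m),
        ← ms_ball (r0 m) (exp_le_exp.2 (by linarith)) (s0 m)]
      exact s2 m j (hm.trans (hn m))
  · push Not at hc
    obtain ⟨m, hm⟩ := hc
    choose φ c r r0 s0 s1 s2 using fun n => (hN (n + m)).imp fun k hk =>
      hk.resolve_left (hm _ le_add_self k)
    have R1 : ∀ n : ℕ, (64 : ℝ) ≤ (3 * (n + m) + 64 : ℕ) := fun n => by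
      exact_mod_cast le_add_self
    have R2 : ∀ n : ℕ, (1 : ℝ) ≤ (3 * (n + m) + 64 : ℕ) := fun n => le_trans (by norm_num) (R1 n)
    have e := fun n => ms_cap (ν := ν (φ n)) (hS (φ n)) (r0 n) (R2 n) (s0 n)
    refine ⟨φ, c, r, fun n => (3 * (n + m) + 64 : ℕ), η / 24, by positivity, ?_, fun n =>
      ⟨r0 n, R2 n, (s0 n).trans b1, (ENNReal.ofReal_le_ofReal ?_).trans ((s1 n).trans_eq (e n))⟩,
      .inl ⟨?_, La η 64, .of_forall fun n => ?_⟩⟩
    · exact tendsto_natCast_atTop_atTop.comp (tendsto_atTop_mono (fun n => by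
        simp only [id]; omega) tendsto_id)
    · nlinarith [mul_nonneg hη.le (Nat.cast_nonneg (α := ℝ) (n + m))]
    · refine tendsto_nhds_top_mono' (ENNReal.tendsto_ofReal_atTop.comp ?_)
        fun n => (s1 n).trans_eq (e n)
      exact ((tendsto_atTop_add_const_right _ 1 (tendsto_natCast_atTop_atTop.comp
        (tendsto_add_atTop_nat m))).const_mul_atTop hη).atTop_div_const (by norm_num)
    · rw [← e, ← ms_ball (r0 n) (R1 n) (s0 n)]
      simpa using s2 n 64 le_add_self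

theorem setupE (hL : LapRuleStmt) : SetupE := by
  obtain ⟨M, hM, hb⟩ := sd_bd
  refine ⟨8 * π * M, fun ν ρ ε hε H hρ => ?_⟩
  choose x h T x2 hh hT hR using fun k => reg (H k).1 (H k).2.1 hε (H k).2.2
  have hl : Tendsto (fun k => lv (ρ k)) atTop atTop :=
    tendsto_atTop_add_const_left _ 2 (tendsto_neg_atBot_atTop.comp
      ((tendsto_log_nhdsGT_zero.comp (tendsto_nhdsWithin_iff.2 ⟨by simpa using hρ.const_mul 4,
        .of_forall fun k => mul_pos four_pos (H k).2.1⟩)).const_mul_atBot two_pos))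
  have hE : ∀ K : ℝ, ∀ᶠ k in atTop, Reg (ν k) (ρ k) ε (x k) (h k) (T k) ∧ K ≤ x k ∧
      K ≤ T k * h k ^ 2 ∧ T k * h k ^ 2 ≤ T k * h k ∧ T k * h k ≤ T k := fun K => by
    filter_upwards [hl.eventually_ge_atTop 17, hl.eventually_ge_atTop K,
      hl.eventually_ge_atTop (10000 * K / ε + 8)] with k k1 k2 k3
    obtain ⟨a1, a2, a3, a4, a5, a6, a7, a8⟩ := hR k k1
    have k4 := (div_le_iff₀ hε).1 (le_sub_iff_add_le.2 k3)
    have k5 := mul_pos (hT k) (hh k)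
    exact ⟨hR k k1, k2.trans a1, by linarith, by nlinarith, by nlinarith [hT k]⟩
  refine ⟨fun k => gg (ρ k) (x k + h k) (h k), fun k => gg (ρ k) (x k + h k + 2 * h k) (h k), T,
    tendsto_atTop.2 fun K => (hE K).mono fun k ⟨_, _, k1, k2, k3⟩ => by linarith,
    fun k => ⟨hT k, gg_nonneg (hh k) (by linarith [x2 k, hh k])⟩,
    (hE (64 * M)).mono fun k ⟨⟨a1, a2, a3, a4, a5, a6, a7, a8⟩, _, k1, _⟩ => ?_,
    fun η hη => ?_, fun S η hS hη hf => ?_⟩
  · obtain ⟨hν, hρ, -⟩ := H k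
    have h0 := hh k
    have h2 := x2 k
    have b1 : 1 + h k ≤ x k + h k := by linarith
    have b2 : 1 + h k ≤ x k + h k + 2 * h k := by linarith
    have r1 : rr (ρ k) (x k + h k) < 1 / 2 := ((rr_sm hρ).monotone (by linarith)).trans_lt a4
    have r2 : rr (ρ k) (x k + h k + 2 * h k) < 1 / 2 :=
      ((rr_sm hρ).monotone (by linarith)).trans_lt a4
    refine ⟨gg_tf hL hρ h0 b1 hM hb r1, gg_tf hL hρ h0 b2 hM hb r2, fun z => (gg_le h0 b1 z).trans
      (max_le (le_trans (by linarith) (le_gg h0 b2 z)) (gg_nonneg h0 b2 z)), ?_, ?_,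
      fun z hz => gg_lap_le hL hρ h0 b1 hM hb (by rwa [add_sub_cancel_right]) k1 hz,
      gg_sig hL hρ h0 (by linarith)⟩
    · rw [ms_int hν (gg_off hρ h0 b1 r1), a5]
      exact integral_mono (mx_int hν hρ _) (gg_int hν hρ h0 b1) fun z =>
        max_le (le_trans (by linarith) (le_gg h0 b1 z)) (gg_nonneg h0 b1 z)
    · rw [ms_int hν (gg_off hρ h0 b2 r2)]
      exact (integral_mono (gg_int hν hρ h0 b2) (mx_int hν hρ _) (gg_le h0 b2)).trans
        ((ta_mono hν hρ (by linarith)).trans a6)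
  · obtain ⟨W, hW⟩ : ∃ W, W = 16 * π / (ε * η) := ⟨_, rfl⟩
    have W0 : 0 < W := by rw [hW]; positivity
    filter_upwards [hE (1 + W), hE (8 * π * W / η)] with k
      ⟨⟨a1, a2, a3, a4, a5, a6, a7, a8⟩, k1, _⟩ ⟨_, _, k2, k3, _⟩
    have h0 := hh k
    obtain ⟨Y, y1, y2, y3, y4⟩ := gg_grad_le hL (H k).2.1 h0 (a := x k + h k)
      (by linarith [x2 k]) W0 (by linarith)
    refine ⟨Y, y1, y2, y3.trans_le ?_, y4⟩
    have e1 : 4 * π * ((x k + h k) / W) = η * (ε * (x k + h k)) / 4 := by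
      rw [hW]
      field_simp
      ring
    have e2 : 4 * π * (W / h k) ≤ η * T k / 2 := by
      rw [← mul_div_assoc, div_le_iff₀ h0]
      linarith [(div_le_iff₀ hη).1 (k2.trans k3)]
    have e3 : ε * (x k + h k) ≤ 2 * T k := by nlinarith
    nlinarith [mul_le_mul_of_nonneg_left e3 hη.le]
  · have hN : ∀ n : ℕ, ∃ k, SelE (ms (ν k)) (S k) (η * ε / 24) η n ∨
        Sel (ms (ν k)) (S k) (η * (n + 1) / 24) η (3 * n + 64) := fun n => by
      obtain ⟨k, k0, ⟨⟨a1, a2, a3, a4, a5, a6, a7, a8⟩, k1, _⟩, _, _, k2, _⟩ :=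
        (hf.and_eventually ((hE (4 * (3 * n + 64 : ℕ) + 3)).and (hE (512 * (3 * n + 64 : ℕ) ^ 2 *
          (4 * (3 * n + 64 : ℕ) + 2) * (n + 1) * exp (4 * (3 * n + 64 : ℕ) + 1))))).exists
      obtain ⟨hν, hρ, -⟩ := H k
      have := ms_fin hν
      have h0 := hh k
      have b2 : 1 + h k ≤ x k + h k + 2 * h k := by linarith [x2 k]
      refine ⟨k, selectE (a := x k + h k + 2 * h k) (h := h k) (T := T k) _ hρ h0 (by linarith) hη hε
        (by positivity) (by omega) (by omega) (a3.trans ((rr_sm hρ).monotone (by linarith)))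
        (((rr_sm hρ).monotone (by linarith)).trans a4.le) (by linarith) (by linarith) k2 ?_
        (k0.trans_le ?_)⟩
      · rw [ta_lin hν hρ]
        exact ENNReal.ofReal_le_ofReal ((ta_mono hν hρ (by linarith)).trans a6)
      · rw [ms_lin hν (gg_cont hρ _ _) (gg_nonneg h0 b2) (gg_off hρ h0 b2
          (((rr_sm hρ).monotone (by linarith)).trans_lt a4)) (hS k)]
        exact lintegral_mono fun z => (ENNReal.ofReal_le_ofReal (gg_le h0 b2 z)).trans_eq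
          (by simp [ENNReal.ofReal_max])
    exact out_of hη hε hS hN

end Pool.Agent.MP_c69980_ag.G2.Kob
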