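import Pool.Agent.MP_c69980_ag.G2.Base
import Pool.Agent.MP_c69980_ag.G2.KobA
import Pool.Agent.MP_c69980_ag.H4.Main

/-!
Log-general type and the absence of charged sequences of discs give pseudo-Kobayashi hyperbolicity.
-/

set_option autoImplicit false

noncomputable section

namespace Pool.Agent.MP_c69980_ag.G2

open MvPolynomial Metric Filter Topology Set MeasureTheory Real
open H60 H4 H4.Mdl

namespace Kob

variable {K : Type} [Field K] [Algebra ℂ K] {d : Dat K} {M : Mdl d}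

lemma null_mass (H : All) {D A : PR d.n} {a : ℕ} (hA : A.IsHomogeneous a) (hDA : D ∣ A)
    (hE : NoChg d.U D)
    (hS : ∀ (S : ℕ → Set ℂ) (η : ℝ), (∀ k, MeasurableSet (S k)) → 0 < η →
      (∃ᶠ k in atTop, ENNReal.ofReal (η * M.C.T k) <
        mu (fun z => M.C.g k z * lam (M.F k) z) (S k)) → Out (fun k => lam (M.F k)) S)
    {b : ℝ} (hb : 0 < b) :
    Null M.C (fun k => {z | z ∈ ball 0 1 ∧ b * ‖M.F k z‖ ^ a ≤ ‖eval (M.F k z) A‖})
      fun k => lam (M.F k) := fun η hη => by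
  set S : ℕ → Set ℂ := fun k => {z | z ∈ ball 0 1 ∧ b * ‖M.F k z‖ ^ a ≤ ‖eval (M.F k z) A‖}
  have mS : ∀ k, MeasurableSet (S k) := fun k => by
    have c := (M.hF k).1.continuousOn
    have := (((eval_diff (M.hF k).1 A).continuousOn.norm.sub (continuousOn_const.mul
      (c.norm.pow a))).isOpen_inter_preimage (t := Iio 0) isOpen_ball isOpen_Iio (f := fun z =>
        ‖eval (M.F k z) A‖ - b * ‖M.F k z‖ ^ a)).measurableSet
    convert (measurableSet_ball (x := (0 : ℂ)) (ε := 1)).diff this using 1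
    ext z
    simp only [S, mem_ofPred, Set.mem_sdiff, mem_inter_iff, mem_preimage, mem_Iio, sub_neg, not_and,
      not_lt]
    tauto
  by_contra hn
  obtain ⟨φ, c, r, R, ε, ε0, R1, h1, h2⟩ := hS S η mS hη (by
    refine ((not_eventually.1 hn).and_eventually M.hg).mono fun k ⟨a1, a2⟩ => not_le.1 fun q =>
      a1 ⟨(S k).indicator fun z => ENNReal.ofReal (M.C.g k z * lam (M.F k) z), ?_,
        .of_forall fun z hz => by rw [indicator_of_mem hz],
        (lintegral_indicator (mS k) _).trans_le q⟩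
    have := R1.cont_mul (M.ok.1 k) ((H.lapq _ _ _ isOpen_ball (crv (M := M) (k := k))).2.1.1.mono
      fun _ => sub) a2.1.1
    simp only [mul_comm (lam _ _)] at this
    exact this.measurable.ennreal_ofReal.indicator (mS k))
  have sc := fun k => H.scale _ (M.F (φ k)) (c k) (r k) (h1 k).1
  have m1 : ∀ k s, (fun w : ℂ => c k + r k * w) ⁻¹' ball (c k) (r k * s) = ball 0 s := fun k s => by
    simpa using (sc k).2.2 0 s
  have m2 : ∀ k, ∀ z ∈ ball (0 : ℂ) (R k), c k + r k * z ∈ ball (0 : ℂ) 1 := fun k z hz =>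
    (h1 k).2.2.1 ((m1 k (R k)).ge hz)
  have m3 : ∀ k s, mu (lam fun w => M.F (φ k) (c k + r k * w)) (ball 0 s) =
      mu (lam (M.F (φ k))) (ball (c k) (r k * s)) := fun k s => by rw [← m1 k s, (sc k).2.1]
  refine hE A a b ε (fun k w => M.F (φ k) (c k + r k * w)) R
    (fun k => (fun w : ℂ => c k + r k * w) ⁻¹' (S (φ k) ∩ ball (c k) (r k))) hA hDA hb ε0 R1
    (fun k => ⟨(h1 k).2.1, ⟨(M.hF _).1.comp (by fun_prop) (m2 k),
      fun z hz => (M.hF _).2 _ (m2 k z hz)⟩,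
      ((mS _).inter measurableSet_ball).preimage (by fun_prop), fun z hz => ?_, ?_,
      fun z hz => hz.1.2⟩) ?_
  · exact (m1 k 1).le (by simpa using hz.2)
  · rw [(sc k).2.1]; exact (h1 k).2.2.2
  · simpa only [Alt, m3, fun k => (sc k).2.1] using h2

theorem generic (H : All) (HS : SetupE) (d : Dat K) {D : PR d.n} {e : ℕ} (hD : D.IsHomogeneous e)
    (h0 : aeval d.z D ≠ 0) (hE : NoChg d.U D) {j : Fin d.n}
    (hj : d.z j ≠ 0) : ∃ (P : PR d.n) (a : ℕ), P.IsHomogeneous a ∧ aeval d.z P ≠ 0 ∧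
      ∀ p, eval p P ≠ 0 → Good2 d.U j p := by
  classical
  set u : Fin 2 → K := ![d.h 1 / d.h 0, d.h 2 / d.h 0] with hu
  have hX : ∀ i, u i = d.h i.succ / d.h 0 := fun i => by fin_cases i <;> rfl
  choose P Q f P1 Q1 Q0 hP using fun i => quot d.hz (u i)
  set A := D * (Q 0 * Q 1) with hA'
  have hA : A.IsHomogeneous (e + (f 0 + f 1)) := hD.mul ((Q1 0).mul (Q1 1))
  set a := e + (f 0 + f 1) with ha
  have A0 : aeval d.z A ≠ 0 := by
    rw [hA', map_mul, map_mul _ (Q 0)]; exact mul_ne_zero h0 (mul_ne_zero (Q0 0) (Q0 1))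
  obtain ⟨γ, γ1, γ2, γ3⟩ := H.ainit K _ _ d.U d.z d.W d.z' d.pr d.m d.E d.h
    (insert (d.z j ^ a / aeval d.z A) (Finset.univ.image fun b => d.z b / d.z j)) d.ld
  have i1 := fun b => γ3 (d.z b / d.z j) (by simp)
  have al : d.Al u γ := ⟨γ2, aeval_ne γ2.1 γ1.ne_zero⟩
  obtain ⟨S₀, s1, s2⟩ := glob H γ1 al
  obtain ⟨S, S0, hS⟩ := s2.and ((Gc.full H al).and ((Gc.gen al.ne).and
    ((Gc.all fun b => Gc.chain H al.tb al.wd (d.z b / d.z j)).and
      (Gc.all fun b => Gc.all fun i => (show Gc d fun M => pd d.E u i (d.z b / d.z j) ≠ 0 →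
        M.Gen (pd d.E u i (d.z b / d.z j)) by
        by_cases h : pd d.E u i (d.z b / d.z j) = 0
        · exact Gc.triv fun _ a => absurd h a
        · exact (Gc.gen h).mono fun _ a _ => a)))))
  choose P' Q' f' P1' Q1' Q0' hP' using fun s : S => quot d.hz s.1
  obtain ⟨R, b, R1, R2, R3⟩ := (Gn.form hA A0).and ((Gn.val d.hz (aeval u γ)).and
    ((Gn.all fun b : {b // d.z b ≠ 0} => Gn.form (isHomogeneous_X ℂ b.1) (by simpa using b.2)).and
      (Gn.all fun s : S => (Gn.lb (P1' s) fun q => S0 (by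
        have := s.2
        rwa [hP' s, q, zero_div] at this)).and (Gn.lb (Q1' s) (Q0' s)))))
  refine ⟨R, b, R1, R2, fun p hp => by_contra fun hn => ?_⟩
  obtain ⟨L, L0, hL⟩ := ((eventually_gt_atTop 0).and (R3 p hp)).exists
  have o := on_of d.hz hn
  have nz : ∀ y, eval y A ≠ 0 → ∀ i, eval y (Q i) ≠ 0 := fun y h => by
    rw [hA', map_mul, map_mul _ (Q 0)] at h
    exact Fin.forall_fin_two.2 (mul_ne_zero_iff.1 (right_ne_zero_of_mul h))
  let pr : (Fin d.n → ℂ) → Fin 2 → ℂ := fun y i => eval y (P i) / eval y (Q i)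
  have pv : ∀ y, On d.z y → eval y A ≠ 0 → ∀ i, Reg d.z y (u i) ∧ vl d.z (u i) y = pr y i :=
    fun y h1 h2 i => ⟨⟨_, _, _, P1 i, Q1 i, nz y h2 i, hP i⟩, by
      rw [hP i, vl_eq h1 (P1 i) (Q1 i) (nz y h2 i)]⟩
  obtain ⟨p1, p2, -⟩ := hL.self_of_nhds o
  have q0 : eval (pr p) γ ≠ 0 := by
    have := (exp_pos _).trans_le (p2.2.2 al.ne).1
    rwa [(vl_aeval o (fun i => (pv p o p1 i).1) γ).2, funext fun i => (pv p o p1 i).2,
      norm_pos_iff] at this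
  obtain ⟨r, r0, hr⟩ := Metric.nhds_basis_closedBall.eventually_iff.1
    ((MvPolynomial.continuous_eval γ).continuousAt.eventually_ne q0)
  obtain ⟨G', g1, g2, g3⟩ := H.base S₀ (ball (pr p) r) (pr p) s1 isOpen_ball (mem_ball_self r0)
  have cpr : ContinuousAt pr p := continuousAt_pi.2 fun i =>
    (MvPolynomial.continuous_eval _).continuousAt.div (MvPolynomial.continuous_eval _).continuousAt
      (nz p p1 i)
  obtain ⟨δ, δ0, hδ⟩ := Metric.eventually_nhds_iff.1 (hL.and (cpr.eventually_mem (g1.mem_nhds g2)))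
  obtain ⟨F, ρ, ε, ε0, ρ0, hF⟩ := discs H hn δ0
  have cr : ∀ k, Crv (ball 0 1) (F k) := fun k => ⟨(hF k).1.1, fun z hz => ((hF k).1.2 z hz).1⟩
  have sb : ∀ k, ball (0 : ℂ) (ρ k) ⊆ ball 0 1 := fun k =>
    ball_subset_ball ((hF k).2.2.2.1.trans (by norm_num))
  have key : ∀ k, ∀ w ∈ ball (0 : ℂ) (ρ k), eval (F k w) A ≠ 0 ∧ pr (F k w) ∈ G' ∧
      (∀ b, d.z b ≠ 0 → F k w b ≠ 0) ∧ ∀ s : S, L⁻¹ * ‖F k w‖ ^ f' s ≤ ‖eval (F k w) (P' s)‖ ∧
        L⁻¹ * ‖F k w‖ ^ f' s ≤ ‖eval (F k w) (Q' s)‖ := fun k w hw => by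
    obtain ⟨b1, b2⟩ := (hF k).2.2.2.2.2 w hw
    obtain ⟨b3, b4⟩ := hδ ((dist_eq_norm _ p).symm ▸ b2)
    obtain ⟨c1, -, c2, c3⟩ := b3 (Cone.on d.hz (Cone.smul ((hF k).1.2 w (sb k hw)) (inv_ne_zero b1)))
    have e1 : F k w j • nrm j (F k w) = F k w := by
      rw [nrm, smul_smul, mul_inv_cancel₀ b1, one_smul]
    refine ⟨?_, ?_, fun b hb => ?_, fun s => e1 ▸ ⟨(c3 s).1 _, (c3 s).2 _⟩⟩
    · rw [← e1, eval_smul_hom hA]; exact mul_ne_zero (pow_ne_zero _ b1) c1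
    · convert b4 using 1
      ext i
      simp only [pr, nrm, eval_smul_hom (P1 i), eval_smul_hom (Q1 i)]
      rw [mul_div_mul_left _ _ (pow_ne_zero _ (inv_ne_zero b1))]
    · have := c2 ⟨b, hb⟩
      rw [eval_X] at this
      exact right_ne_zero_of_mul this
  have m0 := fun k => mem_ball_self (x := (0 : ℂ)) (hF k).2.2.1
  obtain ⟨c₀, hc⟩ := HS
  obtain ⟨g, g', T, T1, T2, T3, T4, T5⟩ := hc (fun k => lam (F k)) ρ ε ε0 (fun k =>
    ⟨(H.lapq _ _ _ isOpen_ball (cr k)).2.1, (hF k).2.2.1, (hF k).2.2.2.2.1⟩) ρ0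
  choose Φ Φ1 Φ2 using fun k => lift3 H d (hF k).1 (fun i => ⟨P1 i, Q1 i, hX i ▸ hP i⟩)
    (nz _ (key k 0 (m0 k)).1)
  let M : Mdl d := ⟨⟨fun _ => ball 0 (1 / 2), g', T, fun k z => log (sq (Φ k z)) / d.m, d.m⟩, F, Φ,
    fun k => ball 0 (ρ k), c₀, ⟨fun _ => isOpen_ball, fun k => (T2 k).2, fun k => (T2 k).1,
      d.ld.2.2.2.2.1⟩, fun _ => rfl, rfl, T1, fun k => (hF k).1,
    T3.mono fun k a => ⟨a.2.1, a.2.2.2.2.1, m0 k, (key k 0 (m0 k)).2.2.1⟩,
    .of_forall fun k => ⟨Φ1 k, Φ2 k⟩, .of_forall fun k => by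
      have := Cone.on d.hz ((hF k).1.2 0 (mem_ball_self one_pos))
      exact Fin.cases (div_self d.ld.2.2.2.2.2.1 ▸ (vl_one this).1) fun i =>
        hX i ▸ (pv _ this (key k 0 (m0 k)).1 i).1, fun _ _ => rfl⟩
  obtain ⟨n1, n2, n3, n4, n5⟩ := hS M fun s hs => ⟨P' ⟨s, hs⟩, Q' ⟨s, hs⟩, _, L⁻¹, P1' _, Q1' _,
    inv_pos.2 L0, hP' ⟨s, hs⟩, .of_forall fun k w hw => (key k w hw).2.2.2 _⟩
  have rg := fun i => (n2.1 i).rg
  have bg := big (M := M) hj (fun a => (n4 a).mono fun _ b => b.1) n5 fun k => (hF k).2.1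
  have ok : ChOK M.C (M.ch u γ) := chOK_of H n2.1 n2.2.1 n3 (n2_ne rg bg)
    (f3_chart H rg hA (Q' := ![D * Q 1, D * Q 0]) (e' := ![e + f 1, e + f 0])
      (fun i => ⟨P1 i, Q1 i, by
        fin_cases i
        exacts [hD.mul (Q1 1), hD.mul (Q1 0)], by
        fin_cases i <;> simp only [hA', Fin.zero_eta, Fin.mk_one, Matrix.cons_val] <;> ring, by
        fin_cases i <;> simp only [ha, Fin.zero_eta, Fin.mk_one, Matrix.cons_val] <;> ring, hP i⟩)
      hj i1 (γ3 _ (Finset.mem_insert_self _ _)) (.of_forall fun k => (key k 0 (m0 k)).1)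
      fun b hb => null_mass H hA (dvd_mul_right D _) hE T5 hb)
  obtain ⟨o1, o2⟩ := H4.outer H al n2 ok isOpen_ball (isCompact_closedBall (pr p) r)
    ball_subset_closedBall fun q hq => hr hq
  obtain ⟨κ, κ0, hκ⟩ := height H (M := M) (g := g) hX n2.1 n3 hj i1
    (T3.mono fun k a => ⟨a.1, a.2.2.2.1⟩)
  refine contra H n2 (g3 M.C _ _ M.ok ok (n1 ok) o1 o2) (fun _ => rfl) ?_ κ0
    ((T3.and hκ).mono fun k a => ⟨a.1.1, a.1.2.2.1, a.2, a.1.2.2.2.2.2⟩) T4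
  filter_upwards [bg, eventually_all.2 rg] with k ⟨i, hi⟩ a1
  have pe := fun z hz => pv _ (on (M := M) (k := k) (sb k hz)) (key k z hz).1
  refine ⟨fun z hz => ?_, i, ?_⟩
  · obtain ⟨b1, b2, -⟩ := pt_eq (θ := γ) a1 (sb k hz) fun i => (pe z hz i).1
    refine ⟨ball_subset_ball (hF k).2.2.2.1 hz, b1, ?_⟩
    convert (key k z hz).2.1 using 1
    exact funext fun i => (b2 i).self_of_nhds.trans (pe z hz i).2
  · rwa [((pt_eq (θ := γ) a1 (mem_ball_self one_pos) a1).2.1 i).deriv_eq]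

end Kob

theorem kobS : KobStmt := by
  intro n U T e K _ _ z hT h0 z0 hz h2 h4 hE
  obtain ⟨n', W, z', pr, k, m, E, f, h4⟩ := h4
  obtain rfl : k = 2 := Nat.cast_injective (R := Cardinal) (h4.2.2.1.symm.trans h2)
  obtain ⟨j, j0⟩ := Function.ne_iff.1 z0
  obtain ⟨H, a, H1, H2, H3⟩ := Kob.generic H4.all (Kob.setupE R1.lapRule)
    ⟨n, n', m, U, z, W, z', pr, E, f, hz, h4⟩ hT h0 hE j0
  have hh := H1.mul (isHomogeneous_X ℂ j)
  refine ⟨{P | eval P.rep (H * X j) = 0}, ⟨{H * X j}, by simpa using ⟨_, hh⟩, by simp⟩,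
    fun hs => ?_, ?_⟩
  · exact mul_ne_zero H2 j0 (by simpa using (hz.1 _ _ hh).2 hs)
  have key : ∀ P : PS n, eval P.rep (H * X j) ≠ 0 →
      P.rep j ≠ 0 ∧ Good2 U j (nrm j P.rep) := fun P h => by
    rw [map_mul, eval_X, mul_ne_zero_iff] at h
    refine ⟨h.2, H3 _ ?_⟩
    rw [nrm, eval_smul_hom H1]
    exact mul_ne_zero (pow_ne_zero _ (inv_ne_zero h.2)) h.1
  intro P _ Q _ hPQ hΔ
  rcases not_and_or.1 hΔ with h | h
  · exact (kob_pos2 (key P h).1 (key P h).2 hPQ).1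
  · exact (kob_pos2 (key Q h).1 (key Q h).2 hPQ.symm).2

end Pool.Agent.MP_c69980_ag.G2
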