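import Pool.Agent.MP_c69980_ag.G2.Base
import Pool.Agent.MP_c69980_ag.H60.Disc2

/-!
Selection of a scale at which a holomorphic function is almost linear.
-/

set_option autoImplicit false

noncomputable section

namespace Pool.Agent.MP_c69980_ag.G2

open Metric Filter Topology MeasureTheory Set
open scoped ENNReal
open H60 H4

namespace Sel

/-- Counting zeros. -/
lemma zeros {f : ℂ → ℂ} {c : ℂ} {N : ℕ} (hf : DifferentiableOn ℂ f (ball 0 4)) (hc : ‖c‖ < 1)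
    (h1 : 1 ≤ ‖f c‖) (hM : ∀ z ∈ ball (0 : ℂ) 4, ‖f z‖ ≤ 2 ^ N) :
    ∃ Z : Finset ℂ, (Z.card : ℝ) ≤ 4 * N ∧ ∀ z ∈ ball (0 : ℂ) (3 / 2), f z = 0 → z ∈ Z := by
  have ha := hf.analyticOnNhd isOpen_ball
  have h0 : f c ≠ 0 := norm_pos_iff.1 (by linarith)
  have s3 : closedBall c |(3 : ℝ)| ⊆ ball 0 4 := by
    rw [abs_of_pos (by norm_num)]
    exact closedBall_subset_ball' (by rw [dist_zero_right]; linarith)
  have s2 : closedBall c |(5 / 2 : ℝ)| ⊆ ball 0 4 := by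
    rw [abs_of_pos (by norm_num)]
    exact closedBall_subset_ball' (by rw [dist_zero_right]; linarith)
  have hb := AnalyticOnNhd.sum_divisor_le (c := c) (r := 5 / 2) (R := 3) (M := 2 ^ N)
    (by norm_num) (by norm_num) (one_le_pow₀ one_le_two) (ha.mono s3) h0
    fun z hz => hM z (s3 (sphere_subset_closedBall hz))
  have hfin := (MeromorphicOn.divisor f (closedBall c |(5 / 2 : ℝ)|)).finiteSupport
    (isCompact_closedBall _ _)
  refine ⟨hfin.toFinset, le_trans ?_ (hb.trans ?_), fun z hz e => ?_⟩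
  · rw [finsum_eq_sum_of_support_subset _ (s := hfin.toFinset) (by simp)]
    have h2 : (hfin.toFinset.card : ℤ) ≤
        ∑ u ∈ hfin.toFinset, MeromorphicOn.divisor f (closedBall c |(5 / 2 : ℝ)|) u := by
      rw [Finset.card_eq_sum_ones]
      push_cast
      refine Finset.sum_le_sum fun u hu => ?_
      exact lt_of_le_of_ne (MeromorphicOn.AnalyticOnNhd.divisor_nonneg (ha.mono s2) u) (Ne.symm (hfin.mem_toFinset.1 hu))
    exact_mod_cast h2
  · have h2 : Real.log 2 ≤ 4 * Real.log (3 / (5 / 2)) := by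
      have h3 := Real.log_le_log (x := 2) (y := (3 / (5 / 2)) ^ 4) two_pos (by norm_num)
      rw [Real.log_pow] at h3
      exact_mod_cast h3
    have h3 : 0 < Real.log (3 / (5 / 2)) := Real.log_pos (by norm_num)
    have h4 : Real.log (2 ^ N / ‖f c‖) ≤ N * Real.log 2 := by
      rw [← Real.log_pow]
      exact Real.log_le_log (by positivity) (div_le_self (by positivity) h1)
    rw [div_le_iff₀ h3]
    have h5 := mul_le_mul_of_nonneg_left h2 (Nat.cast_nonneg (α := ℝ) N)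
    linarith
  · have hz' : z ∈ closedBall c |(5 / 2 : ℝ)| := by
      rw [abs_of_pos (by norm_num), mem_closedBall, dist_eq_norm]
      have := norm_sub_le z c
      have := mem_ball_zero_iff.1 hz
      linarith
    have hc' : c ∈ ball (0 : ℂ) 4 := mem_ball_zero_iff.2 (by linarith)
    have h2 : analyticOrderAt f z ≠ ⊤ :=
      ha.analyticOrderAt_ne_top_of_isPreconnected (convex_ball _ _).isPreconnected hc' (s2 hz')
        (by rw [(ha c hc').analyticOrderAt_eq_zero.2 h0]; simp)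
    have h3 : analyticOrderAt f z ≠ 0 := (ha z (s2 hz')).analyticOrderAt_ne_zero.2 e
    obtain ⟨n, hn⟩ := ENat.ne_top_iff_exists.1 h2
    rw [hfin.mem_toFinset]
    change MeromorphicOn.divisor f _ z ≠ 0
    rw [MeromorphicOn.AnalyticOnNhd.divisor_apply (ha.mono s2) hz', ← hn]
    rw [← hn] at h3
    simpa using h3

/-- A function without zeros on a large disc is almost constant on a smaller disc. -/
lemma flat {f : ℂ → ℂ} {T L δ : ℝ} {N : ℕ} (hf : DifferentiableOn ℂ f (ball 0 T))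
    (h0 : ∀ w ∈ ball (0 : ℂ) T, f w ≠ 0) (h1 : 1 ≤ ‖f 0‖) (hM : ∀ w ∈ ball (0 : ℂ) T, ‖f w‖ ≤ 2 ^ N)
    (hL : 0 < L) (hδ : 0 < δ) (hδ1 : δ ≤ 1) (hT : 2 * (N + 1) * L ≤ δ * (T - L)) {w : ℂ}
    (hw : ‖w‖ < L) : ‖f w - f 0‖ ≤ 2 * δ * ‖f 0‖ := by
  have hTL : 0 < T - L :=
    (mul_pos_iff_of_pos_left hδ).1 (lt_of_lt_of_le (by positivity) hT)
  obtain ⟨g, g1, g2, g3⟩ := exists_log (by linarith : 0 < T) hf h0
  have hwT : w ∈ ball (0 : ℂ) T := mem_ball_zero_iff.2 (by linarith)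
  have h2 := Complex.borelCaratheodory_zero (M := N + 1) (by positivity) g1 (fun x hx => by
    have h3 := hM x hx
    rw [g3 x hx, norm_mul, Complex.norm_exp] at h3
    have h4 : Real.exp (g x).re ≤ Real.exp N := by
      have h5 : (2 : ℝ) ^ N ≤ Real.exp 1 ^ N :=
        pow_le_pow_left₀ zero_le_two (by linarith [Real.add_one_le_exp 1]) N
      rw [← Real.exp_nat_mul, mul_one] at h5
      nlinarith [Real.exp_pos (g x).re]
    have h6 := Real.exp_le_exp.1 h4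
    change (g x).re ≤ _
    linarith) (by linarith) hwT g2
  have h3 : ‖g w‖ ≤ δ := by
    refine h2.trans ?_
    rw [div_le_iff₀ (by linarith)]
    have h4 : 2 * ((N : ℝ) + 1) * ‖w‖ ≤ 2 * (N + 1) * L :=
      mul_le_mul_of_nonneg_left hw.le (by positivity)
    have h5 : δ * (T - L) ≤ δ * (T - ‖w‖) := mul_le_mul_of_nonneg_left (by linarith) hδ.le
    linarith
  have h4 := Complex.norm_exp_sub_one_le (h3.trans hδ1)
  rw [g3 w hwT, ← mul_sub_one, norm_mul, mul_comm]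
  exact mul_le_mul_of_nonneg_right (by linarith) (norm_nonneg _)

lemma vol_ball (c : ℂ) {r : ℝ} (hr : 0 ≤ r) : volume (ball c r) ≤ ENNReal.ofReal (4 * r ^ 2) := by
  rw [Complex.volume_ball, ← ENNReal.ofReal_pow hr, ← ENNReal.ofReal_coe_nnreal,
    ← ENNReal.ofReal_mul (by positivity), mul_comm]
  exact ENNReal.ofReal_le_ofReal (mul_le_mul_of_nonneg_right Real.pi_le_four (by positivity))

/-- One scale. -/
lemma scale {h : ℂ → ℂ} {S : Set ℂ} {η ρ T L δ : ℝ} {N : ℕ} (hη : 0 < η) (hρ : 0 < ρ)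
    (hh : DifferentiableOn ℂ h (ball 0 4)) (hS : S ⊆ ball 0 1) (hL : 0 < L) (hδ : 0 < δ)
    (hδ1 : δ ≤ 1) (hT : 2 * (N + 1) * L ≤ δ * (T - L)) (hTρ : T * ρ ≤ 1 / 2)
    (hb : ∀ z ∈ ball (0 : ℂ) 4, ‖ρ * deriv h z‖ + 2 * η ≤ 2 ^ N * η)
    (hs : ∀ z ∈ S, ‖ρ * deriv h z‖ ≤ η) :
    (∃ z ∈ S, ∀ w : ℂ, ‖w‖ < L → ‖h (z + ρ * w) - h z - ρ * deriv h z * w‖ ≤ 6 * η * δ * L) ∨
      volume (⋃ z ∈ S, ball z (ρ / 2)) ≤ ENNReal.ofReal (4 * N * (4 * ((T + 1) * ρ) ^ 2)) := by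
  have hTL : 0 < T - L :=
    (mul_pos_iff_of_pos_left hδ).1 (lt_of_lt_of_le (by positivity) hT)
  have hT0 : 0 < T := by linarith
  obtain ⟨f, hf⟩ : ∃ f : ℂ → ℂ, f = fun z => (ρ * deriv h z - 2 * η) / η := ⟨_, rfl⟩
  have hη' : (η : ℂ) ≠ 0 := by exact_mod_cast hη.ne'
  have n2 : ‖(2 * η : ℂ)‖ = 2 * η := by
    rw [norm_mul, Complex.norm_real, Real.norm_of_nonneg hη.le, Complex.norm_two]
  have nf : ∀ z, ‖f z‖ = ‖ρ * deriv h z - 2 * η‖ / η := fun z => by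
    rw [hf, norm_div, Complex.norm_real, Real.norm_of_nonneg hη.le]
  have f1 : DifferentiableOn ℂ f (ball 0 4) := by
    rw [hf]
    exact (((hh.deriv isOpen_ball).const_mul _).sub_const _).div_const _
  have f2 : ∀ z ∈ ball (0 : ℂ) 4, ‖f z‖ ≤ 2 ^ N := fun z hz => by
    rw [nf, div_le_iff₀ hη]
    have := norm_sub_le (ρ * deriv h z) (2 * η : ℂ)
    linarith [hb z hz]
  have f3 : ∀ z ∈ S, 1 ≤ ‖f z‖ ∧ ‖f z‖ ≤ 3 := fun z hz => by
    rw [nf, div_le_iff₀ hη, le_div_iff₀ hη]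
    have h1 := norm_sub_le (ρ * deriv h z) (2 * η : ℂ)
    have h2 := norm_sub_norm_le (2 * η : ℂ) (ρ * deriv h z)
    rw [norm_sub_rev] at h2
    constructor <;> linarith [hs z hz]
  have mem : ∀ z ∈ S, ∀ w : ℂ, ‖w‖ < T → ‖z + ρ * w‖ < 3 / 2 := fun z hz w hw => by
    have h1 := norm_add_le z (ρ * w)
    rw [norm_mul, Complex.norm_real, Real.norm_of_nonneg hρ.le] at h1
    have h2 := mem_ball_zero_iff.1 (hS hz)
    have h3 := mul_le_mul_of_nonneg_left hw.le hρ.le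
    linarith
  have mem4 : ∀ z ∈ S, ∀ w : ℂ, ‖w‖ < T → z + ρ * w ∈ ball (0 : ℂ) 4 := fun z hz w hw =>
    mem_ball_zero_iff.2 (by linarith [mem z hz w hw])
  by_cases hz : ∀ z ∈ S, ∃ w ∈ ball (0 : ℂ) T, f (z + ρ * w) = 0
  · right
    rcases S.eq_empty_or_nonempty with rfl | ⟨c, hc⟩
    · simp
    obtain ⟨Z, z1, z2⟩ := zeros f1 (mem_ball_zero_iff.1 (hS hc)) (f3 c hc).1 f2
    have h1 : (⋃ z ∈ S, ball z (ρ / 2)) ⊆ ⋃ ζ ∈ Z, ball ζ ((T + 1) * ρ) := by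
      refine iUnion₂_subset fun z hzS => ?_
      obtain ⟨w, hw, e⟩ := hz z hzS
      have hw' := mem_ball_zero_iff.1 hw
      refine subset_iUnion₂_of_subset _ (z2 _ (mem_ball_zero_iff.2 (mem z hzS w hw')) e)
        (ball_subset_ball' ?_)
      rw [dist_self_add_right, norm_mul, Complex.norm_real, Real.norm_of_nonneg hρ.le]
      nlinarith
    refine (measure_mono h1).trans ((measure_biUnion_finset_le _ _).trans ?_)
    refine (Finset.sum_le_card_nsmul _ _ _ fun ζ _ => vol_ball ζ (by positivity)).trans ?_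
    rw [nsmul_eq_mul, ← ENNReal.ofReal_natCast, ← ENNReal.ofReal_mul (Nat.cast_nonneg _)]
    exact ENNReal.ofReal_le_ofReal (mul_le_mul_of_nonneg_right z1 (by positivity))
  · left
    push Not at hz
    obtain ⟨z, hzS, h0⟩ := hz
    refine ⟨z, hzS, fun w hw => ?_⟩
    have d1 : DifferentiableOn ℂ (fun w => f (z + ρ * w)) (ball 0 T) :=
      f1.comp (by fun_prop) fun x hx => mem4 z hzS x (mem_ball_zero_iff.1 hx)
    have h1 : ∀ x ∈ ball (0 : ℂ) L, ‖deriv h (z + ρ * x) * ρ - ρ * deriv h z‖ ≤ 6 * η * δ := by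
      intro x hx
      have h2 := flat d1 h0 (by simpa using (f3 z hzS).1)
        (fun y hy => f2 _ (mem4 z hzS y (mem_ball_zero_iff.1 hy))) hL hδ hδ1 hT
        (mem_ball_zero_iff.1 hx)
      simp only [mul_zero, add_zero] at h2
      have h3 : deriv h (z + ρ * x) * ρ - ρ * deriv h z = η * (f (z + ρ * x) - f z) := by
        rw [hf]; field_simp; ring
      rw [h3, norm_mul, Complex.norm_real, Real.norm_of_nonneg hη.le]
      have h4 := mul_le_mul_of_nonneg_left (f3 z hzS).2 (by positivity : 0 ≤ 2 * δ)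
      have h5 := mul_le_mul_of_nonneg_left (h2.trans h4) hη.le
      linarith
    have h2 := (convex_ball (0 : ℂ) L).norm_image_sub_le_of_norm_hasDerivWithin_le
      (f := fun x => h (z + ρ * x) - ρ * deriv h z * x)
      (f' := fun x => deriv h (z + ρ * x) * ρ - ρ * deriv h z) (fun x hx => by
        have h3 := (hh.differentiableAt (isOpen_ball.mem_nhds
          (mem4 z hzS x (by linarith [mem_ball_zero_iff.1 hx])))).hasDerivAt
        have h4 : HasDerivAt (fun x : ℂ => z + ρ * x) ρ x := by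
          simpa using ((hasDerivAt_id x).const_mul (ρ : ℂ)).const_add z
        have h5 : HasDerivAt (fun x : ℂ => ρ * deriv h z * x) (ρ * deriv h z) x := by
          simpa using (hasDerivAt_id x).const_mul (ρ * deriv h z)
        exact ((h3.comp x h4).sub h5).hasDerivWithinAt) h1 (mem_ball_self hL)
      (mem_ball_zero_iff.2 hw)
    simp only [mul_zero, add_zero, sub_zero] at h2
    have h3 := mul_le_mul_of_nonneg_left hw.le (by positivity : 0 ≤ 6 * η * δ)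
    rw [sub_right_comm]
    linarith

/-- All scales. -/
lemma core {η A L δ : ℝ} (hη : 0 < η) (hA : 0 < A) (hL : 1 ≤ L) (hδ : 0 < δ) (hδ1 : δ ≤ 1) :
    ∃ C : ℝ, 0 < C ∧ ∀ (J : ℕ) (m : ℝ) (ν : ℂ → ℝ) (h : ℂ → ℂ) (S : Set ℂ), A * m ^ 2 ≤ η * 2 ^ J →
      C * ((J : ℝ) + 3) ^ 4 < m → DifferentiableOn ℂ h (ball 0 4) → S ⊆ ball 0 1 →
      ENNReal.ofReal m ≤ mu ν S → (∀ z ∈ ball (0 : ℂ) 4, ‖deriv h z‖ ≤ A * m ^ 2) →
      (∀ z ∈ S, ∀ r : ℝ, 0 < r → r ≤ 1 → (∀ w ∈ ball z r, ‖h w - h z‖ ≤ η) →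
        ∀ w ∈ ball z (r / 2), ν w * r ^ 2 ≤ A) →
      ∃ z ∈ S, ∃ ρ : ℝ, 0 < ρ ∧ ρ ≤ δ ∧ ‖ρ * deriv h z‖ ≤ η ∧
        (∀ w : ℂ, ‖w‖ < L → ‖h (z + ρ * w) - h z - ρ * deriv h z * w‖ ≤ 6 * η * δ * L) ∧
        ∃ w : ℂ, ‖w‖ < 2 ∧ η < ‖h (z + ρ * w) - h z‖ := by
  obtain ⟨K, hK⟩ : ∃ K : ℝ, K = L + 2 * L / δ + 1 := ⟨_, rfl⟩
  have K0 : 0 < K := by rw [hK]; positivity
  refine ⟨A * (64 * K ^ 2), by positivity, fun J m ν h S h1 h2 hh hS hm hd hν => ?_⟩
  by_contra hcon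
  have J0 : (0 : ℝ) ≤ J := Nat.cast_nonneg J
  obtain ⟨T, hT⟩ : ∃ T : ℝ, T = L + 2 * L / δ * (J + 3) := ⟨_, rfl⟩
  have q0 : 0 < 2 * L / δ := by positivity
  have T1 : T + 1 ≤ K * (J + 3) := by rw [hT, hK]; nlinarith
  have T2 : δ * (T - L) = 2 * (J + 3) * L := by rw [hT]; field_simp; ring
  have T3 : 1 ≤ T := by rw [hT]; nlinarith
  obtain ⟨B, hB⟩ : ∃ B : ℝ, B = 64 * K ^ 2 * (J + 3) ^ 3 := ⟨_, rfl⟩
  have B0 : 0 < B := by rw [hB]; positivity
  obtain ⟨G, hG⟩ : ∃ G : ℂ → ℕ → Prop,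
    G = fun z j => ∀ w ∈ ball z ((1 / 2 : ℝ) ^ j), ‖h w - h z‖ ≤ η := ⟨_, rfl⟩
  have r0 : ∀ j : ℕ, 0 < (1 / 2 : ℝ) ^ j := fun j => by positivity
  have r1 : ∀ j : ℕ, (1 / 2 : ℝ) ^ j ≤ 1 := fun j => pow_le_one₀ (by norm_num) (by norm_num)
  have sub : ∀ z ∈ S, ∀ r : ℝ, r ≤ 1 → ball z r ⊆ ball 0 2 := fun z hz r hr =>
    ball_subset_ball' (by linarith [mem_ball.1 (hS hz)])
  have s24 : ball (0 : ℂ) 2 ⊆ ball 0 4 := ball_subset_ball (by norm_num)
  have GJ : ∀ z ∈ S, G z J := fun z hz => by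
    rw [hG]
    intro w hw
    have h3 := (convex_ball (0 : ℂ) 4).norm_image_sub_le_of_norm_deriv_le
      (fun x hx => hh.differentiableAt (isOpen_ball.mem_nhds hx)) hd
      (s24 (sub z hz 1 le_rfl (mem_ball_self one_pos))) (s24 (sub z hz _ (r1 J) hw))
    have h4 : ‖w - z‖ ≤ (1 / 2 : ℝ) ^ J := (mem_ball_iff_norm.1 hw).le
    have h5 := mul_le_mul h1 h4 (norm_nonneg _) (by positivity)
    rw [mul_assoc η, ← mul_pow] at h5
    norm_num at h5
    linarith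
  obtain ⟨P, hP⟩ : ∃ P : ℕ → Set ℂ,
    P = fun j => {z ∈ S | G z j ∧ ∀ i, j = i + 1 → ¬G z i} := ⟨_, rfl⟩
  have mP : ∀ j z, z ∈ P j ↔ z ∈ S ∧ G z j ∧ ∀ i, j = i + 1 → ¬G z i := fun j z => by
    rw [hP]; rfl
  have cov : S ⊆ ⋃ j : Fin (J + 1), ⋃ z ∈ P j, ball z ((1 / 2 : ℝ) ^ (j : ℕ) / 2) := by
    classical
    intro z hz
    have ex : ∃ j, G z j := ⟨J, GJ z hz⟩
    refine mem_iUnion.2 ⟨⟨Nat.find ex, Nat.lt_succ_of_le (Nat.find_min' ex (GJ z hz))⟩,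
      mem_iUnion₂.2 ⟨z, (mP _ _).2 ⟨hz, Nat.find_spec ex, fun i hi => Nat.find_min ex ?_⟩,
        mem_ball_self (by positivity)⟩⟩
    change Nat.find ex = i + 1 at hi
    omega
  have vol : ∀ j : ℕ, volume (⋃ z ∈ P j, ball z ((1 / 2 : ℝ) ^ j / 2)) ≤
      ENNReal.ofReal (B * ((1 / 2 : ℝ) ^ j) ^ 2) := by
    intro j
    have p0 := r0 j
    have p1 := r1 j
    have t1 : ((T + 1) * (1 / 2 : ℝ) ^ j) ^ 2 ≤ (K * (J + 3) * (1 / 2 : ℝ) ^ j) ^ 2 :=
      pow_le_pow_left₀ (by positivity) (mul_le_mul_of_nonneg_right T1 p0.le) 2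
    have t2 : B * ((1 / 2 : ℝ) ^ j) ^ 2 =
        64 * (J + 3) * (K * (J + 3) * (1 / 2 : ℝ) ^ j) ^ 2 := by rw [hB]; ring
    have t3 := sq_nonneg (K * (J + 3) * (1 / 2 : ℝ) ^ j)
    rw [t2]
    by_cases c1 : T * (1 / 2 : ℝ) ^ j ≤ 1 / 2
    · have hs : ∀ z ∈ P j, ‖((1 / 2 : ℝ) ^ j : ℝ) * deriv h z‖ ≤ η := fun z hz => by
        obtain ⟨a1, a2, -⟩ := (mP _ _).1 hz
        rw [hG] at a2
        have a3 := Complex.norm_deriv_le_div_of_mapsTo_ball
          (hh.mono ((sub z a1 _ p1).trans s24))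
          (fun w hw => mem_closedBall_iff_norm.2 (a2 w hw)) p0
        rw [le_div_iff₀ p0] at a3
        rw [norm_mul, Complex.norm_real, Real.norm_of_nonneg p0.le, mul_comm]
        exact a3
      rcases scale (N := J + 2) (S := P j) hη p0 hh (fun z hz => hS ((mP _ _).1 hz).1)
        (by linarith : 0 < L) hδ hδ1 (T := T) (by rw [T2]; push_cast; linarith) c1
        (fun z hz => by
          rw [norm_mul, Complex.norm_real, Real.norm_of_nonneg p0.le]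
          have a1 := mul_le_mul p1 ((hd z hz).trans h1) (norm_nonneg _) zero_le_one
          have a2 : (1 : ℝ) ≤ 2 ^ J := one_le_pow₀ one_le_two
          have a3 := mul_le_mul_of_nonneg_left a2 hη.le
          rw [pow_add]
          linarith) hs with ⟨z, hz, a1⟩ | a1
      · obtain ⟨b1, -, b3⟩ := (mP _ _).1 hz
        refine (hcon ⟨z, b1, _, p0, ?_, hs z hz, a1, ?_⟩).elim
        · have b4 := mul_le_mul_of_nonneg_left c1 hδ.le
          have b5 : 1 ≤ δ * T := by nlinarith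
          have b6 := mul_le_mul_of_nonneg_right b5 p0.le
          linarith
        · rcases j with _ | i
          · rw [pow_zero] at c1; linarith
          · have b4 := b3 i rfl
            rw [hG] at b4
            push Not at b4
            obtain ⟨w, b5, b6⟩ := b4
            have b7 : (((1 / 2 : ℝ) ^ (i + 1) : ℝ) : ℂ) ≠ 0 := by exact_mod_cast p0.ne'
            refine ⟨(w - z) / ((1 / 2 : ℝ) ^ (i + 1) : ℝ), ?_, ?_⟩
            · rw [norm_div, Complex.norm_real, Real.norm_of_nonneg p0.le, div_lt_iff₀ p0, pow_succ]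
              linarith [mem_ball_iff_norm.1 b5]
            · rwa [mul_div_cancel₀ _ b7, add_sub_cancel]
      · refine a1.trans (ENNReal.ofReal_le_ofReal ?_)
        push_cast
        have a2 := mul_le_mul_of_nonneg_left t1 (by positivity : (0 : ℝ) ≤ 16 * (J + 2))
        nlinarith
    · refine (measure_mono (iUnion₂_subset fun z hz =>
        sub z ((mP _ _).1 hz).1 _ (by linarith))).trans ((vol_ball 0 zero_le_two).trans
          (ENNReal.ofReal_le_ofReal ?_))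
      have a1 : (1 / 2 : ℝ) ^ 2 ≤ ((T + 1) * (1 / 2 : ℝ) ^ j) ^ 2 :=
        pow_le_pow_left₀ (by norm_num) (by linarith [not_le.1 c1]) 2
      nlinarith
  have mas : ∀ j : ℕ, ∫⁻ x in ⋃ z ∈ P j, ball z ((1 / 2 : ℝ) ^ j / 2), ENNReal.ofReal (ν x) ≤
      ENNReal.ofReal (A * B) := by
    intro j
    have p0 := r0 j
    refine (setLIntegral_mono' (g := fun _ => ENNReal.ofReal (A / ((1 / 2 : ℝ) ^ j) ^ 2))
      (isOpen_biUnion fun _ _ => isOpen_ball).measurableSet fun x hx => ?_).trans ?_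
    · obtain ⟨z, hz, hx⟩ := mem_iUnion₂.1 hx
      obtain ⟨a1, a2, -⟩ := (mP _ _).1 hz
      rw [hG] at a2
      exact ENNReal.ofReal_le_ofReal
        ((le_div_iff₀ (by positivity)).2 (hν z a1 _ p0 (r1 j) a2 x hx))
    · rw [setLIntegral_const]
      refine (mul_le_mul_right (vol j) _).trans (le_of_eq ?_)
      rw [← ENNReal.ofReal_mul (by positivity)]
      congr 1
      field_simp
  have h3 := hm.trans ((lintegral_mono_set cov).trans (lintegral_iUnion_le _ _))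
  rw [tsum_fintype] at h3
  have h4 := h3.trans (Finset.sum_le_card_nsmul _ _ _ fun j _ => mas j)
  rw [Finset.card_univ, Fintype.card_fin, nsmul_eq_mul, ← ENNReal.ofReal_natCast,
    ← ENNReal.ofReal_mul (Nat.cast_nonneg _), ENNReal.ofReal_le_ofReal_iff (by positivity)] at h4
  push_cast at h4
  have h5 : ((J : ℝ) + 3) * (A * B) = A * (64 * K ^ 2) * (J + 3) ^ 4 := by rw [hB]; ring
  nlinarith [mul_pos hA B0]

/-- The number of scales is logarithmic. -/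
lemma exJ {η A C : ℝ} (hη : 0 < η) (hA : 0 < A) (hC : 0 < C) :
    ∀ᶠ m : ℝ in atTop, ∃ J : ℕ, A * m ^ 2 ≤ η * 2 ^ J ∧ C * ((J : ℝ) + 4) ^ 4 < m := by
  have h1 := (tendsto_pow_const_div_const_pow_of_one_lt 8 (one_lt_two (α := ℝ))).eventually
    (gt_mem_nhds (show 0 < η / (A * C ^ 2 * 6 ^ 8) by positivity))
  obtain ⟨I, hI⟩ := eventually_atTop.1 (h1.and (eventually_ge_atTop 1))
  filter_upwards [eventually_gt_atTop (C * ((I : ℝ) + 4) ^ 4), eventually_gt_atTop 0] with m m1 m0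
  have ex : ∃ J : ℕ, A * m ^ 2 ≤ η * 2 ^ J := by
    obtain ⟨J, hJ⟩ := pow_unbounded_of_one_lt (A * m ^ 2 / η) (one_lt_two (α := ℝ))
    rw [div_lt_iff₀ hη] at hJ
    exact ⟨J, by linarith⟩
  classical
  refine ⟨Nat.find ex, Nat.find_spec ex, ?_⟩
  rcases le_or_gt (Nat.find ex) I with c | c
  · have : ((Nat.find ex : ℕ) : ℝ) ≤ I := by exact_mod_cast c
    refine lt_of_le_of_lt ?_ m1
    gcongr
  · obtain ⟨i, hi⟩ : ∃ i, Nat.find ex = i + 1 := ⟨Nat.find ex - 1, by omega⟩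
    have a1 := not_le.1 (Nat.find_min ex (show i < Nat.find ex by omega))
    obtain ⟨a2, a3⟩ := hI i (by omega)
    have a4 : (1 : ℝ) ≤ i := by exact_mod_cast a3
    rw [div_lt_div_iff₀ (by positivity) (by positivity)] at a2
    rw [hi]
    have a5 : C * (((i + 1 : ℕ) : ℝ) + 4) ^ 4 ≤ C * (6 * i) ^ 4 := by
      push_cast
      gcongr
      linarith
    refine a5.trans_lt (lt_of_pow_lt_pow_left₀ 2 m0.le (lt_of_mul_lt_mul_left ?_ hA.le))
    calc A * (C * (6 * (i : ℝ)) ^ 4) ^ 2 = (i : ℝ) ^ 8 * (A * C ^ 2 * 6 ^ 8) := by ring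
      _ < A * m ^ 2 := a2.trans a1

end Sel

theorem sel : SelStmt := by
  intro ν h S m η A hη hm H u hu
  classical
  obtain ⟨P, hP⟩ : ∃ P : ℕ → ℕ → ℂ → ℝ → Prop,
    P = fun (k n : ℕ) (z : ℂ) (ρ : ℝ) => z ∈ S k ∧
    ρ ≤ 1 / ((n : ℝ) + 1) ^ 2 ∧ ‖ρ * deriv (h k) z‖ ≤ η ∧
    (∀ w : ℂ, ‖w‖ < (n : ℝ) + 1 → ‖h k (z + ρ * w) - h k z - ρ * deriv (h k) z * w‖ ≤
      6 * η * (1 / ((n : ℝ) + 1) ^ 2) * ((n : ℝ) + 1)) ∧
    ∃ w : ℂ, ‖w‖ < 2 ∧ η < ‖h k (z + ρ * w) - h k z‖ := ⟨_, rfl⟩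
  have h1 : ∀ n : ℕ, ∀ᶠ k in atTop, ∃ z ρ, 0 < ρ ∧ P k n z ρ := by
    intro n
    have n0 : (0 : ℝ) ≤ n := Nat.cast_nonneg n
    have A0 : 0 < max A 1 := lt_max_of_lt_right one_pos
    obtain ⟨C, C0, hC⟩ := Sel.core (L := (n : ℝ) + 1) (δ := 1 / ((n : ℝ) + 1) ^ 2) hη A0
      (by linarith) (by positivity) (by rw [div_le_one (by positivity)]; nlinarith)
    filter_upwards [H, hm.eventually (Sel.exJ hη A0 C0)] with k ⟨a1, a2, a3, a4, a5⟩ ⟨J, b1, b2⟩
    obtain ⟨z, c1, ρ, c2, c3⟩ := hC J (m k) (ν k) (h k) (S k) b1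
      (lt_of_le_of_lt (by gcongr; norm_num) b2) a1 a2 a3
      (fun z hz => (a4 z hz).trans (mul_le_mul_of_nonneg_right (le_max_left _ _) (sq_nonneg _)))
      fun z hz r r0 r1 hr w hw => (a5 z hz r r0 r1 hr w hw).trans (le_max_left _ _)
    exact ⟨z, ρ, c2, by rw [hP]; exact ⟨c1, c3⟩⟩
  obtain ⟨n, hn⟩ : ∃ n : ℕ → ℕ,
    n = fun k => Nat.findGreatest (fun n => ∃ z ρ, 0 < ρ ∧ P k n z ρ) k := ⟨_, rfl⟩
  have h2 : Tendsto n atTop atTop := tendsto_atTop.2 fun N => by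
    filter_upwards [h1 N, eventually_ge_atTop N] with k a1 a2
    rw [hn]
    exact Nat.le_findGreatest a2 a1
  have h3 : ∀ k, ∃ z ρ, 0 < ρ ∧ ((∃ z ρ, 0 < ρ ∧ P k 0 z ρ) → P k (n k) z ρ) := fun k => by
    by_cases c : ∃ z ρ, 0 < ρ ∧ P k 0 z ρ
    · obtain ⟨z, ρ, a1, a2⟩ := Nat.findGreatest_spec (P := fun n => ∃ z ρ, 0 < ρ ∧ P k n z ρ)
        (Nat.zero_le k) c
      exact ⟨z, ρ, a1, fun _ => by rw [hn]; exact a2⟩
    · exact ⟨0, 1, one_pos, fun a => (c a).elim⟩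
  choose z ρ ρ0 h4 using h3
  have h5 : ∀ᶠ k in (u : Filter ℕ), P k (n k) (z k) (ρ k) := hu ((h1 0).mono h4)
  rw [hP] at h5
  have h6 : Tendsto (fun k => 1 / ((n k : ℝ) + 1)) u (𝓝 0) :=
    (tendsto_one_div_add_atTop_nhds_zero_nat.comp h2).mono_left hu
  have h7 : Tendsto (fun k => (n k : ℝ)) u atTop :=
    (tendsto_natCast_atTop_atTop.comp h2).mono_left hu
  obtain ⟨c, -, hc⟩ := (isCompact_closedBall (0 : ℂ) η).ultrafilter_le_nhds
    (u.map fun k => ρ k * deriv (h k) (z k))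
    (le_principal_iff.2 (h5.mono fun k a => mem_closedBall_zero_iff.2 a.2.2.1))
  have hc' : Tendsto (fun k => ρ k * deriv (h k) (z k)) u (𝓝 c) := hc
  have h8 : ∀ R ε : ℝ, 0 < ε → ∀ᶠ k in (u : Filter ℕ), ∀ y : ℂ, ‖y‖ < R →
      dist (c * y) (h k (z k + ρ k * y) - h k (z k)) < ε := by
    intro R ε hε
    have a1 : Tendsto (fun k => 6 * η * (1 / ((n k : ℝ) + 1)) +
        ‖ρ k * deriv (h k) (z k) - c‖ * R) u (𝓝 (6 * η * 0 + 0 * R)) :=
      (h6.const_mul _).add ((tendsto_iff_norm_sub_tendsto_zero.1 hc').mul_const _)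
    rw [mul_zero, zero_mul, add_zero] at a1
    filter_upwards [h5, a1.eventually (gt_mem_nhds hε), h7.eventually_ge_atTop R] with k b1 b2 b3
      y hy
    have b4 := b1.2.2.2.1 y (by linarith)
    have b5 : 6 * η * (1 / ((n k : ℝ) + 1) ^ 2) * ((n k : ℝ) + 1) =
        6 * η * (1 / ((n k : ℝ) + 1)) := by field_simp
    have b6 := norm_add_le (h k (z k + ρ k * y) - h k (z k) - ρ k * deriv (h k) (z k) * y)
      ((ρ k * deriv (h k) (z k) - c) * y)
    have b7 := mul_le_mul_of_nonneg_left hy.le (norm_nonneg (ρ k * deriv (h k) (z k) - c))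
    rw [norm_mul, show h k (z k + ρ k * y) - h k (z k) - ρ k * deriv (h k) (z k) * y +
      (ρ k * deriv (h k) (z k) - c) * y = h k (z k + ρ k * y) - h k (z k) - c * y by ring] at b6
    rw [dist_comm, dist_eq_norm]
    linarith
  refine ⟨z, ρ, c, fun c0 => ?_, h5.mono fun k a => a.1, ρ0, ?_,
    Metric.tendstoLocallyUniformly_iff.2 fun ε hε x => ⟨ball 0 (‖x‖ + 1),
      isOpen_ball.mem_nhds (mem_ball_zero_iff.2 (lt_add_one _)),
      (h8 _ ε hε).mono fun k a y hy => a y (mem_ball_zero_iff.1 hy)⟩⟩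
  · obtain ⟨k, a1, a2⟩ := (h5.and (h8 2 η hη)).exists
    obtain ⟨w, b1, b2⟩ := a1.2.2.2.2
    have b3 := a2 w b1
    rw [c0, zero_mul, dist_zero_left] at b3
    linarith
  · refine squeeze_zero' (Eventually.of_forall fun k => (ρ0 k).le) (h5.mono fun k a => ?_) h6
    refine a.2.1.trans (one_div_le_one_div_of_le (by positivity) ?_)
    nlinarith [Nat.cast_nonneg (α := ℝ) (n k)]

end Pool.Agent.MP_c69980_ag.G2
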