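import Pool.Agent.MP_c69980_ag.G2.Base

/-!
The complement of two plane curves: critical values, lower bounds, divided differences.
-/

set_option autoImplicit false

noncomputable section

namespace Pool.Agent.MP_c69980_ag.G2

open MvPolynomial Metric Filter Topology Set
open H60 H4

namespace Alg

lemma gd_smul {P : PR 3} {a : ℕ} (h : P.IsHomogeneous a) (c : ℂ) (y : V3) :
    gd P (c • y) = c ^ (a - 1) • gd P y := by
  funext i
  simp only [gd, Pi.smul_apply, smul_eq_mul]
  exact eval_smul_hom h.pderiv c y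

lemma X_smul (D : Pr) (c : ℂ) (y : V3) : D.X (c • y) = c ^ (D.a + D.b - 2) • D.X y := by
  have h1 := D.a1
  have h2 := D.b1
  have e : D.a + D.b - 2 = (D.a - 1) + (D.b - 1) := by omega
  simp only [Pr.X, gd_smul D.hP, gd_smul D.hQ, map_smul, LinearMap.smul_apply, smul_smul]
  rw [e, pow_add, mul_comm]

lemma gd_cont (P : PR 3) : Continuous (gd P) :=
  continuous_pi fun i => MvPolynomial.continuous_eval (pderiv i P)

lemma X_cont (D : Pr) : Continuous D.X := by
  have h1 := gd_cont D.P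
  have h2 := gd_cont D.Q
  refine continuous_pi fun i => ?_
  fin_cases i <;> simp [Pr.X, cross_apply] <;> fun_prop

lemma unit {y : V3} (hy : y ≠ 0) : ‖((‖y‖ : ℂ)⁻¹ • y : V3)‖ = 1 := by
  rw [norm_smul, norm_inv, Complex.norm_real, norm_norm, inv_mul_cancel₀ (norm_ne_zero_iff.2 hy)]

lemma X_norm (D : Pr) {y : V3} (hy : y ≠ 0) :
    ‖D.X y‖ = ‖D.X ((‖y‖ : ℂ)⁻¹ • y)‖ * ‖y‖ ^ (D.a + D.b - 2) := by
  have h0 : ‖y‖ ≠ 0 := norm_ne_zero_iff.2 hy
  rw [X_smul, norm_smul, norm_pow, norm_inv, Complex.norm_real, norm_norm, inv_pow]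
  field_simp

/-- A polynomial takes finitely many values on a bounded algebraic set. -/
lemma fin_vals (S : Set V3) (hS : ∀ y, (∀ p : PR 3, (∀ z ∈ S, eval z p = 0) → eval y p = 0) → y ∈ S)
    (R : ℝ) (hR : ∀ y ∈ S, ‖y‖ ≤ R) (Q : PR 3) : ((fun y => eval y Q) '' S).Finite := by
  rcases S.eq_empty_or_nonempty with rfl | ⟨y₀, hy₀⟩
  · simp
  set I : Ideal (PR 3) := vanishingIdeal ℂ S with hI
  have hm : ∀ p : PR 3, p ∈ I ↔ ∀ z ∈ S, eval z p = 0 := fun p => Iff.rfl
  have hne : I ≠ ⊤ := fun e => by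
    have := (hm 1).1 (e ▸ Submodule.mem_top) y₀ hy₀
    simp at this
  have : Nontrivial (PR 3 ⧸ I) := Ideal.Quotient.nontrivial_iff.2 hne
  obtain ⟨s, g, ginj, gint⟩ := exists_integral_inj_algHom_of_fg ℂ (PR 3 ⧸ I)
  cases s with
  | zero =>
    obtain ⟨f, fm, hf⟩ := gint (Ideal.Quotient.mk I Q)
    let e : MvPolynomial (Fin 0) ℂ →ₐ[ℂ] ℂ := aeval fun i => i.elim0
    refine ((f.map (e : MvPolynomial (Fin 0) ℂ →+* ℂ)).roots.toFinset.finite_toSet).subset ?_
    rintro _ ⟨y, hy, rfl⟩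
    let ev : (PR 3 ⧸ I) →ₐ[ℂ] ℂ := Ideal.Quotient.liftₐ I (aeval y) fun p hp =>
      (hm p).1 hp y hy
    have h1 : ev.comp g = e := algHom_ext fun i => i.elim0
    have h2 := congrArg ev hf
    rw [map_zero, ← AlgHom.coe_toRingHom, Polynomial.hom_eval₂] at h2
    have h3 : (ev : (PR 3 ⧸ I) →+* ℂ).comp g.toRingHom = e := by rw [← h1]; rfl
    have h4 : (ev : (PR 3 ⧸ I) →+* ℂ) (Ideal.Quotient.mk I Q) = eval y Q := by
      simp [ev, coe_aeval_eq_eval]
    rw [h3, h4] at h2
    simp only [Finset.mem_coe, Multiset.mem_toFinset]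
    rw [Polynomial.mem_roots (fm.map _).ne_zero, Polynomial.IsRoot, Polynomial.eval_map]
    exact h2
  | succ s =>
    exfalso
    obtain ⟨p, hp⟩ := Ideal.Quotient.mk_surjective (g (X 0))
    obtain ⟨M, hM⟩ := (isCompact_closedBall (0 : V3) R).exists_bound_of_continuousOn
      (MvPolynomial.continuous_eval p).continuousOn
    let c : ℂ := ((|M| + 1 : ℝ) : ℂ)
    let := g.toRingHom.toAlgebra
    have : Algebra.IsIntegral (MvPolynomial (Fin (s + 1)) ℂ) (PR 3 ⧸ I) := ⟨gint⟩
    obtain ⟨J, hJ, hc⟩ := Ideal.exists_ideal_over_maximal_of_isIntegral (S := PR 3 ⧸ I)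
      (vanishingIdeal ℂ {fun _ : Fin (s + 1) => c}) (by
        intro x hx
        rw [show x = 0 from ginj (hx.trans (map_zero g).symm)]
        exact Ideal.zero_mem _)
    have hJ' : (J.comap (Ideal.Quotient.mk I)).IsMaximal :=
      Ideal.comap_isMaximal_of_surjective _ Ideal.Quotient.mk_surjective
    obtain ⟨y, hy⟩ := isMaximal_iff_eq_vanishingIdeal_singleton.1 hJ'
    have hv : ∀ q : PR 3, Ideal.Quotient.mk I q ∈ J → eval y q = 0 := fun q hq => by
      have h1 : q ∈ vanishingIdeal ℂ {y} := hy ▸ hq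
      exact mem_vanishingIdeal_iff.1 h1 y rfl
    have hyS : y ∈ S := hS y fun q hq => hv q (by
      rw [Ideal.Quotient.eq_zero_iff_mem.2 ((hm q).2 hq)]; exact J.zero_mem)
    have h1 : (X 0 - C c : MvPolynomial (Fin (s + 1)) ℂ) ∈
        J.comap (algebraMap (MvPolynomial (Fin (s + 1)) ℂ) (PR 3 ⧸ I)) := by
      rw [hc, mem_vanishingIdeal_iff]
      rintro _ rfl
      simp
    have h2 : eval y (p - C c) = 0 := hv _ (by
      have h3 : Ideal.Quotient.mk I (p - C c) = g (X 0 - C c) := by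
        rw [map_sub, map_sub, hp, algHom_C]; rfl
      rw [h3]; exact h1)
    have h3 := hM y (mem_closedBall_zero_iff.2 (hR y hyS))
    rw [map_sub, eval_C, sub_eq_zero] at h2
    rw [h2, Complex.norm_real, Real.norm_eq_abs, abs_of_nonneg (by positivity)] at h3
    linarith [le_abs_self M]

/-- Divided differences of a form. -/
def Dv (P : PR 3) (a : ℕ) : Prop := ∃ A : V3 × V3 → V3, ContDiff ℂ 1 A ∧
  (∀ y y', (y - y') ⬝ᵥ A (y, y') = eval y P - eval y' P) ∧ (∀ y, A (y, y) = gd P y) ∧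
  ∀ (c : ℂ) (y y' : V3), c • A (c • y, c • y') = c ^ a • A (y, y')

lemma cd_eval (P : PR 3) : ContDiff ℂ 1 fun y : V3 => eval y P := by
  induction P using MvPolynomial.induction_on with
  | C c => simpa using contDiff_const
  | add p q hp hq => simpa only [map_add] using hp.add hq
  | mul_X p i hp => simpa only [map_mul, eval_X] using hp.mul (contDiff_apply ℂ ℂ i)

lemma Dv.C (c : ℂ) (a : ℕ) : Dv (C c) a :=
  ⟨fun _ => 0, contDiff_const, by simp, fun y => by funext i; simp [gd], by simp⟩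

lemma Dv.add {P Q : PR 3} {a : ℕ} (h : Dv P a) (h' : Dv Q a) : Dv (P + Q) a := by
  obtain ⟨A, a1, a2, a3, a4⟩ := h
  obtain ⟨B, b1, b2, b3, b4⟩ := h'
  refine ⟨fun x => A x + B x, a1.add b1, fun y y' => ?_, fun y => ?_, fun c y y' => ?_⟩
  · simp only [dotProduct_add, a2, b2, map_add]; ring
  · funext i; simp [a3, b3, gd]
  · simp only [smul_add, a4, b4]

lemma Dv.mulX {P : PR 3} {a : ℕ} (hP : P.IsHomogeneous a) (h : Dv P a) (i : Fin 3) :
    Dv (P * X i) (a + 1) := by
  obtain ⟨A, a1, a2, a3, a4⟩ := h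
  refine ⟨fun x => x.1 i • A x + eval x.2 P • (Pi.single i 1 : V3), ?_, fun y y' => ?_,
    fun y => ?_, fun c y y' => ?_⟩
  · exact (((contDiff_apply ℂ ℂ i).comp contDiff_fst).smul a1).add
      (((cd_eval P).comp contDiff_snd).smul contDiff_const)
  · simp only [dotProduct_add, dotProduct_smul, a2, dotProduct_single, map_mul, eval_X,
      smul_eq_mul, Pi.sub_apply]
    ring
  · funext j
    by_cases e : j = i
    · subst e; simp [a3, gd]; ring
    · simp [a3, gd, e, pderiv_X_of_ne (Ne.symm e)]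
  · simp only [smul_add, Pi.smul_apply, smul_eq_mul, eval_smul_hom hP]
    rw [mul_comm c (y i), mul_smul, a4]
    simp only [smul_smul, pow_succ]
    congr 2 <;> ring

lemma dv_mon (c : ℂ) (n : ℕ) : ∀ d : Fin 3 →₀ ℕ, d.degree = n → Dv (monomial d c) n := by
  induction n with
  | zero =>
    intro d hd
    rw [(Finsupp.degree_eq_zero_iff d).1 hd]
    exact Dv.C c 0
  | succ n ih =>
    intro d hd
    obtain ⟨i, hi⟩ : ∃ i, d i ≠ 0 := by
      by_contra hc
      push Not at hc
      rw [show d = 0 from Finsupp.ext hc] at hd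
      simp at hd
    obtain ⟨d', rfl⟩ : ∃ d', d = d' + Finsupp.single i 1 :=
      ⟨d - Finsupp.single i 1, (tsub_add_cancel_of_le
        (Finsupp.single_le_iff.2 (Nat.one_le_iff_ne_zero.2 hi))).symm⟩
    have h1 : d'.degree = n := by simpa using hd
    rw [monomial_add_single, pow_one]
    exact (ih d' h1).mulX (isHomogeneous_monomial c h1) i

lemma dv {P : PR 3} {a : ℕ} (hP : P.IsHomogeneous a) : Dv P a := by
  rw [P.as_sum]
  refine Finset.sum_induction _ (fun Q => Dv Q a) (fun _ _ => Dv.add) (by simpa using Dv.C 0 a)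
    fun d hd => dv_mon _ _ _ ?_
  by_contra h
  exact mem_support_iff.1 hd (hP.coeff_eq_zero h)

end Alg

open Alg

theorem bad : BadStmt := by
  intro D
  obtain ⟨c, c0, hc⟩ := (isCompact_sphere (0 : V3) 1).exists_forall_le'
    (f := fun u => ‖D.X u‖ + ‖eval u D.P‖)
    ((X_cont D).norm.add (MvPolynomial.continuous_eval D.P).norm).continuousOn (a := 0)
    fun u hu => by
      have hu0 : u ≠ 0 := by rintro rfl; simp at hu
      by_cases h : eval u D.P = 0
      · have := norm_pos_iff.2 (D.tr u hu0 (by rw [h, zero_mul]))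
        exact add_pos_of_pos_of_nonneg this (norm_nonneg _)
      · exact add_pos_of_nonneg_of_pos (norm_nonneg _) (norm_pos_iff.2 h)
  have hf := fin_vals {y | eval y D.P = 1 ∧ D.X y = 0} (fun y hy => ⟨?_, ?_⟩) (max 1 c⁻¹)
    (fun y hy => ?_) D.Q
  · classical
    refine ⟨insert 1 hf.toFinset, Finset.insert_nonempty _ _, ?_, fun y h1 h2 => ?_⟩
    · simp only [Finset.mem_insert, zero_ne_one, false_or, Finite.mem_toFinset]
      rintro ⟨y, ⟨h1, h2⟩, h3⟩
      exact D.tr y (ne_of_one D.hP D.a1 (by rw [h1]; exact one_ne_zero))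
        (by rw [show eval y D.Q = 0 from h3, mul_zero]) h2
    · exact Finset.mem_insert_of_mem (hf.mem_toFinset.2 ⟨y, ⟨h1, h2⟩, rfl⟩)
  · have := hy (D.P - 1) fun z hz => by rw [map_sub, hz.1, map_one, sub_self]
    rwa [map_sub, map_one, sub_eq_zero] at this
  · have key : ∀ (z : V3) (i : Fin 3), D.X z i = eval z
        (crossProduct (fun i => pderiv i D.P) (fun i => pderiv i D.Q) i) := fun z i => by
      fin_cases i <;> simp [Pr.X, cross_apply, gd]
    funext i
    rw [key]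
    exact hy _ fun z hz => by rw [← key, hz.2]; rfl
  · have hy0 : y ≠ 0 := ne_of_one D.hP D.a1 (by rw [hy.1]; exact one_ne_zero)
    have h1 := hc _ (mem_sphere_zero_iff_norm.2 (unit hy0))
    rw [X_smul, hy.2, smul_zero, norm_zero, zero_add, eval_smul_hom D.hP, hy.1, mul_one, norm_pow,
      norm_inv, Complex.norm_real, norm_norm] at h1
    by_contra h
    push Not at h
    have h2 : 1 < ‖y‖ := (le_max_left _ _).trans_lt h
    have h3 : ‖y‖⁻¹ ^ D.a ≤ ‖y‖⁻¹ := pow_le_of_le_one (by positivity)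
      (inv_le_one_of_one_le₀ h2.le) (by have := D.a1; omega)
    have h4 : ‖y‖⁻¹ < c := inv_lt_of_inv_lt₀ c0 ((le_max_right _ _).trans_lt h)
    linarith

theorem lowS : LowStmt := by
  intro D
  have cP := MvPolynomial.continuous_eval D.P
  have cQ := MvPolynomial.continuous_eval D.Q
  constructor
  · obtain ⟨c, c0, hc⟩ := ((isCompact_sphere (0 : V3) 1).inter_right
      (isClosed_eq (cP.mul cQ) (continuous_const (y := (0 : ℂ))))).exists_forall_le'
      (X_cont D).norm.continuousOn (a := 0) fun u hu =>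
        norm_pos_iff.2 (D.tr u (by rintro rfl; simp at hu) hu.2)
    refine ⟨c, c0, fun y hy => ?_⟩
    by_cases h0 : y = 0
    · have := D.d4
      rw [h0, norm_zero, zero_pow (by omega), mul_zero]
      exact norm_nonneg _
    rw [X_norm D h0]
    refine mul_le_mul_of_nonneg_right (hc _ ⟨mem_sphere_zero_iff_norm.2 (unit h0), ?_⟩)
      (by positivity)
    show eval _ D.P * eval _ D.Q = 0
    rw [eval_smul_hom D.hP, eval_smul_hom D.hQ, mul_mul_mul_comm, hy, mul_zero]
  · intro B η hB hη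
    obtain ⟨m, m0, hm⟩ := low D.hP D.a1
    have hcl : IsClosed {x : V3 × ℝ | eval x.1 D.P = (x.2 : ℂ) ^ D.a ∧
        ∀ β ∈ B, η * x.2 ^ D.b ≤ ‖eval x.1 D.Q - (x.2 : ℂ) ^ D.b * β‖} := by
      refine (isClosed_eq (cP.comp continuous_fst) (by fun_prop)).inter ?_
      have : IsClosed (⋂ β ∈ B, {x : V3 × ℝ |
          η * x.2 ^ D.b ≤ ‖eval x.1 D.Q - (x.2 : ℂ) ^ D.b * β‖}) :=
        isClosed_biInter fun β _ => isClosed_le (by fun_prop)
          ((cQ.comp continuous_fst).sub (by fun_prop)).norm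
      rwa [show (⋂ β ∈ B, {x : V3 × ℝ |
          η * x.2 ^ D.b ≤ ‖eval x.1 D.Q - (x.2 : ℂ) ^ D.b * β‖}) = {x : V3 × ℝ | ∀ β ∈ B,
          η * x.2 ^ D.b ≤ ‖eval x.1 D.Q - (x.2 : ℂ) ^ D.b * β‖} from by ext; simp] at this
    obtain ⟨c, c0, hc⟩ := (((isCompact_sphere (0 : V3) 1).prod (isCompact_Icc (a := (0 : ℝ))
      (b := m⁻¹))).inter_right hcl).exists_forall_le'
      ((X_cont D).comp continuous_fst).norm.continuousOn (a := 0) (by
        rintro ⟨u, t⟩ ⟨⟨h1, h2, -⟩, h3, h4⟩
        have hu : u ≠ 0 := by rintro rfl; simp at h1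
        refine norm_pos_iff.2 fun hX => ?_
        dsimp only at h2 h3 h4 hX
        rcases h2.eq_or_lt with rfl | ht
        · refine D.tr u hu ?_ hX
          have := D.a1
          rw [h3, Complex.ofReal_zero, zero_pow (by omega), zero_mul]
        · have ht' : (t : ℂ) ≠ 0 := by exact_mod_cast ht.ne'
          have h5 := h4 _ (hB.2.2 ((t : ℂ)⁻¹ • u)
            (by rw [eval_smul_hom D.hP, h3, ← mul_pow, inv_mul_cancel₀ ht', one_pow])
            (by rw [X_smul, show D.X u = 0 from hX, smul_zero]))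
          rw [eval_smul_hom D.hQ, ← mul_assoc, ← mul_pow, mul_inv_cancel₀ ht', one_pow, one_mul,
            sub_self, norm_zero] at h5
          exact absurd h5 (not_le.2 (by positivity)))
    refine ⟨c, c0, fun y hy hF => ?_⟩
    have h0 : y ≠ 0 := ne_of_one D.hP D.a1 (by rw [hy]; exact one_ne_zero)
    rw [X_norm D h0]
    refine mul_le_mul_of_nonneg_right (hc ((‖y‖ : ℂ)⁻¹ • y, ‖y‖⁻¹)
      ⟨⟨mem_sphere_zero_iff_norm.2 (unit h0), by positivity, inv_anti₀ m0 (hm y hy)⟩, ?_,
        fun β hβ => ?_⟩) (by positivity)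
    · dsimp only
      rw [eval_smul_hom D.hP, hy, mul_one, Complex.ofReal_inv]
    · dsimp only
      rw [eval_smul_hom D.hQ, Complex.ofReal_inv, ← mul_sub, norm_mul, norm_pow, norm_inv,
        Complex.norm_real, norm_norm, mul_comm]
      exact mul_le_mul_of_nonneg_left (hF β hβ) (by positivity)

theorem div : DivStmt := by
  intro D
  obtain ⟨A, a1, a2, a3, a4⟩ := dv D.hP
  obtain ⟨B, b1, b2, b3, b4⟩ := dv D.hQ
  set W : V3 × V3 → V3 := fun x => crossProduct (A x) (B x) with hW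
  have cW : ContDiff ℂ 1 W := by
    have h1 := fun i => contDiff_pi.1 a1 i
    have h2 := fun i => contDiff_pi.1 b1 i
    refine contDiff_pi.2 fun i => ?_
    fin_cases i <;> simp only [hW, cross_apply] <;>
      exact ((h1 _).mul (h2 _)).sub ((h1 _).mul (h2 _))
  have dW : ∀ y, W (y, y) = D.X y := fun y => by simp only [hW, a3, b3, Pr.X]
  have sW : ∀ (c : ℂ) (y y' : V3), c ≠ 0 →
      W (c • y, c • y') = c ^ (D.a + D.b - 2) • W (y, y') := fun c y y' hc => by
    have h1 : (c * c) • W (c • y, c • y') = (c ^ D.a * c ^ D.b) • W (y, y') := by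
      have := congrArg₂ (fun u v => crossProduct u v) (a4 c y y') (b4 c y y')
      simpa only [hW, map_smul, LinearMap.smul_apply, smul_smul, mul_comm] using this
    have h2 : c ^ D.a * c ^ D.b = c * c * c ^ (D.a + D.b - 2) := by
      have := D.d4
      rw [← pow_add, ← pow_two, ← pow_add]
      congr 1
      omega
    rw [h2, mul_smul (c * c)] at h1
    exact smul_right_injective _ (mul_ne_zero hc hc) h1
  obtain ⟨K, hK⟩ := ((cW.restrict_scalars ℝ).contDiffOn (s := closedBall 0 2)).exists_lipschitzOnWith one_ne_zero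
    (convex_closedBall _ _) (isCompact_closedBall _ _)
  obtain ⟨M, hM⟩ := (isCompact_sphere (0 : V3) 1).exists_bound_of_continuousOn
    (X_cont D).continuousOn
  refine ⟨W, K + |M| + 1, cW.differentiable one_ne_zero, by positivity, fun y y' h1 h2 => ?_,
    fun y => ?_, fun y y' δ d0 d1 h => ?_⟩
  · simp only [hW]
    rw [cross_cross_eq_smul_sub_smul', b2, dotProduct_comm, a2, h1, h2]
    simp
  · by_cases h0 : y = 0
    · have := D.d4
      have h1 := X_smul D 0 y
      rw [zero_smul, zero_pow (by omega), zero_smul] at h1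
      rw [h0, h1, norm_zero]
      positivity
    rw [X_norm D h0]
    refine mul_le_mul_of_nonneg_right ((hM _ (mem_sphere_zero_iff_norm.2 (unit h0))).trans ?_)
      (by positivity)
    linarith [le_abs_self M, K.coe_nonneg]
  · by_cases h0 : y = 0
    · rw [h0, norm_zero, mul_zero, norm_le_zero_iff, sub_eq_zero] at h
      rw [h0, ← h, dW, sub_self, norm_zero]
      positivity
    have n0 : 0 < ‖y‖ := norm_pos_iff.2 h0
    have n1 : (‖y‖ : ℂ) ≠ 0 := by exact_mod_cast n0.ne'
    obtain ⟨u, hu⟩ : ∃ u : V3, u = (‖y‖ : ℂ)⁻¹ • y := ⟨_, rfl⟩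
    obtain ⟨u', hu'⟩ : ∃ u' : V3, u' = (‖y‖ : ℂ)⁻¹ • y' := ⟨_, rfl⟩
    have e1 : ‖u‖ = 1 := hu ▸ unit h0
    have e2 : ‖u - u'‖ ≤ δ := by
      rw [hu, hu', ← smul_sub, norm_smul, norm_inv, Complex.norm_real, norm_norm,
        inv_mul_le_iff₀ n0, mul_comm]
      exact h
    have e3 : ‖u'‖ ≤ 2 := by
      have := norm_sub_le u (u - u')
      rw [sub_sub_cancel] at this
      linarith
    have e4 := hK.dist_le_mul (u, u') (by simp [Prod.norm_def, e1, e3]) (u, u)
      (by simp [Prod.norm_def, e1])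
    rw [dist_eq_norm, Prod.dist_eq, dist_self, dist_eq_norm', max_eq_right (norm_nonneg _)] at e4
    have e5 : W (y, y') - D.X y = (‖y‖ : ℂ) ^ (D.a + D.b - 2) • (W (u, u') - W (u, u)) := by
      rw [smul_sub, ← sW _ _ _ n1, ← sW _ _ _ n1, hu, hu', smul_inv_smul₀ n1, smul_inv_smul₀ n1, dW]
    rw [e5, norm_smul, norm_pow, Complex.norm_real, norm_norm, mul_comm]
    refine mul_le_mul_of_nonneg_right (e4.trans ?_) (by positivity)
    exact mul_le_mul (by linarith [abs_nonneg M]) e2 (norm_nonneg _) (by positivity)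

end Pool.Agent.MP_c69980_ag.G2
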