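import Pool.Agent.MP_c69980_ag.G2.Base

/-!
The complement of two plane curves: critical values, lower bounds, divided differences.
-/

set_option autoImplicit false

noncomputable section

namespace Pool.Agent.MP_c69980_ag.G2

open MvPolynomial Metric Filter Topology Set
open H60 H4

namespace AlgX

/-- A polynomial takes finitely many values on a bounded algebraic set. -/
lemma finB (Z : Set V3) (hc : ∀ y, (∀ p : PR 3, (∀ z ∈ Z, eval z p = 0) → eval y p = 0) → y ∈ Z)
    {M : ℝ} (hb : ∀ y ∈ Z, ‖y‖ ≤ M) (Q : PR 3) : ∃ B : Finset ℂ, ∀ y ∈ Z, eval y Q ∈ B := by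
  let I : Ideal (PR 3) := vanishingIdeal ℂ Z
  by_cases hI : I = ⊤
  · exact ⟨∅, fun y hy => by simpa using (hI ▸ Submodule.mem_top : (1 : PR 3) ∈ I) y hy⟩
  have := Ideal.Quotient.nontrivial_iff.2 hI
  obtain ⟨s, g, g1, g2⟩ := exists_integral_inj_algHom_of_fg ℂ (PR 3 ⧸ I)
  rcases s with _ | s
  · obtain ⟨p, p1, p2⟩ := g2 (Ideal.Quotient.mk I Q)
    let φ : MvPolynomial (Fin 0) ℂ →ₐ[ℂ] ℂ := aeval Fin.elim0
    refine ⟨(p.map φ.toRingHom).roots.toFinset, fun y hy => ?_⟩
    let χ : (PR 3 ⧸ I) →ₐ[ℂ] ℂ := Ideal.Quotient.liftₐ I (aeval y) fun a ha => ha y hy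
    have e : χ.comp g = φ := MvPolynomial.algHom_ext fun i => i.elim0
    have := Polynomial.hom_eval₂ p g.toRingHom χ.toRingHom (Ideal.Quotient.mk I Q)
    rw [show Polynomial.eval₂ g.toRingHom _ p = 0 from p2, map_zero] at this
    rw [Multiset.mem_toFinset, Polynomial.mem_roots (p1.map _).ne_zero, Polynomial.IsRoot.def,
      Polynomial.eval_map, ← e]
    exact this.symm
  · obtain ⟨T, hT⟩ := Ideal.Quotient.mk_surjective (g (X 0))
    obtain ⟨c, hC⟩ := (isCompact_closedBall (0 : V3) M).exists_bound_of_continuousOn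
      (MvPolynomial.continuous_eval T).continuousOn
    let := g.toRingHom.toAlgebra
    have : Algebra.IsIntegral (MvPolynomial (Fin (s + 1)) ℂ) (PR 3 ⧸ I) := ⟨g2⟩
    obtain ⟨N, hN, e⟩ := Ideal.exists_ideal_over_maximal_of_isIntegral (S := PR 3 ⧸ I)
      (vanishingIdeal ℂ {fun _ : Fin (s + 1) => ((|c| + 1 : ℝ) : ℂ)})
      (((RingHom.injective_iff_ker_eq_bot _).1 g1).trans_le bot_le)
    obtain ⟨y, hy⟩ := isMaximal_iff_eq_vanishingIdeal_singleton.1
      (Ideal.comap_isMaximal_of_surjective (Ideal.Quotient.mk I) Ideal.Quotient.mk_surjective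
        (K := N))
    have k : ∀ p : PR 3, Ideal.Quotient.mk I p ∈ N → eval y p = 0 := fun p hp =>
      (mem_vanishingIdeal_singleton_iff y p).1 (hy ▸ hp)
    have h1 := hC y (mem_closedBall_zero_iff.2 (hb y (hc y fun p hp =>
      k p (by rw [Ideal.Quotient.eq_zero_iff_mem.2 (show p ∈ I from hp)]; exact N.zero_mem))))
    have h2 := k (T - C ((|c| + 1 : ℝ) : ℂ)) (by
      have : g (X 0 - C ((|c| + 1 : ℝ) : ℂ)) ∈ N := by
        refine (e.ge : _ ≤ N.comap _) ((mem_vanishingIdeal_singleton_iff _ _).2 ?_)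
        simp
      rwa [map_sub, ← hT, ← algebraMap_eq, g.commutes] at this)
    rw [map_sub, eval_C, sub_eq_zero] at h2
    rw [h2, Complex.norm_real, Real.norm_of_nonneg (by positivity)] at h1
    linarith [le_abs_self c]

lemma gd_smul {P : PR 3} {a : ℕ} (h : P.IsHomogeneous a) (c : ℂ) (y : V3) :
    gd P (c • y) = c ^ (a - 1) • gd P y := funext fun _ => eval_smul_hom h.pderiv c y

lemma X_smul (D : Pr) (c : ℂ) (y : V3) : D.X (c • y) = c ^ (D.a + D.b - 2) • D.X y := by
  have := D.a1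
  have := D.b1
  rw [Pr.X, gd_smul D.hP, gd_smul D.hQ, map_smul, map_smul, LinearMap.smul_apply, smul_smul,
    ← pow_add, show D.b - 1 + (D.a - 1) = D.a + D.b - 2 by omega, Pr.X]

lemma cross_cd {E : Type} [NormedAddCommGroup E] [NormedSpace ℂ E] {A B : E → V3}
    (hA : ContDiff ℂ 1 A) (hB : ContDiff ℂ 1 B) : ContDiff ℂ 1 fun x => crossProduct (A x) (B x) :=
  contDiff_pi.2 fun i => by fin_cases i <;> simp [cross_apply] <;> fun_prop

lemma ev_cd (P : PR 3) : ContDiff ℂ 1 fun y : V3 => eval y P :=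
  (AnalyticOnNhd.eval_mvPolynomial P).contDiff

lemma X_cont (D : Pr) : Continuous D.X :=
  (cross_cd (contDiff_pi.2 fun _ => ev_cd _) (contDiff_pi.2 fun _ => ev_cd _)).continuous

/-- Polar coordinates. -/
lemma polar {y : V3} (h : y ≠ 0) : ∃ (r : ℝ) (w : V3), 0 < r ∧ ‖w‖ = 1 ∧ ‖y‖ = r ∧ y = (r : ℂ) • w :=
  have h0 : (‖y‖ : ℂ) ≠ 0 := by simpa using h
  ⟨‖y‖, (‖y‖ : ℂ)⁻¹ • y, norm_pos_iff.2 h, by simp [norm_smul, h], rfl, (smul_inv_smul₀ h0 y).symm⟩

lemma nrm_X (D : Pr) {r : ℝ} (hr : 0 < r) (w : V3) :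
    ‖D.X ((r : ℂ) • w)‖ = ‖D.X w‖ * r ^ (D.a + D.b - 2) := by
  rw [X_smul, norm_smul, norm_pow, Complex.norm_real, Real.norm_of_nonneg hr.le, mul_comm]

/-- Divided differences of a form. -/
def DD (P : PR 3) (n : ℕ) : Prop := ∃ A : V3 × V3 → V3, ContDiff ℂ 1 A ∧
  (∀ y y', A (y, y') ⬝ᵥ (y - y') = eval y P - eval y' P) ∧ (∀ y, A (y, y) = gd P y) ∧
  ∀ (c : ℂ) y y', c • A (c • y, c • y') = c ^ n • A (y, y')

lemma dd (n : ℕ) : ∀ P : PR 3, P.IsHomogeneous n → DD P n := by
  induction n with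
  | zero =>
    intro P h
    rw [← totalDegree_zero_iff_isHomogeneous, totalDegree_eq_zero_iff_eq_C] at h
    rw [h]
    exact ⟨0, contDiff_const, by simp, fun y => funext fun i => by simp [gd], by simp⟩
  | succ n ih =>
    intro P h
    have hp : ∀ i, (pderiv i P).IsHomogeneous n := fun i => h.pderiv
    choose A a1 a2 a3 a4 using fun i => ih _ (hp i)
    have n0 : ((n + 1 : ℕ) : ℂ) ≠ 0 := Nat.cast_ne_zero.2 n.succ_ne_zero
    refine ⟨fun x => ((n + 1 : ℕ) : ℂ)⁻¹ • (∑ i, x.1 i • A i x + gd P x.2), ?_, fun y y' => ?_,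
      fun y => ?_, fun c y y' => ?_⟩
    · have : ContDiff ℂ 1 fun x : V3 × V3 => gd P x.2 :=
        (contDiff_pi.2 fun _ => ev_cd _).comp contDiff_snd
      fun_prop
    · rw [smul_dotProduct, smul_eq_mul, inv_mul_eq_iff_eq_mul₀ n0, mul_sub, ← euler h, ← euler h,
        add_dotProduct, sum_dotProduct]
      simp only [smul_dotProduct, a2]
      simp only [gd, dotProduct, Fin.sum_univ_three, smul_eq_mul, Pi.sub_apply]
      ring
    · rw [inv_smul_eq_iff₀ n0]
      funext j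
      have e := congrArg (fun q => eval y (pderiv j q)) h.sum_X_mul_pderiv
      simp only [map_sum, pderiv_mul, map_add, map_mul, eval_X, Finset.sum_add_distrib,
        map_nsmul] at e
      rw [Finset.sum_eq_single j (fun i _ hi => by simp [pderiv_X_of_ne hi]) (by simp),
        pderiv_X_self, map_one, one_mul] at e
      simp only [a3, gd, Pi.add_apply, Finset.sum_apply, Pi.smul_apply, smul_eq_mul]
      rw [add_comm, e, nsmul_eq_mul]
    · simp only [gd_smul h, Nat.add_sub_cancel, Pi.smul_apply, smul_eq_mul, smul_add,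
        Finset.smul_sum, smul_comm _ ((n + 1 : ℕ) : ℂ)⁻¹]
      congr 2
      · refine funext fun i => congrArg _ ?_
        rw [smul_comm c, a4, smul_smul, smul_smul]
        congr 1; ring
      · rw [smul_smul, pow_succ']

end AlgX

open AlgX

theorem badX : BadStmt := fun D => by
  obtain ⟨m, m0, hm⟩ := IsCompact.exists_forall_le' (s := sphere (0 : V3) 1 ∩ {w | D.X w = 0})
    ((isCompact_sphere _ _).inter_right (isClosed_eq (X_cont D) continuous_const))
    (f := fun w => ‖eval w D.P‖) (MvPolynomial.continuous_eval _).norm.continuousOn (a := 0)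
    fun w hw => norm_pos_iff.2 fun q => D.tr w (ne_zero_of_mem_unit_sphere ⟨w, hw.1⟩)
      (by rw [q, zero_mul]) hw.2
  obtain ⟨B, hB⟩ := finB {y | eval y D.P = 1 ∧ D.X y = 0} (fun y hy => ⟨by
      simpa [sub_eq_zero] using hy (D.P - 1) fun z hz => by simp [hz.1], funext fun i => by
      have k : ∀ z : V3, eval z (crossProduct (fun j => pderiv j D.P) (fun j => pderiv j D.Q) i) =
          D.X z i := fun z => by fin_cases i <;> simp [cross_apply, Pr.X, gd]
      rw [← k]
      exact hy _ fun z hz => by rw [k, hz.2]; rfl⟩) (M := max 1 m⁻¹) (fun y hy => by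
    obtain ⟨r, w, r0, w1, e, rfl⟩ := polar (ne_of_one D.hP D.a1 (hy.1.trans_ne one_ne_zero))
    have h1 := hm w ⟨mem_sphere_zero_iff_norm.2 w1, by
      have := hy.2
      rw [X_smul, smul_eq_zero] at this
      exact this.resolve_left (pow_ne_zero _ (by simpa using r0.ne'))⟩
    have h2 := congrArg norm hy.1
    rw [eval_smul_hom D.hP, norm_mul, norm_pow, Complex.norm_real, Real.norm_of_nonneg r0.le,
      norm_one] at h2
    rw [e]
    refine le_of_not_gt fun q => ?_
    have h3 : r ≤ r ^ D.a := le_self_pow₀ ((le_max_left _ _).trans q.le) (by have := D.a1; omega)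
    have h4 := mul_lt_mul_of_pos_right ((le_max_right _ _).trans_lt q) m0
    rw [inv_mul_cancel₀ m0.ne'] at h4
    nlinarith [mul_le_mul h3 h1 m0.le (by positivity)]) D.Q
  exact ⟨insert 1 (B.erase 0), Finset.insert_nonempty _ _, by simp, fun y h1 h2 =>
    Finset.mem_insert_of_mem (Finset.mem_erase.2 ⟨fun q => D.tr y
      (ne_of_one D.hP D.a1 (h1.trans_ne one_ne_zero)) (by rw [q, mul_zero]) h2, hB y ⟨h1, h2⟩⟩)⟩

theorem lowX : LowStmt := fun D => by
  have cP := MvPolynomial.continuous_eval D.P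
  have cQ := MvPolynomial.continuous_eval D.Q
  refine ⟨?_, fun B η hB η0 => ?_⟩
  · obtain ⟨c, c0, hc⟩ := IsCompact.exists_forall_le'
      (s := sphere (0 : V3) 1 ∩ {w | eval w D.P * eval w D.Q = 0})
      ((isCompact_sphere _ _).inter_right (isClosed_eq (cP.mul cQ) continuous_const))
      (X_cont D).norm.continuousOn (a := 0)
      fun w hw => norm_pos_iff.2 (D.tr w (ne_zero_of_mem_unit_sphere ⟨w, hw.1⟩) hw.2)
    refine ⟨c, c0, fun y hy => ?_⟩
    by_cases q : y = 0
    · rw [q, norm_zero, zero_pow (by have := D.d4; omega), mul_zero]; exact norm_nonneg _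
    obtain ⟨r, w, r0, w1, e, rfl⟩ := polar q
    have r1 : (r : ℂ) ≠ 0 := by simpa using r0.ne'
    rw [e, nrm_X D r0]
    refine mul_le_mul_of_nonneg_right (hc w ⟨mem_sphere_zero_iff_norm.2 w1, ?_⟩) (by positivity)
    rw [eval_smul_hom D.hP, eval_smul_hom D.hQ] at hy
    simpa [r1] using hy
  obtain ⟨m, m0, hm⟩ := low D.hP D.a1
  have cr : Continuous fun x : V3 × ℝ => (x.2 : ℂ) := by fun_prop
  have cK : IsCompact (sphere (0 : V3) 1 ×ˢ Icc (0 : ℝ) m⁻¹ ∩
      ({x : V3 × ℝ | eval x.1 D.P = (x.2 : ℂ) ^ D.a} ∩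
      ⋂ β ∈ B, {x : V3 × ℝ | η * x.2 ^ D.b ≤ ‖eval x.1 D.Q - β * (x.2 : ℂ) ^ D.b‖})) := by
    have c1 : Continuous fun x : V3 × ℝ => eval x.1 D.P := cP.comp continuous_fst
    have c2 : Continuous fun x : V3 × ℝ => eval x.1 D.Q := cQ.comp continuous_fst
    refine ((isCompact_sphere _ _).prod isCompact_Icc).inter_right
      ((isClosed_eq c1 (cr.pow _)).inter (isClosed_biInter fun β _ => isClosed_le (by fun_prop) ?_))
    exact (c2.sub ((cr.pow _).const_mul β)).norm
  have cX : Continuous fun x : V3 × ℝ => ‖D.X x.1‖ := ((X_cont D).comp continuous_fst).norm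
  obtain ⟨c, c0, hc⟩ := cK.exists_forall_le' cX.continuousOn (a := 0) (by
      rintro ⟨w, ρ⟩ ⟨⟨h1, h2, -⟩, h3, h4⟩
      refine norm_pos_iff.2 fun q => ?_
      simp only [mem_ofPred_eq, mem_iInter] at h2 h3 h4 q
      rcases h2.eq_or_lt with rfl | h2
      · exact D.tr w (ne_zero_of_mem_unit_sphere ⟨w, h1⟩) (by
          rw [h3, Complex.ofReal_zero, zero_pow (by have := D.a1; omega), zero_mul]) q
      · have r1 : (ρ : ℂ) ≠ 0 := by simpa using h2.ne'
        have := h4 _ (hB.2.2 ((ρ : ℂ)⁻¹ • w) (by rw [eval_smul_hom D.hP, h3]; simp [r1])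
          (by rw [X_smul, q, smul_zero]))
        rw [eval_smul_hom D.hQ, mul_right_comm, ← mul_pow, inv_mul_cancel₀ r1, one_pow, one_mul,
          sub_self, norm_zero] at this
        exact absurd this (not_le.2 (by positivity)))
  refine ⟨c, c0, fun y hy hf => ?_⟩
  have h1 := hm y hy
  obtain ⟨r, w, r0, w1, e, rfl⟩ := polar (ne_of_one D.hP D.a1 (hy.trans_ne one_ne_zero))
  have r1 : (r : ℂ) ≠ 0 := by simpa using r0.ne'
  rw [e] at h1 ⊢
  rw [nrm_X D r0]
  refine mul_le_mul_of_nonneg_right (hc (w, r⁻¹) ⟨⟨mem_sphere_zero_iff_norm.2 w1,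
    by positivity, inv_anti₀ m0 h1⟩, ?_, mem_iInter₂.2 fun β hβ => ?_⟩) (by positivity)
  · rw [eval_smul_hom D.hP] at hy
    show eval w D.P = ((r⁻¹ : ℝ) : ℂ) ^ D.a
    rw [Complex.ofReal_inv, inv_pow]
    exact eq_inv_of_mul_eq_one_right hy
  · have := mul_le_mul_of_nonneg_right (hf β hβ) (show 0 ≤ r⁻¹ ^ D.b by positivity)
    refine this.trans_eq ?_
    show _ = ‖eval w D.Q - β * ((r⁻¹ : ℝ) : ℂ) ^ D.b‖
    rw [show eval w D.Q - β * ((r⁻¹ : ℝ) : ℂ) ^ D.b =
      (eval ((r : ℂ) • w) D.Q - β) * ((r⁻¹ : ℝ) : ℂ) ^ D.b by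
        rw [eval_smul_hom D.hQ, Complex.ofReal_inv, inv_pow]; field_simp, norm_mul, norm_pow,
      Complex.norm_real, Real.norm_of_nonneg (by positivity)]

theorem divX : DivStmt := fun D => by
  obtain ⟨A, a1, a2, a3, a4⟩ := dd _ _ D.hP
  obtain ⟨B, b1, b2, b3, b4⟩ := dd _ _ D.hQ
  have cd := cross_cd a1 b1
  set W : V3 × V3 → V3 := fun x => crossProduct (A x) (B x)
  have hd : ∀ y, W (y, y) = D.X y := fun y => by simp only [W, a3, b3, Pr.X]
  have hs : ∀ (c : ℂ) y y', c ≠ 0 → W (c • y, c • y') = c ^ (D.a + D.b - 2) • W (y, y') :=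
    fun c y y' c0 => by
    refine smul_right_injective _ (mul_ne_zero c0 c0) ?_
    have := congrArg₂ (fun u v => crossProduct u v) (a4 c y y') (b4 c y y')
    simp only [map_smul, LinearMap.smul_apply, smul_smul] at this ⊢
    rw [this, ← pow_add, ← pow_two, ← pow_add]
    congr 2
    have := D.d4; omega
  obtain ⟨K, hK⟩ := (cd.locallyLipschitz.locallyLipschitzOn
    (s := closedBall 0 2)).exists_lipschitzOnWith_of_compact (isCompact_closedBall _ _)
  obtain ⟨C, hC⟩ := (isCompact_sphere (0 : V3) 1).exists_bound_of_continuousOn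
    (X_cont D).continuousOn
  refine ⟨W, max C (K + 1), cd.differentiable one_ne_zero, by positivity, fun y y' h1 h2 => ?_,
    fun y => ?_, fun y y' δ δ0 δ1 h => ?_⟩
  · rw [cross_cross_eq_smul_sub_smul', dotProduct_comm, a2, b2, h1, h2]; simp
  · by_cases q : y = 0
    · have := X_smul D 0 0
      rw [zero_pow (by have := D.d4; omega), zero_smul, zero_smul] at this
      rw [q, this, norm_zero]; positivity
    obtain ⟨r, w, r0, w1, e, rfl⟩ := polar q
    rw [e, nrm_X D r0]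
    exact mul_le_mul_of_nonneg_right
      ((hC w (mem_sphere_zero_iff_norm.2 w1)).trans (le_max_left _ _)) (by positivity)
  · by_cases q : y = 0
    · subst q
      obtain rfl : y' = 0 := by simpa using h
      rw [hd, sub_self, norm_zero]; positivity
    obtain ⟨r, w, r0, w1, e, rfl⟩ := polar q
    have r1 : (r : ℂ) ≠ 0 := by simpa using r0.ne'
    obtain ⟨w', rfl⟩ : ∃ w', y' = (r : ℂ) • w' := ⟨_, (smul_inv_smul₀ r1 y').symm⟩
    rw [e, ← smul_sub, norm_smul, Complex.norm_real, Real.norm_of_nonneg r0.le, mul_comm δ,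
      mul_le_mul_iff_right₀ r0] at h
    have h1 : ‖w'‖ ≤ 2 := by linarith [norm_sub_norm_le w' w, norm_sub_rev w w']
    have h2 := hK.norm_sub_le (x := (w, w')) (y := (w, w))
      (by simp [Prod.norm_def, w1, h1]) (by simp [Prod.norm_def, w1])
    rw [Prod.mk_sub_mk, sub_self, Prod.norm_def, norm_zero, max_eq_right (norm_nonneg _),
      norm_sub_rev w'] at h2
    rw [e, ← hd, hs _ _ _ r1, hs _ _ _ r1, ← smul_sub, norm_smul, norm_pow, Complex.norm_real,
      Real.norm_of_nonneg r0.le, mul_comm]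
    refine mul_le_mul_of_nonneg_right (h2.trans (mul_le_mul ?_ h (norm_nonneg _) (by positivity)))
      (by positivity)
    exact (le_add_of_nonneg_right zero_le_one).trans (le_max_right _ _)

end Pool.Agent.MP_c69980_ag.G2
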