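import Pool.Agent.MP_c69980_ag.G2.Spec
import Pool.Agent.MP_c69980_ag.H66.Rep
import Pool.Agent.MP_c69980_ag.H18.Lim1

/-!
The complement of two plane curves: common facts.
-/

set_option autoImplicit false

noncomputable section

namespace Pool.Agent.MP_c69980_ag.G2

open MvPolynomial Metric Filter Topology MeasureTheory Set
open scoped ContDiff
open H60 H4

variable {D : Pr} {s : ℂ → V3}

lemma Pr.a1 (D : Pr) : 1 ≤ D.a := D.b1.trans D.ba

/-- Euler's identity. -/
lemma euler {P : PR 3} {a : ℕ} (h : P.IsHomogeneous a) (y : V3) :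
    gd P y ⬝ᵥ y = a * eval y P := by
  have := congrArg (eval y) h.sum_X_mul_pderiv
  simp only [map_sum, map_mul, eval_X, nsmul_eq_mul, map_natCast] at this
  rw [← this]
  exact Finset.sum_congr rfl fun i _ => mul_comm _ _

/-- The chain rule. -/
lemma chainG {F : ℂ → V3} {F' : V3} {z : ℂ} (h : HasDerivAt F F' z) (P : PR 3) :
    HasDerivAt (fun w => eval (F w) P) (gd P (F z) ⬝ᵥ F') z := by
  induction P using MvPolynomial.induction_on with
  | C c => simpa [gd, dotProduct] using hasDerivAt_const z c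
  | add p q hp hq =>
    simp only [map_add]
    refine (hp.fun_add hq).congr_deriv ?_
    simp only [gd, dotProduct, map_add, add_mul, Finset.sum_add_distrib]
  | mul_X p i hp =>
    simp only [map_mul, eval_X]
    refine (hp.fun_mul (hasDerivAt_pi.1 h i)).congr_deriv ?_
    fin_cases i <;> simp [gd, dotProduct, Fin.sum_univ_three, pderiv_X] <;> ring

/-- A form of positive degree is bounded by a power of the norm; its level sets avoid a ball. -/
lemma low {P : PR 3} {a : ℕ} (h : P.IsHomogeneous a) (ha : 1 ≤ a) :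
    ∃ m : ℝ, 0 < m ∧ ∀ y : V3, eval y P = 1 → m ≤ ‖y‖ := by
  obtain ⟨C, C0, hC⟩ := R1.hom_bd h
  refine ⟨min 1 C⁻¹, by positivity, fun y hy => le_of_not_gt fun q => ?_⟩
  have h1 := hC y
  rw [hy, norm_one] at h1
  have h2 : ‖y‖ ^ a ≤ ‖y‖ := pow_le_of_le_one (norm_nonneg _) (q.le.trans (min_le_left _ _))
    (by omega)
  have h3 : C * ‖y‖ < 1 := by
    have := mul_lt_mul_of_pos_left (q.trans_le (min_le_right _ _)) C0
    rwa [mul_inv_cancel₀ C0.ne'] at this
  nlinarith

lemma ne_of_one {P : PR 3} {a : ℕ} (h : P.IsHomogeneous a) (ha : 1 ≤ a) {y : V3}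
    (hy : eval y P ≠ 0) : y ≠ 0 := fun e => hy (e ▸ eval_zero_hom h ha)

lemma Nm.crv {O : Set ℂ} {F : ℂ → V3} {h : ℂ → ℂ} (H : Nm D O F h) : Crv O F :=
  ⟨H.1, fun z hz => ne_of_one D.hP D.a1 (by rw [(H.2.2 z hz).1]; exact one_ne_zero)⟩

lemma Nm.mono {O O' : Set ℂ} {F : ℂ → V3} {h : ℂ → ℂ} (H : Nm D O F h) (h' : O' ⊆ O) :
    Nm D O' F h := ⟨H.1.mono h', H.2.1.mono h', fun z hz => H.2.2 z (h' hz)⟩

lemma Sec.nm (h : s ∈ Sec D) (O : Set ℂ) : Nm D O s id :=
  ⟨h.1.differentiableOn, differentiableOn_id, fun z _ => h.2 z⟩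

lemma Sec.crv (h : s ∈ Sec D) (O : Set ℂ) : Crv O s := (Sec.nm h O).crv

/-- Translation by a period. -/
lemma Sec.shift (h : s ∈ Sec D) (n : ℤ) :
    (fun t => s (t + n * (2 * Real.pi * Complex.I))) ∈ Sec D :=
  ⟨h.1.comp (differentiable_id.add_const _), fun t => ⟨(h.2 _).1, by
    rw [(h.2 _).2, Complex.exp_add, Complex.exp_int_mul_two_pi_mul_I, mul_one]⟩⟩

lemma lam_shift (F : ℂ → V3) (c z : ℂ) : lam (fun t => F (t + c)) z = lam F (z + c) := by
  simp only [lam, deriv_comp_add_const]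

lemma Off.shift {B : Finset ℂ} {r : ℝ} {t : ℂ} (h : Off B r t) (n : ℤ) :
    Off B r (t + n * (2 * Real.pi * Complex.I)) := fun t₀ h₀ => by
  have := h (t₀ - n * (2 * Real.pi * Complex.I)) (by
    rwa [Complex.exp_sub, Complex.exp_int_mul_two_pi_mul_I, div_one])
  rwa [sub_sub_eq_add_sub] at this

lemma lam_nn (F : ℂ → V3) (z : ℂ) : 0 ≤ lam F z := R1.lamv_nn _ _

/-- The Laplacian of the logarithm of the norm of a section. -/
lemma Sec.lap (h : s ∈ Sec D) : ContDiff ℝ ∞ (LL s) ∧ Continuous (lam s) ∧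
    ∀ t, lap (LL s) t = 4 * lam s t := by
  obtain ⟨a, b, c⟩ := R1.lapQ 3 univ s isOpen_univ (Sec.crv h _)
  exact ⟨contDiffOn_univ.1 a, continuousOn_univ.1 b.1, fun t => c t trivial⟩

/-- Limits of normalised maps. -/
lemma sec_of_lim {l : Filter ℕ} [l.NeBot] {F : ℕ → ℂ → V3} {G : ℂ → V3} (hG : Differentiable ℂ G)
    (hF : ∀ᶠ k in l, F k ∈ Sec D) (H : ∀ t, Tendsto (fun k => F k t) l (𝓝 (G t))) : G ∈ Sec D :=
  ⟨hG, fun t => ⟨tendsto_nhds_unique (((MvPolynomial.continuous_eval D.P).tendsto _).comp (H t))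
      (tendsto_const_nhds.congr' (hF.mono fun _ a => (a.2 t).1.symm)),
    tendsto_nhds_unique (((MvPolynomial.continuous_eval D.Q).tendsto _).comp (H t))
      (tendsto_const_nhds.congr' (hF.mono fun _ a => (a.2 t).2.symm))⟩⟩

/-- The identity that keeps sections away from the critical points. -/
lemma Sec.cross (h : s ∈ Sec D) (t : ℂ) :
    crossProduct (D.X (s t)) (deriv s t) = -Complex.exp t • gd D.P (s t) := by
  have d := (h.1 t).hasDerivAt
  have e1 : gd D.P (s t) ⬝ᵥ deriv s t = 0 := (chainG d D.P).unique (by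
    simpa only [fun w => (h.2 w).1] using hasDerivAt_const t (1 : ℂ))
  have e2 : gd D.Q (s t) ⬝ᵥ deriv s t = Complex.exp t := (chainG d D.Q).unique (by
    simpa only [fun w => (h.2 w).2] using Complex.hasDerivAt_exp t)
  rw [Pr.X, cross_cross_eq_smul_sub_smul, e1, dotProduct_comm, dotProduct_comm (deriv s t), e2]
  simp

end Pool.Agent.MP_c69980_ag.G2
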