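import Pool.Agent.MP_c69980_ag.G2.Base

/-!
Sections are bounded on strips, there are finitely many of them, and they lie on a curve.
-/

set_option autoImplicit false

noncomputable section

namespace Pool.Agent.MP_c69980_ag.G2

open MvPolynomial Metric Filter Topology MeasureTheory Set
open H60 H4

namespace Bd

/-- A bounded sequence converges along an ultrafilter. -/
lemma lim (u : Ultrafilter ℕ) (w : ℕ → ℂ) (M R : ℝ)
    (h : ∀ᶠ k in u, |(w k).re| ≤ M ∧ |(w k).im| ≤ R) : ∃ w₀, Tendsto w u (𝓝 w₀) := by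
  obtain ⟨w₀, -, h₀⟩ := (isCompact_closedBall (0 : ℂ) (M + R)).ultrafilter_le_nhds (u.map w)
    (le_principal_iff.2 (h.mono fun k hk => by
      change w k ∈ closedBall (0 : ℂ) (M + R)
      rw [mem_closedBall_zero_iff]
      linarith [Complex.norm_le_abs_re_add_abs_im (w k), hk.1, hk.2]))
  exact ⟨w₀, h₀⟩

/-- Reduction of the height modulo the period. -/
lemma red (t : ℂ) : ∃ (n : ℤ) (τ : ℂ), t = τ + n * (2 * Real.pi * Complex.I) ∧ τ.re = t.re ∧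
    |τ.im| ≤ 8 ∧ t.im = τ.im + n * (2 * Real.pi) := by
  have p : 0 < 2 * Real.pi := by positivity
  have h1 := Int.floor_le (t.im / (2 * Real.pi))
  have h2 := Int.lt_floor_add_one (t.im / (2 * Real.pi))
  rw [le_div_iff₀ p] at h1
  rw [div_lt_iff₀ p] at h2
  refine ⟨⌊t.im / (2 * Real.pi)⌋, t - ⌊t.im / (2 * Real.pi)⌋ * (2 * Real.pi * Complex.I),
    by ring, by simp, ?_, by simp⟩
  have : (t - ⌊t.im / (2 * Real.pi)⌋ * (2 * Real.pi * Complex.I)).im =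
      t.im - ⌊t.im / (2 * Real.pi)⌋ * (2 * Real.pi) := by simp
  rw [this, abs_le]
  constructor <;> nlinarith [Real.pi_le_four]

/-- Either the sets meet a bounded band, or they leave a half-plane after translation. -/
lemma esc (u : Ultrafilter ℕ) (Γ : ℕ → Set ℂ) (h : ∀ k, (Γ k).Nonempty) :
    (∃ (τ : ℕ → ℂ) (R : ℝ), ∀ᶠ k in u, τ k ∈ Γ k ∧ |(τ k).im| ≤ R) ∨
    ∃ (τ : ℕ → ℂ) (n : ℕ → ℤ) (σ : ℝ), (σ = 1 ∨ σ = -1) ∧
      (∀ k, τ k + n k * (2 * Real.pi * Complex.I) ∈ Γ k ∧ |(τ k).im| ≤ 8) ∧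
      ∀ t : ℂ, 9 < σ * t.im → ∀ᶠ k in u, t + n k * (2 * Real.pi * Complex.I) ∉ Γ k := by
  have e : ∀ k, ∃ t ∈ Γ k, ∀ t' ∈ Γ k, |t.im| < |t'.im| + 1 := fun k => by
    have bd : BddBelow ((fun t : ℂ => |t.im|) '' Γ k) := ⟨0, by
      rintro _ ⟨t, -, rfl⟩
      exact abs_nonneg _⟩
    obtain ⟨_, ⟨t, ht, rfl⟩, hl⟩ := exists_lt_of_csInf_lt ((h k).image fun t : ℂ => |t.im|)
      (lt_add_one _)
    exact ⟨t, ht, fun t' ht' => hl.trans_le (by
      have := csInf_le bd (mem_image_of_mem _ ht')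
      linarith)⟩
  choose t t1 t2 using e
  by_cases hb : ∃ R : ℝ, ∀ᶠ k in u, |(t k).im| ≤ R
  · obtain ⟨R, hR⟩ := hb
    exact Or.inl ⟨t, R, hR.mono fun k hk => ⟨t1 k, hk⟩⟩
  have hb' : ∀ R : ℝ, ∀ᶠ k in u, R < |(t k).im| := fun R =>
    (Ultrafilter.eventually_not.2 fun e => hb ⟨R, e⟩).mono fun k hk => not_le.1 hk
  choose n τ e1 e2 e3 e4 using fun k => red (t k)
  have im : ∀ (z : ℂ) (k : ℕ), (z + n k * (2 * Real.pi * Complex.I)).im =
      z.im + n k * (2 * Real.pi) := fun z k => by simp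
  rcases u.em fun k => 0 ≤ (t k).im with hs | hs
  · refine Or.inr ⟨τ, n, -1, Or.inr rfl, fun k => ⟨e1 k ▸ t1 k, e3 k⟩, fun z hz => ?_⟩
    filter_upwards [hs, hb' (8 - z.im)] with k a b c
    have := t2 k _ c
    have a3 := abs_le.1 (e3 k)
    have a4 := e4 k
    rw [abs_of_nonneg a] at b
    rw [im, abs_of_nonneg a, abs_of_nonneg (by linarith)] at this
    linarith
  · refine Or.inr ⟨τ, n, 1, Or.inl rfl, fun k => ⟨e1 k ▸ t1 k, e3 k⟩, fun z hz => ?_⟩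
    filter_upwards [hs, hb' (8 + z.im)] with k a b c
    have := t2 k _ c
    have a3 := abs_le.1 (e3 k)
    have a4 := e4 k
    have a' := (not_le.1 a).le
    rw [abs_of_nonpos a'] at b
    rw [im, abs_of_nonpos a', abs_of_nonpos (by linarith)] at this
    linarith

lemma re_shift (z : ℂ) (n : ℤ) : (z + n * (2 * Real.pi * Complex.I)).re = z.re := by simp

/-- Sections which are bounded at good points are locally bounded. -/
lemma locb (h3 : CptStmt) {D : Pr} {B : Finset ℂ} (hB : Bad D B) (u : Ultrafilter ℕ)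
    (hu : (u : Filter ℕ) ≤ atTop) (s : ℕ → ℂ → V3) (hs : ∀ k, s k ∈ Sec D) (w : ℕ → ℂ)
    {r M R N : ℝ} (r0 : 0 < r)
    (h : ∀ᶠ k in u, (|(w k).re| ≤ M ∧ |(w k).im| ≤ R) ∧ Off B r (w k) ∧ ‖s k (w k)‖ ≤ N) (ρ : ℝ) :
    ∃ A : ℝ, ∀ᶠ k in u, ∀ z ∈ ball (0 : ℂ) ρ, ‖s k z‖ ≤ A := by
  obtain ⟨w₀, h₀⟩ := lim u w M R (h.mono fun k hk => hk.1)
  refine h3 D B u s (fun _ => id) (fun k => k) w 0 1 w₀ N hB
    (tendsto_natCast_atTop_atTop.mono_left hu) (Eventually.of_forall fun k => Sec.nm (hs k) _)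
    one_ne_zero (TendstoUniformly.tendstoLocallyUniformly fun v hv =>
      Eventually.of_forall fun _ x => by simpa using refl_mem_uniformity hv) h₀ (fun e => ?_)
    (h.mono fun k hk => hk.2.2) ρ
  rw [zero_add, one_mul] at e
  have t : Tendsto (fun k => ‖w k - w₀‖) u (𝓝 0) := tendsto_iff_norm_sub_tendsto_zero.1 h₀
  exact absurd (ge_of_tendsto t (h.mono fun k hk => hk.2.1 w₀ e)) (not_le.2 r0)

/-- Limits of locally bounded sections. -/
lemma mon (h4 : MonStmt) {D : Pr} (u : Ultrafilter ℕ) (s : ℕ → ℂ → V3) (hs : ∀ k, s k ∈ Sec D)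
    (h : ∀ ρ : ℝ, ∃ A : ℝ, ∀ᶠ k in u, ∀ z ∈ ball (0 : ℂ) ρ, ‖s k z‖ ≤ A) :
    ∃ G ∈ Sec D, ∀ (w : ℕ → ℂ) (w₀ : ℂ), Tendsto w u (𝓝 w₀) →
      Tendsto (fun k => s k (w k)) u (𝓝 (G w₀)) := by
  obtain ⟨G, g1, -, -, g2⟩ := h4 u s fun ρ => (h ρ).imp fun A hA =>
    hA.mono fun k hk => ⟨(hs k).1.differentiableOn, hk⟩
  exact ⟨G, sec_of_lim g1 (Eventually.of_forall hs) fun t => g2 _ t tendsto_const_nhds, g2⟩

lemma mon' (h1 : BdStmt) (h4 : MonStmt) {D : Pr} (u : Ultrafilter ℕ) (s : ℕ → ℂ → V3)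
    (hs : ∀ k, s k ∈ Sec D) : ∃ G ∈ Sec D, ∀ (w : ℕ → ℂ) (w₀ : ℂ), Tendsto w u (𝓝 w₀) →
      Tendsto (fun k => s k (w k)) u (𝓝 (G w₀)) :=
  mon h4 u s hs fun ρ => (h1 D ρ).imp fun _ hA => Eventually.of_forall fun k z hz =>
    hA _ (hs k) z ((Complex.abs_re_le_norm z).trans (mem_ball_zero_iff.1 hz).le)

lemma ne {D : Pr} {s : ℂ → V3} (h : s ∈ Sec D) (t : ℂ) : s t ≠ 0 :=
  ne_of_one D.hP D.a1 (by rw [(h.2 t).1]; exact one_ne_zero)

lemma hyp : ((hyperfilter ℕ : Ultrafilter ℕ) : Filter ℕ) ≤ atTop :=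
  Nat.cofinite_eq_atTop ▸ hyperfilter_le_cofinite

lemma sq_le (y : V3) : H4.sq y ≤ 3 * ‖y‖ ^ 2 := by
  have : ∀ i, ‖y i‖ ^ 2 ≤ ‖y‖ ^ 2 := fun i => by
    have := norm_le_pi_norm y i
    gcongr
  simp only [H4.sq, Fin.sum_univ_three]
  linarith [this 0, this 1, this 2]

end Bd

open Bd

theorem bd (h1 : BadStmt) (h2 : EscStmt) (h3 : CptStmt) (h4 : MonStmt) : BdStmt := by
  intro D M
  obtain ⟨B, hB⟩ := h1 D
  obtain ⟨r, M', N, r0, hE⟩ := h2 D B hB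
  by_contra hn
  have e : ∀ k : ℕ, ∃ s ∈ Sec D, ∃ t : ℂ, |t.re| ≤ M ∧ |t.im| ≤ 8 ∧ (k : ℝ) < ‖s t‖ := fun k => by
    by_contra hc
    refine hn ⟨k, fun s hs t ht => le_of_not_gt fun q => hc ?_⟩
    obtain ⟨n, τ, e1, e2, e3, -⟩ := red t
    exact ⟨_, Sec.shift hs n, τ, e2 ▸ ht, e3, e1 ▸ q⟩
  choose s hs t t1 t2 t3 using e
  rcases esc (hyperfilter ℕ) (fun k => {z | |z.re| ≤ M' ∧ Off B r z ∧ ‖s k z‖ < N}) (fun k => by
    obtain ⟨z, z1, -, z2⟩ := hE _ (hs k) 1 0 (Or.inl rfl)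
    exact ⟨z, z1, z2⟩) with ⟨τ, R, h⟩ | ⟨τ, n, σ, hσ, a1, a2⟩
  · obtain ⟨A, hA⟩ := locb h3 hB _ hyp s hs τ r0
      (h.mono fun k hk => ⟨⟨hk.1.1, hk.2⟩, hk.1.2.1, hk.1.2.2.le⟩) (M + 9)
    obtain ⟨k, k1, k2⟩ := (hA.and ((tendsto_natCast_atTop_atTop.mono_left hyp).eventually
      (eventually_ge_atTop A))).exists
    have := k1 (t k) (mem_ball_zero_iff.2 (by
      linarith [Complex.norm_le_abs_re_add_abs_im (t k), t1 k, t2 k]))
    linarith [t3 k]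
  · obtain ⟨G, g1, g2⟩ := mon h4 (hyperfilter ℕ) _ (fun k => Sec.shift (hs k) (n k))
      (locb h3 hB _ hyp _ (fun k => Sec.shift (hs k) (n k)) τ r0 (M := M') (R := 8) (N := N)
        (Eventually.of_forall fun k => ⟨⟨re_shift (τ k) (n k) ▸ (a1 k).1.1, (a1 k).2⟩, by
          have := (a1 k).1.2.1.shift (-n k)
          simpa using this, (a1 k).1.2.2.le⟩))
    obtain ⟨z, z1, z2, z3, z4⟩ := hE G g1 σ 9 hσ
    refine absurd (ge_of_tendsto (g2 _ z tendsto_const_nhds).norm ((a2 z z2).mono fun k hk => ?_))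
      (not_le.2 z4)
    exact le_of_not_gt fun q => hk ⟨(re_shift z (n k)).symm ▸ z1, z3.shift _, q⟩

theorem fin (h1 : BdStmt) (h2 : ExpStmt) (h3 : MonStmt) : FinStmt := by
  intro D
  by_contra hn
  obtain ⟨M, δ, δ0, hE⟩ := h2 D
  let e := Set.Infinite.natEmbedding _ hn
  have hs : ∀ k, (e k).1 ∈ Sec D := fun k => (e k).2
  obtain ⟨G, g1, g2⟩ := mon' h1 h3 (hyperfilter ℕ) _ hs
  have ev : ∀ᶠ k in (hyperfilter ℕ : Ultrafilter ℕ), (e k).1 ≠ G :=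
    hyperfilter_le_cofinite (Set.Subsingleton.finite fun a ha b hb => e.injective (Subtype.ext
      ((not_not.1 ha).trans (not_not.1 hb).symm)))
  have pos : ∀ g ∈ Sec D, ∀ z, 0 < δ * ‖g z‖ := fun g hg z =>
    mul_pos δ0 (norm_pos_iff.2 (ne hg z))
  rcases esc (hyperfilter ℕ)
    (fun k => {z | (e k).1 ≠ G → |z.re| ≤ M ∧ δ * ‖G z‖ < ‖G z - (e k).1 z‖}) (fun k => by
    by_contra hc
    refine hc ⟨0, fun q => absurd (hE G g1 _ (hs k) 1 0 (Or.inl rfl) fun z z1 _ => ?_).symm q⟩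
    exact le_of_not_gt fun q' => hc ⟨z, fun _ => ⟨z1, q'⟩⟩) with ⟨τ, R, h⟩ | ⟨τ, n, σ, hσ, a1, a2⟩
  · obtain ⟨w, hw⟩ := lim _ τ M R ((h.and ev).mono fun k hk => ⟨(hk.1.1 hk.2).1, hk.1.2⟩)
    have c : Tendsto (fun k => G (τ k)) _ (𝓝 (G w)) := (g1.1.continuous.tendsto w).comp hw
    have := le_of_tendsto_of_tendsto (c.norm.const_mul δ) (c.sub (g2 τ w hw)).norm
      ((h.and ev).mono fun k hk => (hk.1.1 hk.2).2.le)
    rw [sub_self, norm_zero] at this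
    exact absurd (pos G g1 w) (not_lt.2 this)
  · obtain ⟨g, p1, p2⟩ := mon' h1 h3 (hyperfilter ℕ) _ fun k => Sec.shift g1 (n k)
    obtain ⟨g', q1, q2⟩ := mon' h1 h3 (hyperfilter ℕ) _ fun k => Sec.shift (hs k) (n k)
    obtain ⟨w, hw⟩ := lim _ τ M 8 (ev.mono fun k hk =>
      ⟨re_shift (τ k) (n k) ▸ ((a1 k).1 hk).1, (a1 k).2⟩)
    have l1 := le_of_tendsto_of_tendsto ((p2 τ w hw).norm.const_mul δ)
      ((p2 τ w hw).sub (q2 τ w hw)).norm (ev.mono fun k hk => ((a1 k).1 hk).2.le)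
    have l2 : g = g' := hE g p1 g' q1 σ 9 hσ fun z z1 z2 =>
      le_of_tendsto_of_tendsto
        ((p2 _ z tendsto_const_nhds).sub (q2 _ z tendsto_const_nhds)).norm
        ((p2 _ z tendsto_const_nhds).norm.const_mul δ) ((a2 z z2).mono fun k hk =>
          le_of_not_gt fun q => hk fun _ => ⟨(re_shift z (n k)).symm ▸ z1, q⟩)
    rw [← l2, sub_self, norm_zero] at l1
    exact absurd (pos g p1 w) (not_lt.2 l1)

theorem cur (h1 : FinStmt) (h2 : PerStmt) (h3 : UnifStmt) (h4 : BdStmt) : CurStmt := by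
  intro D
  obtain ⟨A, hA⟩ := h4 D 0
  obtain ⟨_, _, _, -, -, -, hU⟩ := h3 D
  have one : ∀ s ∈ Sec D, ∃ (R : PR 3) (e : ℕ), R.IsHomogeneous e ∧ R ≠ 0 ∧
      ∀ t, eval (s t) R = 0 := fun s hs => by
    obtain ⟨Λ, hΛ⟩ := (hU s hs).2.2.2.2
    obtain ⟨n, n', hn, e⟩ := Set.Finite.exists_lt_map_eq_of_forall_mem
      (f := fun (n : ℕ) (t : ℂ) => s (t + ((n : ℤ) : ℂ) * (2 * Real.pi * Complex.I)))
      (fun n => Sec.shift hs n) (h1 D)
    refine h2 s (n' - n) (2 * |A| + |Λ|) hs.1 (by omega) (fun t => ?_) fun t => ?_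
    · have := congrFun e (t - n * (2 * Real.pi * Complex.I))
      simp only [Int.cast_natCast, sub_add_cancel] at this
      rw [this, Nat.cast_sub hn.le]
      congr 1
      ring
    · have a1 := hA s hs (t.im * Complex.I) (by simp)
      have a2 := (abs_le.1 (hΛ t (t.im * Complex.I))).2
      have a3 : ‖t - t.im * Complex.I‖ = |t.re| := by
        rw [show t - t.im * Complex.I = t.re by
          apply Complex.ext <;> simp, Complex.norm_real, Real.norm_eq_abs]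
      have p1 := R1.sq_pos' (ne hs t)
      have p2 := R1.sq_pos' (ne hs (t.im * Complex.I))
      have x0 := abs_nonneg t.re
      have A0 := abs_nonneg A
      have L0 := abs_nonneg Λ
      have a4 : H4.sq (s t) ≤ H4.sq (s (t.im * Complex.I)) *
          Real.exp ((2 * |A| + |Λ|) * |t.re|) ^ 2 := by
        rw [← Real.exp_log p1, ← Real.exp_log p2, ← Real.exp_nat_mul, ← Real.exp_add,
          Real.exp_le_exp]
        rw [a3, LL, LL] at a2
        have := mul_le_mul_of_nonneg_right (le_abs_self Λ) x0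
        push_cast
        nlinarith [mul_nonneg A0 x0, mul_nonneg L0 x0]
      have a5 : H4.sq (s (t.im * Complex.I)) ≤ (2 * |A| + |Λ|) ^ 2 := by
        have b1 := sq_le (s (t.im * Complex.I))
        have b2 : ‖s (t.im * Complex.I)‖ ^ 2 ≤ |A| ^ 2 := by
          have := a1.trans (le_abs_self A)
          gcongr
        nlinarith [mul_nonneg A0 L0]
      refine le_of_sq_le_sq ?_ (by positivity)
      rw [mul_pow]
      exact (R1.norm_sq_le _).trans (a4.trans (by gcongr))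
  choose! R e r1 r2 r3 using one
  refine ⟨∏ s ∈ (h1 D).toFinset, R s, ∑ s ∈ (h1 D).toFinset, e s,
    IsHomogeneous.prod _ _ _ fun s hs => r1 s (by simpa using hs),
    Finset.prod_ne_zero_iff.2 fun s hs => r2 s (by simpa using hs), fun s hs t => ?_⟩
  rw [map_prod]
  exact Finset.prod_eq_zero ((h1 D).mem_toFinset.2 hs) (r3 s hs t)

end Pool.Agent.MP_c69980_ag.G2
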