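import Pool.Agent.MP_c69980_ag.G2.Base
import Pool.Agent.MP_c69980_ag.H84.NL
import Pool.Agent.MP_c69980_ag.H26.Basic

/-!
The complement of two plane curves: discs near the base points, and compactness.
-/

set_option autoImplicit false

noncomputable section

namespace Pool.Agent.MP_c69980_ag.G2

open MvPolynomial Metric Filter Topology MeasureTheory Set
open H60 H4

namespace Bpt

/-- A disc of bounded speed has a bounded lift on a smaller disc. -/
lemma nrm (A : ℝ) : ∃ δ : ℝ, 0 < δ ∧ δ ≤ 1 ∧ ∀ F : ℂ → V3, Crv (ball 0 1) F →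
    (∀ z ∈ ball (0 : ℂ) 1, lam F z ≤ A) → ∃ φ : ℂ → ℂ, DifferentiableOn ℂ φ (ball 0 δ) ∧
      (∀ z ∈ ball (0 : ℂ) δ, φ z ≠ 0 ∧ ‖φ z • F z‖ ≤ 2) ∧ H4.sq (φ 0 • F 0) = 1 := by
  obtain ⟨e, K, e0, K0, hE⟩ := H84.eps R1.lapQ R1.minor R1.rep H26.logSub R1.scale 3
  set m := min e (1 / (2 * K)) with hm
  have m0 : 0 < m := by positivity
  have m2 : K * m ≤ 1 / 2 := by
    have := mul_le_mul_of_nonneg_left (min_le_right e (1 / (2 * K))) K0.le
    rwa [show K * (1 / (2 * K)) = 1 / 2 by field_simp] at this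
  set s := min 1 (m / (4 * (|A| + 1))) with hs
  have s0 : 0 < s := by positivity
  have s1 : s ≤ 1 := min_le_left _ _
  have s2 : s * (4 * (|A| + 1)) ≤ m := by
    rw [← le_div_iff₀ (by positivity)]; exact min_le_right _ _
  refine ⟨s / 16, by positivity, by linarith, fun F hF hA => ?_⟩
  have sb : ball (0 : ℂ) s ⊆ ball 0 1 := ball_subset_ball s1
  have sb' : ball (0 : ℂ) (s / 16) ⊆ ball 0 1 := ball_subset_ball (by linarith)
  have ar : mu (lam F) (ball 0 s) ≤ ENNReal.ofReal m := by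
    refine (setLIntegral_mono' (g := fun _ => ENNReal.ofReal |A|) measurableSet_ball fun z hz =>
      ENNReal.ofReal_le_ofReal ((hA z (sb hz)).trans (le_abs_self A))).trans ?_
    rw [setLIntegral_const, Complex.volume_ball, ← ENNReal.ofReal_pow s0.le,
      ← ENNReal.ofReal_coe_nnreal, NNReal.coe_real_pi, ← ENNReal.ofReal_mul (by positivity),
      ← ENNReal.ofReal_mul (abs_nonneg A)]
    refine ENNReal.ofReal_le_ofReal (le_trans ?_ s2)
    have a1 : s ^ 2 * Real.pi ≤ s * 4 := by nlinarith [Real.pi_le_four, Real.pi_pos]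
    nlinarith [mul_le_mul_of_nonneg_left a1 (abs_nonneg A)]
  have h := hE F 0 s m s0 ⟨hF.1.mono sb, fun z hz => hF.2 z (sb hz)⟩ m0.le (min_le_left _ _) ar
  have z0 : (0 : ℂ) ∈ ball (0 : ℂ) 1 := mem_ball_self one_pos
  obtain ⟨p, a, a0, hp, p1, p2⟩ := H84.unit (hF.2 0 z0)
  have key : ∀ z ∈ ball (0 : ℂ) (s / 16), H4.sq (F z) ≤ 2 * ‖ip (F z) p‖ ^ 2 := fun z hz => by
    have q := H84.sq_pos' (hF.2 z (sb' hz))
    have d := (h z hz).2.trans m2
    rw [← H84.d2_smul one_ne_zero a0, one_smul, ← hp, d2, p1, mul_one] at d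
    have : 1 / 2 ≤ ‖ip (F z) p‖ ^ 2 / H4.sq (F z) := by linarith
    rw [le_div_iff₀ q] at this
    linarith
  have ne : ∀ z ∈ ball (0 : ℂ) (s / 16), ip (F z) p ≠ 0 := fun z hz e => by
    have q := H84.sq_pos' (hF.2 z (sb' hz))
    have := key z hz
    rw [e] at this
    simp at this
    linarith
  refine ⟨fun z => (ip (F z) p)⁻¹, (H84.ip_hol (hF.1.mono sb') p).inv ne,
    fun z hz => ⟨inv_ne_zero (ne z hz), ?_⟩, ?_⟩
  · refine (H84.norm_le_sq _).trans (Real.sqrt_le_iff.2 ⟨by norm_num, ?_⟩)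
    have q := pow_pos (norm_pos_iff.2 (ne z hz)) 2
    rw [H84.sq_smul, norm_inv, inv_pow, inv_mul_le_iff₀ q]
    linarith [key z hz]
  · rw [H84.sq_smul, norm_inv, inv_pow, p2, inv_mul_cancel₀ (H84.sq_pos' (hF.2 0 z0)).ne']

lemma par {x y : V3} (h : crossProduct x y = 0) (i k : Fin 3) : x k * y i = x i * y k := by
  have h0 := congrFun h 0
  have h1 := congrFun h 1
  have h2 := congrFun h 2
  simp [cross_apply] at h0 h1 h2
  fin_cases i <;> fin_cases k <;> simp <;>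
    first
      | linear_combination h0
      | linear_combination -h0
      | linear_combination h1
      | linear_combination -h1
      | linear_combination h2
      | linear_combination -h2

/-- Two vectors killed by two independent covectors are parallel. -/
lemma lamv_zero {u v y w : V3} (h : crossProduct u v ≠ 0) (hy : y ≠ 0) (a : u ⬝ᵥ y = 0)
    (b : v ⬝ᵥ y = 0) (c : u ⬝ᵥ w = 0) (d : v ⬝ᵥ w = 0) : lamv y w ≤ 0 := by
  obtain ⟨k, hk⟩ := Function.ne_iff.1 h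
  have e1 : crossProduct (crossProduct u v) y = 0 := by
    rw [cross_cross_eq_smul_sub_smul]
    simp [a, b]
  have e2 : crossProduct (crossProduct u v) w = 0 := by
    rw [cross_cross_eq_smul_sub_smul]
    simp [c, d]
  have e : ∀ i j, w i * y j - y i * w j = 0 := fun i j => by
    refine (mul_eq_zero.1 ?_).resolve_left (pow_ne_zero 2 hk)
    have f1 := par e1 i k
    have f2 := par e1 j k
    have f3 := par e2 i k
    have f4 := par e2 j k
    generalize crossProduct u v = x at *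
    linear_combination (x k * y j) * f3 + (x i * w k) * f2 - (x k * w j) * f1 - (x i * y k) * f4
  have q := (R1.minor 3 y w hy).2.1
  simp only [e, norm_zero, ne_eq, OfNat.ofNat_ne_zero, not_false_eq_true, zero_pow,
    Finset.sum_const_zero] at q
  exact nonpos_of_mul_nonpos_left q (pow_pos (H84.sq_pos' hy) 2)

lemma sq_cont : Continuous fun y : V3 => H4.sq y := by unfold H4.sq; fun_prop

lemma lamv_cont {y w : V3} (hy : y ≠ 0) : ContinuousAt (fun p : V3 × V3 => lamv p.1 p.2) (y, w) := by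
  have := H84.sq_pos' hy
  unfold lamv
  refine ContinuousAt.div ?_ ?_ (by positivity)
  · unfold H4.sq ip; fun_prop
  · unfold H4.sq; fun_prop

/-- A form that tends to zero at the centre vanishes along the limit to first order. -/
lemma van {l : Filter ℕ} [l.NeBot] {G : ℕ → ℂ → V3} {g : ℂ → V3} {δ : ℝ} (hδ : 0 < δ) {P : PR 3}
    {a : ℕ} (hP : P.IsHomogeneous a) {ν : ℕ → ℝ} (hν : Tendsto ν l (𝓝 0))
    (h : ∀ k, DifferentiableOn ℂ (G k) (ball 0 δ) ∧ ∀ z ∈ ball (0 : ℂ) δ, ‖G k z‖ ≤ 2 ∧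
      eval (G k z) P ≠ 0) (h0 : ∀ k, ‖eval (G k 0) P‖ ≤ ν k * ‖G k 0‖ ^ a)
    (hg : TendstoLocallyUniformlyOn G g l (ball 0 δ)) :
    eval (g 0) P = 0 ∧ gd P (g 0) ⬝ᵥ g 0 = 0 ∧ gd P (g 0) ⬝ᵥ deriv g 0 = 0 := by
  have z0 : (0 : ℂ) ∈ ball (0 : ℂ) δ := mem_ball_self hδ
  have t0 := hg.tendsto_at z0
  have e : eval (g 0) P = 0 := by
    have := le_of_tendsto_of_tendsto' (((MvPolynomial.continuous_eval P).tendsto _).comp t0).norm
      (hν.mul (t0.norm.pow a)) h0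
    simpa using this
  refine ⟨e, by rw [euler hP, e, mul_zero], ?_⟩
  have ev := (H18.hurwitz_ev isOpen_ball P (Eventually.of_forall h) hg z0).resolve_left (by simp [e])
  have hd := (hg.differentiableOn (Eventually.of_forall fun k => (h k).1) isOpen_ball).differentiableAt
    (isOpen_ball.mem_nhds z0)
  exact (chainG hd.hasDerivAt P).unique ((hasDerivAt_const (0 : ℂ) (0 : ℂ)).congr_of_eventuallyEq ev)

lemma one (D : Pr) (ε A : ℝ) (hε : 0 < ε) : ∃ ν : ℝ, 0 < ν ∧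
    ∀ F : ℂ → V3, DifferentiableOn ℂ F (ball 0 1) →
    (∀ z ∈ ball (0 : ℂ) 1, eval (F z) D.P ≠ 0 ∧ eval (F z) D.Q ≠ 0 ∧ lam F z ≤ A) →
    ‖eval (F 0) D.P‖ ≤ ν * ‖F 0‖ ^ D.a → ‖eval (F 0) D.Q‖ ≤ ν * ‖F 0‖ ^ D.b → lam F 0 ≤ ε := by
  by_contra hn
  push Not at hn
  choose F F1 F2 F3 F4 F5 using fun k : ℕ => hn (1 / ((k : ℝ) + 1)) (by positivity)
  obtain ⟨δ, d0, d1, hδ⟩ := nrm A
  have cr : ∀ k, Crv (ball 0 1) (F k) := fun k =>
    ⟨F1 k, fun z hz => ne_of_one D.hP D.a1 (F2 k z hz).1⟩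
  choose φ p1 p2 p3 using fun k => hδ (F k) (cr k) fun z hz => (F2 k z hz).2.2
  have sb : ball (0 : ℂ) δ ⊆ ball 0 1 := ball_subset_ball d1
  have z0 : (0 : ℂ) ∈ ball (0 : ℂ) δ := mem_ball_self d0
  set G : ℕ → ℂ → V3 := fun k z => φ k z • F k z with hG
  have G1 : ∀ k, DifferentiableOn ℂ (G k) (ball 0 δ) := fun k => (p1 k).smul ((F1 k).mono sb)
  let u : Ultrafilter ℕ := hyperfilter ℕ
  have hu : (u : Filter ℕ) ≤ atTop := Nat.cofinite_eq_atTop ▸ hyperfilter_le_cofinite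
  obtain ⟨g, hg⟩ := H18.ulim u isOpen_ball (A := 2) (Φ := G)
    (Eventually.of_forall fun k => ⟨G1 k, fun z hz => (p2 k z hz).2⟩)
  have hν : Tendsto (fun k : ℕ => 1 / ((k : ℝ) + 1)) u (𝓝 0) :=
    tendsto_one_div_add_atTop_nhds_zero_nat.mono_left hu
  have V : ∀ {P : PR 3} {a : ℕ}, P.IsHomogeneous a →
      (∀ k, ∀ z ∈ ball (0 : ℂ) 1, eval (F k z) P ≠ 0) →
      (∀ k : ℕ, ‖eval (F k 0) P‖ ≤ 1 / ((k : ℝ) + 1) * ‖F k 0‖ ^ a) →
      eval (g 0) P = 0 ∧ gd P (g 0) ⬝ᵥ g 0 = 0 ∧ gd P (g 0) ⬝ᵥ deriv g 0 = 0 :=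
    fun {P a} hP h1 h2 => van d0 hP hν (fun k => ⟨G1 k, fun z hz => ⟨(p2 k z hz).2, by
      simp only [hG]
      rw [eval_smul_hom hP]
      exact mul_ne_zero (pow_ne_zero _ (p2 k z hz).1) (h1 k z (sb hz))⟩⟩) (fun k => by
      simp only [hG]
      rw [eval_smul_hom hP, norm_mul, norm_pow, norm_smul, mul_pow, mul_left_comm]
      exact mul_le_mul_of_nonneg_left (h2 k) (by positivity)) hg
  obtain ⟨a1, a2, a3⟩ := V D.hP (fun k z hz => (F2 k z hz).1) F3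
  obtain ⟨-, b2, b3⟩ := V D.hQ (fun k z hz => (F2 k z hz).2.1) F4
  have t0 := hg.tendsto_at z0
  have g0 : g 0 ≠ 0 := fun e => by
    have := tendsto_nhds_unique ((sq_cont.tendsto _).comp t0)
      (tendsto_const_nhds.congr fun k => (p3 k).symm)
    rw [e] at this
    simp [H4.sq] at this
  have t1 := (hg.deriv (Eventually.of_forall G1) isOpen_ball).tendsto_at z0
  have t2 := (lamv_cont (w := deriv g 0) g0).tendsto.comp (t0.prodMk_nhds t1)
  have le := lamv_zero (D.tr _ g0 (by rw [a1, zero_mul])) g0 a2 b2 a3 b3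
  refine absurd (ge_of_tendsto' t2 fun k => ?_) (not_le.2 (le.trans_lt hε))
  have d2 : deriv (G k) 0 = φ k 0 • deriv (F k) 0 + deriv (φ k) 0 • F k 0 :=
    (((p1 k).differentiableAt (isOpen_ball.mem_nhds z0)).hasDerivAt.smul
      ((F1 k).differentiableAt (isOpen_ball.mem_nhds (sb z0))).hasDerivAt).deriv
  have d3 := (R1.minor 3 (F k 0) (deriv (F k) 0) ((cr k).2 0 (sb z0))).2.2.2.1 (φ k 0)
    (deriv (φ k) 0) (p2 k 0 z0).1
  rw [← d2] at d3
  exact (F5 k).le.trans_eq d3.symm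

/-- Harnack's inequality near a good point. -/
lemma loc (hH : HypStmt) (hG : GradStmt) {D : Pr} {B : Finset ℂ} {l : Filter ℕ} {F : ℕ → ℂ → V3}
    {h : ℕ → ℂ → ℂ} {R : ℕ → ℝ} {f : ℂ → ℂ} (hB : Bad D B) (hR : Tendsto R l atTop)
    (hN : ∀ᶠ k in l, Nm D (ball 0 (R k)) (F k) (h k)) (hf : Continuous f)
    (hh : TendstoLocallyUniformly h f l) {z₀ : ℂ} (hz : Complex.exp (f z₀) ∉ B) :
    ∃ δ : ℝ, 0 < δ ∧ ∀ A : ℝ, ∃ A' : ℝ, ∀ᶠ k in l, ∀ x ∈ ball z₀ δ, ‖F k x‖ ≤ A →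
      ∀ y ∈ ball z₀ δ, ‖F k y‖ ≤ A' := by
  obtain ⟨η, η0, hη⟩ := Metric.isOpen_iff.1 B.finite_toSet.isClosed.isOpen_compl _ hz
  have far : ∀ᶠ v in 𝓝 (Complex.exp (f z₀)), Far B (η / 2) v := by
    filter_upwards [ball_mem_nhds _ (half_pos η0)] with v hv β hβ
    have a : η ≤ dist β (Complex.exp (f z₀)) := le_of_not_gt fun q => hη q hβ
    have b := dist_triangle_left β (Complex.exp (f z₀)) v
    rw [mem_ball] at hv
    rw [← dist_eq_norm]
    linarith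
  have T : Tendsto (fun y : ℕ × ℂ => h y.1 y.2) (l ×ˢ 𝓝 z₀) (𝓝 (f z₀)) :=
    ((hf.tendsto z₀).comp tendsto_snd).congr_uniformity
      (tendstoLocallyUniformly_iff_forall_tendsto.1 hh z₀)
  obtain ⟨pa, ha, pb, hb, hab⟩ := eventually_prod_iff.1
    (((Complex.continuous_exp.tendsto _).comp T).eventually far)
  obtain ⟨r, r0, hr⟩ := Metric.eventually_nhds_iff_ball.1 hb
  obtain ⟨A₀, -, hA⟩ := hH D B (η / 2) hB (half_pos η0)
  obtain ⟨m, m0, hm⟩ := low D.hP D.a1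
  obtain ⟨θ, C, θ0, -, -, hC⟩ := hG m A₀ m0
  refine ⟨θ * (r / 2), by positivity, fun A => ⟨Real.exp (9 * (A + C) - C), ?_⟩⟩
  filter_upwards [ha, hN, hR.eventually_ge_atTop (‖z₀‖ + r)] with k k1 k2 k3 x hx hxA y hy
  have s1 : ball z₀ r ⊆ ball 0 (R k) := ball_subset_ball' (by rw [dist_zero_right]; linarith)
  have s2 : ball z₀ (r / 2) ⊆ ball z₀ r := ball_subset_ball (by linarith)
  have H := hC (F k) z₀ (r / 2) (half_pos r0) (k2.1.mono (s2.trans s1)) fun z hz => by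
    have s3 : ball z (r / 2) ⊆ ball z₀ r := ball_subset_ball' (by linarith [mem_ball.1 hz])
    exact ⟨hm _ (k2.2.2 z (s1 (s2 hz))).1, hA (F k) (h k) z (r / 2) (half_pos r0)
      (k2.mono (s3.trans s1)) fun w hw => hab k1 (hr w (s3 hw))⟩
  have a := (H x (ball_subset_closedBall hx)).2.2.1
  have b := (H y (ball_subset_closedBall hy)).2.1
  have c := Real.log_le_self (norm_nonneg (F k x))
  exact (Real.le_exp_log _).trans (Real.exp_le_exp.2 (by linarith))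

end Bpt

theorem bpt : BptStmt := fun D ε A hε => by
  obtain ⟨ν, ν0, h⟩ := Bpt.one D ε A hε
  refine ⟨ν, ν0, fun F c r hr h1 h2 h3 h4 => ?_⟩
  have e := (H84.scale R1.scale (F := F) (c := c) hr 1).2
  rw [mul_one] at e
  have m : ∀ w ∈ ball (0 : ℂ) 1, c + r * w ∈ ball c r := fun w hw => by rwa [← e] at hw
  have sc := (R1.scale 3 F c r hr).1
  have := h (fun w => F (c + r * w)) (h1.comp (by fun_prop) m) (fun z hz =>
    ⟨(h2 _ (m z hz)).1, (h2 _ (m z hz)).2.1, by rw [sc, mul_comm]; exact (h2 _ (m z hz)).2.2⟩)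
    (by simpa using h3) (by simpa using h4)
  rw [sc, mul_comm] at this
  simpa using this

theorem cpt (hH : HypStmt) (hG : GradStmt) : CptStmt := by
  intro D B l F h R w t₀ c w₀ A hB hR hN hc hh hw hw₀ hA ρ
  have L := fun z₀ hz => Bpt.loc hH hG hB hR hN (by fun_prop) hh (z₀ := z₀) hz
  set Z : Set ℂ := (fun z => t₀ + c * z) ⁻¹' (Complex.exp ⁻¹' (B : Set ℂ)) with hZ
  have ct : Z.Countable := (Complex.countable_preimage_exp.2 B.countable_toSet).preimage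
    fun x y e => mul_left_cancel₀ hc (add_left_cancel e)
  have pc : IsPreconnected Zᶜ := (ct.isPathConnected_compl_of_one_lt_rank (by
    rw [Complex.rank_real_complex]; norm_num)).isConnected.isPreconnected
  have T0 : ∃ A' : ℝ, ∀ᶠ k in l, ‖F k w₀‖ ≤ A' := by
    obtain ⟨δ, d0, hδ⟩ := L w₀ hw₀
    obtain ⟨A', h'⟩ := hδ A
    refine ⟨A', ?_⟩
    filter_upwards [h', hA, hw (ball_mem_nhds _ d0)] with k k1 k2 k3
    exact k1 _ k3 k2 _ (mem_ball_self d0)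
  have T1 : ∀ z ∈ Zᶜ, ∃ A' : ℝ, ∀ᶠ k in l, ‖F k z‖ ≤ A' := fun z hz => by
    refine pc.induction₂' (fun x y => (∃ A' : ℝ, ∀ᶠ k in l, ‖F k x‖ ≤ A') →
      ∃ A' : ℝ, ∀ᶠ k in l, ‖F k y‖ ≤ A') (fun x hx => ?_) ?_ hw₀ hz T0
    · obtain ⟨δ, d0, hδ⟩ := L x hx
      filter_upwards [mem_nhdsWithin_of_mem_nhds (ball_mem_nhds x d0)] with y hy
      constructor
      · rintro ⟨A₁, h₁⟩
        obtain ⟨A', h'⟩ := hδ A₁
        exact ⟨A', (h'.and h₁).mono fun k hk => hk.1 x (mem_ball_self d0) hk.2 y hy⟩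
      · rintro ⟨A₁, h₁⟩
        obtain ⟨A', h'⟩ := hδ A₁
        exact ⟨A', (h'.and h₁).mono fun k hk => hk.1 y hy hk.2 x (mem_ball_self d0)⟩
    · exact fun _ _ _ _ _ _ a b x => b (a x)
  obtain ⟨ρ', h1, h2, -⟩ := ((ct.image norm).dense_compl ℝ).exists_between (lt_add_one (max ρ 0))
  have r0 : 0 < ρ' := (le_max_right _ _).trans_lt h2
  have T2 : ∃ A' : ℝ, ∀ᶠ k in l, ∀ y ∈ sphere (0 : ℂ) ρ', ‖F k y‖ ≤ A' := by
    refine (isCompact_sphere (0 : ℂ) ρ').induction_on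
      (p := fun S => ∃ A' : ℝ, ∀ᶠ k in l, ∀ y ∈ S, ‖F k y‖ ≤ A') ⟨0, by simp⟩
      (fun s t hst ⟨A', h'⟩ => ⟨A', h'.mono fun k hk y hy => hk y (hst hy)⟩)
      (fun s t ⟨A₁, h₁⟩ ⟨A₂, h₂⟩ => ⟨max A₁ A₂, (h₁.and h₂).mono fun k hk y hy =>
        hy.elim (fun a => le_max_of_le_left (hk.1 y a)) fun a => le_max_of_le_right (hk.2 y a)⟩)
      fun x hx => ?_
    have xz : x ∈ Zᶜ := fun q => h1 ⟨x, q, mem_sphere_zero_iff_norm.1 hx⟩
    obtain ⟨δ, d0, hδ⟩ := L x xz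
    obtain ⟨A₁, h₁⟩ := T1 x xz
    obtain ⟨A', h'⟩ := hδ A₁
    exact ⟨ball x δ, mem_nhdsWithin_of_mem_nhds (ball_mem_nhds x d0), A',
      (h'.and h₁).mono fun k hk => hk.1 x (mem_ball_self d0) hk.2⟩
  obtain ⟨A', h'⟩ := T2
  refine ⟨A', ?_⟩
  filter_upwards [h', hN, hR.eventually_gt_atTop ρ'] with k k1 k2 k3 z hz
  refine Complex.norm_le_of_forall_mem_frontier_norm_le (U := ball 0 ρ') isBounded_ball
    (DifferentiableOn.diffContOnCl ?_) (fun y hy => k1 y (by rwa [frontier_ball _ r0.ne'] at hy))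
    (subset_closure (ball_subset_ball ((le_max_left _ _).trans h2.le) hz))
  rw [closure_ball _ r0.ne']
  exact k2.1.mono (closedBall_subset_ball k3)

end Pool.Agent.MP_c69980_ag.G2
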