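import Pool.Agent.MP_c69980_ag.G2.Base

/-!
No bubbles at the base points: the local expansion at a base point.
-/

set_option autoImplicit false

noncomputable section

namespace Pool.Agent.MP_c69980_ag.G2.Bub

open MvPolynomial Metric Filter Topology Set Asymptotics
open H60 H4

lemma line (P : PR 3) (b v : V3) :
    HasDerivAt (fun w : ℂ => eval (b + w • v) P) (gd P b ⬝ᵥ v) 0 := by
  have h : HasDerivAt (fun w : ℂ => b + w • v) v 0 := by
    simpa using ((hasDerivAt_id (0 : ℂ)).smul_const v).const_add b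
  simpa using chainG h P

lemma strict (P : PR 3) (b : V3) :
    (fun x : V3 × V3 => eval x.1 P - eval x.2 P - gd P b ⬝ᵥ (x.1 - x.2)) =o[𝓝 (b, b)]
      fun x => x.1 - x.2 := by
  have h := (AnalyticOnNhd.eval_mvPolynomial P b (mem_univ _)).hasStrictFDerivAt
  have e : ∀ v, fderiv ℂ (fun y : V3 => eval y P) b v = gd P b ⬝ᵥ v := fun v => by
    have h1 : HasDerivAt (fun w : ℂ => b + w • v) v 0 := by
      simpa using ((hasDerivAt_id (0 : ℂ)).smul_const v).const_add b
    exact (h.hasFDerivAt.comp_hasDerivAt_of_eq 0 h1 (by simp)).unique (line P b v)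
  simpa only [e] using h.isLittleO

lemma basis {l p q b : V3} (hl : l ⬝ᵥ b = 1) (hp : p ⬝ᵥ b = 0) (hq : q ⬝ᵥ b = 0)
    (h : crossProduct p q ≠ 0) : ∃ e e' : V3, p ⬝ᵥ e = 1 ∧ p ⬝ᵥ e' = 0 ∧
      ∀ v, l ⬝ᵥ v = 1 → v - b = (p ⬝ᵥ v) • e + (q ⬝ᵥ v) • e' := by
  have id : ∀ v : V3, (l ⬝ᵥ crossProduct p q) • v = (l ⬝ᵥ v) • crossProduct p q +
      (p ⬝ᵥ v) • crossProduct q l + (q ⬝ᵥ v) • crossProduct l p := fun v => by
    ext i
    fin_cases i <;> simp [cross_apply, Matrix.vec3_dotProduct, Matrix.vecHead, Matrix.vecTail] <;>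
      ring
  have hb := id b
  rw [hl, hp, hq, one_smul, zero_smul, zero_smul, add_zero, add_zero] at hb
  set Δ := l ⬝ᵥ crossProduct p q with hΔ
  have Δ0 : Δ ≠ 0 := fun e => h (by rw [← hb, e, zero_smul])
  refine ⟨Δ⁻¹ • crossProduct q l, Δ⁻¹ • crossProduct l p, ?_, ?_, fun v hv => ?_⟩
  · rw [dotProduct_smul, ← triple_product_permutation, ← hΔ, smul_eq_mul, inv_mul_cancel₀ Δ0]
  · rw [dotProduct_smul, dot_cross_self, smul_zero]
  · have := id v
    rw [hv, one_smul, ← hb] at this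
    apply smul_right_injective _ Δ0
    simp only [smul_sub, smul_add, this, smul_smul]
    rw [add_assoc, add_sub_cancel_left]
    congr 2 <;> field_simp

lemma linQ {Q : PR 3} (h : Q.IsHomogeneous 1) (b y : V3) : eval y Q = gd Q b ⬝ᵥ y := by
  have e : gd Q b = gd Q y := funext fun i => by
    have h0 : (pderiv i Q).IsHomogeneous 0 := h.pderiv
    rw [← totalDegree_zero_iff_isHomogeneous, totalDegree_eq_zero_iff_eq_C] at h0
    simp only [gd]
    rw [h0, eval_C, eval_C]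
  rw [e, euler h]
  simp

lemma poly (P : PR 3) (b e : V3) : ∃ U : Polynomial ℂ, ∀ w : ℂ, U.eval w = eval (b + w • e) P := by
  induction P using MvPolynomial.induction_on with
  | C c => exact ⟨Polynomial.C c, fun w => by simp⟩
  | add p q hp hq =>
    obtain ⟨U, hU⟩ := hp
    obtain ⟨V, hV⟩ := hq
    exact ⟨U + V, fun w => by rw [Polynomial.eval_add, hU, hV, map_add]⟩
  | mul_X p i hp =>
    obtain ⟨U, hU⟩ := hp
    exact ⟨U * (Polynomial.C (b i) + Polynomial.X * Polynomial.C (e i)), fun w => by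
      rw [Polynomial.eval_mul, hU, map_mul, eval_X]; simp [mul_comm w]⟩

lemma order (P : PR 3) {b e : V3} {d : ℕ} (hd : 2 ≤ d) (h0 : eval b P = 0)
    (h1 : gd P b ⬝ᵥ e = 0) : ∃ (j : ℕ) (V : ℂ → ℂ), 2 ≤ j ∧ j ≤ d ∧ Continuous V ∧
      (j < d → V 0 ≠ 0) ∧ ∀ w : ℂ, eval (b + w • e) P = w ^ j * V w := by
  classical
  obtain ⟨U, hU⟩ := poly P b e
  have h2 : Polynomial.X ^ 2 ∣ U := by
    rw [Polynomial.X_pow_dvd_iff]
    intro k hk
    interval_cases k
    · rw [Polynomial.coeff_zero_eq_eval_zero, hU]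
      simpa using h0
    · have a1 := (U.hasDerivAt 0).unique (by simpa only [hU] using line P b e)
      rw [h1, ← Polynomial.coeff_zero_eq_eval_zero, Polynomial.coeff_derivative] at a1
      simpa using a1
  obtain ⟨V, hV⟩ := Nat.findGreatest_spec (P := fun j => Polynomial.X ^ j ∣ U) hd h2
  refine ⟨Nat.findGreatest (fun j => Polynomial.X ^ j ∣ U) d, fun w => V.eval w,
    Nat.le_findGreatest (P := fun j => Polynomial.X ^ j ∣ U) hd h2, Nat.findGreatest_le d,
    V.continuous, fun hj h => ?_, fun w => by rw [← hU]; nth_rewrite 1 [hV]; simp⟩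
  refine Nat.findGreatest_is_greatest (P := fun j => Polynomial.X ^ j ∣ U) (Nat.lt_succ_self _)
    hj ?_
  refine Dvd.dvd.trans ?_ (dvd_of_eq hV.symm)
  rw [pow_succ]
  exact mul_dvd_mul_left _ (Polynomial.X_dvd_iff.2 (by rwa [Polynomial.coeff_zero_eq_eval_zero]))

lemma pow_O {ι : Type} {F : Filter ι} {κ : ι → ℂ} (h : Tendsto κ F (𝓝 0)) {i j : ℕ} (hij : i ≤ j) :
    (fun x => κ x ^ j) =O[F] fun x => κ x ^ i :=
  IsBigO.of_bound' ((h.eventually (closedBall_mem_nhds 0 one_pos)).mono fun x hx => by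
    rw [norm_pow, norm_pow]
    exact pow_le_pow_of_le_one (norm_nonneg _) (by simpa using hx) hij)

lemma key (D : Pr) {b l : V3} (hl : l ⬝ᵥ b = 1) (hP : eval b D.P = 0) (hQ : eval b D.Q = 0) :
    ∃ (p : V3) (m n : ℕ) (δ v : ℂ), ((1 ≤ m ∧ δ = 0 ∧ v ≠ 0) ∨ (2 ≤ m ∧ 1 ≤ n ∧ δ = 1)) ∧
      ∀ (F : Filter (ℕ × ℂ)) (κ E : ℕ × ℂ → ℂ) (σ : ℕ × ℂ → V3) (C : ℝ), Tendsto σ F (𝓝 b) →
        Tendsto κ F (𝓝 0) → (∀ᶠ i in F, κ i ≠ 0 ∧ l ⬝ᵥ σ i = 1 ∧ eval (σ i) D.P = κ i ^ D.a ∧
          eval (σ i) D.Q = E i * κ i ^ D.b ∧ ‖E i‖ ≤ C) →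
        Tendsto (fun i => (p ⬝ᵥ σ i) / κ i ^ (m + 1) - (δ - v * E i ^ n)) F (𝓝 0) := by
  have b0 : b ≠ 0 := fun e => by simp [e] at hl
  have hp : gd D.P b ⬝ᵥ b = 0 := by rw [euler D.hP, hP, mul_zero]
  have hq : gd D.Q b ⬝ᵥ b = 0 := by rw [euler D.hQ, hQ, mul_zero]
  obtain ⟨e, e', pe, pe', dec⟩ := basis hl hp hq (D.tr b b0 (by rw [hP, zero_mul]))
  rcases D.b1.eq_or_lt with h1 | h1
  · have d3 : 3 ≤ D.a := by have := D.d4; omega
    obtain ⟨j, V, j2, jd, cV, V0, hV⟩ := order D.P (d := D.a) (by omega) hP pe'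
    refine ⟨gd D.P b, j - 1, j, if j = D.a then 1 else 0, V 0, ?_, ?_⟩
    · by_cases h : j = D.a
      · exact Or.inr ⟨by omega, by omega, if_pos h⟩
      · exact Or.inl ⟨by omega, if_neg h, V0 (lt_of_le_of_ne jd h)⟩
    intro F κ E σ C hσ hκ hF
    rw [show j - 1 + 1 = j by omega]
    have EO : E =O[F] fun _ => (1 : ℝ) := IsBigO.of_bound C (hF.mono fun i hi => by
      simpa using hi.2.2.2.2)
    have hw : Tendsto (fun i => E i * κ i) F (𝓝 0) :=
      hκ.zero_mul_isBoundedUnder_le (isBigO_one_iff ℝ |>.1 EO) |>.congr fun i => mul_comm _ _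
    have hVw : Tendsto (fun i => V (E i * κ i)) F (𝓝 (V 0)) := (cV.tendsto 0).comp hw
    have s1 := (strict D.P b).comp_tendsto (hσ.prodMk_nhds
      (show Tendsto (fun i => b + (E i * κ i) • e') F (𝓝 b) by
        simpa using (hw.smul_const e').const_add b))
    have dd : ∀ᶠ i in F, σ i - (b + (E i * κ i) • e') = (gd D.P b ⬝ᵥ σ i) • e :=
      hF.mono fun i hi => by
        have := linQ (h1 ▸ D.hQ) b (σ i)
        rw [hi.2.2.2.1, ← h1, pow_one] at this
        rw [← sub_sub, dec _ hi.2.1, this, add_sub_cancel_right]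
    have s2 : (fun i => κ i ^ D.a - (E i * κ i) ^ j * V (E i * κ i) - gd D.P b ⬝ᵥ σ i) =o[F]
        fun i => gd D.P b ⬝ᵥ σ i := by
      refine ((s1.congr' ?_ dd).trans_isBigO ?_)
      · filter_upwards [hF, dd] with i hi hd
        simp only [Function.comp]
        rw [hd, hV, hi.2.2.1, dotProduct_smul, pe, smul_eq_mul, mul_one]
      · exact IsBigO.of_bound ‖e‖ (Eventually.of_forall fun i => by rw [norm_smul, mul_comm])
    have EO' : (fun i => E i ^ j) =O[F] fun _ => (1 : ℝ) := by simpa using EO.pow j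
    have s3 : (fun i => gd D.P b ⬝ᵥ σ i) =O[F] fun i => κ i ^ j := by
      refine s2.right_isBigO_add.trans ?_
      simp only [sub_add_cancel, mul_pow]
      refine (pow_O hκ jd).sub ?_
      have := (EO'.mul (isBigO_refl (fun i => ‖κ i ^ j‖) F).of_norm_left).mul (hVw.isBigO_one ℝ)
      simp only [one_mul, mul_one] at this
      exact this.of_norm_right
    have s4 := (s2.trans_isBigO s3).tendsto_div_nhds_zero
    have s5 : Tendsto (fun i => κ i ^ (D.a - j)) F (𝓝 (if j = D.a then 1 else 0)) := by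
      split_ifs with h
      · simpa only [h, Nat.sub_self, pow_zero] using tendsto_const_nhds
      · simpa [zero_pow (show D.a - j ≠ 0 by omega)] using hκ.pow (D.a - j)
    have s6 : Tendsto (fun i => (V (E i * κ i) - V 0) * E i ^ j) F (𝓝 0) :=
      (tendsto_sub_nhds_zero_iff.2 hVw).zero_mul_isBoundedUnder_le ((isBigO_one_iff ℝ).1 EO')
    have s7 := ((tendsto_sub_nhds_zero_iff.2 s5).sub s6).sub s4
    rw [sub_zero, sub_zero] at s7
    refine s7.congr' (hF.mono fun i hi => ?_)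
    have k0 := hi.1
    have : κ i ^ D.a = κ i ^ (D.a - j) * κ i ^ j := by rw [← pow_add]; congr 1; omega
    simp only [this, mul_pow]
    field_simp
    ring
  · refine ⟨gd D.Q b, D.b - 1, 1, 0, -1, Or.inl ⟨by omega, rfl, by simp⟩, ?_⟩
    intro F κ E σ C hσ hκ hF
    rw [show D.b - 1 + 1 = D.b by omega]
    have EO : E =O[F] fun _ => (1 : ℝ) := IsBigO.of_bound C (hF.mono fun i hi => by
      simpa using hi.2.2.2.2)
    have t := hσ.prodMk_nhds (tendsto_const_nhds (x := b))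
    have sP : (fun i => eval (σ i) D.P - gd D.P b ⬝ᵥ σ i) =o[F] fun i => σ i - b := by
      simpa [Function.comp_def, hP, hp] using (strict D.P b).comp_tendsto t
    have sQ : (fun i => eval (σ i) D.Q - gd D.Q b ⬝ᵥ σ i) =o[F] fun i => σ i - b := by
      simpa [Function.comp_def, hQ, hq] using (strict D.Q b).comp_tendsto t
    have sm : ∀ (f : ℕ × ℂ → ℂ) (x : V3), (fun i => f i • x) =O[F] f := fun f x =>
      IsBigO.of_bound ‖x‖ (Eventually.of_forall fun i => by rw [norm_smul, mul_comm])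
    have s1 := (((sm _ e).trans_isLittleO sP).add ((sm _ e').trans_isLittleO sQ)).right_isBigO_add
    have s2 : (fun i => σ i - b) =O[F] fun i => κ i ^ D.b := by
      refine s1.trans ((((sm _ e).trans (pow_O hκ D.ba)).add
        ((sm (fun i => E i * κ i ^ D.b) e').trans ?_)).congr' ?_ EventuallyEq.rfl)
      · have := EO.mul (isBigO_refl (fun i => ‖κ i ^ D.b‖) F).of_norm_left
        simp only [one_mul] at this
        exact this.of_norm_right
      · filter_upwards [hF] with i hi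
        rw [dec _ hi.2.1, hi.2.2.1, hi.2.2.2.1]
        module
    have s4 := (sQ.trans_isBigO s2).tendsto_div_nhds_zero.neg
    rw [neg_zero] at s4
    refine s4.congr' (hF.mono fun i hi => ?_)
    have k0 := hi.1
    simp only [hi.2.2.2.1]
    field_simp
    ring

end Pool.Agent.MP_c69980_ag.G2.Bub
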