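import Pool.Agent.MP_c69980_ag.G2.BubA
import Pool.Agent.MP_c69980_ag.G2.BubB

/-!
No bubbles at the base points.
-/

set_option autoImplicit false

noncomputable section

namespace Pool.Agent.MP_c69980_ag.G2

open MvPolynomial Metric Filter Topology Set
open scoped ComplexConjugate
open H60 H4

lemma Bub.close {y b : V3} {η : ℝ} (hy : y ≠ 0) (hb : H4.sq b = 1) (hη : η ≤ 1 / 2)
    (h : 1 - η ≤ ‖ip y b‖ ^ 2 / H4.sq y) :
    ip y b ≠ 0 ∧ ‖y‖ ≤ 2 * ‖ip y b‖ ∧ ‖(ip y b)⁻¹ • y - b‖ ^ 2 ≤ 2 * η := by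
  have p := R1.sq_pos' hy
  rw [le_div_iff₀ p] at h
  have h1 : H4.sq y ≤ 2 * ‖ip y b‖ ^ 2 := by nlinarith
  have a0 : ip y b ≠ 0 := fun e => by
    rw [e] at h1
    simp only [norm_zero] at h1
    linarith
  have b0 : b ≠ 0 := fun e => by simp [e, H4.sq] at hb
  have n0 := norm_pos_iff.2 a0
  refine ⟨a0, ?_, (R1.norm_sq_le _).trans ?_⟩
  · refine (pow_le_pow_iff_left₀ (norm_nonneg _) (by positivity) two_ne_zero).1 ?_
    nlinarith [R1.norm_sq_le y]
  · have e : (ip y b)⁻¹ • y - b = (ip y b)⁻¹ • (y - (ip y b / H4.sq b) • b) := by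
      rw [hb, smul_sub, smul_smul]
      simp [a0]
    rw [e, R1.sq_smul, H84.sq_proj b0, hb, norm_inv, inv_pow, inv_mul_le_iff₀ (by positivity)]
    have c := H84.cs y b
    rw [hb] at c
    have : 0 ≤ η := by nlinarith
    nlinarith

lemma Bub.small (hB : BptStmt) {D : Pr} {t₀ : ℂ} {A r : ℝ} (hr : 0 < r) {s : ℕ → ℂ → V3}
    (hs : ∀ k, Nm D (ball t₀ (2 * r)) (s k) id)
    (hA : ∀ k : ℕ, ∀ t ∈ ball t₀ (2 * r), r / 4 < ‖t - t₀‖ → lam (s k) t ≤ A ∧ (k : ℝ) ≤ ‖s k t‖)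
    {η : ℝ} (hη : 0 < η) : ∀ᶠ k in atTop, ∀ t, r / 2 ≤ ‖t - t₀‖ → ‖t - t₀‖ ≤ 3 * r / 2 →
      lam (s k) t ≤ η ^ 2 := by
  obtain ⟨ν, ν0, hν⟩ := hB D (η ^ 2 * (r / 4) ^ 2) (A * (r / 4) ^ 2) (by positivity)
  have T : Tendsto (fun k : ℕ => ν * k) atTop atTop :=
    tendsto_natCast_atTop_atTop.const_mul_atTop ν0
  filter_upwards [T.eventually_ge_atTop 1, T.eventually_ge_atTop (Real.exp (t₀.re + 2 * r)),
    eventually_ge_atTop 1] with k k1 k2 k3 t h1 h2
  have sub : ∀ z ∈ ball t (r / 4), z ∈ ball t₀ (2 * r) ∧ r / 4 < ‖z - t₀‖ := fun z hz => by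
    rw [mem_ball_iff_norm] at hz ⊢
    have a1 := norm_add_le (z - t) (t - t₀)
    have a2 := norm_sub_le (z - t₀) (z - t)
    rw [sub_add_sub_cancel] at a1
    rw [sub_sub_sub_cancel_left] at a2
    constructor <;> linarith
  have ht := sub t (mem_ball_self (by positivity))
  have hk := (hA k t ht.1 ht.2).2
  have k4 : (1 : ℝ) ≤ k := by exact_mod_cast k3
  have pw : ∀ a : ℕ, 1 ≤ a → ν * k ≤ ν * ‖s k t‖ ^ a := fun a ha => by
    gcongr
    exact hk.trans (le_self_pow₀ (k4.trans hk) (by omega))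
  have := hν (s k) t (r / 4) (by positivity) ((hs k).1.mono fun z hz => (sub z hz).1)
    (fun z hz => by
      obtain ⟨a1, a2⟩ := (hs k).2.2 z (sub z hz).1
      refine ⟨by rw [a1]; exact one_ne_zero, by rw [a2]; exact Complex.exp_ne_zero _, ?_⟩
      gcongr
      exact (hA k z (sub z hz).1 (sub z hz).2).1)
    (by rw [((hs k).2.2 t ht.1).1, norm_one]; exact k1.trans (pw _ D.a1))
    (by
      rw [((hs k).2.2 t ht.1).2, Complex.norm_exp]
      refine le_trans (Real.exp_le_exp.2 ?_) (k2.trans (pw _ D.b1))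
      have := Complex.re_le_norm (t - t₀)
      simp only [Complex.sub_re, id] at this ⊢
      linarith)
  exact le_of_mul_le_mul_right this (by positivity)

theorem bub (hB : BptStmt) : BubStmt := by
  intro D t₀ A ε r hε hr _
  by_contra hcon
  push Not at hcon
  choose s hs hA z hz hz' using fun k : ℕ => hcon k
  let u : Ultrafilter ℕ := Ultrafilter.of atTop
  have hu : (u : Filter ℕ) ≤ atTop := Ultrafilter.of_le _
  let An : Set ℂ := {t | r / 2 ≤ ‖t - t₀‖ ∧ ‖t - t₀‖ ≤ 3 * r / 2}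
  have sub : ∀ t, ‖t - t₀‖ ≤ 3 * r / 2 → t ∈ ball t₀ (2 * r) := fun t h => by
    rw [mem_ball_iff_norm]; linarith
  have dif : ∀ k t, ‖t - t₀‖ ≤ 3 * r / 2 → DifferentiableAt ℂ (s k) t := fun k t h =>
    (hs k).1.differentiableAt (isOpen_ball.mem_nhds (sub t h))
  have ne : ∀ k t, ‖t - t₀‖ ≤ 3 * r / 2 → s k t ≠ 0 := fun k t h => (hs k).crv.2 t (sub t h)
  have c0 : t₀ + r ∈ An := by
    simp only [An, mem_ofPred_eq, add_sub_cancel_left, Complex.norm_real, Real.norm_eq_abs,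
      abs_of_pos hr]
    constructor <;> linarith
  choose p α α0 hp p1 _p2 using fun k => H84.unit (ne k _ c0.2)
  obtain ⟨b, -, hb⟩ := (isCompact_closedBall (0 : V3) 1).ultrafilter_le_nhds (u.map p) (by
    rw [Ultrafilter.coe_map, le_principal_iff, mem_map]
    refine univ_mem' fun k => ?_
    have := R1.norm_sq_le (p k)
    rw [p1] at this
    simpa using (sq_le_one_iff₀ (norm_nonneg _)).1 this)
  replace hb : Tendsto p u (𝓝 b) := hb
  have b1 : H4.sq b = 1 := tendsto_nhds_unique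
    (((by unfold H4.sq; fun_prop : Continuous fun y : V3 => H4.sq y).tendsto b).comp hb)
    (tendsto_const_nhds.congr fun k => (p1 k).symm)
  have st2 : ∀ η : ℝ, 0 < η → ∀ᶠ k in u, ∀ t ∈ An,
      1 - η ≤ ‖ip (s k t) b‖ ^ 2 / H4.sq (s k t) := fun η hη => by
    have T : Tendsto (fun k => ‖ip (p k) b‖ ^ 2) u (𝓝 1) := by
      have := ((by unfold ip; fun_prop : Continuous fun y : V3 => ‖ip y b‖ ^ 2).tendsto b).comp hb
      rwa [← R1.sq_ip, b1, Complex.ofReal_one, norm_one, one_pow] at this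
    filter_upwards [T.eventually (lt_mem_nhds (show 1 - η / 2 < 1 by linarith)),
      hu (Bub.small hB hr hs hA (show 0 < η / (30 * r) by positivity))] with k k1 k2 t ht
    have := Bub.osc hr (show 0 ≤ η / (30 * r) by positivity) b1
      (fun w h1 h2 => ⟨dif k w h2, ne k w h2, k2 w h1 h2⟩) ht.1 ht.2
    have e : ‖ip (s k (t₀ + r)) b‖ ^ 2 / H4.sq (s k (t₀ + r)) = ‖ip (p k) b‖ ^ 2 := by
      have q := p1 k
      rw [hp k, R1.sq_smul] at q
      rw [hp k, R1.ip_smul, norm_mul, mul_pow, div_eq_iff (R1.sq_pos' (ne k _ c0.2)).ne']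
      linear_combination (-‖ip (s k (t₀ + r)) b‖ ^ 2) * q
    have e2 : 15 * r * (η / (30 * r)) = η / 2 := by field_simp; ring
    rw [e, e2] at this
    linarith
  have st3 : ∀ η : ℝ, 0 < η → ∀ᶠ k in u, ∀ t ∈ An, ip (s k t) b ≠ 0 ∧
      ‖s k t‖ ≤ 2 * ‖ip (s k t) b‖ ∧ ‖(ip (s k t) b)⁻¹ • s k t - b‖ ≤ η := fun η hη => by
    filter_upwards [st2 (min (1 / 2) (η ^ 2 / 2)) (by positivity)] with k hk t ht
    obtain ⟨a1, a2, a3⟩ := Bub.close (ne k t ht.2) b1 (min_le_left _ _) (hk t ht)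
    refine ⟨a1, a2, (pow_le_pow_iff_left₀ (norm_nonneg _) hη.le two_ne_zero).1 ?_⟩
    linarith [min_le_right (1 / 2) (η ^ 2 / 2)]
  let F : Filter (ℕ × ℂ) := (u : Filter ℕ) ×ˢ 𝓟 An
  have : F.NeBot := prod_neBot.2 ⟨inferInstance, principal_neBot_iff.2 ⟨_, c0⟩⟩
  let κ : ℕ × ℂ → ℂ := fun i => (ip (s i.1 i.2) b)⁻¹
  let σ : ℕ × ℂ → V3 := fun i => κ i • s i.1 i.2
  let l : V3 := fun i => conj (b i)
  have hl : ∀ y : V3, l ⬝ᵥ y = ip y b := fun y => Finset.sum_congr rfl fun i _ => mul_comm _ _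
  have hσ : Tendsto σ F (𝓝 b) := Metric.tendsto_nhds.2 fun η hη =>
    eventually_prod_principal_iff.2 ((st3 (η / 2) (by positivity)).mono fun k hk t ht => by
      rw [dist_eq_norm]
      exact (hk t ht).2.2.trans_lt (by linarith))
  have hκ : Tendsto κ F (𝓝 0) := by
    refine squeeze_zero_norm' (a := fun i => 2 / (i.1 : ℝ)) (eventually_prod_principal_iff.2 ?_)
      (((tendsto_const_div_atTop_nhds_zero_nat 2).mono_left hu).comp tendsto_fst)
    filter_upwards [st3 1 one_pos, hu (eventually_gt_atTop 0)] with k hk k0 t ht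
    have a1 := (hA k t (sub t ht.2) (by linarith [ht.1])).2
    have a2 := norm_pos_iff.2 (hk t ht).1
    have a3 : (0 : ℝ) < k := by exact_mod_cast k0
    simp only [κ, norm_inv]
    rw [inv_eq_one_div, div_le_div_iff₀ a2 a3]
    linarith [(hk t ht).2.1]
  have hF : ∀ᶠ i in F, κ i ≠ 0 ∧ l ⬝ᵥ σ i = 1 ∧ eval (σ i) D.P = κ i ^ D.a ∧
      eval (σ i) D.Q = Complex.exp i.2 * κ i ^ D.b ∧
        ‖Complex.exp i.2‖ ≤ Real.exp (t₀.re + 2 * r) := by
    refine eventually_prod_principal_iff.2 ((st3 1 one_pos).mono fun k hk t ht => ?_)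
    obtain ⟨a1, a2⟩ := (hs k).2.2 t (sub t ht.2)
    refine ⟨inv_ne_zero (hk t ht).1, ?_, ?_, ?_, ?_⟩
    · rw [hl, R1.ip_smul]
      exact inv_mul_cancel₀ (hk t ht).1
    · rw [eval_smul_hom D.hP, a1, mul_one]
    · rw [eval_smul_hom D.hQ, a2, mul_comm]
      rfl
    · rw [Complex.norm_exp, Real.exp_le_exp]
      have := Complex.re_le_norm (t - t₀)
      rw [Complex.sub_re] at this
      linarith [ht.2]
  have hP : eval b D.P = 0 :=
    tendsto_nhds_unique (((MvPolynomial.continuous_eval D.P).tendsto b).comp hσ)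
      ((by simpa [zero_pow (show D.a ≠ 0 by have := D.a1; omega)] using hκ.pow D.a :
        Tendsto (fun i => κ i ^ D.a) F (𝓝 0)).congr' (hF.mono fun i hi => hi.2.2.1.symm))
  have hQ : eval b D.Q = 0 :=
    tendsto_nhds_unique (((MvPolynomial.continuous_eval D.Q).tendsto b).comp hσ)
      (((by simpa [zero_pow (show D.b ≠ 0 by have := D.b1; omega)] using hκ.pow D.b :
        Tendsto (fun i => κ i ^ D.b) F (𝓝 0)).zero_mul_isBoundedUnder_le
          (g := fun i : ℕ × ℂ => Complex.exp i.2) ⟨Real.exp (t₀.re + 2 * r),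
            eventually_map.2 (hF.mono fun i hi => hi.2.2.2.2)⟩).congr'
            (hF.mono fun i hi => (hi.2.2.2.1.trans (mul_comm _ _)).symm))
  obtain ⟨q, m, n, δ, v, hc, hk⟩ := Bub.key D (l := l) (by rw [hl, ← R1.sq_ip, b1]; rfl) hP hQ
  have T := hk F κ (fun i => Complex.exp i.2) σ _ hσ hκ hF
  let ψ : ℕ → ℂ → ℂ := fun k t => ip (s k t) b ^ m * (q ⬝ᵥ s k t) - (δ - v * Complex.exp t ^ n)
  have dψ : ∀ k t, ‖t - t₀‖ ≤ 3 * r / 2 → HasDerivAt (ψ k)
      (m * ip (s k t) b ^ (m - 1) * ip (deriv (s k) t) b * (q ⬝ᵥ s k t) +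
        ip (s k t) b ^ m * (q ⬝ᵥ deriv (s k) t) -
          -(v * (n * Complex.exp t ^ (n - 1) * Complex.exp t))) t := fun k t h => by
    have d := hasDerivAt_pi.1 (dif k t h).hasDerivAt
    have d1 : HasDerivAt (fun t => ip (s k t) b) (ip (deriv (s k) t) b) t :=
      HasDerivAt.fun_sum fun i _ => (d i).mul_const _
    have d2 : HasDerivAt (fun t => q ⬝ᵥ s k t) (q ⬝ᵥ deriv (s k) t) t :=
      HasDerivAt.fun_sum fun i _ => (d i).const_mul _
    exact ((d1.fun_pow m).fun_mul d2).fun_sub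
      ((((Complex.hasDerivAt_exp t).fun_pow n).const_mul v).const_sub δ)
  have st4 : ∀ η : ℝ, 0 < η → ∀ᶠ k in u, ∀ t, ‖t - t₀‖ ≤ 5 * r / 4 →
      ‖ψ k t‖ ≤ η ∧ ‖deriv (ψ k) t‖ ≤ η / (r / 4) := fun η hη => by
    have h1 := eventually_prod_principal_iff.1 (hF.and (Metric.tendsto_nhds.1 T η hη))
    refine h1.mono fun k hk t ht => Bub.maxd (c := t₀) (R := 3 * r / 2)
      (fun w hw => (dψ k w (mem_closedBall_iff_norm.1 hw)).differentiableAt) (fun w hw => ?_)
      (by positivity) (by linarith)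
    obtain ⟨a1, a2⟩ := hk w ⟨by linarith, hw.le⟩
    have a0 : ip (s k w) b ≠ 0 := fun e => a1.1 (by simp only [κ, e, inv_zero])
    rw [dist_zero_right] at a2
    refine le_trans (le_of_eq ?_) a2.le
    congr 1
    simp only [ψ, σ, κ, dotProduct_smul, smul_eq_mul, inv_pow]
    field_simp
    ring
  have st5 : ∀ᶠ k in u, ∀ t, ‖t - t₀‖ ≤ 5 * r / 4 → ip (s k t) b ≠ 0 := by
    rcases hc with ⟨m1, rfl, v0⟩ | ⟨m2, n1, rfl⟩
    · have v1 := norm_pos_iff.2 v0
      filter_upwards [st4 (‖v‖ * Real.exp (t₀.re - 2 * r) ^ n / 2) (by positivity)] with k hk t ht a0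
      have h1 := (hk t ht).1
      simp only [ψ, a0, zero_pow (show m ≠ 0 by omega), zero_mul, zero_sub, neg_neg, norm_mul,
        norm_pow, Complex.norm_exp] at h1
      have h2 : Real.exp (t₀.re - 2 * r) ^ n ≤ Real.exp t.re ^ n := by
        have := Complex.re_le_norm (t₀ - t)
        rw [Complex.sub_re, norm_sub_rev] at this
        gcongr
        linarith
      have h3 : 0 < ‖v‖ * Real.exp (t₀.re - 2 * r) ^ n := by positivity
      nlinarith
    · filter_upwards [st4 (r / (2 * (r + 4))) (by positivity)] with k hk t ht a0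
      obtain ⟨h1, h2⟩ := hk t ht
      rw [(dψ k t (by linarith)).deriv] at h2
      simp only [ψ, a0, zero_pow (show m ≠ 0 by omega), zero_pow (show m - 1 ≠ 0 by omega),
        zero_mul, mul_zero, zero_sub, neg_neg, add_zero, norm_neg] at h1 h2
      have e : v * (n * Complex.exp t ^ (n - 1) * Complex.exp t) = n * (v * Complex.exp t ^ n) := by
        rw [mul_assoc, ← pow_succ, Nat.sub_add_cancel n1]; ring
      rw [e, norm_mul, Complex.norm_natCast] at h2
      have h3 := norm_add_le (1 - v * Complex.exp t ^ n) (v * Complex.exp t ^ n)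
      rw [sub_add_cancel, norm_one] at h3
      have n2 : (1 : ℝ) ≤ n := by exact_mod_cast n1
      have h4 : r / (2 * (r + 4)) + r / (2 * (r + 4)) / (r / 4) = 1 / 2 := by field_simp
      nlinarith [norm_nonneg (v * Complex.exp t ^ n)]
  obtain ⟨k, k1, k2⟩ := (st5.and (st3 (√(ε / 3) * (r / 4)) (by positivity))).exists
  have zr : ‖z k - t₀‖ < r := mem_ball_iff_norm.1 (hz k)
  have dκ : ∀ t, ‖t - t₀‖ ≤ 5 * r / 4 → DifferentiableAt ℂ (fun t => (ip (s k t) b)⁻¹) t :=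
    fun t h => DifferentiableAt.fun_inv (DifferentiableAt.fun_sum fun i _ =>
      (differentiableAt_pi.1 (dif k t (by linarith)) i).mul_const _) (k1 t h)
  have h1 := (Bub.maxd (f := fun t => (ip (s k t) b)⁻¹ • s k t - b) (c := t₀) (z := z k)
    (R := 5 * r / 4) (ρ := r / 4)
    (fun w hw => ((dκ w (mem_closedBall_iff_norm.1 hw)).fun_smul
      (dif k w (by linarith [mem_closedBall_iff_norm.1 hw]))).sub_const b)
    (fun w hw => (k2 w ⟨by linarith, by linarith⟩).2.2) (by positivity) (by linarith)).2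
  rw [(((dκ (z k) (by linarith)).hasDerivAt.fun_smul
    (dif k (z k) (by linarith)).hasDerivAt).sub_const b).deriv,
    mul_div_cancel_right₀ _ (by positivity)] at h1
  have a0 := k1 (z k) (by linarith)
  have y0 := ne k (z k) (by linarith)
  have σ0 : (ip (s k (z k)) b)⁻¹ • s k (z k) ≠ 0 := smul_ne_zero (inv_ne_zero a0) y0
  have h2 := (R1.minor 3 _ (deriv (s k) (z k)) y0).2.2.2.1 _
    (deriv (fun t => (ip (s k t) b)⁻¹) (z k)) (inv_ne_zero a0)
  have h3 := H84.cs ((ip (s k (z k)) b)⁻¹ • s k (z k)) b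
  rw [R1.ip_smul, inv_mul_cancel₀ a0, b1, norm_one, one_pow, mul_one] at h3
  refine (hz' k).not_ge ?_
  rw [lam, ← h2]
  refine (R1.minor 3 _ _ σ0).2.2.1.trans ((div_le_self (R1.sq_nn _) h3).trans
    ((H84.sq_le_norm _).trans ?_))
  have h4 := pow_le_pow_left₀ (norm_nonneg _) h1 2
  rw [Real.sq_sqrt (by positivity)] at h4
  push_cast
  linarith

end Pool.Agent.MP_c69980_ag.G2
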