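import Pool.Agent.MP_c69980_ag.G2.Base
import Pool.Agent.MP_c69980_ag.H84.Alg

/-!
No bubbles at the base points: analytic lemmas.
-/

set_option autoImplicit false

noncomputable section

namespace Pool.Agent.MP_c69980_ag.G2.Bub

open Metric Filter Topology Set
open scoped ComplexConjugate
open H60 H4

/-- The derivative of the squared cosine of the Fubini-Study distance along a real path. -/
lemma cos_deriv {n : ℕ} {y : ℝ → Fin n → ℂ} {y' b : Fin n → ℂ} {τ : ℝ} (h : HasDerivAt y y' τ)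
    (hy : y τ ≠ 0) (hb : H4.sq b = 1) :
    ∃ g, HasDerivAt (fun τ => ‖ip (y τ) b‖ ^ 2 / H4.sq (y τ)) g τ ∧
      ‖g‖ ≤ 2 * √(lamv (y τ) y') := by
  have p := R1.sq_pos' hy
  have h1 : HasDerivAt (fun τ => ip (y τ) b) (ip y' b) τ :=
    HasDerivAt.fun_sum fun i _ => (hasDerivAt_pi.1 h i).mul_const _
  have h2 : HasDerivAt (fun τ => H4.sq (y τ)) (2 * (ip y' (y τ)).re) τ := by
    refine (HasDerivAt.fun_sum (u := Finset.univ)
      fun i _ => (hasDerivAt_pi.1 h i).norm_sq).congr_deriv ?_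
    simp only [ip, Complex.re_sum, Finset.mul_sum, Complex.inner]
  refine ⟨_, h1.norm_sq.fun_div h2 p.ne', ?_⟩
  set Y := y τ
  set α : ℂ := ip y' Y / H4.sq Y with hα
  set w := y' - α • Y with hw
  have e1 : H4.sq w = lamv Y y' * H4.sq Y := by
    rw [hw, hα, H84.sq_proj hy, lamv]
    field_simp
  have e2 : ip y' b = ip w b + α * ip Y b := by
    rw [hw, H84.ip_sub_left, H84.ip_smul_left]
    ring
  have e3 : (ip y' Y).re = α.re * H4.sq Y := by
    rw [hα, Complex.div_ofReal_re]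
    field_simp
  have e4 : (2 * inner ℝ (ip Y b) (ip y' b) * H4.sq Y - ‖ip Y b‖ ^ 2 * (2 * (ip y' Y).re)) /
      H4.sq Y ^ 2 = 2 * (ip w b * conj (ip Y b)).re / H4.sq Y := by
    rw [e2, e3, Complex.inner, Complex.sq_norm, Complex.normSq_apply]
    field_simp
    simp
    ring
  rw [e4, Real.norm_eq_abs, abs_div, abs_of_pos p, div_le_iff₀ p, abs_mul, abs_two, mul_assoc]
  gcongr
  refine (Complex.abs_re_le_norm _).trans ?_
  rw [norm_mul, Complex.norm_conj]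
  have c1 := H84.cs w b
  have c2 := H84.cs Y b
  rw [hb, mul_one] at c1 c2
  have l0 := R1.lamv_nn Y y'
  refine (pow_le_pow_iff_left₀ (by positivity) (by positivity) two_ne_zero).1 ?_
  rw [mul_pow, mul_pow, Real.sq_sqrt l0]
  calc _ ≤ H4.sq w * H4.sq Y := by gcongr; exact R1.sq_nn w
    _ = _ := by rw [e1]; ring

/-- Small density on an annulus gives small oscillation. -/
lemma osc {n : ℕ} {s : ℂ → Fin n → ℂ} {t₀ t : ℂ} {r η : ℝ} {b : Fin n → ℂ} (hr : 0 < r)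
    (hη : 0 ≤ η) (hb : H4.sq b = 1)
    (hs : ∀ z, r / 2 ≤ ‖z - t₀‖ → ‖z - t₀‖ ≤ 3 * r / 2 →
      DifferentiableAt ℂ s z ∧ s z ≠ 0 ∧ lam s z ≤ η ^ 2)
    (h1 : r / 2 ≤ ‖t - t₀‖) (h2 : ‖t - t₀‖ ≤ 3 * r / 2) :
    ‖ip (s (t₀ + r)) b‖ ^ 2 / H4.sq (s (t₀ + r)) - 15 * r * η ≤ ‖ip (s t) b‖ ^ 2 / H4.sq (s t) := by
  have r0 : (r : ℂ) ≠ 0 := by exact_mod_cast hr.ne'
  have t0 : t - t₀ ≠ 0 := norm_pos_iff.1 (by linarith)
  set L := Complex.log ((t - t₀) / r) with hL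
  have eL : Complex.exp L = (t - t₀) / r := Complex.exp_log (div_ne_zero t0 r0)
  have ex : Real.exp L.re = ‖t - t₀‖ / r := by
    rw [← Complex.norm_exp, eL, norm_div, Complex.norm_real, Real.norm_eq_abs, abs_of_pos hr]
  have x1 : 1 / 2 ≤ Real.exp L.re := by rw [ex, le_div_iff₀ hr]; linarith
  have x2 : Real.exp L.re ≤ 3 / 2 := by rw [ex, div_le_iff₀ hr]; linarith
  have nL : ‖L‖ ≤ 5 := by
    refine (Complex.norm_le_abs_re_add_abs_im L).trans ?_
    have a1 : |L.im| ≤ Real.pi := by rw [hL, Complex.log_im]; exact Complex.abs_arg_le_pi _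
    have a2 := Real.add_one_le_exp L.re
    have a3 := Real.add_one_le_exp (-L.re)
    have a4 : Real.exp (-L.re) ≤ 2 := by
      rw [Real.exp_neg, inv_le_comm₀ (Real.exp_pos _) two_pos]; linarith
    have a5 : |L.re| ≤ 1 := abs_le.2 ⟨by linarith, by linarith⟩
    linarith [Real.pi_le_four]
  let γ : ℝ → ℂ := fun τ => t₀ + r * Complex.exp (τ * L)
  have hγ : ∀ τ : ℝ, HasDerivAt γ (r * (Complex.exp (τ * L) * L)) τ := fun τ => by
    have := (((hasDerivAt_id (τ : ℂ)).mul_const L).cexp.const_mul (r : ℂ)).const_add t₀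
    exact this.comp_ofReal.congr_deriv (by simp)
  have hn : ∀ τ ∈ Icc (0 : ℝ) 1, 1 / 2 ≤ ‖Complex.exp (τ * L)‖ ∧ ‖Complex.exp (τ * L)‖ ≤ 3 / 2 := by
    intro τ hτ
    rw [Complex.norm_exp, Complex.re_ofReal_mul]
    rcases le_total 0 L.re with h | h
    · exact ⟨le_trans (by norm_num) (Real.one_le_exp (mul_nonneg hτ.1 h)),
        le_trans (Real.exp_le_exp.2 (mul_le_of_le_one_left h hτ.2)) x2⟩
    · exact ⟨x1.trans (Real.exp_le_exp.2 (by nlinarith [hτ.2])),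
        le_trans (Real.exp_le_one_iff.2 (mul_nonpos_of_nonneg_of_nonpos hτ.1 h)) (by norm_num)⟩
  have key : ∀ τ : ℝ, ∃ g, τ ∈ Icc (0 : ℝ) 1 →
      HasDerivAt (fun τ => ‖ip (s (γ τ)) b‖ ^ 2 / H4.sq (s (γ τ))) g τ ∧ ‖g‖ ≤ 15 * r * η := by
    intro τ
    by_cases hτ : τ ∈ Icc (0 : ℝ) 1
    swap
    · exact ⟨0, fun h => absurd h hτ⟩
    obtain ⟨n1, n2⟩ := hn τ hτ
    have e : ‖γ τ - t₀‖ = r * ‖Complex.exp (τ * L)‖ := by
      simp [γ, abs_of_pos hr]
    obtain ⟨d, s0, hl⟩ := hs (γ τ) (by rw [e]; nlinarith) (by rw [e]; nlinarith)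
    have d2 : HasDerivAt (fun τ => s (γ τ)) ((r * (Complex.exp (τ * L) * L)) • deriv s (γ τ)) τ :=
      d.hasDerivAt.scomp_of_eq τ (hγ τ) rfl
    obtain ⟨g, g1, g2⟩ := cos_deriv d2 s0 hb
    refine ⟨g, fun _ => ⟨g1, g2.trans ?_⟩⟩
    rw [R1.lamv_smul, Real.sqrt_mul (by positivity), Real.sqrt_sq (norm_nonneg _), norm_mul,
      norm_mul, Complex.norm_real, Real.norm_eq_abs, abs_of_pos hr]
    have : √(lamv (s (γ τ)) (deriv s (γ τ))) ≤ η := Real.sqrt_le_iff.2 ⟨hη, hl⟩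
    calc _ ≤ 2 * (r * (3 / 2 * 5) * η) := by gcongr
      _ = _ := by ring
  choose g hg using key
  have := norm_image_sub_le_of_norm_deriv_le_segment_01'
    (fun τ hτ => (hg τ hτ).1.hasDerivWithinAt) fun τ hτ => (hg τ (Ico_subset_Icc_self hτ)).2
  have e0 : γ 0 = t₀ + r := by simp [γ]
  have e1 : γ 1 = t := by
    simp only [γ, Complex.ofReal_one, one_mul, eL]
    field_simp
    ring
  rw [e0, e1, Real.norm_eq_abs, abs_le] at this
  linarith [this.1]

/-- The maximum principle and Cauchy's estimate. -/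
lemma maxd {E : Type} [NormedAddCommGroup E] [NormedSpace ℂ E] {f : ℂ → E} {c z : ℂ} {R ρ η : ℝ}
    (hf : ∀ w ∈ closedBall c R, DifferentiableAt ℂ f w) (h : ∀ w, ‖w - c‖ = R → ‖f w‖ ≤ η)
    (hρ : 0 < ρ) (hz : ‖z - c‖ + ρ ≤ R) : ‖f z‖ ≤ η ∧ ‖deriv f z‖ ≤ η / ρ := by
  have R0 : R ≠ 0 := (by linarith [norm_nonneg (z - c)] : 0 < R).ne'
  have hd : ∀ x y, closedBall x y ⊆ closedBall c R → DiffContOnCl ℂ f (ball x y) := fun x y a =>
    DifferentiableOn.diffContOnCl fun w hw =>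
      (hf w (a (closure_ball_subset_closedBall hw))).differentiableWithinAt
  have m : ∀ w ∈ closedBall c R, ‖f w‖ ≤ η := fun w hw =>
    Complex.norm_le_of_forall_mem_frontier_norm_le isBounded_ball (hd c R subset_rfl)
      (fun v hv => h v (by rwa [frontier_ball c R0, mem_sphere_iff_norm] at hv))
      (by rwa [closure_ball c R0])
  have sub : closedBall z ρ ⊆ closedBall c R :=
    closedBall_subset_closedBall' (by rw [dist_eq_norm]; linarith)
  exact ⟨m z (sub (mem_closedBall_self hρ.le)),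
    Complex.norm_deriv_le_of_forall_mem_sphere_norm_le hρ (hd z ρ sub)
      fun w hw => m w (sub (sphere_subset_closedBall hw))⟩

end Pool.Agent.MP_c69980_ag.G2.Bub
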