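import Pool.Agent.MP_c69980_ag.G2.Base

/-!
The Carleman argument in a half-plane.
-/

set_option autoImplicit false

noncomputable section

namespace Pool.Agent.MP_c69980_ag.G2

open Metric Filter Topology MeasureTheory Set
open scoped ContDiff
open H60 H4 H4.R1

namespace Carl

theorem D_re {g : ℂ → ℂ} {w : ℂ} (hg : DifferentiableAt ℂ g w) (v : ℂ) :
    D v (fun w => (g w).re) w = (deriv g w * v).re := by
  have := Complex.reCLM.hasFDerivAt.comp w (hg.hasDerivAt.hasFDerivAt.restrictScalars ℝ)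
  rw [D, show (fun w => (g w).re) = Complex.reCLM ∘ g from rfl, this.fderiv]
  simp [mul_comm]

theorem reH {h : ℂ → ℂ} {z : ℂ} (hh : AnalyticAt ℂ h z) :
    ContDiffAt ℝ ∞ (fun w => (h w).re) z ∧ lap (fun w => (h w).re) z = 0 ∧
      ‖grad (fun w => (h w).re) z‖ = ‖deriv h z‖ := by
  have key : ∀ v, D v (D v fun w => (h w).re) z = (deriv (deriv h) z * v * v).re := fun v => by
    have : D v (fun w => (h w).re) =ᶠ[𝓝 z] fun w => (deriv h w * v).re :=
      hh.eventually_analyticAt.mono fun w hw => D_re hw.differentiableAt v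
    rw [(D_congr this v).self_of_nhds, D_re (hh.deriv.differentiableAt.mul_const v),
      deriv_mul_const_field]
  refine ⟨Complex.reCLM.contDiff.contDiffAt.comp z (hh.contDiffAt.restrict_scalars ℝ), ?_, ?_⟩
  · simp [lap, key, mul_assoc]
  · rw [← Complex.norm_conj (deriv h z)]
    congr 1
    apply Complex.ext <;> simp [grad, D_re hh.differentiableAt]

theorem lap_const (c : ℝ) (z : ℂ) : lap (fun _ => c) z = 0 := by
  have : ∀ (a : ℝ) v, D v (fun _ => a) = fun _ => 0 := fun a v => funext fun w => by simp [D]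
  simp [lap, this]

theorem theta {ε : ℝ} (hε : 0 < ε) : ∃ Θ : ℝ → ℝ, ContDiff ℝ ∞ Θ ∧ (∀ s ≤ ε, Θ s = 0) ∧
    ∀ s, 0 ≤ Θ s ∧ s - 2 * ε ≤ Θ s ∧ Θ s ≤ |s| ∧ |deriv Θ s| ≤ 1 ∧ 0 ≤ deriv (deriv Θ) s := by
  let g : ℝ → ℝ := fun u => Real.smoothTransition (u / ε - 1)
  have gs : ContDiff ℝ ∞ g :=
    Real.smoothTransition.contDiff.comp ((contDiff_id.div_const ε).sub contDiff_const)
  have gi := fun a b => gs.continuous.intervalIntegrable (μ := volume) a b
  have hd : ∀ s, HasDerivAt (fun s => ∫ u in ε..s, g u) (g s) s := fun s =>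
    (gs.continuous.integral_hasStrictDerivAt ε s).hasDerivAt
  have hd' : deriv (fun s => ∫ u in ε..s, g u) = g := funext fun s => (hd s).deriv
  have z : ∀ s ≤ ε, ∫ u in ε..s, g u = 0 := fun s hs => by
    rw [intervalIntegral.integral_congr (g := fun _ => 0) fun u hu => ?_]
    · simp
    · rw [uIcc_of_ge hs] at hu
      exact Real.smoothTransition.zero_of_nonpos (sub_nonpos.2 ((div_le_one hε).2 hu.2))
  have nn : ∀ a b, a ≤ b → 0 ≤ ∫ u in a..b, g u := fun a b h =>
    intervalIntegral.integral_nonneg h fun u _ => Real.smoothTransition.nonneg _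
  have n0 : ∀ s, 0 ≤ ∫ u in ε..s, g u := fun s =>
    (le_total s ε).elim (fun h => (z s h).ge) (nn _ _)
  refine ⟨fun s => ∫ u in ε..s, g u, contDiff_infty_iff_deriv.2
    ⟨fun s => (hd s).differentiableAt, by rw [hd']; exact gs⟩, z, fun s => ⟨n0 s, ?_, ?_, ?_, ?_⟩⟩
  · rcases le_total s (2 * ε) with h | h
    · linarith [n0 s]
    · have h1 : ∫ u in (2 * ε)..s, g u = s - 2 * ε := by
        rw [intervalIntegral.integral_congr (g := fun _ => 1) fun u hu => ?_]
        · simp
        · rw [uIcc_of_le h] at hu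
          refine Real.smoothTransition.one_of_one_le ?_
          rw [le_sub_iff_add_le, le_div_iff₀ hε]
          linarith [hu.1]
      beta_reduce
      rw [← intervalIntegral.integral_add_adjacent_intervals (gi ε (2 * ε)) (gi _ s), h1]
      linarith [n0 (2 * ε)]
  · rcases le_total s ε with h | h
    · exact (z s h).le.trans (abs_nonneg s)
    · have := intervalIntegral.integral_mono_on h (gi ε s) (intervalIntegrable_const (c := (1 : ℝ)))
        fun u _ => Real.smoothTransition.le_one _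
      simp only [intervalIntegral.integral_const, smul_eq_mul, mul_one] at this
      exact this.trans (by linarith [le_abs_self s])
  · rw [hd', abs_of_nonneg (Real.smoothTransition.nonneg _)]
    exact Real.smoothTransition.le_one _
  · rw [hd']
    exact Monotone.deriv_nonneg fun a b h => Real.smoothTransition.monotone (by gcongr)

/-- The test functions. -/
theorem fam : ∃ C₁ : ℝ, 0 ≤ C₁ ∧ ∀ σ T : ℝ, σ = 1 ∨ σ = -1 → 1 ≤ T → ∃ Φ : ℂ → ℝ,
    Test {z | 0 < σ * z.im} Φ ∧ ∀ z : ℂ, 0 ≤ Φ z ∧ Φ z ≤ 8 ∧ -C₁ ≤ lap Φ z ∧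
      (1 / 2 ≤ ‖z‖ → 0 ≤ lap Φ z ∧ ∀ v, |fderiv ℝ Φ z v| ≤ ‖v‖ / ‖z‖ ^ 2) ∧
      (Φ z ≠ 0 → 0 < σ * z.im ∧ σ * z.im ≤ T ∧ Φ z ≤ (σ * z.im)⁻¹) ∧
      (|z.re| ≤ 1 → 1 < σ * z.im → (σ * z.im)⁻¹ / 2 - 2 / T ≤ Φ z) := by
  let k : ContDiffBump (0 : ℂ) := ⟨1 / 8, 1 / 4, by norm_num, by norm_num⟩
  let κ : ℂ → ℝ := fun z => 1 - k z
  have ks : ContDiff ℝ ∞ κ := contDiff_const.sub k.contDiff
  have k01 : ∀ z, 0 ≤ κ z ∧ κ z ≤ 1 := fun z =>
    ⟨sub_nonneg.2 k.le_one, sub_le_self _ k.nonneg⟩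
  have k0 : ∀ z : ℂ, ‖z‖ < 1 / 8 → κ z = 0 := fun z hz =>
    sub_eq_zero.2 (k.one_of_mem_closedBall (mem_closedBall_zero_iff.2 hz.le)).symm
  have k1 : ∀ z : ℂ, 1 / 4 < ‖z‖ → κ z = 1 := fun z hz => by
    simp only [κ, k.zero_of_le_dist (x := z) (by rw [dist_zero_right]; exact hz.le), sub_zero]
  obtain ⟨B, hB⟩ := (isCompact_closedBall (0 : ℂ) 1).exists_bound_of_continuousOn
    (((ks.continuous_fderiv (by simp)).prodMk (lap_cd ks).continuous).continuousOn)
  have B0 : 0 ≤ B := (norm_nonneg _).trans (hB 0 (by simp))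
  refine ⟨136 * B, by positivity, fun σ T hσ hT => ?_⟩
  have T0 : 0 < T := by linarith
  have s1 : ‖(σ : ℂ) * Complex.I‖ = 1 := by rcases hσ with rfl | rfl <;> simp
  have s2 : σ ^ 2 = 1 := by rcases hσ with rfl | rfl <;> simp
  obtain ⟨Θ, Ts, Tz, hΘ⟩ := theta (inv_pos.2 T0)
  let p : ℂ → ℝ := fun z => (σ * Complex.I / z).re
  have pe : ∀ z, p z = σ * z.im / ‖z‖ ^ 2 := fun z => by
    simp [p, Complex.div_re, Complex.sq_norm]
  have pb : ∀ z, |p z| ≤ ‖z‖⁻¹ := fun z =>
    (Complex.abs_re_le_norm _).trans (by rw [norm_div, s1, one_div])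
  have ph : ∀ z : ℂ, z ≠ 0 → ContDiffAt ℝ ∞ p z ∧ lap p z = 0 ∧ ‖grad p z‖ = (‖z‖ ^ 2)⁻¹ :=
    fun z hz => by
      have := reH (h := fun w => σ * Complex.I / w) (analyticAt_const.div analyticAt_id hz)
      rwa [deriv_const_div_id, norm_div, norm_neg, s1, norm_pow, one_div] at this
  have q : ∀ z : ℂ, z ≠ 0 → ContDiffAt ℝ ∞ (fun w => Θ (p w)) z ∧ 0 ≤ lap (fun w => Θ (p w)) z ∧
      ‖grad (fun w => Θ (p w)) z‖ ≤ (‖z‖ ^ 2)⁻¹ := fun z hz => by
    obtain ⟨a, b, c⟩ := ph z hz
    obtain ⟨-, -, d, e, -⟩ := lapRule p p Θ z (a.of_le (by norm_cast)) (a.of_le (by norm_cast))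
      (Ts.contDiffAt.of_le (by norm_cast))
    refine ⟨Ts.contDiffAt.comp z a, ?_, ?_⟩
    · rw [d, b, mul_zero, zero_add]
      exact mul_nonneg (hΘ _).2.2.2.2 (sq_nonneg _)
    · rw [e, norm_smul, c]
      exact mul_le_of_le_one_left (by positivity) (hΘ _).2.2.2.1
  have small : ∀ z : ℂ, ‖z‖ < 1 / 8 → κ =ᶠ[𝓝 z] 0 := fun z hz =>
    (continuous_norm.continuousAt.eventually_lt continuousAt_const hz).mono k0
  have big : ∀ z : ℂ, 1 / 4 < ‖z‖ → (fun w => Θ (p w) * κ w) =ᶠ[𝓝 z] fun w => Θ (p w) :=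
    fun z hz => (continuousAt_const.eventually_lt continuous_norm.continuousAt hz).mono
      fun w hw => by simp only [k1 w hw, mul_one]
  have le : ∀ z, Θ (p z) * κ z ≤ |p z| := fun z =>
    (mul_le_of_le_one_right (hΘ _).1 (k01 z).2).trans (hΘ _).2.2.1
  have sup : ∀ z, Θ (p z) * κ z ≠ 0 → 1 / 8 ≤ ‖z‖ ∧ ‖z‖ ≤ T ∧ T⁻¹ / 64 ≤ σ * z.im := fun z hz => by
    have a : 1 / 8 ≤ ‖z‖ := le_of_not_gt fun h => hz (by rw [k0 z h, mul_zero])
    have b : T⁻¹ < p z := lt_of_not_ge fun h => hz (by rw [Tz _ h, zero_mul])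
    have a0 : 0 < ‖z‖ := by linarith
    refine ⟨a, (inv_le_inv₀ T0 a0).1 (b.le.trans ((le_abs_self _).trans (pb z))), ?_⟩
    rw [pe, lt_div_iff₀ (by positivity)] at b
    have : T⁻¹ * (1 / 8) ^ 2 ≤ T⁻¹ * ‖z‖ ^ 2 := by gcongr
    linarith
  have cl : IsClosed {z : ℂ | ‖z‖ ≤ T ∧ T⁻¹ / 64 ≤ σ * z.im} :=
    (isClosed_le continuous_norm continuous_const).inter
      (isClosed_le continuous_const (continuous_const.mul Complex.continuous_im))
  have ts : tsupport (fun w => Θ (p w) * κ w) ⊆ {z : ℂ | ‖z‖ ≤ T ∧ T⁻¹ / 64 ≤ σ * z.im} :=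
    closure_minimal (fun z hz => (sup z hz).2) cl
  have im : ∀ z : ℂ, (σ * z.im) ^ 2 ≤ ‖z‖ ^ 2 := fun z => by
    rw [mul_pow, s2, one_mul, Complex.sq_norm, Complex.normSq_apply]
    nlinarith [mul_self_nonneg z.re]
  refine ⟨fun w => Θ (p w) * κ w, ⟨cd_mul (O := {0}ᶜ) isOpen_compl_singleton
    (fun z hz => (q z hz).1.contDiffWithinAt) ks fun z hz e => ?_,
    (isCompact_closedBall (0 : ℂ) T).of_isClosed_subset (isClosed_tsupport _)
      fun z hz => mem_closedBall_zero_iff.2 (ts hz).1,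
    fun z hz => lt_of_lt_of_le (by positivity) (ts hz).2⟩, fun z => ?_⟩
  · exact notMem_tsupport_iff_eventuallyEq.2 (small z (by rw [show z = 0 from e]; simp)) hz
  have far : 1 / 2 ≤ ‖z‖ → 0 ≤ lap (fun w => Θ (p w) * κ w) z ∧
      ∀ v, |fderiv ℝ (fun w => Θ (p w) * κ w) z v| ≤ ‖v‖ / ‖z‖ ^ 2 := fun hz => by
    have h0 : z ≠ 0 := norm_pos_iff.1 (by linarith)
    obtain ⟨a, b, c⟩ := q z h0
    rw [lap_congr (big z (by linarith)), (big z (by linarith)).fderiv_eq]
    refine ⟨b, fun v => ((lapRule _ _ Θ z (a.of_le (by norm_cast)) (a.of_le (by norm_cast))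
      (Ts.contDiffAt.of_le (by norm_cast))).2.2.2.2 v).trans ?_⟩
    rw [div_eq_inv_mul]
    gcongr
  refine ⟨mul_nonneg (hΘ _).1 (k01 z).1, ?_, ?_, far, fun hz => ?_, fun hx hy => ?_⟩
  · by_cases hz : Θ (p z) * κ z = 0
    · exact hz.le.trans (by norm_num)
    · exact (le z).trans ((pb z).trans
        (inv_le_of_inv_le₀ (by norm_num) (by linarith [(sup z hz).1])))
  · rcases lt_or_ge ‖z‖ (1 / 8) with h | h
    · rw [lap_congr (g := fun _ => 0) ((small z h).mono fun w hw => by simp [hw]), lap_const]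
      linarith
    rcases le_total (1 / 2) ‖z‖ with h' | h'
    · linarith [(far h').1]
    have h0 : z ≠ 0 := norm_pos_iff.1 (by linarith)
    obtain ⟨a, b, c⟩ := q z h0
    have hb := hB z (mem_closedBall_zero_iff.2 (by linarith))
    have b1 : ‖fderiv ℝ κ z‖ ≤ B := (norm_fst_le (fderiv ℝ κ z, lap κ z)).trans hb
    have b2 : |lap κ z| ≤ B := (norm_snd_le (fderiv ℝ κ z, lap κ z)).trans hb
    have c' : ‖grad (fun w => Θ (p w)) z‖ ≤ 64 :=
      c.trans (inv_le_of_inv_le₀ (by norm_num) (by nlinarith))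
    have b3 : |fderiv ℝ κ z (grad (fun w => Θ (p w)) z)| ≤ B * 64 :=
      ((fderiv ℝ κ z).le_opNorm _).trans (by gcongr)
    have b4 : Θ (p z) ≤ 8 := (hΘ _).2.2.1.trans ((pb z).trans
      (inv_le_of_inv_le₀ (by norm_num) (by linarith)))
    rw [(lapRule _ κ Θ z (a.of_le (by norm_cast)) (ks.contDiffAt.of_le (by norm_cast))
      (Ts.contDiffAt.of_le (by norm_cast))).2.1]
    nlinarith [mul_nonneg b (k01 z).1, (abs_le.1 b3).1, (abs_le.1 b2).1, (hΘ (p z)).1]
  · obtain ⟨a, b, c⟩ := sup z hz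
    have y0 : 0 < σ * z.im := lt_of_lt_of_le (by positivity) c
    have y1 : σ * z.im ≤ ‖z‖ := (abs_le_of_sq_le_sq' (im z) (norm_nonneg _)).2
    exact ⟨y0, y1.trans b, (le z).trans ((pb z).trans (inv_anti₀ y0 y1))⟩
  · have y1 : σ * z.im ≤ ‖z‖ := (abs_le_of_sq_le_sq' (im z) (norm_nonneg _)).2
    have n2 : ‖z‖ ^ 2 ≤ 2 * (σ * z.im) ^ 2 := by
      have h1 : ‖z‖ ^ 2 = z.re ^ 2 + (σ * z.im) ^ 2 := by
        rw [mul_pow, s2, one_mul, Complex.sq_norm, Complex.normSq_apply]; ring
      have h2 : z.re ^ 2 ≤ 1 := (sq_le_one_iff_abs_le_one _).2 hx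
      nlinarith
    have : (σ * z.im)⁻¹ / 2 ≤ p z := by
      rw [pe, inv_eq_one_div, div_div, div_le_div_iff₀ (by linarith) (pow_pos (by linarith) 2)]
      linarith
    beta_reduce
    rw [k1 z (by linarith), mul_one, div_eq_mul_inv 2]
    linarith [(hΘ (p z)).2.1]

theorem fub {σ : ℝ} (hσ : σ = 1 ∨ σ = -1) {e u : ℝ → ℝ} (he : Integrable e) (hu : Integrable u) :
    Integrable (fun z : ℂ => e z.re * u (σ * z.im)) ∧
      ∫ z : ℂ, e z.re * u (σ * z.im) = (∫ x, e x) * ∫ y, u y := by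
  have h1 : Integrable (fun y => u (σ * y)) ∧ ∫ y, u (σ * y) = ∫ y, u y := by
    rcases hσ with rfl | rfl
    · simpa using hu
    · simpa [integral_neg_eq_self] using hu.comp_neg
  have mp := Complex.volume_preserving_equiv_real_prod
  constructor
  · exact (mp.integrable_comp_emb Complex.measurableEquivRealProd.measurableEmbedding).2
      (he.mul_prod h1.1)
  · rw [← h1.2, ← integral_prod_mul]
    exact mp.integral_comp' fun q : ℝ × ℝ => e q.1 * u (σ * q.2)

theorem logI {T : ℝ} (hT : 1 ≤ T) : Integrable ((Ioc 1 T).indicator fun y : ℝ => y⁻¹) ∧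
    ∫ y, (Ioc 1 T).indicator (fun y : ℝ => y⁻¹) y = Real.log T := by
  have h0 : (0 : ℝ) ∉ uIcc 1 T := by
    rw [uIcc_of_le hT]
    exact fun h => by linarith [h.1]
  constructor
  · rw [integrable_indicator_iff measurableSet_Ioc, ← intervalIntegrable_iff_integrableOn_Ioc_of_le hT]
    exact intervalIntegral.intervalIntegrable_inv (f := id) (fun x hx e => h0 (e ▸ hx))
      continuousOn_id
  · rw [integral_indicator measurableSet_Ioc, ← intervalIntegral.integral_of_le hT,
      integral_inv h0, div_one]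

theorem cI {a b : ℝ} (h : a ≤ b) (c : ℝ) : Integrable ((Ioc a b).indicator fun _ : ℝ => c) ∧
    ∫ y, (Ioc a b).indicator (fun _ : ℝ => c) y = (b - a) * c :=
  ⟨(integrable_indicator_iff measurableSet_Ioc).2 (integrableOn_const (by simp)), by
    rw [integral_indicator measurableSet_Ioc, ← intervalIntegral.integral_of_le h]; simp⟩

end Carl

open Carl in
theorem carl : CarlStmt := by
  let χ : ContDiffBump (0 : ℝ) := ⟨1 / 2, 3 / 4, by norm_num, by norm_num⟩
  have cs : ContDiff ℝ ∞ χ := χ.contDiff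
  have c1 : ∀ x, |x| ≤ 1 / 2 → χ x = 1 := fun x hx =>
    χ.one_of_mem_closedBall (mem_closedBall_zero_iff.2 hx)
  have ds : ContDiff ℝ ∞ (deriv χ) := (contDiff_infty_iff_deriv.1 cs).2
  have i1 : Integrable fun x => |deriv χ x| :=
    (ds.continuous.integrable_of_hasCompactSupport χ.hasCompactSupport.deriv).abs
  have dc : Continuous (deriv (deriv χ)) := (contDiff_infty_iff_deriv.1 ds).2.continuous
  have i2 : Integrable fun x => |deriv (deriv χ) x| :=
    (dc.integrable_of_hasCompactSupport χ.hasCompactSupport.deriv.deriv).abs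
  have C0 : 0 ≤ ∫ x, |deriv (deriv χ) x| := integral_nonneg fun _ => abs_nonneg _
  refine ⟨χ, 2 * ∫ x, |deriv (deriv χ) x|, cs, fun x => ⟨χ.nonneg, χ.le_one⟩, c1,
    fun x hx => χ.zero_of_le_dist (by rw [dist_zero_right]; exact hx), by positivity, ?_⟩
  intro σ K e c A M hσ hK hK0 he e0 hA hM hc H
  obtain ⟨C₁, C1, hf⟩ := fam
  have M0 : 0 < M := by linarith
  have s2 : σ ^ 2 = 1 := by rcases hσ with rfl | rfl <;> simp
  have op : IsOpen {z : ℂ | 0 < σ * z.im} := isOpen_lt continuous_const (by fun_prop)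
  let f : ℂ → ℝ := fun w => χ (w.re / M)
  have fs : ContDiff ℝ ∞ f := cs.comp (Complex.reCLM.contDiff.div_const M)
  have fl : ∀ z, lap f z = deriv (deriv χ) (z.re / M) / M ^ 2 ∧
      ‖grad f z‖ = |deriv χ (z.re / M)| / M := fun z => by
    obtain ⟨a, b, c⟩ := reH (h := fun w => w / (M : ℂ)) (z := z) (analyticAt_id.div_const)
    simp only [Complex.div_ofReal_re, deriv_div_const, deriv_id'', norm_div, norm_one,
      Complex.norm_real, Real.norm_of_nonneg M0.le] at a b c
    obtain ⟨-, -, d, e, -⟩ := lapRule _ _ χ z (a.of_le (by norm_cast)) (a.of_le (by norm_cast))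
      (cs.contDiffAt.of_le (by norm_cast))
    rw [d, e, b, norm_smul, c, Real.norm_eq_abs]
    constructor <;> ring
  let b : ℝ → ℝ := fun x => |deriv (deriv χ) (x / M)| / M ^ 2
  have bi : Integrable b := (i2.comp_div M0.ne').div_const _
  have bv : ∫ x, b x = (∫ x, |deriv (deriv χ) x|) / M := by
    rw [integral_div, Measure.integral_comp_div (fun x => |deriv (deriv χ) x|), abs_of_pos M0,
      smul_eq_mul]
    field_simp
  let g : ℂ → ℝ := fun z => |deriv χ (z.re / M)| / M * (8 * (1 + (σ * z.im) ^ 2)⁻¹)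
  have gi : Integrable g := (fub hσ (u := fun y => 8 * (1 + y ^ 2)⁻¹)
    ((i1.comp_div M0.ne').div_const M) (integrable_inv_one_add_sq.const_mul 8)).1
  let n : ℂ → ℝ := (closedBall (0 : ℂ) 1).indicator fun _ => 2 * C₁
  have ni : Integrable n := (integrable_indicator_iff measurableSet_closedBall).2
    (integrableOn_const measure_closedBall_lt_top.ne)
  let m : ℂ → ℝ := (closedBall (0 : ℂ) 1).indicator fun z => |K z| * C₁
  have mi : Integrable m := (integrable_indicator_iff measurableSet_closedBall).2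
    ((hK.integrableOn_isCompact (isCompact_closedBall 0 1)).abs.mul_const _)
  have m0 : ∀ z, 0 ≤ m z := fun z => indicator_nonneg (fun _ _ => by positivity) z
  have E0 : 0 ≤ ∫ x, e x := integral_nonneg e0
  have key : ∀ T, 1 ≤ T → c * (Real.log T - 4) - (∫ x, e x) * (8 + Real.log T) -
      A * (2 * ((∫ x, b x) * (8 + Real.log T)) + (∫ z, g z) + ∫ z, n z) ≤ ∫ z, m z := by
    intro T hT
    obtain ⟨Φ, tΦ, hΦ⟩ := hf σ T hσ hT
    have iΦ : Integrable Φ := tΦ.1.continuous.integrable_of_hasCompactSupport tΦ.2.1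
    have up : ∀ w : ℝ → ℝ, Integrable w → (∀ x, 0 ≤ w x) →
        ∫ z : ℂ, w z.re * Φ z ≤ (∫ x, w x) * (8 + Real.log T) := fun w wi w0 => by
      obtain ⟨a, a'⟩ := fub hσ wi ((cI zero_le_one 8).1.add (logI hT).1)
      simp only [Pi.add_apply] at a a'
      rw [integral_add (cI zero_le_one 8).1 (logI hT).1, (cI zero_le_one 8).2, (logI hT).2,
        sub_zero, one_mul] at a'
      rw [← a']
      refine integral_mono_of_nonneg (.of_forall fun z => mul_nonneg (w0 _) (hΦ z).1) a
        (.of_forall fun z => mul_le_mul_of_nonneg_left ?_ (w0 _))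
      have n1 : 0 ≤ (Ioc 0 1).indicator (fun _ : ℝ => (8 : ℝ)) (σ * z.im) :=
        indicator_nonneg (fun _ _ => by norm_num) _
      have n2 : 0 ≤ (Ioc 1 T).indicator (fun y : ℝ => y⁻¹) (σ * z.im) :=
        indicator_nonneg (fun y hy => inv_nonneg.2 (by linarith [hy.1])) _
      by_cases hz : Φ z = 0
      · linarith
      obtain ⟨y0, y1, y2⟩ := (hΦ z).2.2.2.2.1 hz
      rcases le_or_gt (σ * z.im) 1 with h | h
      · rw [indicator_of_mem (show σ * z.im ∈ Ioc 0 1 from ⟨y0, h⟩)]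
        linarith [(hΦ z).2.1]
      · rw [indicator_of_mem (show σ * z.im ∈ Ioc 1 T from ⟨h, y1⟩)]
        linarith
    have lo : Real.log T - 4 ≤ ∫ z in {z : ℂ | |z.re| ≤ 1}, Φ z := by
      have ms : MeasurableSet {z : ℂ | |z.re| ≤ 1} :=
        (isClosed_le (by fun_prop) continuous_const).measurableSet
      have x1 := cI (show (-1 : ℝ) ≤ 1 by norm_num) 1
      obtain ⟨a, a'⟩ := fub hσ x1.1 (((logI hT).1.div_const 2).sub (cI hT (2 / T)).1)
      simp only [Pi.sub_apply] at a a'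
      rw [integral_sub ((logI hT).1.div_const 2) (cI hT (2 / T)).1, integral_div, (logI hT).2,
        (cI hT _).2, x1.2] at a'
      rw [← integral_indicator ms]
      refine le_trans ?_ (a' ▸ integral_mono a (iΦ.indicator ms) fun z => ?_)
      · have : (T - 1) * (2 / T) ≤ 2 := by
          rw [← mul_div_assoc, div_le_iff₀ (by linarith)]
          linarith
        linarith
      · have n0 := indicator_nonneg (s := {z : ℂ | |z.re| ≤ 1}) (fun z _ => (hΦ z).1) z
        by_cases hx : z.re ∈ Ioc (-1 : ℝ) 1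
        · by_cases hy : σ * z.im ∈ Ioc 1 T
          · have hx' : |z.re| ≤ 1 := abs_le.2 ⟨hx.1.le, hx.2⟩
            simp only [indicator_of_mem hx, indicator_of_mem hy, one_mul,
              indicator_of_mem (show z ∈ {z : ℂ | |z.re| ≤ 1} from hx')]
            exact (hΦ z).2.2.2.2.2 hx' hy.1
          · simpa only [indicator_of_notMem hy, zero_div, sub_zero, mul_zero] using n0
        · simpa only [indicator_of_notMem hx, zero_mul] using n0
    have neg : ∀ z, -(closedBall (0 : ℂ) 1).indicator (fun _ => C₁) z ≤ lap Φ z := fun z => by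
      by_cases hz : z ∈ closedBall (0 : ℂ) 1
      · rw [indicator_of_mem hz]
        exact (hΦ z).2.2.1
      · rw [indicator_of_notMem hz, neg_zero]
        rw [mem_closedBall_zero_iff] at hz
        exact ((hΦ z).2.2.2.1 (by linarith)).1
    have hk : ∫ z, K z * lap Φ z ≤ ∫ z, m z := by
      by_cases hi : Integrable fun z => K z * lap Φ z
      · refine integral_mono_ae hi mi (hK0.mono fun z hz => ?_)
        by_cases hy : 0 < σ * z.im
        · have h1 := mul_le_mul_of_nonpos_left (neg z) (hz hy)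
          refine h1.trans (le_of_eq ?_)
          by_cases hb : z ∈ closedBall (0 : ℂ) 1
          · simp only [m, indicator_of_mem hb, abs_of_nonpos (hz hy)]
            ring
          · simp [m, hb]
        · have : lap Φ z = 0 := image_eq_zero_of_notMem_tsupport fun h => hy ((test_lap tΦ).2.2 h)
          simpa only [this, mul_zero] using m0 z
      · rw [integral_undef hi]
        exact integral_nonneg m0
    have ib : Integrable fun z : ℂ => b z.re * Φ z :=
      int_mul op (Continuous.continuousOn (by fun_prop)) tΦ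
    have il : Integrable fun z => f z * lap Φ z := int_mul op fs.continuous.continuousOn (test_lap tΦ)
    have gr : ∫ z, f z * lap Φ z ≤ ∫ z : ℂ, b z.re * Φ z := by
      rw [green _ f Φ op (fs.of_le (by norm_cast)).contDiffOn tΦ]
      refine integral_mono (int_mul op (lap_cd fs).continuous.continuousOn tΦ) ib fun z =>
        mul_le_mul_of_nonneg_right ?_ (hΦ z).1
      rw [(fl z).1]
      exact div_le_div_of_nonneg_right (le_abs_self _) (by positivity)
    have hl : ∫ z, |lap (fun w => f w * Φ w) z| ≤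
        2 * ((∫ x, b x) * (8 + Real.log T)) + (∫ z, g z) + ∫ z, n z := by
      have h1 := integral_mono_of_nonneg (f := fun z => |lap (fun w => f w * Φ w) z|)
        (.of_forall fun z => abs_nonneg _) (((ib.add il).add gi).add ni) (.of_forall fun z => ?_)
      · rw [integral_add' ((ib.add il).add gi) ni, integral_add' (ib.add il) gi,
          integral_add' ib il] at h1
        linarith [up b bi fun x => by positivity]
      have t1 : |lap f z * Φ z| = b z.re * Φ z := by
        rw [abs_mul, abs_of_nonneg (hΦ z).1, (fl z).1, abs_div, abs_of_pos (pow_pos M0 2)]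
      have t2 : |2 * fderiv ℝ Φ z (grad f z)| ≤ g z := by
        rcases lt_or_ge |z.re / M| (1 / 2) with h | h
        · have h2 : deriv χ (z.re / M) = 0 := by
            rw [Filter.EventuallyEq.deriv_eq (f := fun _ => (1 : ℝ)) ((continuous_abs.continuousAt.eventually_lt
              continuousAt_const h).mono fun x hx => c1 x hx.le), deriv_const]
          have h3 : grad f z = 0 := norm_eq_zero.1 (by rw [(fl z).2, h2]; simp)
          simp [g, h2, h3]
        · rw [abs_div, abs_of_pos M0, le_div_iff₀ M0] at h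
          have h2 : 1 / 2 ≤ |z.re| := by linarith
          have h3 := ((hΦ z).2.2.2.1 (h2.trans (Complex.abs_re_le_norm z))).2 (grad f z)
          have h4 : 1 + (σ * z.im) ^ 2 ≤ 4 * ‖z‖ ^ 2 := by
            rw [mul_pow, s2, one_mul, Complex.sq_norm, Complex.normSq_apply]
            nlinarith [abs_mul_abs_self z.re, mul_self_nonneg z.im]
          have h5 : (‖z‖ ^ 2)⁻¹ ≤ 4 * (1 + (σ * z.im) ^ 2)⁻¹ := by
            rw [← div_eq_mul_inv, inv_eq_one_div, div_le_div_iff₀ (by nlinarith) (by positivity)]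
            linarith
          have h6 := mul_le_mul_of_nonneg_left h5 (norm_nonneg (grad f z))
          rw [div_eq_mul_inv] at h3
          simp only [g, ← (fl z).2, abs_mul, abs_two]
          linarith
      have t3 : |f z * lap Φ z| ≤ f z * lap Φ z + n z := by
        have f0 : 0 ≤ f z := χ.nonneg
        have f1 : f z ≤ 1 := χ.le_one
        have n0 : 0 ≤ (closedBall (0 : ℂ) 1).indicator (fun _ => C₁) z :=
          indicator_nonneg (fun _ _ => C1) z
        have n1 : n z = 2 * (closedBall (0 : ℂ) 1).indicator (fun _ => C₁) z :=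
          indicator_const_mul _ _ _ _
        rw [n1, abs_le]
        constructor <;> nlinarith [neg z]
      simp only [Pi.add_apply]
      rw [(lapRule f Φ id z (fs.contDiffAt.of_le (by norm_cast))
        (tΦ.1.contDiffAt.of_le (by norm_cast)) contDiffAt_id).2.1]
      linarith [abs_add_three (lap f z * Φ z) (2 * fderiv ℝ Φ z (grad f z)) (f z * lap Φ z)]
    have c0 : 0 ≤ c := le_trans (by positivity) hc.le
    linarith [H Φ tΦ fun z => (hΦ z).1, up e he e0, mul_le_mul_of_nonneg_left lo c0,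
      mul_le_mul_of_nonneg_left hl hA]
  rw [mul_div_assoc, mul_div_assoc, ← bv] at hc
  obtain ⟨L, L0, hL⟩ : ∃ L, 0 ≤ L ∧ (∫ z, m z) + 4 * c + 8 * (∫ x, e x) +
      A * (16 * (∫ x, b x) + (∫ z, g z) + ∫ z, n z) < (c - ((∫ x, e x) + A * (2 * ∫ x, b x))) * L :=
    ((eventually_ge_atTop 0).and ((tendsto_id.const_mul_atTop (sub_pos.2 hc)).eventually_gt_atTop
      _)).exists
  have := key (Real.exp L) (Real.one_le_exp L0)
  rw [Real.log_exp] at this
  linarith

end Pool.Agent.MP_c69980_ag.G2
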