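import Pool.Agent.MP_c69980_ag.G2.Base

/-!
The complement of two plane curves: sections do not escape in a half strip.
-/

set_option autoImplicit false

noncomputable section

namespace Pool.Agent.MP_c69980_ag.G2

open MvPolynomial Metric Filter Topology MeasureTheory Set
open scoped ContDiff
open H60 H4

namespace Esc

variable {D : Pr} {B : Finset ℂ} {s : ℂ → V3}

/-- The model curve. -/
def ex (t : ℂ) : Fin 2 → ℂ := ![1, Complex.exp t]

lemma ex_der (t : ℂ) : HasDerivAt ex ![0, Complex.exp t] t := by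
  refine hasDerivAt_pi.2 fun i => ?_
  fin_cases i
  · simpa [ex] using hasDerivAt_const t (1 : ℂ)
  · simpa [ex] using Complex.hasDerivAt_exp t

lemma ex_sq (t : ℂ) : H4.sq (ex t) = 1 + ‖Complex.exp t‖ ^ 2 := by
  simp [H4.sq, ex, Fin.sum_univ_two]

lemma ex_lam (t : ℂ) : lam ex t = ‖Complex.exp t‖ ^ 2 / (1 + ‖Complex.exp t‖ ^ 2) ^ 2 := by
  rw [lam, (ex_der t).deriv, lamv, ex_sq]
  congr 1
  simp [H4.sq, ip, ex, Fin.sum_univ_two]
  ring

lemma ex_crv : Crv univ ex :=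
  ⟨fun t _ => (ex_der t).differentiableAt.differentiableWithinAt, fun t _ h => by
    simpa [ex] using congrFun h 0⟩

lemma ex_low : ∃ c : ℝ, 0 < c ∧ ∀ t : ℂ, |t.re| ≤ 1 → c ≤ lam ex t := by
  refine ⟨Real.exp (-1) ^ 2 / (1 + Real.exp 1 ^ 2) ^ 2, by positivity, fun t ht => ?_⟩
  rw [ex_lam, Complex.norm_exp]
  obtain ⟨h1, h2⟩ := abs_le.1 ht
  gcongr

/-- The Carleman argument for one section. -/
lemma core (hC : CarlStmt) (D : Pr) : ∃ c : ℝ, 0 < c ∧ ∀ s ∈ Sec D, ∀ (σ : ℝ) (e : ℝ → ℝ),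
    σ = 1 ∨ σ = -1 → Continuous e → Integrable e → (∀ x, 0 ≤ e x) → (∫ x, e x) < c →
    (∀ t : ℂ, 0 < σ * t.im → 4 * D.b * lam s t ≤ e t.re) → False := by
  obtain ⟨χ, C, -, -, -, -, -, hC⟩ := hC
  obtain ⟨c, c0, hc⟩ := ex_low
  obtain ⟨m, m0, hm⟩ := low D.hP D.a1
  obtain ⟨Q, Q0, hQ⟩ := R1.hom_bd D.hQ
  refine ⟨4 * c, by positivity, fun s hs σ e hσ ce ie e0 he hl => ?_⟩
  obtain ⟨s1, s2, s3⟩ := Sec.lap hs
  obtain ⟨x1, x2, x3⟩ := R1.lapQ 2 univ ex isOpen_univ ex_crv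
  replace x1 := contDiffOn_univ.1 x1
  replace x2 := continuousOn_univ.1 x2.1
  set W : ℝ := ((m ^ D.b)⁻¹) ^ 2 + Q ^ 2 with hW
  have W0 : 0 < W := by positivity
  let Θ : ℝ → ℝ := fun x => -(D.b : ℝ) * x - Real.log W
  have dΘ : deriv Θ = fun _ => -(D.b : ℝ) := by
    funext x
    exact (((hasDerivAt_id x).const_mul (-(D.b : ℝ))).sub_const (Real.log W)).deriv.trans
      (mul_one _)
  have cΘ : ContDiff ℝ 2 Θ := by fun_prop
  let K : ℂ → ℝ := fun z => Real.log (H4.sq (ex z)) + Θ (LL s z)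
  have s2' : ContDiff ℝ 2 (LL s) := s1.of_le (by norm_cast)
  have x2' : ContDiff ℝ 2 fun z => Real.log (H4.sq (ex z)) := x1.of_le (by norm_cast)
  have cK : ContDiff ℝ 2 K := x2'.add (cΘ.comp s2')
  have lK : ∀ z, lap K z = 4 * lam ex z - 4 * D.b * lam s z := fun z => by
    rw [(R1.lapRule _ (fun w => Θ (LL s w)) id z x2'.contDiffAt (cΘ.comp s2').contDiffAt
      contDiffAt_id).1, (R1.lapRule (LL s) (LL s) Θ z s2'.contDiffAt s2'.contDiffAt
      cΘ.contDiffAt).2.2.1, dΘ, x3 z trivial, s3]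
    simp only [deriv_const']
    ring
  refine hC σ K e (4 * c) 0 1 hσ cK.continuous.locallyIntegrable (ae_of_all _ fun z _ => ?_) ie e0
    le_rfl le_rfl (by simpa using he) fun Φ hΦ Φ0 => ?_
  · have h1 := hm _ (hs.2 z).1
    have h2 := hQ (s z)
    rw [(hs.2 z).2] at h2
    have p : 0 < H4.sq (s z) := R1.sq_pos' ((Sec.crv hs univ).2 z trivial)
    have h3 : 1 ≤ (m ^ D.b)⁻¹ * ‖s z‖ ^ D.b := by
      rw [le_inv_mul_iff₀ (by positivity), mul_one]
      gcongr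
    have h4 : (‖s z‖ ^ D.b) ^ 2 ≤ H4.sq (s z) ^ D.b := by
      rw [← pow_mul, mul_comm, pow_mul]
      gcongr
      exact R1.norm_sq_le _
    have h5 : H4.sq (ex z) ≤ W * H4.sq (s z) ^ D.b := by
      rw [ex_sq]
      have a := one_le_pow₀ (n := 2) h3
      have b := pow_le_pow_left₀ (norm_nonneg _) h2 2
      rw [mul_pow] at a b
      calc _ ≤ W * (‖s z‖ ^ D.b) ^ 2 := by rw [hW]; linarith
        _ ≤ _ := by gcongr
    have h6 := Real.log_le_log (by rw [ex_sq]; positivity) h5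
    rw [Real.log_mul W0.ne' (by positivity), Real.log_pow] at h6
    simp only [K, Θ, LL]
    linarith
  · have hu : Test univ Φ := ⟨hΦ.1, hΦ.2.1, subset_univ _⟩
    have mS : MeasurableSet {z : ℂ | |z.re| ≤ 1} :=
      (isClosed_le (by fun_prop) continuous_const).measurableSet
    have iΦ : Integrable Φ := hΦ.1.continuous.integrable_of_hasCompactSupport hΦ.2.1
    have i1 : Integrable fun z => 4 * c * Set.indicator {z : ℂ | |z.re| ≤ 1} Φ z :=
      (iΦ.indicator mS).const_mul _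
    have i2 : Integrable fun z : ℂ => e z.re * Φ z :=
      R1.int_mul isOpen_univ (ce.comp Complex.continuous_re).continuousOn hu
    rw [R1.green univ K Φ isOpen_univ cK.contDiffOn hu, zero_mul, sub_zero,
      ← integral_indicator mS, ← integral_const_mul, ← integral_sub i1 i2]
    simp only [lK]
    refine integral_mono (i1.sub i2) (R1.int_mul isOpen_univ (by fun_prop) hu) fun z => ?_
    by_cases hz : Φ z = 0
    · simp [hz, Set.indicator]
    have h1 := mul_le_mul_of_nonneg_right (hl z (hΦ.2.2 (subset_tsupport _ hz))) (Φ0 z)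
    have h2 : c * Set.indicator {z : ℂ | |z.re| ≤ 1} Φ z ≤ lam ex z * Φ z := by
      by_cases hz : z ∈ {z : ℂ | |z.re| ≤ 1}
      · rw [indicator_of_mem hz]
        exact mul_le_mul_of_nonneg_right (hc z hz) (Φ0 z)
      · rw [indicator_of_notMem hz, mul_zero]
        exact mul_nonneg (R1.lamv_nn _ _) (Φ0 z)
    simp only
    linarith

lemma off_mono {r r' : ℝ} {t w : ℂ} (h : Off B r t) (hw : ‖w - t‖ + r' ≤ r) : Off B r' w :=
  fun t₀ h₀ => by
    have a := h t₀ h₀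
    have b := norm_sub_le_norm_sub_add_norm_sub t w t₀
    rw [norm_sub_rev t w] at b
    linarith

lemma hyp_off (hH : HypStmt) (hL : LatStmt) (hb : Bad D B) {r : ℝ} (hr : 0 < r) :
    ∃ A : ℝ, 0 < A ∧ ∀ s ∈ Sec D, ∀ (t : ℂ) (R : ℝ), 0 < R → (∀ w ∈ ball t R, Off B r w) →
      lam s t * R ^ 2 ≤ A := by
  obtain ⟨η, η0, hη⟩ := (hL B hb.2.1).2.1 r hr
  obtain ⟨A, A0, hA⟩ := hH D B η hb η0
  exact ⟨A, A0, fun s hs t R R0 h => hA s id t R R0 (Sec.nm hs _) fun z hz => hη z (h z hz)⟩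

lemma lam_off (hH : HypStmt) (hL : LatStmt) (hb : Bad D B) {r : ℝ} (hr : 0 < r) :
    ∃ A : ℝ, ∀ s ∈ Sec D, ∀ t : ℂ, Off B r t → lam s t ≤ A := by
  obtain ⟨A, -, hA⟩ := hyp_off hH hL hb (half_pos hr)
  refine ⟨A / (r / 2) ^ 2, fun s hs t ht => (le_div_iff₀ (by positivity)).2 ?_⟩
  exact hA s hs t _ (half_pos hr) fun w hw => off_mono ht (by
    have := mem_ball_iff_norm.1 hw; linarith)

lemma lam_far (hH : HypStmt) (hL : LatStmt) (hb : Bad D B) :
    ∃ x A : ℝ, 0 < x ∧ 0 < A ∧ ∀ s ∈ Sec D, ∀ t : ℂ, x ≤ |t.re| → lam s t * t.re ^ 2 ≤ A := by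
  obtain ⟨A, A0, hA⟩ := hyp_off hH hL hb one_pos
  obtain ⟨x, x0, hx⟩ := (hL B hb.2.1).2.2.1
  refine ⟨2 * x + 1, 4 * A, by positivity, by positivity, fun s hs t ht => ?_⟩
  have := hA s hs t (|t.re| / 2) (by linarith) fun w hw => hx w (by
    have a := (Complex.abs_re_le_norm _).trans_lt (mem_ball_iff_norm.1 hw)
    have b := abs_sub_abs_le_abs_sub t.re w.re
    rw [Complex.sub_re, abs_sub_comm] at a
    linarith)
  rw [div_pow, sq_abs] at this
  linarith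

lemma bub (hU : BubStmt) (D : Pr) (B : Finset ℂ) (A : ℝ) {ε r : ℝ} (hε : 0 < ε) (hr : 0 < r)
    (ha : r * D.a ≤ 1) : ∃ N : ℝ, ∀ s ∈ Sec D, ∀ t₀ : ℂ, Complex.exp t₀ ∈ B →
      (∀ t ∈ ball t₀ (2 * r), r / 4 < ‖t - t₀‖ → lam s t ≤ A ∧ N ≤ ‖s t‖) →
      ∀ t ∈ ball t₀ r, lam s t ≤ ε := by
  choose N hN using fun β : ℂ => hU D (Complex.log β) A ε r hε hr ha
  obtain ⟨N', hN'⟩ := (B.finite_toSet.image N).bddAbove
  refine ⟨N', fun s hs t₀ h₀ h t ht => ?_⟩
  obtain ⟨n, hn⟩ := Complex.exp_eq_exp_iff_exists_int.1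
    (Complex.exp_log (Complex.exp_ne_zero t₀)).symm
  set p : ℂ := n * (2 * Real.pi * Complex.I)
  have e : ∀ w, w + p - t₀ = w - Complex.log (Complex.exp t₀) := fun w => by
    linear_combination -hn
  have := hN _ _ (Sec.nm (Sec.shift hs n) (ball (Complex.log (Complex.exp t₀)) (2 * r)))
    (fun w hw hw' => by
      obtain ⟨a, b⟩ := h (w + p) (by rwa [mem_ball_iff_norm, e, ← mem_ball_iff_norm]) (by rwa [e])
      exact ⟨by rwa [lam_shift], (hN' (mem_image_of_mem N h₀)).trans b⟩) (t - p) (by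
    rwa [mem_ball_iff_norm, ← e, sub_add_cancel, ← mem_ball_iff_norm])
  rwa [lam_shift, sub_add_cancel] at this

lemma small (hH : HypStmt) (hB : BptStmt) (hU : BubStmt) (hL : LatStmt) (hb : Bad D B) (L : ℝ)
    {ε : ℝ} (hε : 0 < ε) : ∃ r N : ℝ, 0 < r ∧ ∀ s ∈ Sec D, ∀ σ : ℝ, σ = 1 ∨ σ = -1 →
      (∀ t : ℂ, |t.re| ≤ L + 3 → -3 < σ * t.im → Off B r t → N ≤ ‖s t‖) →
      ∀ t : ℂ, |t.re| ≤ L → 0 < σ * t.im → lam s t ≤ ε := by
  obtain ⟨r₀, r0, hr⟩ := (hL B hb.2.1).1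
  have a1 : (1 : ℝ) ≤ D.a := by exact_mod_cast D.a1
  obtain ⟨ρ, ρ0, ρ1, ρ2⟩ : ∃ ρ : ℝ, 0 < ρ ∧ 8 * ρ ≤ r₀ ∧ ρ * D.a ≤ 1 :=
    ⟨min (r₀ / 8) (1 / D.a), by positivity, by linarith [min_le_left (r₀ / 8) (1 / D.a : ℝ)],
      (le_div_iff₀ (by positivity)).1 (min_le_right _ _)⟩
  have ρ3 : ρ ≤ 1 := by nlinarith
  obtain ⟨A, hA⟩ := lam_off hH hL hb (show 0 < ρ / 4 by positivity)
  obtain ⟨N, hN⟩ := bub hU D B A hε ρ0 ρ2
  obtain ⟨ν, ν0, hν⟩ := hB D (ε * (ρ / 2) ^ 2) (A * (ρ / 2) ^ 2) (by positivity)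
  refine ⟨ρ / 4, max N (max 1 (Real.exp L / ν)), by positivity, fun s hs σ hσ h t t1 t2 => ?_⟩
  by_cases ho : Off B ρ t
  · have h1 := h t (by linarith) (by linarith) (off_mono ho (by simp; linarith))
    have h2 : 1 ≤ ‖s t‖ := (le_max_of_le_right (le_max_left _ _)).trans h1
    have h3 : Real.exp L ≤ ν * ‖s t‖ :=
      (div_le_iff₀' ν0).1 ((le_max_of_le_right (le_max_right _ _)).trans h1)
    have h4 : ∀ k : ℕ, 1 ≤ k → Real.exp L ≤ ν * ‖s t‖ ^ k := fun k hk =>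
      h3.trans (mul_le_mul_of_nonneg_left (le_self_pow₀ h2 (by omega)) ν0.le)
    refine le_of_mul_le_mul_right (hν s t (ρ / 2) (half_pos ρ0) hs.1.differentiableOn
      (fun z hz => ⟨?_, ?_, ?_⟩) ?_ ?_) (by positivity)
    · rw [(hs.2 z).1]; exact one_ne_zero
    · rw [(hs.2 z).2]; exact Complex.exp_ne_zero _
    · have := mem_ball_iff_norm.1 hz
      have := hA s hs z (off_mono ho (by linarith))
      gcongr
    · rw [(hs.2 t).1, norm_one]
      exact (Real.one_le_exp ((abs_nonneg _).trans t1)).trans (h4 _ D.a1)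
    · rw [(hs.2 t).2, Complex.norm_exp]
      exact (Real.exp_le_exp.2 ((le_abs_self _).trans t1)).trans (h4 _ D.b1)
  · simp only [Off, not_forall, not_le] at ho
    obtain ⟨t₀, h₀, ho⟩ := ho
    refine hN s hs t₀ h₀ (fun w hw hw' => ?_) t (mem_ball_iff_norm.2 ho)
    have w1 := mem_ball_iff_norm.1 hw
    have w2 : Off B (ρ / 4) w := fun t₁ h₁ => by
      rcases eq_or_ne t₀ t₁ with rfl | hne
      · exact hw'.le
      have a := hr t₀ t₁ h₀ h₁ hne
      have b := norm_sub_le_norm_sub_add_norm_sub t₀ w t₁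
      rw [norm_sub_rev t₀ w] at b
      linarith
    have w3 : ‖w - t‖ < 3 := by
      have b := norm_sub_le_norm_sub_add_norm_sub w t₀ t
      rw [norm_sub_rev t₀ t] at b
      linarith
    have w4 := abs_lt.1 ((Complex.abs_im_le_norm _).trans_lt w3)
    have w5 := (Complex.abs_re_le_norm _).trans_lt w3
    rw [Complex.sub_im] at w4
    rw [Complex.sub_re] at w5
    refine ⟨hA s hs w w2, (le_max_left _ _).trans (h w ?_ ?_ w2)⟩
    · linarith [abs_sub_abs_le_abs_sub w.re t.re]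
    · rcases hσ with rfl | rfl <;> linarith [w4.1, w4.2]

end Esc

theorem esc (hH : HypStmt) (hB : BptStmt) (hU : BubStmt) (hC : CarlStmt) (hL : LatStmt) :
    EscStmt := fun D B hb => by
  obtain ⟨c, c0, hc⟩ := Esc.core hC D
  obtain ⟨x, A, x0, A0, hA⟩ := Esc.lam_far hH hL hb
  have b1 : (1 : ℝ) ≤ D.b := by exact_mod_cast D.b1
  obtain ⟨L, L1, L2⟩ : ∃ L : ℝ, x ≤ L ∧ 8 * D.b * A * Real.pi / c < L :=
    ⟨max x (8 * D.b * A * Real.pi / c + 1), le_max_left _ _,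
      (lt_add_one _).trans_le (le_max_right _ _)⟩
  have L0 : 0 < L := x0.trans_le L1
  obtain ⟨r, N, r0, hN⟩ := Esc.small hH hB hU hL hb L (show 0 < A / L ^ 2 by positivity)
  refine ⟨r, L + 3, N, r0, fun s hs σ y hσ => ?_⟩
  by_contra hn
  push Not at hn
  obtain ⟨n, hn'⟩ : ∃ n : ℤ, y + 3 ≤ σ * (n * (2 * Real.pi)) := by
    obtain ⟨k, hk⟩ := exists_nat_ge (y + 3)
    have k0 : (0 : ℝ) ≤ k := k.cast_nonneg
    have := Real.pi_gt_three
    rcases hσ with rfl | rfl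
    · exact ⟨k, by push_cast; nlinarith⟩
    · exact ⟨-k, by push_cast; nlinarith⟩
  have hs' := Sec.shift hs n
  have h1 := hN _ hs' σ hσ fun t t1 t2 t3 => hn _ (by simpa using t1) (by
    have : (t + n * (2 * Real.pi * Complex.I)).im = t.im + n * (2 * Real.pi) := by simp
    rw [this]
    linarith) (t3.shift n)
  refine hc _ hs' σ (fun u => 8 * D.b * A / L ^ 2 * (1 + (u / L) ^ 2)⁻¹) hσ ?_
    ((integrable_inv_one_add_sq.comp_div L0.ne').const_mul _) (fun u => by positivity) ?_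
    fun t ht => ?_
  · exact continuous_const.mul (Continuous.inv₀ (by fun_prop) fun u => by positivity)
  · rw [integral_const_mul, Measure.integral_comp_div (fun u : ℝ => (1 + u ^ 2)⁻¹),
      integral_univ_inv_one_add_sq, abs_of_pos L0, smul_eq_mul]
    rw [div_lt_iff₀ c0] at L2
    rw [show 8 * D.b * A / L ^ 2 * (L * Real.pi) = 8 * D.b * A * Real.pi / L by field_simp,
      div_lt_iff₀ L0]
    linarith
  · rw [show 8 * D.b * A / L ^ 2 * (1 + (t.re / L) ^ 2)⁻¹ = 4 * D.b * (2 * A / (L ^ 2 + t.re ^ 2))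
      by field_simp; ring]
    gcongr
    rw [le_div_iff₀ (by positivity)]
    have l0 := lam_nn (fun t => s (t + n * (2 * Real.pi * Complex.I))) t
    rcases le_total |t.re| L with h | h
    · have a := (le_div_iff₀ (by positivity)).1 (h1 t h ht)
      have b : t.re ^ 2 ≤ L ^ 2 := sq_le_sq' (abs_le.1 h).1 (abs_le.1 h).2
      nlinarith
    · have a := hA _ hs' t (L1.trans h)
      have b : L ^ 2 ≤ t.re ^ 2 := by rw [← sq_abs t.re]; gcongr
      nlinarith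

end Pool.Agent.MP_c69980_ag.G2
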