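import Pool.Agent.MP_c69980_ag.G2.Base

/-!
The complement of two plane curves: the system of sections is expansive.
-/

set_option autoImplicit false

noncomputable section

namespace Pool.Agent.MP_c69980_ag.G2

open MvPolynomial Metric Filter Topology MeasureTheory Set
open scoped ContDiff
open H60 H4

namespace Exp

lemma sq_le3 (y : V3) : H4.sq y ≤ 3 * ‖y‖ ^ 2 := by
  have h : ∀ i, ‖y i‖ ^ 2 ≤ ‖y‖ ^ 2 := fun i =>
    pow_le_pow_left₀ (norm_nonneg _) (norm_le_pi_norm y i) 2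
  rw [H4.sq, Fin.sum_univ_three]
  linarith [h 0, h 1, h 2]

lemma psi (c₁ c₂ : ℝ) (k : ℕ) (h1 : 0 < c₁) : ∃ A : ℝ, 0 ≤ A ∧ ∀ y w : V3, y ≠ 0 →
    c₁ * ‖y‖ ^ k ≤ ‖w‖ → ‖w‖ ≤ c₂ * ‖y‖ ^ k →
    |Real.log (H4.sq w) - k * Real.log (H4.sq y)| ≤ A := by
  refine ⟨|Real.log (c₁ ^ 2 / 3 ^ k)| + |Real.log (3 * c₂ ^ 2)|, by positivity,
    fun y w hy a b => ?_⟩
  have y0 : 0 < ‖y‖ := norm_pos_iff.2 hy
  have w0 : 0 < ‖w‖ := lt_of_lt_of_le (by positivity) a
  have c0 : 0 < c₂ := (mul_pos_iff_of_pos_right (by positivity)).1 (w0.trans_le b)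
  have sy := R1.sq_pos' hy
  have sw := R1.sq_pos' (norm_pos_iff.1 w0)
  have e : (‖y‖ ^ k) ^ 2 = (‖y‖ ^ 2) ^ k := by rw [← pow_mul, ← pow_mul, mul_comm]
  have u1 : H4.sq w ≤ 3 * c₂ ^ 2 * H4.sq y ^ k := by
    have p1 := pow_le_pow_left₀ (norm_nonneg _) b 2
    have p2 := pow_le_pow_left₀ (by positivity) (R1.norm_sq_le y) k
    rw [mul_pow, e] at p1
    have p3 := mul_le_mul_of_nonneg_left p2 (sq_nonneg c₂)
    linarith [sq_le3 w]
  have u2 : c₁ ^ 2 / 3 ^ k * H4.sq y ^ k ≤ H4.sq w := by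
    have p1 := pow_le_pow_left₀ (by positivity) a 2
    have p2 := pow_le_pow_left₀ sy.le (sq_le3 y) k
    rw [mul_pow, e] at p1
    rw [mul_pow] at p2
    calc c₁ ^ 2 / 3 ^ k * H4.sq y ^ k ≤ c₁ ^ 2 / 3 ^ k * (3 ^ k * (‖y‖ ^ 2) ^ k) := by gcongr
      _ = c₁ ^ 2 * (‖y‖ ^ 2) ^ k := by field_simp
      _ ≤ _ := p1.trans (R1.norm_sq_le w)
  have v1 := Real.log_le_log sw u1
  have v2 := Real.log_le_log (by positivity) u2
  rw [Real.log_mul (by positivity) (by positivity), Real.log_pow] at v1 v2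
  rw [abs_le]
  constructor
  · linarith [neg_abs_le (Real.log (c₁ ^ 2 / 3 ^ k)), abs_nonneg (Real.log (3 * c₂ ^ 2))]
  · linarith [le_abs_self (Real.log (3 * c₂ ^ 2)), abs_nonneg (Real.log (c₁ ^ 2 / 3 ^ k))]

lemma D_re {Θ Θ₁ : ℝ → ℝ} (h : ∀ x, HasDerivAt Θ (Θ₁ x) x) (v : ℂ) :
    H4.D v (fun w : ℂ => Θ w.re) = fun w => v.re * Θ₁ w.re := by
  funext w
  have := (h w.re).comp_hasFDerivAt w Complex.reCLM.hasFDerivAt
  rw [H4.D, show (fun w : ℂ => Θ w.re) = Θ ∘ Complex.re from rfl, this.fderiv]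
  simp [mul_comm]

lemma lap_re {Θ Θ₁ Θ₂ : ℝ → ℝ} (h : ∀ x, HasDerivAt Θ (Θ₁ x) x)
    (h' : ∀ x, HasDerivAt Θ₁ (Θ₂ x) x) (z : ℂ) : lap (fun w : ℂ => Θ w.re) z = Θ₂ z.re := by
  rw [lap, D_re h, D_re h, D_re fun x => (h' x).const_mul (1 : ℂ).re,
    D_re fun x => (h' x).const_mul Complex.I.re]
  simp

/-- A smooth majorant of the absolute value of the real part. -/
lemma major (C ε : ℝ) (hε : 0 ≤ ε) : ∃ G : ℂ → ℝ, ContDiff ℝ ∞ G ∧
    (∀ z, C + ε * |z.re| ≤ G z) ∧ ∀ z, lap G z ≤ ε * (1 + z.re ^ 2)⁻¹ := by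
  have p : ∀ x : ℝ, 0 < 1 + x ^ 2 := fun x => by positivity
  have q : ∀ x : ℝ, 0 < √(1 + x ^ 2) := fun x => Real.sqrt_pos.2 (p x)
  have d1 : ∀ x : ℝ, HasDerivAt (fun y : ℝ => √(1 + y ^ 2)) (x / √(1 + x ^ 2)) x := fun x => by
    refine (((hasDerivAt_pow 2 x).const_add 1).sqrt (p x).ne').congr_deriv ?_
    have := (q x).ne'
    norm_num
    field_simp
  have d2 : ∀ x : ℝ, HasDerivAt (fun y : ℝ => y / √(1 + y ^ 2))
      ((1 + x ^ 2)⁻¹ / √(1 + x ^ 2)) x := fun x => by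
    refine ((hasDerivAt_id' x).fun_div (d1 x) (q x).ne').congr_deriv ?_
    have := (q x).ne'
    have h2 := Real.sq_sqrt (p x).le
    have := (p x).ne'
    rw [h2]
    field_simp
    rw [h2]
    ring
  refine ⟨fun z => C + ε * √(1 + z.re ^ 2), ?_, fun z => ?_, fun z => ?_⟩
  · exact contDiff_const.add (contDiff_const.mul ((contDiff_const.add
      (Complex.reCLM.contDiff.pow 2)).sqrt fun z => (p _).ne'))
  · have : |z.re| ≤ √(1 + z.re ^ 2) := Real.abs_le_sqrt (by linarith)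
    exact add_le_add_right (mul_le_mul_of_nonneg_left this hε) C
  · rw [lap_re (fun x => ((d1 x).const_mul ε).const_add C) (fun x => (d2 x).const_mul ε)]
    refine mul_le_mul_of_nonneg_left (div_le_self (inv_pos.2 (p _)).le ?_) hε
    exact Real.one_le_sqrt.2 (by nlinarith [sq_nonneg z.re])

lemma int_loc {O : Set ℂ} {u ψ : ℂ → ℝ} (hu : LocallyIntegrableOn u O) (hψ : Test O ψ) :
    Integrable fun z => u z * ψ z := by
  have h1 := (hu.integrableOn_compact_subset hψ.2.2 hψ.2.1).mul_continuousOn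
    hψ.1.continuous.continuousOn hψ.2.1
  refine (integrableOn_iff_integrable_of_support_subset fun z hz => ?_).1 h1
  exact subset_tsupport _ fun h => hz (by simp [h])

lemma test_univ {O : Set ℂ} {ψ : ℂ → ℝ} (h : Test O ψ) : Test univ ψ :=
  ⟨h.1, h.2.1, subset_univ _⟩

lemma int_ss {f g h : ℂ → ℝ} (hf : Integrable f) (hg : Integrable g) (hh : Integrable h) :
    ∫ z, (f z - g z - h z) = (∫ z, f z) - (∫ z, g z) - ∫ z, h z := by
  rw [← integral_sub hf hg]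
  exact integral_sub (hf.sub hg) hh

lemma int_as {f g h : ℂ → ℝ} (hf : Integrable f) (hg : Integrable g) (hh : Integrable h) :
    ∫ z, (f z + g z - h z) = (∫ z, f z) + (∫ z, g z) - ∫ z, h z := by
  rw [← integral_add hf hg]
  exact integral_sub (hf.add hg) hh

/-- The splitting of the pairing. -/
lemma core {O : Set ℂ} {H m L G Φ Φ₁ Φ₂ : ℂ → ℝ} {k A : ℝ} (hH : LocallyIntegrableOn H univ)
    (hm : LocallyIntegrableOn m O) (hΨ : ∀ᵐ z, z ∈ O → |H z - m z - k * L z| ≤ A)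
    (hL : ContDiff ℝ ∞ L) (hG : ContDiff ℝ ∞ G) (t : Test univ Φ) (t1 : Test O Φ₁)
    (t2 : Test univ Φ₂) (e : Φ = fun z => Φ₁ z + Φ₂ z) (p1 : 0 ≤ ∫ z, m z * lap Φ₁ z)
    (p2 : 0 ≤ ∫ z, H z * lap Φ₂ z) :
    (∫ z, (k * (lap L z * Φ₁ z) - lap L z * Φ z - lap G z * Φ z)) - A * ∫ z, |lap Φ₁ z| ≤
      ∫ z, (H z - L z - G z) * lap Φ z := by
  have t1' := test_univ t1
  have two : (2 : WithTop ℕ∞) ≤ ∞ := by norm_cast
  have el : ∀ z, lap Φ z = lap Φ₁ z + lap Φ₂ z := fun z => by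
    rw [e]
    exact (R1.lapRule Φ₁ Φ₂ id z (t1.1.of_le two).contDiffAt (t2.1.of_le two).contDiffAt
      contDiffAt_id).1
  have ic : ∀ {u ψ : ℂ → ℝ}, ContDiff ℝ ∞ u → Test univ ψ → Integrable fun z => u z * ψ z :=
    fun hu hψ => R1.int_mul isOpen_univ hu.continuous.continuousOn hψ
  have gr : ∀ {u ψ : ℂ → ℝ}, ContDiff ℝ ∞ u → Test univ ψ →
      ∫ z, u z * lap ψ z = ∫ z, lap u z * ψ z :=
    fun hu hψ => R1.green univ _ _ isOpen_univ (hu.of_le two).contDiffOn hψ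
  have i1 := int_loc hH (R1.test_lap t1')
  have i2 := int_loc hH (R1.test_lap t2)
  have i3 := int_loc hm (R1.test_lap t1)
  have i4 := (ic hL (R1.test_lap t1')).const_mul k
  have i5 : Integrable fun z => |lap Φ₁ z| :=
    ((R1.test_lap t1).1.continuous.integrable_of_hasCompactSupport (R1.test_lap t1).2.1).abs
  have a1 : ∫ z, (H z - L z - G z) * lap Φ z = (∫ z, H z * lap Φ₁ z) + (∫ z, H z * lap Φ₂ z) -
      (∫ z, lap L z * Φ z) - ∫ z, lap G z * Φ z := by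
    have i6 : Integrable fun z => H z * lap Φ₁ z + H z * lap Φ₂ z := i1.add i2
    rw [← gr hL t, ← gr hG t, ← integral_add i1 i2,
      ← int_ss i6 (ic hL (R1.test_lap t)) (ic hG (R1.test_lap t))]
    refine integral_congr_ae (.of_forall fun z => ?_)
    simp only [← mul_add, ← el z]
    ring
  have a2 : ∫ z, (m z * lap Φ₁ z + k * (L z * lap Φ₁ z) - A * |lap Φ₁ z|) ≤
      ∫ z, H z * lap Φ₁ z := by
    refine integral_mono_ae ((i3.add i4).sub (i5.const_mul A)) i1 (hΨ.mono fun z hz => ?_)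
    by_cases h : z ∈ O
    · have b1 := neg_abs_le ((H z - m z - k * L z) * lap Φ₁ z)
      rw [abs_mul] at b1
      have b2 := mul_le_mul_of_nonneg_right (hz h) (abs_nonneg (lap Φ₁ z))
      dsimp only
      linarith
    · have : lap Φ₁ z = 0 := image_eq_zero_of_notMem_tsupport fun a => h ((R1.test_lap t1).2.2 a)
      simp [this]
  rw [int_as i3 i4 (i5.const_mul A), integral_const_mul, integral_const_mul, gr hL t1'] at a2
  have j1 := (ic (R1.lap_cd hL) t1').const_mul k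
  have j2 := ic (R1.lap_cd hL) t
  have j3 := ic (R1.lap_cd hG) t
  rw [a1, int_ss j1 j2 j3, integral_const_mul]
  linarith

lemma log_near {y y' : V3} (hy : y ≠ 0) (hy' : y' ≠ 0) (h : ‖y - y'‖ ≤ ‖y‖) :
    Real.log (H4.sq y') - Real.log (H4.sq y) ≤ 10 := by
  have h1 : ‖y'‖ ≤ 2 * ‖y‖ := by
    have := norm_sub_norm_le y' y
    rw [norm_sub_rev] at this
    linarith
  have h2 : H4.sq y' ≤ 12 * H4.sq y := by
    nlinarith [sq_le3 y', R1.norm_sq_le y, norm_nonneg y', norm_nonneg y]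
  have h3 := Real.log_le_log (R1.sq_pos' hy') h2
  rw [Real.log_mul (by norm_num) (R1.sq_pos' hy).ne'] at h3
  have h4 : Real.log 12 ≤ 10 := by
    rw [show (12 : ℝ) = 2 * 6 by norm_num, Real.log_mul (by norm_num) (by norm_num)]
    linarith [Real.log_le_sub_one_of_pos (x := 2) (by norm_num),
      Real.log_le_sub_one_of_pos (x := 6) (by norm_num)]
  linarith

lemma log_diff {y y' : V3} {T : ℝ} (hy : y ≠ 0) (hy' : y' ≠ 0) (hv : y - y' ≠ 0) (hT : 0 ≤ T)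
    (h : Real.log (H4.sq y') - Real.log (H4.sq y) ≤ T) :
    Real.log (H4.sq (y - y')) ≤ Real.log 12 + Real.log (H4.sq y) + T := by
  have sy := R1.sq_pos' hy
  have h1 : H4.sq y' ≤ H4.sq y * Real.exp T := by
    rw [← Real.exp_log sy, ← Real.exp_add, ← Real.log_le_iff_le_exp (R1.sq_pos' hy')]
    linarith
  have h2 : H4.sq y ≤ H4.sq y * Real.exp T := le_mul_of_one_le_right sy.le (Real.one_le_exp hT)
  have h3 : ‖y - y'‖ ^ 2 ≤ (‖y‖ + ‖y'‖) ^ 2 :=
    pow_le_pow_left₀ (norm_nonneg _) (norm_sub_le _ _) 2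
  have h4 : H4.sq (y - y') ≤ 12 * H4.sq y * Real.exp T := by
    nlinarith [sq_le3 (y - y'), R1.norm_sq_le y, R1.norm_sq_le y', sq_nonneg (‖y‖ - ‖y'‖)]
  have h5 := Real.log_le_log (R1.sq_pos' hv) h4
  rwa [Real.log_mul (by positivity) (by positivity), Real.log_mul (by norm_num) sy.ne',
    Real.log_exp] at h5

/-- The error density. -/
lemma dens (ε A m : ℝ) (hε : 0 ≤ ε) (hA : 0 ≤ A) (hm : 0 < m) : ∃ e : ℝ → ℝ, Integrable e ∧
    Continuous e ∧ (∫ x, e x) ≤ 4 * ε + 128 * A / m ∧ (∀ x, ε * (1 + x ^ 2)⁻¹ ≤ e x) ∧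
    ∀ x, m ≤ |x| → ε * (1 + x ^ 2)⁻¹ + 16 * A / x ^ 2 ≤ e x := by
  have i1 := integrable_inv_one_add_sq.const_mul ε
  have i2 := (integrable_inv_one_add_sq.comp_div hm.ne').const_mul (32 * A / m ^ 2)
  refine ⟨fun x => ε * (1 + x ^ 2)⁻¹ + 32 * A / m ^ 2 * (1 + (x / m) ^ 2)⁻¹, i1.add i2, ?_, ?_,
    fun x => le_add_of_nonneg_right (by positivity), fun x hx => add_le_add_right ?_ _⟩
  · fun_prop (disch := intros; positivity)
  · rw [integral_add i1 i2, integral_const_mul, integral_const_mul,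
      Measure.integral_comp_div (fun x : ℝ => (1 + x ^ 2)⁻¹), integral_univ_inv_one_add_sq,
      abs_of_pos hm, smul_eq_mul]
    have e : 32 * A / m ^ 2 * (m * Real.pi) = 32 * A / m * Real.pi := by field_simp
    have e' : 128 * A / m = 32 * A / m * 4 := by ring
    rw [e, e', mul_comm 4 ε]
    gcongr <;> exact Real.pi_le_four
  · have h1 : m ^ 2 ≤ x ^ 2 := by rw [← sq_abs x]; gcongr
    have h2 : 0 < x ^ 2 := lt_of_lt_of_le (by positivity) h1
    have e : 32 * A / m ^ 2 * (1 + (x / m) ^ 2)⁻¹ = 32 * A / (m ^ 2 + x ^ 2) := by field_simp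
    rw [e, div_le_div_iff₀ h2 (by positivity)]
    nlinarith [mul_le_mul_of_nonneg_left h1 hA]

lemma strip (M σ : ℝ) : IsOpen {z : ℂ | |z.re| < M ∧ 0 < σ * z.im} ∧
    IsPreconnected {z : ℂ | |z.re| < M ∧ 0 < σ * z.im} := by
  refine ⟨IsOpen.and (isOpen_lt (by fun_prop) (by fun_prop))
    (isOpen_lt (by fun_prop) (by fun_prop)), ?_⟩
  have h : IsLinearMap ℝ fun z : ℂ => σ * z.im :=
    ⟨fun a b => by simp [mul_add], fun a b => by simp [mul_left_comm]⟩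
  have := (((convex_halfSpace_re_gt (-M)).inter (convex_halfSpace_re_lt M)).inter
    (convex_halfSpace_gt h 0)).isPreconnected
  convert this using 1
  ext z
  simp [abs_lt]

lemma half (h1 : UnifStmt) (h2 : SlpStmt) (h3 : DivStmt) (h4 : ParStmt) (h5 : CarlStmt)
    (h6 : SubStmt) (D : Pr) : ∃ M δ : ℝ, 0 < δ ∧ ∀ s ∈ Sec D, ∀ s' ∈ Sec D, ∀ σ : ℝ,
    σ = 1 ∨ σ = -1 → (∀ t : ℂ, |t.re| ≤ M → 0 < σ * t.im → ‖s t - s' t‖ ≤ δ * ‖s t‖) → s = s' := by
  obtain ⟨x₀, A, c, hx, hA, hc, hU⟩ := h1 D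
  obtain ⟨W, Cw, hW, hCw, hcr, hX, hWX⟩ := h3 D
  obtain ⟨χ, Cχ, χs, χ01, χ1, χ0, hCχ, hC⟩ := h5
  obtain ⟨M₀, hM₀⟩ := h2 D (c / 4) (by positivity)
  obtain ⟨A₁, hA₁, hψ⟩ := psi (c / 2) (Cw + c / 2) (D.a + D.b - 2) (by positivity)
  obtain ⟨M, m1, m2, m3⟩ : ∃ M : ℝ, M₀ ≤ M ∧ 4 * x₀ ≤ M ∧ (256 * A + A₁ * Cχ) / c ≤ M :=
    ⟨max M₀ (max _ _), le_max_left _ _, le_max_of_le_right (le_max_left _ _),
      le_max_of_le_right (le_max_right _ _)⟩
  have M0 : 0 < M := by linarith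
  obtain ⟨δ, δ0, δ1, δ2⟩ : ∃ δ : ℝ, 0 < δ ∧ δ ≤ 1 ∧ Cw * δ ≤ c / 2 :=
    ⟨min 1 (c / 2 / Cw), by positivity, min_le_left _ _,
      (le_div_iff₀' hCw).1 (min_le_right _ _)⟩
  refine ⟨M, δ, δ0, fun s hs s' hs' σ hσ hcl => by_contra fun hne => ?_⟩
  have s0 : ∀ t, s t ≠ 0 := fun t => (Sec.crv hs univ).2 t trivial
  have s0' : ∀ t, s' t ≠ 0 := fun t => (Sec.crv hs' univ).2 t trivial
  have hv : Differentiable ℂ fun t => s t - s' t := hs.1.sub hs'.1
  obtain ⟨v1, v2, v3⟩ := h6 3 univ _ isOpen_univ isPreconnected_univ hv.differentiableOn (by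
    obtain ⟨t, ht⟩ := Function.ne_iff.1 hne
    exact ⟨t, trivial, sub_ne_zero.2 ht⟩)
  obtain ⟨oO, cO⟩ := strip M σ
  obtain ⟨O, hO⟩ : ∃ O, O = {z : ℂ | |z.re| < M ∧ 0 < σ * z.im} := ⟨_, rfl⟩
  rw [← hO] at oO cO
  have mO : ∀ z, z ∈ O ↔ |z.re| < M ∧ 0 < σ * z.im := fun z => by rw [hO]; rfl
  have hb : ∀ z ∈ O, c / 2 * ‖s z‖ ^ (D.a + D.b - 2) ≤ ‖W (s z, s' z)‖ ∧
      ‖W (s z, s' z)‖ ≤ (Cw + c / 2) * ‖s z‖ ^ (D.a + D.b - 2) := fun z hz => by
    have a1 := hWX _ _ δ δ0.le δ1 (hcl z ((mO z).1 hz).1.le ((mO z).1 hz).2)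
    have a2 := mul_le_mul_of_nonneg_right δ2 (pow_nonneg (norm_nonneg (s z)) (D.a + D.b - 2))
    have a3 := abs_le.1 (abs_norm_sub_norm_le (W (s z, s' z)) (D.X (s z)))
    constructor <;> linarith [(hU s hs).2.1 z, hX (s z), a3.1, a3.2]
  have W0 : ∀ z ∈ O, W (s z, s' z) ≠ 0 := fun z hz => norm_pos_iff.1
    (lt_of_lt_of_le (mul_pos (by positivity) (pow_pos (norm_pos_iff.2 (s0 z)) _)) (hb z hz).1)
  obtain ⟨μ, hμ, eμ⟩ := h4 O (fun t => s t - s' t) (fun z => W (s z, s' z)) oO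
    hv.differentiableOn (hW.comp (hs.1.prodMk hs'.1)).differentiableOn fun z hz =>
      ⟨W0 z hz, hcr _ _ ((hs.2 z).1.trans (hs'.2 z).1.symm) ((hs.2 z).2.trans (hs'.2 z).2.symm)⟩
  have σ1 : 0 < σ * σ := by rcases hσ with rfl | rfl <;> norm_num
  obtain ⟨u1, u2, u3⟩ := h6 1 O (fun z _ => μ z) oO cO (differentiableOn_pi.2 fun _ => hμ) (by
    obtain ⟨z, hz, h⟩ := Measure.exists_mem_of_measure_ne_zero_of_ae
      (oO.measure_ne_zero volume ⟨⟨0, σ⟩, (mO _).2 ⟨by simpa using M0, σ1⟩⟩)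
      (ae_restrict_of_ae v1)
    refine ⟨z, hz, fun a => h trivial ?_⟩
    rw [eμ z hz, congrFun a 0]
    simp)
  have near : ∀ x : ℝ, |x| ≤ M → LL s' ⟨x, σ⟩ - LL s ⟨x, σ⟩ ≤ 10 := fun x h =>
    log_near (s0 _) (s0' _) ((hcl ⟨x, σ⟩ h σ1).trans (mul_le_of_le_one_left (norm_nonneg _) δ1))
  obtain ⟨C, hsl⟩ := hM₀ s hs s' hs' ⟨M, σ⟩ ⟨-M, σ⟩ m1 (neg_le_neg m1)
    (near M (abs_of_pos M0).le) (near (-M) (by rw [abs_neg, abs_of_pos M0]))
  obtain ⟨G, G1, G2, G3⟩ := major (Real.log 12 + |C|) (c / 4) (by positivity)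
  obtain ⟨e, e1, e2, e3, e4, e5⟩ := dens (c / 4) A (M / 2) (by positivity) hA.le (by positivity)
  obtain ⟨L1, L2, L3⟩ := Sec.lap hs
  refine hC σ (fun z => Real.log (H4.sq (s z - s' z)) - LL s z - G z) e (4 * c) A₁ M hσ
    (((locallyIntegrableOn_univ.1 v2).sub L1.continuous.locallyIntegrable).sub
      G1.continuous.locallyIntegrable) (v1.mono fun z hz _ => ?_) e1
    (fun x => le_trans (by positivity) (e4 x)) hA₁ (by linarith) ?_ fun Φ t Φ0 => ?_
  · have := log_diff (T := c / 4 * |z.re| + |C|) (s0 z) (s0' z) (hz trivial) (by positivity)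
      ((hsl z).trans (by linarith [le_abs_self C]))
    simp only [LL]
    linarith [G2 z]
  · have a1 : 128 * A / (M / 2) + A₁ * Cχ / M = (256 * A + A₁ * Cχ) / M := by field_simp; ring
    have a2 : (256 * A + A₁ * Cχ) / M ≤ c := by
      rw [div_le_iff₀ M0]
      rwa [div_le_iff₀' hc] at m3
    linarith
  have χc : ContDiff ℝ ∞ fun w : ℂ => χ (w.re / M) :=
    χs.comp (Complex.reCLM.contDiff.div_const M)
  have t1 : Test O fun w : ℂ => χ (w.re / M) * Φ w := by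
    refine ⟨χc.mul t.1, t.2.1.mul_left, fun z hz => (mO z).2
      ⟨?_, t.2.2 (tsupport_mul_subset_right hz)⟩⟩
    have : z ∈ {w : ℂ | |w.re / M| ≤ 3 / 4} := by
      refine closure_minimal (fun w hw => ?_) (isClosed_le (by fun_prop) (by fun_prop)) hz
      by_contra a
      exact hw (by simp [χ0 _ (not_le.1 a).le])
    rw [mem_ofPred, abs_div, abs_of_pos M0, div_le_iff₀ M0] at this
    linarith
  have t2 : Test univ fun w : ℂ => (1 - χ (w.re / M)) * Φ w :=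
    ⟨(contDiff_const.sub χc).mul t.1, t.2.1.mul_left, subset_univ _⟩
  refine le_trans (sub_le_sub_right ?_ _) (core (k := (D.a + D.b - 2 : ℕ)) v2 u2
    (u1.mono fun z hz a => ?_) L1 G1 (test_univ t) t1 t2 (funext fun z => by ring)
    (u3 _ t1 fun z => mul_nonneg (χ01 _).1 (Φ0 z))
    (v3 _ t2 fun z => mul_nonneg (sub_nonneg.2 (χ01 _).2) (Φ0 z)))
  · have ic : ∀ {u ψ : ℂ → ℝ}, Continuous u → Test univ ψ → Integrable fun z => u z * ψ z :=
      fun hu hψ => R1.int_mul isOpen_univ hu.continuousOn hψ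
    have ms : MeasurableSet {z : ℂ | |z.re| ≤ 1} :=
      (isClosed_le (by fun_prop) (by fun_prop)).measurableSet
    have i1 := ((t.1.continuous.integrable_of_hasCompactSupport (μ := volume)
      t.2.1).indicator ms).const_mul (4 * c)
    have i2 := ic (e2.comp Complex.continuous_re) (test_univ t)
    rw [← integral_indicator ms, ← integral_const_mul]
    refine (integral_sub i1 i2).symm.trans_le (integral_mono (i1.sub i2)
      ((((ic (R1.lap_cd L1).continuous (test_univ t1)).const_mul _).sub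
        (ic (R1.lap_cd L1).continuous (test_univ t))).sub
        (ic (R1.lap_cd G1).continuous (test_univ t))) fun z => ?_)
    have k2 : (2 : ℝ) ≤ (D.a + D.b - 2 : ℕ) := by
      have := D.d4
      exact_mod_cast (by omega : 2 ≤ D.a + D.b - 2)
    have l0 := lam_nn s z
    have p0 := Φ0 z
    have b1 := mul_le_mul_of_nonneg_right (G3 z) p0
    have b2 : 0 ≤ 4 * lam s z * (χ (z.re / M) * Φ z) := by have := (χ01 (z.re / M)).1; positivity
    have b3 := mul_le_mul_of_nonneg_right k2 b2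
    simp only [Function.comp_apply, L3]
    rcases le_total |z.re| (M / 2) with h | h
    · have b4 : χ (z.re / M) = 1 := χ1 _ (by
        rw [abs_div, abs_of_pos M0, div_le_iff₀ M0]; linarith)
      have b5 := mul_le_mul_of_nonneg_right (e4 z.re) p0
      have b6 : c * indicator {z : ℂ | |z.re| ≤ 1} Φ z ≤ lam s z * Φ z := by
        by_cases a : |z.re| ≤ 1
        · rw [indicator_of_mem (by exact a)]
          exact mul_le_mul_of_nonneg_right ((hU s hs).2.2.1 z a) p0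
        · rw [indicator_of_notMem (by exact a), mul_zero]
          positivity
      rw [b4] at b3 ⊢
      linarith
    · have b5 := mul_le_mul_of_nonneg_right (e5 z.re h) p0
      have b6 : 4 * lam s z ≤ 16 * A / z.re ^ 2 := by
        have c1 := (hU s hs).1 z (by linarith)
        have c2 : A / (1 + |z.re| - x₀) ^ 2 ≤ A / (|z.re| / 2) ^ 2 := by
          have : 0 < |z.re| / 2 := by linarith
          gcongr
          linarith
        have c3 : A / (|z.re| / 2) ^ 2 = 4 * A / z.re ^ 2 := by rw [div_pow, sq_abs]; ring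
        have c4 : 16 * A / z.re ^ 2 = 4 * (4 * A / z.re ^ 2) := by ring
        linarith
      have b7 := mul_le_mul_of_nonneg_right b6 p0
      rw [indicator_of_notMem (by rw [mem_ofPred, not_le]; linarith)]
      linarith
  · have μ0 : μ z ≠ 0 := fun b => hz a (funext fun _ => b)
    have e : H4.sq (fun _ : Fin 1 => μ z) = ‖μ z‖ ^ 2 := by simp [H4.sq]
    rw [eμ z a, R1.sq_smul, Real.log_mul (by positivity) (R1.sq_pos' (W0 z a)).ne', e,
      add_sub_cancel_left]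
    exact hψ _ _ (s0 z) (hb z a).1 (hb z a).2

end Exp

theorem exps (h1 : UnifStmt) (h2 : SlpStmt) (h3 : DivStmt) (h4 : ParStmt) (h5 : CarlStmt)
    (h6 : SubStmt) : ExpStmt := fun D => by
  obtain ⟨M, δ, δ0, h⟩ := Exp.half h1 h2 h3 h4 h5 h6 D
  refine ⟨M, δ, δ0, fun s hs s' hs' σ y₀ hσ hcl => ?_⟩
  obtain ⟨n, hn⟩ : ∃ n : ℤ, y₀ ≤ σ * (n * (2 * Real.pi)) := by
    have a := Int.le_ceil (y₀ / (2 * Real.pi))
    rw [div_le_iff₀ (by positivity)] at a
    rcases hσ with rfl | rfl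
    · exact ⟨_, by simpa using a⟩
    · exact ⟨-⌈y₀ / (2 * Real.pi)⌉, by simpa using a⟩
  have := h _ (Sec.shift hs n) _ (Sec.shift hs' n) σ hσ fun t a b => hcl _ (by simpa using a) (by
    have e : (t + n * (2 * Real.pi * Complex.I)).im = t.im + n * (2 * Real.pi) := by simp
    rw [e, mul_add]
    linarith)
  funext t
  simpa using congrFun this (t - n * (2 * Real.pi * Complex.I))

end Pool.Agent.MP_c69980_ag.G2
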