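import Pool.Agent.MP_c69980_ag.G2.Base
import Pool.Agent.MP_c69980_ag.H60.Arc

/-!
The complement of two transversal smooth plane curves of total degree at least four is of
log-general type.
-/

set_option autoImplicit false

noncomputable section

namespace Pool.Agent.MP_c69980_ag.G2

open MvPolynomial H60 H4

namespace GT

/-- Insert `1` at place `j`. -/
def ins {A : Type} [One A] (j : Fin 3) (w : Fin 2 → A) : Fin 3 → A := Fin.insertNth j 1 w

lemma ins_same {A : Type} [One A] (j : Fin 3) (w : Fin 2 → A) : ins j w j = 1 :=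
  Fin.insertNth_apply_same (α := fun _ => A) j 1 w

lemma ins_above {A : Type} [One A] (j : Fin 3) (w : Fin 2 → A) (i : Fin 2) :
    ins j w (j.succAbove i) = w i :=
  Fin.insertNth_apply_succAbove (α := fun _ => A) j 1 w i

/-- Affine coordinates. -/
def aff {A : Type} [Field A] (j : Fin 3) (y : Fin 3 → A) : Fin 2 → A :=
  fun i => y (j.succAbove i) / y j

lemma smul_ins {A : Type} [Field A] {j : Fin 3} {y : Fin 3 → A} (h : y j ≠ 0) :
    y = y j • ins j (aff j y) := by
  funext k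
  induction k using Fin.succAboveCases j with
  | x => simp [ins_same]
  | p i => simp [ins_above, aff, mul_div_cancel₀, h]

/-- Dehomogenisation. -/
def dh (j : Fin 3) : PR 3 →ₐ[ℂ] PR 2 := aeval (ins j X)

lemma dh_same (j : Fin 3) : dh j (X j) = 1 := by simp [dh, ins_same]

lemma dh_above (j : Fin 3) (i : Fin 2) : dh j (X (j.succAbove i)) = X i := by simp [dh, ins_above]

lemma aeval_dh {A : Type} [CommRing A] [Algebra ℂ A] (j : Fin 3) (w : Fin 2 → A) (F : PR 3) :
    aeval w (dh j F) = aeval (ins j w) F := by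
  rw [dh, comp_aeval_apply]
  congr 2
  funext k
  induction k using Fin.succAboveCases j with
  | x => simp [ins_same]
  | p i => simp [ins_above]

lemma eval_dh (j : Fin 3) (w : Fin 2 → ℂ) (F : PR 3) : eval w (dh j F) = eval (ins j w) F :=
  aeval_dh j w F

lemma aeval_hom {A : Type} [Field A] [Algebra ℂ A] {j : Fin 3} {y : Fin 3 → A} (h : y j ≠ 0)
    {F : PR 3} {d : ℕ} (hF : F.IsHomogeneous d) :
    aeval y F = y j ^ d * aeval (aff j y) (dh j F) := by
  rw [aeval_dh, ← aeval_smul_hom hF, ← smul_ins h]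

lemma eval_hom {j : Fin 3} {y : V3} (h : y j ≠ 0) {F : PR 3} {d : ℕ} (hF : F.IsHomogeneous d) :
    eval y F = y j ^ d * eval (aff j y) (dh j F) := aeval_hom h hF

lemma homog (j : Fin 3) (p : PR 2) : ∃ (F : PR 3) (d : ℕ), F.IsHomogeneous d ∧ dh j F = p := by
  induction p using MvPolynomial.induction_on with
  | C c => exact ⟨C c, 0, isHomogeneous_C _ _, by simp [dh]⟩
  | add p q hp hq =>
    obtain ⟨F, d, hF, rfl⟩ := hp
    obtain ⟨G, e, hG, rfl⟩ := hq
    exact ⟨F * X j ^ e + X j ^ d * G, d + e, (hF.mul (isHomogeneous_X_pow j e)).add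
      ((isHomogeneous_X_pow j d).mul hG), by simp [dh_same]⟩
  | mul_X p i hp =>
    obtain ⟨F, d, hF, rfl⟩ := hp
    exact ⟨F * X (j.succAbove i), d + 1, hF.mul (isHomogeneous_X _ _), by simp [dh_above]⟩

lemma pderiv_dh (j : Fin 3) (i : Fin 2) (F : PR 3) :
    pderiv i (dh j F) = dh j (pderiv (j.succAbove i) F) := by
  induction F using MvPolynomial.induction_on with
  | C c => simp [dh]
  | add p q hp hq => simp only [map_add, hp, hq]
  | mul_X p k hp =>
    have : pderiv i (dh j (X k)) = dh j (pderiv (j.succAbove i) (X k)) := by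
      induction k using Fin.succAboveCases j with
      | x => rw [dh_same, pderiv_X_of_ne (Fin.succAbove_ne j i).symm]; simp
      | p l =>
        rw [dh_above]
        by_cases h : l = i
        · simp [h]
        · rw [pderiv_X_of_ne h, pderiv_X_of_ne (Fin.succAbove_right_injective.ne h), map_zero]
    simp only [map_mul, Derivation.leibniz, smul_eq_mul, map_add, hp, this]

/-- The Jacobian determinant at `a`. -/
def jac (a : Fin 2 → ℂ) (T : Fin 2 → PR 2) : ℂ :=
  eval a (pderiv 0 (T 0)) * eval a (pderiv 1 (T 1)) -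
    eval a (pderiv 1 (T 0)) * eval a (pderiv 0 (T 1))

lemma taylor (a : Fin 2 → ℂ) (f : PR 2) : ∃ A B : PR 2,
    f = C (eval a f) + A * (X 0 - C (a 0)) + B * (X 1 - C (a 1)) ∧
      eval a A = eval a (pderiv 0 f) ∧ eval a B = eval a (pderiv 1 f) := by
  have : ∃ A B : PR 2, f = C (eval a f) + A * (X 0 - C (a 0)) + B * (X 1 - C (a 1)) := by
    induction f using MvPolynomial.induction_on with
    | C c => exact ⟨0, 0, by simp⟩
    | add p q hp hq =>
      obtain ⟨A, B, h⟩ := hp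
      obtain ⟨A', B', h'⟩ := hq
      exact ⟨A + A', B + B', by rw [map_add, map_add]; linear_combination h + h'⟩
    | mul_X p l hp =>
      obtain ⟨A, B, h⟩ := hp
      rw [map_mul, map_mul, eval_X]
      fin_cases l
      · exact ⟨A * X 0 + C (eval a p), B * X 0, by
          simp only [Fin.zero_eta]; linear_combination X 0 * h⟩
      · exact ⟨A * X 1, B * X 1 + C (eval a p), by
          simp only [Fin.mk_one]; linear_combination X 1 * h⟩
  obtain ⟨A, B, h⟩ := this
  refine ⟨A, B, h, ?_, ?_⟩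
  · have := congrArg (fun g => eval a (pderiv 0 g)) h
    simpa [pderiv_X] using this.symm
  · have := congrArg (fun g => eval a (pderiv 1 g)) h
    simpa [pderiv_X] using this.symm

/-- The maximal ideal of the point `a`. -/
def mx (a : Fin 2 → ℂ) : Ideal (PR 2) := RingHom.ker (eval a)

instance mx_max (a : Fin 2 → ℂ) : (mx a).IsMaximal :=
  RingHom.ker_isMaximal_of_surjective _ fun c => ⟨C c, eval_C c⟩

lemma span_max {a : Fin 2 → ℂ} {S : Type} [CommRing S] [IsLocalRing S] [Algebra (PR 2) S]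
    [IsLocalization.AtPrime S (mx a)] {T : Fin 2 → PR 2} (h0 : ∀ i, eval a (T i) = 0)
    (hj : jac a T ≠ 0) :
    (Ideal.span (Set.range fun i => algebraMap (PR 2) S (T i))).IsMaximal := by
  set I := Ideal.span (Set.range fun i => algebraMap (PR 2) S (T i))
  have hT : ∀ i, algebraMap (PR 2) S (T i) ∈ I := fun i => Ideal.subset_span ⟨i, rfl⟩
  have : I = IsLocalRing.maximalIdeal S := by
    refine le_antisymm (Ideal.span_le.2 ?_) ?_
    · rintro _ ⟨i, rfl⟩
      exact (IsLocalization.AtPrime.to_map_mem_maximal_iff S (mx a) _).2 (h0 i)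
    rw [← IsLocalization.AtPrime.map_eq_maximalIdeal (mx a) S, Ideal.map_le_iff_le_comap]
    intro f hf
    obtain ⟨A, B, e, eA, eB⟩ := taylor a (T 0)
    obtain ⟨A', B', e', eA', eB'⟩ := taylor a (T 1)
    obtain ⟨A'', B'', e'', -, -⟩ := taylor a f
    rw [h0, map_zero, zero_add] at e e'
    rw [show eval a f = 0 from hf, map_zero, zero_add] at e''
    have hu : IsUnit (algebraMap (PR 2) S (A * B' - B * A')) :=
      (IsLocalization.AtPrime.isUnit_to_map_iff S (mx a) _).2 fun h => hj (by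
        have h' : eval a (A * B' - B * A') = 0 := h
        rwa [map_sub, map_mul, map_mul, eA, eB, eA', eB'] at h')
    rw [Ideal.mem_comap, ← Ideal.unit_mul_mem_iff_mem _ hu, ← map_mul,
      show (A * B' - B * A') * f = (A'' * B' - B'' * A') * T 0 + (B'' * A - A'' * B) * T 1 by
        rw [e'']
        linear_combination (-(A'' * B' - B'' * A')) * e - (B'' * A - A'' * B) * e',
      map_add, map_mul, map_mul]
    exact I.add_mem (I.mul_mem_left _ (hT 0)) (I.mul_mem_left _ (hT 1))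
  rw [this]
  infer_instance

lemma ne_of_jac {a : Fin 2 → ℂ} {T : Fin 2 → PR 2} (hj : jac a T ≠ 0) (i : Fin 2) : T i ≠ 0 := by
  intro h
  apply hj
  fin_cases i <;> simp_all [jac]

lemma ext1 {a : Fin 2 → ℂ} {f : PR 2} (h0 : eval a f = 0)
    (h : ¬ (eval a (pderiv 0 f) = 0 ∧ eval a (pderiv 1 f) = 0)) :
    ∃ T : Fin 2 → PR 2, T 0 = f ∧ (∀ i, eval a (T i) = 0) ∧ jac a T ≠ 0 := by
  by_cases h1 : eval a (pderiv 0 f) = 0
  · refine ⟨![f, X 0 - C (a 0)], rfl, fun i => by fin_cases i <;> simp [h0], ?_⟩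
    simpa [jac, pderiv_X, h1] using h
  · refine ⟨![f, X 1 - C (a 1)], rfl, fun i => by fin_cases i <;> simp [h0], ?_⟩
    simpa [jac, pderiv_X] using h1

lemma dot_ins {j : Fin 3} {G y : V3} (hy : y j = 1) (hG : G ⬝ᵥ y = 0) : G j =
    -(G (j.succAbove 0) * y (j.succAbove 0) + G (j.succAbove 1) * y (j.succAbove 1)) := by
  rw [dotProduct, Fin.sum_univ_succAbove _ j, Fin.sum_univ_two, hy] at hG
  linear_combination hG

lemma lin {j : Fin 3} {G H y : V3} (hy : y j = 1) (hG : G ⬝ᵥ y = 0) (hH : H ⬝ᵥ y = 0)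
    (h : G (j.succAbove 0) * H (j.succAbove 1) - G (j.succAbove 1) * H (j.succAbove 0) = 0) :
    crossProduct G H = 0 := by
  have a := dot_ins hy hG
  have b := dot_ins hy hH
  rw [cross_apply]
  fin_cases j
  · change G 1 * H 2 - G 2 * H 1 = 0 at h
    change G 0 = -(G 1 * y 1 + G 2 * y 2) at a
    change H 0 = -(H 1 * y 1 + H 2 * y 2) at b
    rw [a, b]
    funext i
    fin_cases i
    · exact h
    · change _ - _ = (0 : ℂ); linear_combination y 1 * h
    · change _ - _ = (0 : ℂ); linear_combination y 2 * h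
  · change G 0 * H 2 - G 2 * H 0 = 0 at h
    change G 1 = -(G 0 * y 0 + G 2 * y 2) at a
    change H 1 = -(H 0 * y 0 + H 2 * y 2) at b
    rw [a, b]
    funext i
    fin_cases i
    · change _ - _ = (0 : ℂ); linear_combination -y 0 * h
    · change _ - _ = (0 : ℂ); linear_combination -h
    · change _ - _ = (0 : ℂ); linear_combination -y 2 * h
  · change G 0 * H 1 - G 1 * H 0 = 0 at h
    change G 2 = -(G 0 * y 0 + G 1 * y 1) at a
    change H 2 = -(H 0 * y 0 + H 1 * y 1) at b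
    rw [a, b]
    funext i
    fin_cases i
    · change _ - _ = (0 : ℂ); linear_combination y 0 * h
    · change _ - _ = (0 : ℂ); linear_combination y 1 * h
    · exact h

lemma lin1 {j : Fin 3} {G y : V3} (hy : y j = 1) (hG : G ⬝ᵥ y = 0)
    (h : G (j.succAbove 0) = 0 ∧ G (j.succAbove 1) = 0) : G = 0 := by
  funext k
  induction k using Fin.succAboveCases j with
  | x => simp [dot_ins hy hG, h]
  | p i => fin_cases i <;> simp [h]

lemma par (D : Pr) (j : Fin 3) (a : Fin 2 → ℂ) : ∃ (T : Fin 2 → PR 2) (r : Finset (Fin 2))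
    (e : PR 2), (∀ i, eval a (T i) = 0) ∧ jac a T ≠ 0 ∧ eval a e ≠ 0 ∧
      dh j (D.P * D.Q) = e * ∏ i ∈ r, T i := by
  have y1 := ins_same j a
  have y0 : ins j a ≠ 0 := fun h => by simp [h] at y1
  have tr := D.tr _ y0
  have eP := euler D.hP (ins j a)
  have eQ := euler D.hQ (ins j a)
  have gd' : ∀ F i, eval a (pderiv i (dh j F)) = gd F (ins j a) (j.succAbove i) := fun F i => by
    rw [pderiv_dh, eval_dh]; rfl
  rw [← eval_dh] at eP eQ
  rw [← eval_dh, ← eval_dh] at tr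
  rw [map_mul]
  by_cases hp : eval a (dh j D.P) = 0
  · rw [hp, mul_zero] at eP
    replace tr := tr (by rw [hp, zero_mul])
    by_cases hq : eval a (dh j D.Q) = 0
    · rw [hq, mul_zero] at eQ
      refine ⟨![dh j D.P, dh j D.Q], Finset.univ, 1, fun i => by fin_cases i <;> simp [hp, hq],
        fun h => tr (lin y1 eP eQ ?_), by simp, by simp⟩
      simpa only [jac, Matrix.cons_val_zero, Matrix.cons_val_one, gd'] using h
    · obtain ⟨T, h1, h2, h3⟩ := ext1 hp fun h => tr (by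
        rw [gd', gd'] at h
        rw [lin1 y1 eP h]; simp)
      exact ⟨T, {0}, _, h2, h3, hq, by simp [h1, mul_comm]⟩
  · by_cases hq : eval a (dh j D.Q) = 0
    · rw [hq, mul_zero] at eQ
      replace tr := tr (by rw [hq, mul_zero])
      obtain ⟨T, h1, h2, h3⟩ := ext1 hq fun h => tr (by
        rw [gd', gd'] at h
        rw [lin1 y1 eQ h]; simp)
      exact ⟨T, {0}, _, h2, h3, hp, by simp [h1]⟩
    · exact ⟨fun i => X i - C (a i), ∅, dh j D.P * dh j D.Q, by simp, by simp [jac, pderiv_X],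
        by simp [hp, hq], by simp⟩

variable {K : Type} [Field K] [Algebra ℂ K] {z : Fin 3 → K}

/-- No form vanishes at `z`. -/
def Gen (z : Fin 3 → K) : Prop := ∀ (F : PR 3) (d : ℕ), F.IsHomogeneous d → aeval z F = 0 → F = 0

lemma PQ_ne (D : Pr) : D.P * D.Q ≠ 0 := by
  have := D.tr (fun _ => 1) (fun h => by simpa using congrFun h 0)
  refine mul_ne_zero (fun h => this (by simp [h]) ?_) (fun h => this (by simp [h]) ?_)
  · rw [show gd D.P (fun _ => 1) = 0 by funext i; simp [gd, h]]; simp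
  · rw [show gd D.Q (fun _ => 1) = 0 by funext i; simp [gd, h]]; simp

lemma gen {D : Pr} (hz : GenPt D.U z) : Gen z := fun F d hF h => by
  have h1 := (hz.1 F d hF).1 h
  refine (mul_eq_zero.1 (MvPolynomial.funext fun y => ?_)).resolve_right (PQ_ne D)
  rw [map_zero, map_mul]
  by_cases e : eval y (D.P * D.Q) = 0
  · rw [e, mul_zero]
  have hh := D.hP.mul D.hQ
  have y0 : y ≠ 0 := ne_of_one hh (D.a1.trans (Nat.le_add_right _ _)) e
  rw [(eval_mk hF y0).1 (h1 _ ((eval_mk hh y0).not.2 e)), zero_mul]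

lemma Gen.ne (h : Gen z) (j : Fin 3) : z j ≠ 0 := fun e =>
  X_ne_zero j (h _ _ (isHomogeneous_X ℂ j) (by simpa using e))

lemma Gen.inj (h : Gen z) (j : Fin 3) {p : PR 2} (hp : aeval (aff j z) p = 0) : p = 0 := by
  obtain ⟨F, d, hF, rfl⟩ := homog j p
  rw [h F d hF (by rw [aeval_hom (h.ne j) hF, hp, mul_zero]), map_zero]

lemma Gen.ind (h : Gen z) (j : Fin 3) : AlgebraicIndependent ℂ (aff j z) :=
  algebraicIndependent_iff.2 fun _ => h.inj j

lemma Gen.tb {U : Set (PS 3)} (h : Gen z) (hz : GenPt U z) (j : Fin 3) :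
    IsTranscendenceBasis ℂ (aff j z) := by
  refine (h.ind j).isTranscendenceBasis_iff_isAlgebraic.2 ⟨fun g => ?_⟩
  obtain ⟨F, G, d, hF, hG, h0, rfl⟩ := quot hz g
  have m : ∀ p : PR 2, aeval (aff j z) p ∈ Algebra.adjoin ℂ (Set.range (aff j z)) := fun p => by
    rw [Algebra.adjoin_range_eq_range_aeval]; exact ⟨p, rfl⟩
  rw [aeval_hom (h.ne j) hG] at h0 ⊢
  rw [aeval_hom (h.ne j) hF, mul_div_mul_left _ _ (left_ne_zero_of_mul h0)]
  have n0 := right_ne_zero_of_mul h0
  refine IsAlgebraic.of_smul (y := (⟨_, m (dh j G)⟩ : Algebra.adjoin ℂ (Set.range (aff j z))))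
    (mem_nonZeroDivisors_of_ne_zero fun e => n0 (congrArg Subtype.val e)) ?_
  rw [Subalgebra.smul_def, smul_eq_mul, mul_div_cancel₀ _ n0]
  exact isAlgebraic_algebraMap (⟨_, m (dh j F)⟩ : Algebra.adjoin ℂ (Set.range (aff j z)))

lemma Gen.mem (h : Gen z) {x : PS 3} {j : Fin 3} (hx : x.rep j ≠ 0) (g : K) :
    g ∈ locRing z x ↔ ∃ p q : PR 2, eval (aff j x.rep) q ≠ 0 ∧
      g = aeval (aff j z) p / aeval (aff j z) q := by
  rw [mem_locRing fun G d hG e => by rw [h G d hG e, map_zero]]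
  constructor
  · rintro ⟨F, G, d, hF, hG, h0, rfl⟩
    rw [eval_hom hx hG] at h0
    exact ⟨dh j F, dh j G, right_ne_zero_of_mul h0, by
      rw [aeval_hom (h.ne j) hF, aeval_hom (h.ne j) hG,
        mul_div_mul_left _ _ (pow_ne_zero _ (h.ne j))]⟩
  · rintro ⟨p, q, h0, rfl⟩
    obtain ⟨F, d, hF, rfl⟩ := homog j p
    obtain ⟨G, e, hG, rfl⟩ := homog j q
    have h1 := hF.mul (isHomogeneous_X_pow (R := ℂ) j e)
    have h2 := (isHomogeneous_X_pow (R := ℂ) j d).mul hG
    refine ⟨_, _, _, h1, h2, ?_, ?_⟩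
    · rw [eval_hom hx h2]
      simpa [dh_same, hx] using h0
    · rw [aeval_hom (h.ne j) h1, aeval_hom (h.ne j) h2,
        mul_div_mul_left _ _ (pow_ne_zero _ (h.ne j))]
      simp [dh_same]

lemma Gen.mem1 (h : Gen z) {x : PS 3} {j : Fin 3} (hx : x.rep j ≠ 0) (p : PR 2) :
    aeval (aff j z) p ∈ locRing z x := (h.mem hx _).2 ⟨p, 1, by simp, by simp⟩

lemma Gen.inv (h : Gen z) {x : PS 3} {j : Fin 3} (hx : x.rep j ≠ 0) {p : PR 2} (hp : p ≠ 0) :
    (aeval (aff j z) p)⁻¹ ∈ locRing z x ↔ eval (aff j x.rep) p ≠ 0 := by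
  rw [h.mem hx]
  refine ⟨?_, fun e => ⟨1, p, e, by simp⟩⟩
  rintro ⟨p', q, h0, e⟩ h1
  have q0 : q ≠ 0 := fun e => h0 (by simp [e])
  rw [eq_div_iff (mt (h.inj j) q0), inv_mul_eq_iff_eq_mul₀ (mt (h.inj j) hp), ← map_mul,
    ← sub_eq_zero, ← map_sub] at e
  rw [sub_eq_zero.1 (h.inj j e), map_mul, h1, zero_mul] at h0
  exact h0 rfl

/-- The polynomial ring in the affine coordinates maps to the local ring. -/
def phi (h : Gen z) {x : PS 3} {j : Fin 3} (hx : x.rep j ≠ 0) : PR 2 →ₐ[ℂ] locRing z x :=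
  (aeval (aff j z)).codRestrict _ (h.mem1 hx)

lemma Gen.loc (h : Gen z) {x : PS 3} {j : Fin 3} (hx : x.rep j ≠ 0) :
    letI := (phi h hx).toRingHom.toAlgebra
    IsLocalization.AtPrime (locRing z x) (mx (aff j x.rep)) := by
  let _ := (phi h hx).toRingHom.toAlgebra
  have e : ∀ p, (algebraMap (PR 2) (locRing z x) p : K) = aeval (aff j z) p := fun _ => rfl
  have n0 : ∀ q : PR 2, eval (aff j x.rep) q ≠ 0 → q ≠ 0 := fun q h0 e => h0 (by simp [e])
  refine (isLocalization_iff _ _).2 ⟨fun q => ?_, fun g => ?_, fun {p q} hpq => ⟨1, ?_⟩⟩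
  · have q0 := n0 _ q.2
    refine IsUnit.of_mul_eq_one ⟨_, (h.inv hx q0).2 q.2⟩ (Subtype.ext ?_)
    exact mul_inv_cancel₀ (mt (h.inj j) q0)
  · obtain ⟨p, q, h0, h1⟩ := (h.mem hx _).1 g.2
    refine ⟨(p, ⟨q, h0⟩), Subtype.ext ?_⟩
    rw [MulMemClass.coe_mul, e, e, h1]
    exact div_mul_cancel₀ _ (mt (h.inj j) (n0 _ h0))
  · have := congrArg Subtype.val hpq
    rw [e, e, ← sub_eq_zero, ← map_sub] at this
    rw [sub_eq_zero.1 (h.inj j this)]

lemma Gen.det (h : Gen z) {E : Fin 2 → Derivation ℂ K K}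
    (hE : ∀ i l, E i (aff 0 z l) = if i = l then 1 else 0) (j : Fin 3) :
    (Matrix.of fun i l => E i (aff j z l)).det = (-1) ^ (j : ℕ) * (z 0 / z j) ^ 3 := by
  have n0 := h.ne 0
  have n1 := h.ne 1
  have n2 := h.ne 2
  have a : ∀ i, E i (z 1 / z 0) = if i = 0 then 1 else 0 := fun i => hE i 0
  have b : ∀ i, E i (z 2 / z 0) = if i = 1 then 1 else 0 := fun i => hE i 1
  have q : ∀ k l, z k / z l = (z k / z 0) / (z l / z 0) := fun k l => by
    rw [div_div_div_cancel_right₀ n0]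
  rw [Matrix.det_fin_two]
  fin_cases j
  · simp [hE, n0]
  · change E 0 (z 0 / z 1) * E 1 (z 2 / z 1) - E 0 (z 2 / z 1) * E 1 (z 0 / z 1) =
      (-1) ^ 1 * (z 0 / z 1) ^ 3
    rw [q 0 1, q 2 1, div_self n0]
    simp only [Derivation.leibniz_div, a, b]
    simp
    field_simp
  · change E 0 (z 0 / z 2) * E 1 (z 1 / z 2) - E 0 (z 1 / z 2) * E 1 (z 0 / z 2) =
      (-1) ^ 2 * (z 0 / z 2) ^ 3
    rw [q 0 2, q 1 2, div_self n0]
    simp only [Derivation.leibniz_div, a, b]
    simp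
    field_simp

theorem main : GTStmt := by
  intro D K _ _ z hz
  have h := gen hz
  have tb := h.tb hz 0
  have hk : Algebra.trdeg ℂ K = 2 := by simpa using tb.cardinalMk_eq_trdeg.symm
  choose E hE using fun i : Fin 2 => der_exists (M := K) tb fun l => if i = l then 1 else 0
  have hh := D.hP.mul D.hQ
  have pq : aeval z (D.P * D.Q) ≠ 0 := mt (h _ _ hh) (PQ_ne D)
  obtain ⟨c, hc⟩ := Nat.exists_eq_add_of_le D.d4
  rw [hc] at hh
  refine ⟨hk, 3, Set.univ, z, id, 2, 1, E, fun i => z i * z 0 ^ (c + 3) / aeval z (D.P * D.Q),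
    ⟨∅, by simp, by simp⟩, ⟨fun F d hF => ⟨fun e => by simp [h F d hF e], fun e =>
      (hz.1 F d hF).2 fun P _ => e P trivial⟩, hz.2⟩, hk, ?_, one_pos,
    div_ne_zero (mul_ne_zero (h.ne 0) (pow_ne_zero _ (h.ne 0))) pq, ?_, fun x _ => ?_⟩
  · refine Fintype.linearIndependent_iff.2 fun g hg l => ?_
    have := congrArg (fun F : Derivation ℂ K K => F (aff 0 z l)) hg
    fin_cases l <;> simpa [Fin.sum_univ_two, hE] using this
  · have : (fun i : Fin 2 => z i.succ * z 0 ^ (c + 3) / aeval z (D.P * D.Q) /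
        (z 0 * z 0 ^ (c + 3) / aeval z (D.P * D.Q))) = aff 0 z := by
      funext i
      rw [div_div_div_cancel_right₀ pq, mul_div_mul_right _ _ (pow_ne_zero _ (h.ne 0))]
      rfl
    rw [this]
    exact h.ind 0
  obtain ⟨j, hx⟩ := Function.ne_iff.1 x.rep_nonzero
  replace hx : x.rep j ≠ 0 := hx
  let _ := (phi h hx).toRingHom.toAlgebra
  have hl := h.loc hx
  have reg : IsRegularLocalRing (locRing z x) := IsRegularLocalRing.of_ringEquiv
    (IsLocalization.algEquiv (mx (aff j x.rep)).primeCompl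
      (Localization.AtPrime (mx (aff j x.rep))) (locRing z x)).toRingEquiv
  obtain ⟨T, r, e, T0, Tj, e0, he⟩ := par D j (aff j x.rep)
  obtain ⟨G, d, hG, rfl⟩ := homog j e
  have hg := (isHomogeneous_X ℂ j).mul hG
  have pr : ∏ i ∈ r, ((algebraMap (PR 2) (locRing z x) (T i) : locRing z x) : K) =
      aeval (aff j z) (∏ i ∈ r, T i) := (map_prod _ _ _).symm
  have p0 : ∏ i ∈ r, T i ≠ 0 := Finset.prod_ne_zero_iff.2 fun i _ => ne_of_jac Tj i
  refine ⟨reg, mem_zcl.2 fun F d hF e => ?_, fun u hu => ⟨hu, id⟩,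
    fun i => algebraMap (PR 2) _ (T i), r, X j * G, _, span_max T0 Tj,
    fun i e => ne_of_jac Tj i (h.inj j (congrArg Subtype.val e)), hg, ?_, fun y _ hy => ?_,
    fun i => ?_⟩
  · rw [h F d hF ((hz.1 F d hF).2 e), map_zero]
  · rw [eval_hom hx hg]
    simpa [dh_same, hx] using e0
  · have hy0 : y.rep j ≠ 0 := fun a => hy (by simp [a])
    refine ⟨fun i => h.mem1 hy0 _, ?_⟩
    rw [pr, h.inv hy0 p0]
    rw [eval_hom hy0 hg, map_mul, dh_same, one_mul] at hy
    change eval y.rep (D.P * D.Q) ≠ 0 ↔ _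
    rw [eval_hom hy0 hh, he, map_mul]
    simp only [ne_eq, mul_eq_zero, not_or] at hy ⊢
    exact ⟨fun a => a.2.2, fun a => ⟨pow_ne_zero _ hy0, hy.2, a⟩⟩
  · have e1 : dh j G ≠ 0 := fun a => e0 (by simp [a])
    have m : ∀ k, z k / z j ∈ locRing z x := fun k => Algebra.subset_adjoin
      ⟨X k, X j, 1, isHomogeneous_X _ _, isHomogeneous_X _ _, by simpa, by simp⟩
    have m2 : (-1) ^ (j : ℕ) * (z i / z j) * (z 0 / z j) ^ c * (aeval (aff j z) (dh j G))⁻¹ ∈
        locRing z x := mul_mem (mul_mem (mul_mem (pow_mem (neg_mem (one_mem _)) _) (m i))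
          (pow_mem (m 0) _)) ((h.inv hx e1).2 e0)
    have m3 := Submodule.smul_mem (pluri z E 1 x) ⟨_, m2⟩ (Submodule.subset_span
      ⟨fun _ => aff j z, fun _ l => m _, rfl⟩)
    rw [Subalgebra.smul_def, smul_eq_mul, Fin.prod_univ_one, h.det hE] at m3
    refine (congrArg (· ∈ pluri z E 1 x) ?_).mp m3
    have n1 := mt (h.inj j) e1
    have n2 := mt (h.inj j) p0
    have n3 := h.ne j
    have s : ((-1 : K) ^ (j : ℕ)) ^ 2 = 1 := by rw [← pow_mul, mul_comm, pow_mul]; simp
    rw [pr, aeval_hom (h.ne j) hh, he, map_mul]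
    simp only [div_pow]
    field_simp
    rw [s]
    ring

end GT

theorem gt : GTStmt := GT.main

end Pool.Agent.MP_c69980_ag.G2
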