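import Pool.Agent.MP_c69980_ag.G2.Base
import Pool.Agent.MP_c69980_ag.H84.NL
import Pool.Agent.MP_c69980_ag.H26.Basic

/-!
The gradient estimate, and entire curves in a fibre.
-/

set_option autoImplicit false

noncomputable section

namespace Pool.Agent.MP_c69980_ag.G2

open MvPolynomial Metric Filter Topology MeasureTheory Set
open H60 H4

namespace Grad

lemma exists_log {q : ℂ → ℂ} {c : ℂ} {ρ : ℝ} (hρ : 0 < ρ) (hq : DifferentiableOn ℂ q (ball c ρ))
    (h0 : ∀ z ∈ ball c ρ, q z ≠ 0) (h1 : q c = 1) : ∃ w : ℂ → ℂ, w c = 0 ∧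
      DifferentiableOn ℂ w (ball c ρ) ∧ ∀ z ∈ ball c ρ, Complex.exp (w z) = q z := by
  obtain ⟨w, hc, hw⟩ := ((hq.deriv isOpen_ball).div hq h0).isExactOn_ball.with_val_at c 0
  have hd : DifferentiableOn ℂ w (ball c ρ) := fun z hz =>
    (hw z hz).differentiableAt.differentiableWithinAt
  refine ⟨w, hc, hd, fun z hz => ?_⟩
  have h2 := isOpen_ball.is_const_of_deriv_eq_zero (convex_ball c ρ).isPreconnected
    (f := fun z => Complex.exp (-w z) * q z) (hd.neg.cexp.mul hq) (fun y hy => by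
      have := ((hw y hy).neg.cexp.mul
        (hq.differentiableAt (isOpen_ball.mem_nhds hy)).hasDerivAt).deriv
      refine this.trans ?_
      have := h0 y hy
      simp only [Pi.div_apply, Pi.zero_apply]
      field_simp
      ring) hz (mem_ball_self hρ)
  simp only [hc, h1, neg_zero, Complex.exp_zero, mul_one] at h2
  rw [Complex.exp_neg] at h2
  have h3 := Complex.exp_ne_zero (w z)
  field_simp at h2
  exact h2.symm

lemma borel {w : ℂ → ℂ} {c : ℂ} {ρ M : ℝ} (hρ : 0 < ρ) (hM : 0 < M)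
    (hw : DifferentiableOn ℂ w (ball c ρ)) (h0 : w c = 0) (h : ∀ z ∈ ball c ρ, -M ≤ (w z).re) :
    ∀ z ∈ closedBall c (ρ / 5), ‖w z‖ ≤ M / 2 := by
  intro z hz
  rw [mem_closedBall, dist_eq_norm] at hz
  have hm : ∀ y ∈ ball (0 : ℂ) ρ, c + y ∈ ball c ρ := fun y hy => by simpa using hy
  have h1 := Complex.borelCaratheodory_zero (f := fun y => -w (c + y)) (z := z - c) hM
    (hw.comp ((differentiableOn_const c).add differentiableOn_id) hm).neg
    (fun y hy => by have := h _ (hm y hy); simpa using by linarith) hρ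
    (by rw [mem_ball_zero_iff]; linarith) (by simp [h0])
  simp only [add_sub_cancel, norm_neg] at h1
  refine h1.trans ?_
  rw [div_le_iff₀ (by linarith)]
  nlinarith [norm_nonneg (z - c)]

lemma close (A : ℝ) : ∃ t : ℝ, 0 < t ∧ t ≤ 1 ∧ ∀ (F : ℂ → V3) (c : ℂ) (r : ℝ), 0 < r →
    Crv (ball c r) F → (∀ z ∈ ball c r, lam F z * r ^ 2 ≤ A) →
      ∀ z ∈ ball c (t * r), d2 (F z) (F c) ≤ 1 / 4 := by
  obtain ⟨ε, A', hε, hA, H⟩ := H84.eps R1.lapQ R1.minor R1.rep H26.logSub R1.scale 3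
  obtain ⟨m, hm⟩ : ∃ m, m = min ε (1 / (4 * A')) := ⟨_, rfl⟩
  have m0 : 0 < m := by rw [hm]; positivity
  obtain ⟨t, ht⟩ : ∃ t, t = min 1 (m / (4 * (|A| + 1))) := ⟨_, rfl⟩
  have t0 : 0 < t := by rw [ht]; positivity
  have t1 : t ≤ 1 := ht ▸ min_le_left _ _
  have t2 : t * (4 * (|A| + 1)) ≤ m := by
    rw [← le_div_iff₀ (by positivity)]; exact ht ▸ min_le_right _ _
  refine ⟨t / 16, by positivity, by linarith, fun F c r hr hF h z hz => ?_⟩
  have hs : ball c (t * r) ⊆ ball c r := ball_subset_ball (by nlinarith)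
  have h1 : mu (lam F) (ball c (t * r)) ≤ ENNReal.ofReal m := by
    calc mu (lam F) (ball c (t * r)) ≤ ∫⁻ _ in ball c (t * r), ENNReal.ofReal (|A| / r ^ 2) := by
          refine setLIntegral_mono measurable_const fun y hy => ENNReal.ofReal_le_ofReal ?_
          rw [le_div_iff₀ (by positivity)]
          exact (h y (hs hy)).trans (le_abs_self A)
      _ = ENNReal.ofReal (|A| / r ^ 2 * (Real.pi * (t * r) ^ 2)) := by
          rw [setLIntegral_const, ← H26.vol_ball c (by positivity : 0 < t * r), Measure.real,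
            ENNReal.ofReal_mul (by positivity), ENNReal.ofReal_toReal measure_ball_lt_top.ne]
      _ ≤ _ := by
          refine ENNReal.ofReal_le_ofReal ?_
          have e : |A| / r ^ 2 * (Real.pi * (t * r) ^ 2) = Real.pi * (t * (t * |A|)) := by
            field_simp
          have h2 : 0 ≤ t * |A| := by positivity
          have h3 : t * (t * |A|) ≤ t * |A| := by nlinarith
          have h4 : 0 ≤ t * (t * |A|) := by positivity
          rw [e]
          nlinarith [Real.pi_le_four]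
  refine (H F c (t * r) m (by positivity) ⟨hF.1.mono hs, fun y hy => hF.2 y (hs hy)⟩ m0.le
    (hm ▸ min_le_left _ _) h1 z (by rwa [show t * r / 16 = t / 16 * r by ring])).2.trans ?_
  have : m ≤ 1 / (4 * A') := hm ▸ min_le_right _ _
  rw [le_div_iff₀ (by positivity)] at this
  linarith

/-- Comparison of the norm with one linear form. -/
lemma cmp {y p : V3} (hy : y ≠ 0) (hp : p ≠ 0) (h : d2 y p ≤ 1 / 4) :
    ‖p‖ * ‖ip y p / (H4.sq p : ℝ)‖ ≤ 2 * ‖y‖ ∧ ‖y‖ ≤ 2 * (‖p‖ * ‖ip y p / (H4.sq p : ℝ)‖) := by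
  have py := R1.sq_pos' hy
  have pp := R1.sq_pos' hp
  have a1 := R1.norm_sq_le y
  have a2 := R1.norm_sq_le p
  have b1 : H4.sq y ≤ 3 * ‖y‖ ^ 2 := by exact_mod_cast H84.sq_le_norm y
  have b2 : H4.sq p ≤ 3 * ‖p‖ ^ 2 := by exact_mod_cast H84.sq_le_norm p
  have c1 := H84.cs y p
  have c2 : 3 / 4 * (H4.sq y * H4.sq p) ≤ ‖ip y p‖ ^ 2 := by
    rw [← le_div_iff₀ (by positivity)]
    unfold d2 at h
    linarith
  have e : (‖p‖ * ‖ip y p / (H4.sq p : ℝ)‖) ^ 2 * H4.sq p ^ 2 = ‖p‖ ^ 2 * ‖ip y p‖ ^ 2 := by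
    rw [norm_div, Complex.norm_real, Real.norm_eq_abs, abs_of_pos pp]
    field_simp
  obtain ⟨x, hx⟩ : ∃ x, x = ‖p‖ * ‖ip y p / (H4.sq p : ℝ)‖ := ⟨_, rfl⟩
  have x0 : 0 ≤ x := by rw [hx]; positivity
  rw [← hx] at e ⊢
  constructor
  · refine abs_le_of_sq_le_sq' (le_of_mul_le_mul_right ?_ (pow_pos pp 2)) (by positivity) |>.2
    rw [e]
    calc ‖p‖ ^ 2 * ‖ip y p‖ ^ 2 ≤ H4.sq p * (H4.sq y * H4.sq p) := by gcongr
      _ ≤ H4.sq p * (4 * ‖y‖ ^ 2 * H4.sq p) := by gcongr; nlinarith [sq_nonneg ‖y‖]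
      _ = _ := by ring
  · refine abs_le_of_sq_le_sq' (le_of_mul_le_mul_right ?_ (pow_pos pp 2)) (by positivity) |>.2
    calc ‖y‖ ^ 2 * H4.sq p ^ 2 = H4.sq p * (‖y‖ ^ 2 * H4.sq p) := by ring
      _ ≤ (3 * ‖p‖ ^ 2) * (H4.sq y * H4.sq p) := by gcongr
      _ = 4 * (‖p‖ ^ 2 * (3 / 4 * (H4.sq y * H4.sq p))) := by ring
      _ ≤ 4 * (‖p‖ ^ 2 * ‖ip y p‖ ^ 2) := by gcongr
      _ = _ := by rw [← e]; ring

lemma cross_diff {u v : ℂ → V3} (hu : Differentiable ℂ u) (hv : Differentiable ℂ v) :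
    Differentiable ℂ fun z => crossProduct (u z) (v z) := by
  have a := differentiable_pi.1 hu
  have b := differentiable_pi.1 hv
  refine differentiable_pi.2 fun i => ?_
  fin_cases i
  · exact ((a 1).mul (b 2)).sub ((a 2).mul (b 1))
  · exact ((a 2).mul (b 0)).sub ((a 0).mul (b 2))
  · exact ((a 0).mul (b 1)).sub ((a 1).mul (b 0))

end Grad

open Grad in
theorem grad : GradStmt := by
  intro m A hm
  obtain ⟨t, t0, t1, H⟩ := close A
  refine ⟨t / 10, 4 + |Real.log m| + 40 / t, by positivity, by linarith, by positivity,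
    fun F c r hr hF h z hz => ?_⟩
  obtain ⟨C, hC⟩ : ∃ C, C = 4 + |Real.log m| + 40 / t := ⟨_, rfl⟩
  rw [← hC]
  have ht : 0 < 40 / t := by positivity
  have hC1 : 4 + |Real.log m| ≤ C := by linarith
  have hC2 : 40 / t ≤ C := by linarith [abs_nonneg (Real.log m)]
  have hne : ∀ y ∈ ball c r, F y ≠ 0 := fun y hy => norm_pos_iff.1 (hm.trans_le (h y hy).1)
  have hd := H F c r hr ⟨hF, hne⟩ fun y hy => (h y hy).2
  obtain ⟨ρ, hρ⟩ : ∃ ρ, ρ = t * r := ⟨_, rfl⟩
  have ρ0 : 0 < ρ := by rw [hρ]; positivity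
  rw [← hρ] at hd
  have hs : ball c ρ ⊆ ball c r := ball_subset_ball (by nlinarith)
  have hc := mem_ball_self (x := c) hr
  have hcmp := fun y (hy : y ∈ ball c ρ) => cmp (hne y (hs hy)) (hne c hc) (hd y hy)
  have p0 : 0 < ‖F c‖ := norm_pos_iff.2 (hne c hc)
  obtain ⟨w, w0, hw, he⟩ := exists_log (q := fun y => ip (F y) (F c) / (H4.sq (F c) : ℝ)) ρ0
    ((H84.ip_hol (hF.mono hs) _).div_const _) (fun y hy h0 => by
      have := (hcmp y hy).2
      rw [h0, norm_zero, mul_zero, mul_zero] at this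
      exact hne y (hs hy) (norm_le_zero_iff.1 this)) (by
      rw [H84.ip_self, div_self]
      exact_mod_cast (R1.sq_pos' (hne c hc)).ne')
  have hcmp' : ∀ y ∈ ball c ρ, ‖F c‖ * Real.exp (w y).re ≤ 2 * ‖F y‖ ∧
      ‖F y‖ ≤ 2 * (‖F c‖ * Real.exp (w y).re) := fun y hy => by
    rw [← Complex.norm_exp, he y hy]; exact hcmp y hy
  have l2 : Real.log 2 ≤ 0.7 := by linarith [Real.log_two_lt_d9]
  have l3 : 0 < Real.log 2 := Real.log_pos one_lt_two
  have hlog : ∀ y ∈ ball c ρ, Real.log m ≤ Real.log ‖F y‖ ∧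
      Real.log ‖F c‖ + (w y).re ≤ Real.log 2 + Real.log ‖F y‖ ∧
      Real.log ‖F y‖ ≤ Real.log 2 + (Real.log ‖F c‖ + (w y).re) := fun y hy => by
    have y0 : 0 < ‖F y‖ := norm_pos_iff.2 (hne y (hs hy))
    have a := Real.log_le_log (by positivity) (hcmp' y hy).1
    have b := Real.log_le_log y0 (hcmp' y hy).2
    rw [Real.log_mul p0.ne' (Real.exp_pos _).ne', Real.log_mul two_ne_zero y0.ne', Real.log_exp]
      at a
    rw [Real.log_mul two_ne_zero (by positivity), Real.log_mul p0.ne' (Real.exp_pos _).ne',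
      Real.log_exp] at b
    exact ⟨Real.log_le_log hm (h y (hs hy)).1, a, b⟩
  have hL := (hlog c (mem_ball_self ρ0)).1
  obtain ⟨M, hM⟩ : ∃ M, M = Real.log ‖F c‖ - Real.log m + Real.log 2 := ⟨_, rfl⟩
  have M0 : 0 < M := by linarith
  have hb := borel ρ0 M0 hw w0 fun y hy => by linarith [(hlog y hy).1, (hlog y hy).2.2]
  rw [show t / 10 * r = ρ / 10 by rw [hρ]; ring] at hz
  have hsub : closedBall z (ρ / 10) ⊆ closedBall c (ρ / 5) :=
    closedBall_subset_closedBall' (by linarith [mem_closedBall.1 hz])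
  have hsub' : closedBall z (ρ / 10) ⊆ ball c ρ :=
    hsub.trans (closedBall_subset_ball (by linarith))
  have hz0 : z ∈ closedBall z (ρ / 10) := mem_closedBall_self (by positivity)
  have hz1 := hsub' hz0
  have hre := abs_le.1 ((Complex.abs_re_le_norm (w z)).trans (hb z (hsub hz0)))
  obtain ⟨g1, g2, g3⟩ := hlog z hz1
  have ab1 := neg_abs_le (Real.log m)
  refine ⟨by linarith, by linarith [hre.2], by linarith [hre.1], ?_⟩
  have hG : DifferentiableOn ℂ (fun y => Complex.exp (-w y) • F y) (ball c ρ) :=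
    hw.neg.cexp.smul (hF.mono hs)
  have d1 : ‖deriv w z‖ ≤ M / 2 / (ρ / 10) :=
    Complex.norm_deriv_le_of_forall_mem_sphere_norm_le (by positivity) (hw.diffContOnCl_ball hsub')
      fun y hy => hb y (hsub (sphere_subset_closedBall hy))
  have d2 : ‖deriv (fun y => Complex.exp (-w y) • F y) z‖ ≤ 2 * ‖F c‖ / (ρ / 10) :=
    Complex.norm_deriv_le_of_forall_mem_sphere_norm_le (by positivity) (hG.diffContOnCl_ball hsub')
      fun y hy => by
        rw [norm_smul, Complex.norm_exp, Complex.neg_re, Real.exp_neg,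
          inv_mul_le_iff₀ (Real.exp_pos _)]
        linarith [(hcmp' y (hsub' (sphere_subset_closedBall hy))).2]
  have hwz := (hw.differentiableAt (isOpen_ball.mem_nhds hz1)).hasDerivAt
  have hFz := (hF.differentiableAt (isOpen_ball.mem_nhds (hs hz1))).hasDerivAt
  have d3 : deriv F z = Complex.exp (w z) • deriv (fun y => Complex.exp (-w y) • F y) z +
      deriv w z • F z := by
    rw [(hwz.fun_neg.cexp.fun_smul hFz).deriv, smul_add, smul_smul, smul_smul, ← mul_assoc]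
    simp only [← Complex.exp_add, add_neg_cancel, Complex.exp_zero]
    simp
  have z0 : 0 ≤ ‖F z‖ := norm_nonneg _
  have d4 : ‖deriv F z‖ ≤ ‖F z‖ * (4 + M / 2) / (ρ / 10) := by
    rw [d3]
    refine (norm_add_le _ _).trans ?_
    rw [norm_smul, norm_smul, Complex.norm_exp]
    calc _ ≤ Real.exp (w z).re * (2 * ‖F c‖ / (ρ / 10)) + M / 2 / (ρ / 10) * ‖F z‖ := by gcongr
      _ = (2 * (‖F c‖ * Real.exp (w z).re) + M / 2 * ‖F z‖) / (ρ / 10) := by ring
      _ ≤ _ := by
        refine div_le_div_of_nonneg_right ?_ (by positivity)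
        linarith [(hcmp' z hz1).1]
  calc ‖deriv F z‖ * r ≤ ‖F z‖ * (4 + M / 2) / (ρ / 10) * r := by gcongr
    _ = 40 / t * ‖F z‖ * (1 + M / 8) := by rw [hρ]; field_simp; ring
    _ ≤ C * ‖F z‖ * (Real.log ‖F c‖ + C) := by
      have : 1 + M / 8 ≤ Real.log ‖F c‖ + C := by linarith [abs_nonneg (Real.log m)]
      have : 0 ≤ C := by linarith
      gcongr

theorem fib (hG : GradStmt) (hP : ParStmt) : FibStmt := by
  intro D g c₁ c₂ m c A hg hm hc h
  obtain ⟨θ, C, θ0, -, C0, H⟩ := hG m A hm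
  have hd : ∀ z, ‖deriv g z‖ ≤ C * ‖g z‖ * (Real.log ‖g z‖ + C) := fun z => by
    have := (H g z 1 one_pos hg.differentiableOn (fun y _ => ⟨(h y).2.2.1, by
      simpa using (h y).2.2.2.2⟩) z (mem_closedBall_self (by positivity))).2.2.2
    rwa [mul_one] at this
  have g0 : ∀ z, 0 < ‖g z‖ := fun z => hm.trans_le (h z).2.2.1
  have hgd : ∀ P : PR 3, Differentiable ℂ fun z => gd P (g z) := fun P =>
    differentiable_pi.2 fun i z => (chainG (hg z).hasDerivAt _).differentiableAt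
  have hW : Differentiable ℂ fun z => D.X (g z) := Grad.cross_diff (hgd D.P) (hgd D.Q)
  obtain ⟨k, hk⟩ : ∃ k, D.a + D.b - 2 = k + 2 := ⟨D.a + D.b - 4, by have := D.d4; omega⟩
  obtain ⟨κ, hκ⟩ : ∃ κ, κ = c * m ^ k := ⟨_, rfl⟩
  have κ0 : 0 < κ := by rw [hκ]; positivity
  have hlow : ∀ z, κ * ‖g z‖ ^ 2 ≤ ‖D.X (g z)‖ := fun z => by
    refine le_trans ?_ (h z).2.2.2.1
    rw [hk, pow_add, hκ, mul_assoc]
    have := (h z).2.2.1
    gcongr
  obtain ⟨μ, hμ, hμ'⟩ := hP univ (deriv g) (fun z => D.X (g z)) isOpen_univ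
    hg.deriv.differentiableOn hW.differentiableOn fun z _ => ⟨fun h0 => by
      have := hlow z
      rw [h0, norm_zero] at this
      exact absurd this (not_le.2 (by have := g0 z; positivity)), by
      have d := (hg z).hasDerivAt
      have e1 : gd D.P (g z) ⬝ᵥ deriv g z = 0 := (chainG d D.P).unique (by
        simpa only [fun w => (h w).1] using hasDerivAt_const z c₁)
      have e2 : gd D.Q (g z) ⬝ᵥ deriv g z = 0 := (chainG d D.Q).unique (by
        simpa only [fun w => (h w).2.1] using hasDerivAt_const z c₂)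
      rw [← cross_anticomm, Pr.X, cross_cross_eq_smul_sub_smul, e1, dotProduct_comm,
        dotProduct_comm (deriv g z), e2]
      simp⟩
  have hb : ∀ z, ‖μ z‖ * κ * ‖g z‖ ≤ C * (Real.log ‖g z‖ + C) := fun z => by
    have h1 := hd z
    rw [hμ' z trivial, norm_smul] at h1
    have h2 := mul_le_mul_of_nonneg_left (hlow z) (norm_nonneg (μ z))
    refine le_of_mul_le_mul_right ?_ (g0 z)
    nlinarith
  have hconst : ∀ z, μ z = μ 0 := fun z => by
    refine (differentiableOn_univ.1 hμ).apply_eq_apply_of_bounded ?_ z 0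
    refine isBounded_iff_forall_norm_le.2 ⟨C * (1 + C / m) / κ, ?_⟩
    rintro _ ⟨y, rfl⟩
    rw [le_div_iff₀ κ0]
    refine le_of_mul_le_mul_right ((hb y).trans ?_) (g0 y)
    have h1 := Real.log_le_self (g0 y).le
    have h2 : C ≤ C / m * ‖g y‖ := by
      rw [div_mul_eq_mul_div, le_div_iff₀ hm]
      exact mul_le_mul_of_nonneg_left (h y).2.2.1 C0.le
    rw [mul_assoc]
    exact mul_le_mul_of_nonneg_left (by linarith) C0.le
  intro z
  by_cases h0 : μ 0 = 0
  · rw [hμ' z trivial, hconst, h0, zero_smul]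
  · obtain ⟨δ, hδ⟩ : ∃ δ, δ = ‖μ 0‖ * κ / (2 * C) := ⟨_, rfl⟩
    have δ0 : 0 < δ := by have := norm_pos_iff.2 h0; rw [hδ]; positivity
    have e : ‖μ 0‖ * κ = C * (2 * δ) := by rw [hδ]; field_simp
    have hbd : Bornology.IsBounded (range g) := by
      refine isBounded_iff_forall_norm_le.2 ⟨(C - Real.log δ) / δ, ?_⟩
      rintro _ ⟨y, rfl⟩
      have h1 := hb y
      rw [hconst, e, mul_assoc] at h1
      have h2 := le_of_mul_le_mul_left h1 C0
      have h3 := Real.log_le_self (mul_pos δ0 (g0 y)).le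
      rw [Real.log_mul δ0.ne' (g0 y).ne'] at h3
      rw [le_div_iff₀ δ0]
      linarith
    have : g = fun _ => g 0 := funext fun y => hg.apply_eq_apply_of_bounded hbd y 0
    rw [this, deriv_const]

end Pool.Agent.MP_c69980_ag.G2
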