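import Pool.Agent.MP_c69980_ag.G2.Base
import Pool.Agent.MP_c69980_ag.H84.NL
import Pool.Agent.MP_c69980_ag.H26.Basic

/-!
The complement of two plane curves: the derivative of `h` is bounded by the square of the area.
-/

set_option autoImplicit false

noncomputable section

namespace Pool.Agent.MP_c69980_ag.G2

open MvPolynomial Metric Filter Topology MeasureTheory Set Real
open H60 H4

namespace Hd

/-- Jensen's formula with a bound for the density near the centre. -/
lemma avg_le : ∃ K : ℝ, 0 ≤ K ∧ ∀ (F : ℂ → V3) (m s T : ℝ), Crv (ball 0 1) F → 0 ≤ m →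
    mu (lam F) (ball 0 1) ≤ ENNReal.ofReal m → 0 < s → s ≤ 1 → 0 ≤ T →
    (∀ z ∈ ball (0 : ℂ) s, lam F z * s ^ 2 ≤ T) →
    circleAverage (LL F) 0 (3 / 4) ≤ LL F 0 + m * log (1 / s) + K * T := by
  let g : ℂ → ℝ := (ball (0 : ℂ) 1).indicator fun w => -log ‖w‖
  have gi : Integrable g := (integrable_indicator_iff measurableSet_ball).2
    ((H26.li_log0.integrableOn_isCompact (isCompact_closedBall 0 1)).mono_set
      ball_subset_closedBall).neg
  have g0 : ∀ w, 0 ≤ g w := fun w => indicator_nonneg (fun w hw => neg_nonneg.2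
    (log_nonpos (norm_nonneg _) (mem_ball_zero_iff.1 hw).le)) w
  refine ⟨∫ w, g w, integral_nonneg g0, fun F m s T hF m0 hm s0 s1 T0 hT => ?_⟩
  obtain ⟨q1, q2, q3⟩ := R1.lapQ 3 _ F isOpen_ball hF
  have sb : closedBall (0 : ℂ) (3 / 4) ⊆ ball 0 1 := closedBall_subset_ball (by norm_num)
  obtain ⟨r1, r2⟩ := R1.rep _ _ 0 (3 / 4) isOpen_ball q1 (by norm_num) sb
  have l0 : 0 ≤ log (1 / s) := log_nonneg ((one_le_div s0).2 s1)
  have i1 : IntegrableOn (lam F) (ball (0 : ℂ) (3 / 4)) :=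
    ((q2.1.mono sb).integrableOn_compact (isCompact_closedBall _ _)).mono_set ball_subset_closedBall
  have i2 : Integrable fun z : ℂ => g (s⁻¹ • z) := gi.comp_smul (inv_ne_zero s0.ne')
  have e1 : ∫ z in ball (0 : ℂ) (3 / 4), lam F z ≤ m := by
    rw [← ENNReal.ofReal_le_ofReal_iff m0, ofReal_integral_eq_lintegral_ofReal i1
      (Eventually.of_forall fun z => lam_nn F z)]
    exact (lintegral_mono_set (ball_subset_closedBall.trans sb)).trans hm
  have e2 : ∫ z in ball (0 : ℂ) (3 / 4), g (s⁻¹ • z) ≤ s ^ 2 * ∫ w, g w := by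
    refine (setIntegral_le_integral i2 (Eventually.of_forall fun z => g0 _)).trans (le_of_eq ?_)
    rw [Measure.integral_comp_inv_smul_of_nonneg volume g s0.le, Complex.finrank_real_complex,
      smul_eq_mul]
  have e3 := setIntegral_mono_on r1 (((i1.const_mul (log (1 / s))).add
    (i2.integrableOn.const_mul (T / s ^ 2))).const_mul 4) measurableSet_ball fun z hz => by
      have l1 := lam_nn F z
      have l2 : 0 ≤ T / s ^ 2 * g (s⁻¹ • z) := mul_nonneg (by positivity) (g0 _)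
      have l3 := mul_nonneg l0 l1
      rw [q3 z (sb (ball_subset_closedBall hz)), sub_zero, Pi.add_apply]
      by_cases z0 : z = 0
      · rw [z0, norm_zero, div_zero, log_zero, zero_mul, ← z0]
        linarith
      have zp := norm_pos_iff.2 z0
      have l4 : log (3 / 4 / ‖z‖) ≤ log (1 / ‖z‖) := H84.log_div_le (by norm_num) (by norm_num)
      have l5 := mul_le_mul_of_nonneg_right l4 l1
      by_cases zs : ‖z‖ < s
      · have n1 : ‖s⁻¹ • z‖ = ‖z‖ / s := by
          rw [norm_smul, norm_inv, Real.norm_eq_abs, abs_of_pos s0, inv_mul_eq_div]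
        have l6 : log (1 / ‖z‖) = log (1 / s) + g (s⁻¹ • z) := by
          simp only [g]
          rw [indicator_of_mem (mem_ball_zero_iff.2 (by rw [n1]; exact (div_lt_one s0).2 zs)), n1,
            log_div one_ne_zero zp.ne', log_div one_ne_zero s0.ne', log_div zp.ne' s0.ne']
          ring
        have l7 := mul_le_mul_of_nonneg_right ((le_div_iff₀ (by positivity)).2
          (hT z (mem_ball_zero_iff.2 zs))) (g0 (s⁻¹ • z))
        rw [l6] at l5
        linarith
      · have l6 : log (1 / ‖z‖) ≤ log (1 / s) :=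
          log_le_log (by positivity) (one_div_le_one_div_of_le s0 (not_lt.1 zs))
        have l7 := mul_le_mul_of_nonneg_right l6 l1
        linarith
  simp only [Pi.add_apply] at e3
  rw [integral_const_mul, integral_add (i1.const_mul _) (i2.integrableOn.const_mul _),
    integral_const_mul, integral_const_mul] at e3
  have e4 := mul_le_mul_of_nonneg_left e1 l0
  have e5 := mul_le_mul_of_nonneg_left e2 (by positivity : 0 ≤ T / s ^ 2)
  rw [← mul_assoc, div_mul_cancel₀ _ (by positivity)] at e5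
  have K0 : 0 ≤ ∫ w, g w := integral_nonneg g0
  have e6 : (2 * π)⁻¹ * (4 * (log (1 / s) * m + T * ∫ w, g w)) ≤
      log (1 / s) * m + T * ∫ w, g w := by
    rw [← mul_assoc]
    refine mul_le_of_le_one_left (by positivity) ?_
    rw [inv_mul_le_iff₀ (by positivity)]
    linarith [pi_gt_three]
  have e7 := mul_le_mul_of_nonneg_left (e3.trans (mul_le_mul_of_nonneg_left
    (add_le_add e4 e5) (by norm_num))) (by positivity : 0 ≤ (2 * π)⁻¹)
  have e8 : circleAverage (LL F) 0 (3 / 4) - LL F 0 = _ := r2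
  linarith

/-- An upper bound for the real part of `h` from the mean of the logarithm of the norm. -/
lemma re_le (D : Pr) : ∃ C : ℝ, 0 < C ∧ ∀ (F : ℂ → V3) (h : ℂ → ℂ) (M : ℝ), 1 ≤ M →
    Nm D (ball 0 1) F h → circleAverage (LL F) 0 (3 / 4) ≤ M →
    ∀ w ∈ ball (0 : ℂ) (1 / 2), (h w).re ≤ C * M := by
  obtain ⟨m₀, m0, hm⟩ := low D.hP D.a1
  obtain ⟨C, C0, hC⟩ := R1.hom_bd D.hQ
  refine ⟨5 * (|log C + D.b * log m₀| + D.b / 2 * (1 + |2 * log m₀|)) + 1, by positivity,
    fun F h M M1 H hM w hw => ?_⟩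
  have hw' := mem_ball_zero_iff.1 hw
  have w1 : ‖w‖ < 3 / 4 := by linarith
  have hf : Hol 1 fun z => Complex.exp (h z) := H.2.1.cexp
  have e1 := H84.log_le_pk hf (ρ := 3 / 4) (by norm_num) w1 (Complex.exp_ne_zero _)
  have iL : CircleIntegrable (LL F) 0 (3 / 4) :=
    ((H84.logsq_cont H.crv).mono (sph_sub (by norm_num) (by norm_num))).circleIntegrable'
  have i0 := circleIntegrable_const
    (5 * (|log C + D.b * log m₀| - D.b * log m₀)) (0 : ℂ) (3 / 4)
  have i1 : CircleIntegrable (fun z => 5 * D.b / 2 * LL F z) 0 (3 / 4) :=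
    iL.const_smul (a := (5 * D.b / 2 : ℝ))
  have e2 := avg_mono_off finite_empty (by norm_num) (pk_int w1 (hf.int (by norm_num)
    (by norm_num))) (i0.add i1) fun z hz _ => by
      have zb : z ∈ ball (0 : ℂ) 1 := mem_ball_zero_iff.2 (by rw [hz]; norm_num)
      have a1 := hm _ (H.2.2 z zb).1
      have a2 := hC (F z)
      rw [(H.2.2 z zb).2] at a2
      have a3 := log_le_log (norm_pos_iff.2 (Complex.exp_ne_zero _)) a2
      have p : 0 < ‖F z‖ := m0.trans_le a1
      rw [log_mul C0.ne' (by positivity), log_pow] at a3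
      have a4 : 2 * log ‖F z‖ ≤ LL F z := by
        have := log_le_log (by positivity) (R1.norm_sq_le (F z))
        rwa [log_pow] at this
      have a5 := log_le_log m0 a1
      have b0 : (0 : ℝ) ≤ D.b := Nat.cast_nonneg _
      have a6 := mul_le_mul_of_nonneg_left a4 b0
      have a7 := mul_le_mul_of_nonneg_left a5 b0
      have a8 := le_abs_self (log C + D.b * log m₀)
      have a9 := abs_nonneg (log C + D.b * log m₀)
      have k0 : 0 ≤ pk w z := le_trans (div_nonneg (by linarith) (by positivity)) (le_pk w1 hz)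
      have k1 : pk w z ≤ 5 := (pk_le w1 hz).trans (by rw [div_le_iff₀ (by linarith)]; linarith)
      have k2 : pk w z * log ‖Complex.exp (h z)‖ ≤
          5 * (|log C + D.b * log m₀| - D.b * log m₀ + D.b / 2 * LL F z) :=
        (mul_le_mul_of_nonneg_left (by linarith) k0).trans
          (mul_le_mul_of_nonneg_right k1 (by linarith))
      rw [Pi.add_apply]
      linarith
  rw [circleAverage_add i0 i1, circleAverage_const, H84.avg_mul] at e2
  rw [Complex.norm_exp, log_exp] at e1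
  have b0 : (0 : ℝ) ≤ D.b := Nat.cast_nonneg _
  have a1 := mul_le_mul_of_nonneg_left hM b0
  have a2 := le_mul_of_one_le_right (abs_nonneg (log C + D.b * log m₀)) M1
  have a3 := mul_le_mul_of_nonneg_left ((neg_le_abs (2 * log m₀)).trans
    (le_mul_of_one_le_right (abs_nonneg (2 * log m₀)) M1)) b0
  linarith

/-- From the real part to the derivative. -/
lemma der_le {h : ℂ → ℂ} {M : ℝ} (M0 : 0 < M) (H : DifferentiableOn ℂ h (ball 0 (1 / 2)))
    (hM : ∀ w ∈ ball (0 : ℂ) (1 / 2), (h w - h 0).re ≤ M) :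
    ∀ z ∈ closedBall (0 : ℂ) (1 / 8), ‖deriv h z‖ ≤ 16 * M := fun z hz => by
  have z1 := mem_closedBall_zero_iff.1 hz
  have sb : ∀ w ∈ closedBall z (1 / 8), ‖w‖ ≤ 1 / 4 := fun w hw => by
    linarith [norm_le_norm_add_norm_sub' w z, mem_closedBall_iff_norm.1 hw]
  have H' := H.sub_const (h 0)
  have := Complex.norm_deriv_le_of_forall_mem_sphere_norm_le (c := z) (R := 1 / 8) (C := 2 * M)
    (by norm_num) (H'.diffContOnCl_ball fun w hw => mem_ball_zero_iff.2 (by linarith [sb w hw]))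
    fun w hw => by
      have w1 := sb w (sphere_subset_closedBall hw)
      refine (Complex.borelCaratheodory_zero M0 H' hM (by norm_num)
        (mem_ball_zero_iff.2 (by linarith)) (sub_self _)).trans ?_
      rw [div_le_iff₀ (by linarith)]
      nlinarith
  rw [deriv_sub_const] at this
  linarith

lemma osc {h : ℂ → ℂ} {c : ℂ} {r y : ℝ} (H : DifferentiableOn ℂ h (ball c r))
    (hy : ∀ z ∈ ball c r, ‖deriv h z‖ ≤ y) : ∀ z ∈ ball c r, ‖h z - h c‖ ≤ y * r := fun z hz => by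
  have c1 : c ∈ ball c r := mem_ball_self (pos_of_mem_ball hz)
  exact ((convex_ball c r).norm_image_sub_le_of_norm_deriv_le
    (fun w hw => H.differentiableAt (isOpen_ball.mem_nhds hw)) hy c1 hz).trans
    (mul_le_mul_of_nonneg_left (mem_ball_iff_norm.1 hz).le ((norm_nonneg _).trans (hy c c1)))

lemma hd_one (h1 : HypStmt) (h2 : LatStmt) (D : Pr) (B : Finset ℂ) (η A : ℝ) (hB : Bad D B)
    (η0 : 0 < η) : ∃ C : ℝ, 0 < C ∧ ∀ (F : ℂ → V3) (h : ℂ → ℂ) (m : ℝ), 1 ≤ m →
    Nm D (ball 0 1) F h → ‖F 0‖ ≤ A → |(h 0).re| ≤ A → Far B η (Complex.exp (h 0)) →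
    mu (lam F) (ball 0 1) ≤ ENNReal.ofReal m →
    ∀ z ∈ ball (0 : ℂ) (1 / 8), ‖deriv h z‖ ≤ C * m ^ 2 := by
  obtain ⟨η', e0, he⟩ := (h2 B hB.2.1).2.2.2 η A η0
  obtain ⟨T, T0, hT⟩ := h1 D B (η / 2) hB (half_pos η0)
  obtain ⟨K, K0, hK⟩ := avg_le
  obtain ⟨C, C0, hC⟩ := re_le D
  obtain ⟨κ, κ0, κ1, κ2⟩ : ∃ κ : ℝ, 0 < κ ∧ κ ≤ 1 / 8 ∧ κ ≤ η' :=
    ⟨min (1 / 8) η', by positivity, min_le_left _ _, min_le_right _ _⟩
  obtain ⟨E, E1, hE⟩ : ∃ E : ℝ, 1 ≤ E ∧ log (3 * A ^ 2) + log (2 / κ) + K * T ≤ E ∧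
      log (2 / κ) ≤ E - 1 - K * T - |log (3 * A ^ 2)| :=
    ⟨1 + |log (3 * A ^ 2)| + |log (2 / κ)| + K * T, by
      have := mul_nonneg K0 T0.le
      linarith [abs_nonneg (log (3 * A ^ 2)), abs_nonneg (log (2 / κ))], by
      linarith [le_abs_self (log (3 * A ^ 2)), le_abs_self (log (2 / κ))], by
      linarith [le_abs_self (log (2 / κ))]⟩
  refine ⟨(1 + 16 * (C * (E + 2) + |A|)) ^ 2, by positivity, fun F h m m1 H F0 h0 hf hm z hz => ?_⟩
  have sb : closedBall (0 : ℂ) (1 / 8) ⊆ ball 0 1 := closedBall_subset_ball (by norm_num)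
  obtain ⟨z₀, z0, hz0⟩ := (isCompact_closedBall (0 : ℂ) (1 / 8)).exists_isMaxOn
    (nonempty_closedBall.2 (by norm_num))
    ((H.2.1.deriv isOpen_ball).continuousOn.mono sb).norm
  obtain ⟨t, t1, ht⟩ : ∃ t : ℝ, 1 ≤ t ∧ t ^ 2 = 1 + ‖deriv h z₀‖ :=
    ⟨√(1 + ‖deriv h z₀‖), one_le_sqrt.2 (by linarith [norm_nonneg (deriv h z₀)]),
      sq_sqrt (by positivity)⟩
  have t2 : 1 ≤ t ^ 2 := one_le_pow₀ t1
  have r0 : 0 < κ / t ^ 2 := by positivity
  have r1 : κ / t ^ 2 ≤ 1 / 8 := (div_le_self κ0.le t2).trans κ1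
  have s1 : ball (0 : ℂ) (κ / t ^ 2) ⊆ closedBall 0 (1 / 8) :=
    ball_subset_closedBall.trans (closedBall_subset_closedBall r1)
  have far : ∀ w ∈ ball (0 : ℂ) (κ / t ^ 2), Far B (η / 2) (Complex.exp (h w)) := fun w hw => by
    refine he _ _ h0 hf ((osc (y := t ^ 2) (H.2.1.mono (s1.trans sb)) (fun v hv =>
      (hz0 (s1 hv)).trans (by linarith)) w hw).trans ?_)
    rwa [mul_div_cancel₀ _ (by positivity)]
  have av := hK F m (κ / t ^ 2 / 2) T H.crv (by linarith) hm (half_pos r0) (by linarith) T0.le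
    fun w hw => by
      have s2 : ball w (κ / t ^ 2 / 2) ⊆ ball 0 (κ / t ^ 2) :=
        ball_subset_ball' (by linarith [mem_ball.1 hw])
      exact hT F h w _ (half_pos r0) (H.mono (s2.trans (s1.trans sb))) fun v hv => far v (s2 hv)
  have l1 : log (1 / (κ / t ^ 2 / 2)) ≤ log (2 / κ) + 2 * t := by
    rw [show 1 / (κ / t ^ 2 / 2) = 2 / κ * t ^ 2 by field_simp,
      log_mul (by positivity) (by positivity), log_pow]
    have := log_le_sub_one_of_pos (one_pos.trans_le t1)
    push_cast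
    linarith
  have l2 : LL F 0 ≤ log (3 * A ^ 2) := by
    refine log_le_log (R1.sq_pos' (H.crv.2 0 (mem_ball_self one_pos))) ((H84.sq_le_norm _).trans ?_)
    have := pow_le_pow_left₀ (norm_nonneg _) F0 2
    push_cast
    linarith
  have mt : 1 ≤ m * t := one_le_mul_of_one_le_of_one_le m1 t1
  have mm : m ≤ m * t := le_mul_of_one_le_right (by linarith) t1
  have l3 : circleAverage (LL F) 0 (3 / 4) ≤ (E + 2) * (m * t) := by
    have a1 := mul_le_mul_of_nonneg_left (l1.trans (add_le_add hE.2 le_rfl)) (by linarith : 0 ≤ m)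
    have a2 := le_mul_of_one_le_left (mul_nonneg K0 T0.le) m1
    have a3 := le_mul_of_one_le_left (abs_nonneg (log (3 * A ^ 2))) m1
    have a4 := mul_le_mul_of_nonneg_left mm (by linarith : 0 ≤ E)
    linarith [le_abs_self (log (3 * A ^ 2))]
  have l4 := hC F h _ (one_le_mul_of_one_le_of_one_le (by linarith) mt) H l3
  have l5 := der_le (M := (C * (E + 2) + |A|) * (m * t)) (by positivity)
    (H.2.1.mono (ball_subset_ball (by norm_num))) (fun w hw => by
      have a1 := le_mul_of_one_le_right (abs_nonneg A) mt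
      rw [Complex.sub_re]
      linarith [l4 w hw, neg_le_abs (h 0).re, le_abs_self A]) z₀ z0
  have l6 : t ≤ (1 + 16 * (C * (E + 2) + |A|)) * m :=
    le_of_mul_le_mul_right (by linarith) (one_pos.trans_le t1)
  have l7 := pow_le_pow_left₀ (by linarith) l6 2
  have l8 : ‖deriv h z‖ ≤ ‖deriv h z₀‖ := hz0 (ball_subset_closedBall hz)
  rw [mul_pow] at l7
  linarith

end Hd

theorem hd (h1 : HypStmt) (h2 : LatStmt) : HdStmt := fun D B η A hB η0 => by
  obtain ⟨C, C0, hC⟩ := Hd.hd_one h1 h2 D B η A hB η0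
  refine ⟨C, C0, fun F h c ρ m ρ0 m1 H F0 h0 hf hm z hz => ?_⟩
  have s2 := (H84.scale R1.scale (F := F) (c := c) ρ0 1).2
  rw [mul_one] at s2
  have mp : ∀ w ∈ ball (0 : ℂ) 1, c + ρ * w ∈ ball c ρ := fun w hw => by rwa [← s2] at hw
  obtain ⟨u1, u2⟩ := H84.unscale (s := 1 / 8) ρ0 (show z ∈ ball c (ρ * (1 / 8)) by
    rwa [mul_one_div])
  have := hC (fun w => F (c + ρ * w)) (fun w => h (c + ρ * w)) m m1
    ⟨H.1.comp (by fun_prop) mp, H.2.1.comp (by fun_prop) mp, fun w hw => H.2.2 _ (mp w hw)⟩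
    (by simpa using F0) (by simpa using h0) (by simpa using hf)
    (by rw [← s2, (R1.scale 3 F c ρ ρ0).2.1]; exact hm) _ u1
  rwa [deriv_comp_mul_left (f := fun w => h (c + w)), deriv_comp_const_add, u2, norm_smul,
    Complex.norm_real, Real.norm_eq_abs, abs_of_pos ρ0, mul_comm] at this

theorem ndb (h1 : HdStmt) (h2 : HypStmt) (h3 : LatStmt) : NDBStmt := by
  intro D B η A Λ ε F h R S hB η0 ε0 H hS hj
  obtain ⟨η', e0, he⟩ := (h3 B hB.2.1).2.2.2 η A η0
  obtain ⟨T, T0, hT⟩ := h2 D B (η / 2) hB (half_pos η0)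
  obtain ⟨C, C0, hC⟩ := h1 D B η A hB η0
  obtain ⟨r, r1, hr⟩ : ∃ r : ℝ, 1 ≤ r ∧ T * π < ε * r := ⟨T * π / ε + 1,
    le_add_of_nonneg_left (by positivity), by rw [mul_add, mul_div_cancel₀ _ ε0.ne']; linarith⟩
  obtain ⟨j, hx⟩ := pow_unbounded_of_one_lt (16 * r + 2 * (C * max 1 Λ ^ 2 * r) / η')
    (one_lt_two (α := ℝ))
  obtain ⟨k, k1, k2⟩ := ((hj j).and_eventually (H.1.eventually_ge_atTop (exp (3 * j)))).exists
  have ex : ((2 : ℝ) ^ j) ^ 3 ≤ exp (3 * j) := by
    rw [← pow_mul, show (3 * j : ℝ) = (j * 3 : ℕ) * 1 by push_cast; ring, exp_nat_mul]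
    exact pow_le_pow_left₀ (by norm_num) (by linarith [add_one_le_exp (1 : ℝ)]) _
  generalize (2 : ℝ) ^ j = x at hx k1 ex
  generalize exp (3 * j) = Y at k1 k2 ex
  have L1 : 1 ≤ max 1 Λ := le_max_left _ _
  have x1 : 16 * r ≤ x := le_trans (le_add_of_nonneg_right (by positivity)) hx.le
  have x2 : 2 * (C * max 1 Λ ^ 2 * r) ≤ x * η' :=
    (div_le_iff₀ e0).1 (le_trans (le_add_of_nonneg_left (by positivity)) hx.le)
  have x3 : 1 ≤ x := by linarith
  have x4 : x ≤ x ^ 3 := le_self_pow₀ x3 (by norm_num)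
  have ρ0 : 0 < Y - 1 := by linarith
  obtain ⟨N, S1, -, hz⟩ := H.2 k
  have key : ∀ z ∈ S k, lam (F k) z ≤ T / r ^ 2 := fun z zS => by
    have s1 : ball z (Y - 1) ⊆ ball 0 Y := ball_subset_ball' (by linarith [mem_ball.1 (S1 zS)])
    have N1 := N.mono (s1.trans (ball_subset_ball k2))
    have d := hC (F k) (h k) z (Y - 1) (max 1 Λ * x) ρ0 (one_le_mul_of_one_le_of_one_le L1 x3) N1
      (hz z zS).1 (hz z zS).2.1 (hz z zS).2.2 ((lintegral_mono_set s1).trans (k1.trans
        (ENNReal.ofReal_le_ofReal (mul_le_mul_of_nonneg_right (le_max_right _ _) (by linarith)))))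
    have s2 : ball z r ⊆ ball z ((Y - 1) / 8) := ball_subset_ball (by linarith)
    have N2 : Nm D (ball z r) (F k) (h k) := N1.mono (ball_subset_ball (by linarith))
    rw [le_div_iff₀ (by positivity)]
    refine hT _ _ z r (by linarith) N2 fun w hw => he _ _ (hz z zS).2.1 (hz z zS).2.2
      ((Hd.osc (y := η' / r) N2.2.1 (fun v hv => ?_) w hw).trans
        (le_of_eq (div_mul_cancel₀ _ (by positivity))))
    rw [le_div_iff₀ (by positivity)]
    refine le_of_mul_le_mul_right ?_ ρ0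
    have a1 := mul_le_mul_of_nonneg_right (d v (s2 hv)) (by linarith : 0 ≤ r)
    have a2 := mul_le_mul_of_nonneg_right x2 (sq_nonneg x)
    have a3 := mul_le_mul_of_nonneg_left (by linarith : x ^ 3 ≤ 2 * (Y - 1)) e0.le
    linarith
  have m1 : mu (lam (F k)) (S k) ≤ ENNReal.ofReal (T / r ^ 2 * π) := by
    refine (setLIntegral_mono' (hS k).1 fun z zS => ENNReal.ofReal_le_ofReal (key z zS)).trans ?_
    rw [setLIntegral_const, ENNReal.ofReal_mul (by positivity)]
    refine mul_le_mul_right ((measure_mono S1).trans (le_of_eq ?_)) _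
    simp [Complex.volume_ball, ← NNReal.coe_real_pi]
  have m2 := (ENNReal.ofReal_le_ofReal_iff (by positivity)).1 ((hS k).2.trans m1)
  rw [div_mul_eq_mul_div, le_div_iff₀ (by positivity)] at m2
  have := mul_le_mul_of_nonneg_left (le_self_pow₀ r1 two_ne_zero) ε0.le
  linarith

end Pool.Agent.MP_c69980_ag.G2
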