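import Pool.Agent.MP_c69980_ag.G2.Base

/-!
The complement of two plane curves: hyperbolicity away from the bad fibres.
-/

set_option autoImplicit false

noncomputable section

namespace Pool.Agent.MP_c69980_ag.G2

open MvPolynomial Metric Filter Topology Set
open H60 H4

namespace Hyp

/-- Brody rescaling. -/
lemma brody {F : ℂ → V3} {c : ℂ} {r R : ℝ} (hr : 0 < r) (hR : 0 < R) (hF : Crv (ball c r) F)
    (h : 16 * R ^ 2 ≤ lam F c * r ^ 2) : ∃ (z₀ : ℂ) (ρ : ℝ), 0 < ρ ∧ ρ ^ 2 * lam F z₀ = 1 ∧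
      ∀ w ∈ ball (0 : ℂ) R, z₀ + ρ * w ∈ ball c r ∧ ρ ^ 2 * lam F (z₀ + ρ * w) ≤ 4 := by
  have sub : closedBall c (r / 2) ⊆ ball c r := closedBall_subset_ball (by linarith)
  have cont : ContinuousOn (fun z => lam F z * (r / 2 - ‖z - c‖) ^ 2) (closedBall c (r / 2)) :=
    ((R1.lapQ 3 _ F isOpen_ball hF).2.1.1.mono sub).mul (by fun_prop)
  obtain ⟨z₀, hz₀, hm⟩ := (isCompact_closedBall c (r / 2)).exists_isMaxOn
    ⟨c, mem_closedBall_self (by linarith)⟩ cont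
  rw [mem_closedBall_iff_norm] at hz₀
  obtain ⟨δ, hδ⟩ : ∃ δ, δ = r / 2 - ‖z₀ - c‖ := ⟨_, rfl⟩
  have hm' : ∀ z, ‖z - c‖ ≤ r / 2 → lam F z * (r / 2 - ‖z - c‖) ^ 2 ≤ lam F z₀ * δ ^ 2 :=
    fun z hz => hδ ▸ hm (mem_closedBall_iff_norm.2 hz)
  have h1 : 4 * R ^ 2 ≤ lam F z₀ * δ ^ 2 := by
    have := hm' c (by rw [sub_self, norm_zero]; linarith)
    rw [sub_self, norm_zero] at this
    linarith
  have h2 : 0 < lam F z₀ * δ ^ 2 := lt_of_lt_of_le (by positivity) h1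
  have h3 : 0 < lam F z₀ := pos_of_mul_pos_left h2 (sq_nonneg δ)
  have h4 : 0 < δ := lt_of_le_of_ne (by linarith) fun e => by simp [← e] at h2
  obtain ⟨ρ, hρ⟩ : ∃ ρ, ρ = (√(lam F z₀))⁻¹ := ⟨_, rfl⟩
  have ρ0 : 0 < ρ := hρ ▸ inv_pos.2 (Real.sqrt_pos.2 h3)
  have ρ1 : ρ ^ 2 * lam F z₀ = 1 := by
    rw [hρ, inv_pow, Real.sq_sqrt h3.le, inv_mul_cancel₀ h3.ne']
  have h5 : ρ * R ≤ δ / 2 := by
    refine (pow_le_pow_iff_left₀ (by positivity) (by positivity) two_ne_zero).1 ?_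
    have := mul_le_mul_of_nonneg_left h1 (sq_nonneg ρ)
    rw [← mul_assoc _ (lam F z₀), ρ1] at this
    linarith [mul_pow ρ R 2]
  refine ⟨z₀, ρ, ρ0, ρ1, fun w hw => ?_⟩
  have h6 : ‖z₀ + ρ * w - c‖ ≤ ‖z₀ - c‖ + δ / 2 := by
    rw [add_sub_right_comm]
    refine (norm_add_le _ _).trans (add_le_add_right ?_ _)
    rw [norm_mul, Complex.norm_real, Real.norm_of_nonneg ρ0.le]
    exact (mul_le_mul_of_nonneg_left (mem_ball_zero_iff.1 hw).le ρ0.le).trans h5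
  have h7 : ‖z₀ + ρ * w - c‖ ≤ r / 2 := by linarith
  refine ⟨sub (mem_closedBall_iff_norm.2 h7), ?_⟩
  have h8 : (δ / 2) ^ 2 ≤ (r / 2 - ‖z₀ + ρ * w - c‖) ^ 2 :=
    pow_le_pow_left₀ (by positivity) (by linarith) 2
  have h9 := (mul_le_mul_of_nonneg_left h8 (lam_nn F _)).trans (hm' _ h7)
  have h10 : lam F (z₀ + ρ * w) ≤ 4 * lam F z₀ :=
    le_of_mul_le_mul_right (a := δ ^ 2) (by linarith) (by positivity)
  have := mul_le_mul_of_nonneg_left h10 (sq_nonneg ρ)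
  linarith

/-- A Harnack chain. -/
lemma chain (hG : GradStmt) {m : ℝ} (hm : 0 < m) (M ρ : ℝ) : ∃ R₀ A : ℝ, ∀ (F : ℂ → V3) (R : ℝ),
    R₀ ≤ R → DifferentiableOn ℂ F (ball 0 R) → (∀ z ∈ ball (0 : ℂ) R, m ≤ ‖F z‖ ∧ lam F z ≤ 4) →
    ‖F 0‖ ≤ M → DifferentiableOn ℂ F (ball 0 ρ) ∧ ∀ z ∈ ball (0 : ℂ) ρ, ‖F z‖ ≤ A := by
  obtain ⟨θ, C, θ0, -, -, H⟩ := hG m 4 hm
  obtain ⟨n, hn⟩ := exists_nat_ge (ρ / θ)
  rw [div_le_iff₀ θ0] at hn
  have n0 : 0 ≤ n * θ := by positivity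
  refine ⟨n * θ + 1, Real.exp (3 ^ n * (Real.log M + C) - C), fun F R hR hF hb hM =>
    ⟨hF.mono (ball_subset_ball (by linarith)), fun z hz => ?_⟩⟩
  have key : ∀ j : ℕ, j ≤ n → ∀ z : ℂ, ‖z‖ ≤ j * θ →
      Real.log ‖F z‖ + C ≤ 3 ^ j * (Real.log ‖F 0‖ + C) := by
    intro j
    induction j with
    | zero =>
      intro _ z hz
      have e : z = 0 := by simpa using hz
      rw [e, pow_zero, one_mul]
    | succ j ih =>
      intro hj z hz
      have j0 : (0 : ℝ) < j + 1 := by positivity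
      have j1 : (j : ℝ) ≤ n := by exact_mod_cast (Nat.le_succ j).trans hj
      have h1 : ‖z‖ / (j + 1) ≤ θ := by
        rw [div_le_iff₀ j0]
        push_cast at hz
        linarith
      obtain ⟨t, ht⟩ : ∃ t : ℝ, t = ((j : ℝ) + 1)⁻¹ := ⟨_, rfl⟩
      have t0 : 0 ≤ t := ht ▸ (inv_pos.2 j0).le
      have h2 : ‖t • z‖ ≤ θ := by
        rwa [norm_smul, Real.norm_of_nonneg t0, ht, ← div_eq_inv_mul]
      have h3 : z - t • z = (j : ℝ) • t • z := by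
        have : (1 : ℝ) - t = j * t := by
          rw [ht]
          field_simp
          ring
        rw [smul_smul, ← this, sub_smul, one_smul]
      have h4 : ‖z - t • z‖ ≤ j * θ := by
        rw [h3, norm_smul, Real.norm_of_nonneg (Nat.cast_nonneg j)]
        exact mul_le_mul_of_nonneg_left h2 (Nat.cast_nonneg j)
      have h5 : ball (z - t • z) 1 ⊆ ball 0 R := ball_subset_ball' (by
        rw [dist_zero_right]
        nlinarith)
      have h6 := (H F _ 1 one_pos (hF.mono h5) (fun w hw => by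
        simpa using hb w (h5 hw)) z (by
          rwa [mul_one, mem_closedBall_iff_norm, sub_sub_cancel])).2.1
      have h7 := ih ((Nat.le_succ j).trans hj) _ h4
      rw [pow_succ]
      linarith
  have hz' := mem_ball_zero_iff.1 hz
  have h1 := (hb z (ball_subset_ball (by linarith) hz)).1
  have h2 := (hb 0 (mem_ball_self (by linarith))).1
  have h3 := key n le_rfl z (by linarith)
  have h4 := mul_le_mul_of_nonneg_left (add_le_add_left (Real.log_le_log (hm.trans_le h2) hM) C)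
    (by positivity : (0 : ℝ) ≤ 3 ^ n)
  rw [← Real.log_le_iff_le_exp (hm.trans_le h1)]
  linarith

lemma ev_ball (u : Ultrafilter ℕ) (hu : (u : Filter ℕ) ≤ atTop) (ρ : ℝ) :
    ∀ᶠ k : ℕ in u, ρ ≤ (k : ℝ) + 1 :=
  hu ((tendsto_natCast_atTop_atTop.eventually_ge_atTop ρ).mono fun _ h => by linarith)

/-- The limit of a rescaled sequence. -/
lemma lim (hG : GradStmt) (hM : MonStmt) (u : Ultrafilter ℕ) (hu : (u : Filter ℕ) ≤ atTop)
    {G : ℕ → ℂ → V3} {m M : ℝ} (hm : 0 < m)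
    (hd : ∀ k : ℕ, DifferentiableOn ℂ (G k) (ball 0 ((k : ℝ) + 1)))
    (hb : ∀ k : ℕ, ∀ z ∈ ball (0 : ℂ) ((k : ℝ) + 1), m ≤ ‖G k z‖ ∧ lam (G k) z ≤ 4)
    (h0 : ∀ k, lam (G k) 0 = 1) (hM' : ∀ᶠ k in u, ‖G k 0‖ ≤ M) :
    ∃ g : ℂ → V3, Differentiable ℂ g ∧ TendstoLocallyUniformly G g u ∧
      (∀ z, m ≤ ‖g z‖ ∧ lam g z ≤ 4) ∧ deriv g 0 ≠ 0 ∧
      ∃ A, ∀ᶠ k in u, ∀ z ∈ ball (0 : ℂ) 1, ‖G k z‖ ≤ A := by
  have bd : ∀ ρ : ℝ, ∃ A : ℝ, ∀ᶠ k in u, DifferentiableOn ℂ (G k) (ball 0 ρ) ∧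
      ∀ z ∈ ball (0 : ℂ) ρ, ‖G k z‖ ≤ A := fun ρ => by
    obtain ⟨R₀, A, H⟩ := chain hG hm M ρ
    exact ⟨A, ((ev_ball u hu R₀).and hM').mono fun k hk => H _ _ hk.1 (hd k) (hb k) hk.2⟩
  obtain ⟨g, g1, g2, g3, g4⟩ := hM u G bd
  have ev : ∀ z : ℂ, ∀ᶠ k : ℕ in u, m ≤ ‖G k z‖ ∧ lam (G k) z ≤ 4 := fun z =>
    (ev_ball u hu (‖z‖ + 1)).mono fun k hk => hb k z (mem_ball_zero_iff.2 (by linarith))
  have lo : ∀ z, m ≤ ‖g z‖ := fun z =>
    ge_of_tendsto (g4 (fun _ => z) z tendsto_const_nhds).norm ((ev z).mono fun _ h => h.1)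
  have tl : ∀ z, Tendsto (fun k => lam (G k) z) u (𝓝 (lam g z)) := fun z =>
    (g3 z).resolve_right (norm_pos_iff.1 (hm.trans_le (lo z)))
  refine ⟨g, g1, g2, fun z => ⟨lo z, le_of_tendsto (tl z) ((ev z).mono fun _ h => h.2)⟩,
    fun e => ?_, (bd 1).imp fun A h => h.mono fun _ h => h.2⟩
  have h1 : lam g 0 = 1 := tendsto_nhds_unique (tl 0) (by simpa only [h0] using tendsto_const_nhds)
  have h2 := R1.lamv_smul 0 (g 0) 0
  rw [lam, e] at h1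
  simp [h1] at h2

/-- Values of a form on the limit. -/
lemma tend_ev {l : Filter ℕ} {G : ℕ → ℂ → V3} {g : ℂ → V3} (h : TendstoLocallyUniformly G g l)
    (P : PR 3) (z : ℂ) : Tendsto (fun k => eval (G k z) P) l (𝓝 (eval (g z) P)) :=
  ((MvPolynomial.continuous_eval P).tendsto _).comp
    ((tendstoLocallyUniformlyOn_univ.2 h).tendsto_at (mem_univ z))

end Hyp

open Hyp in
theorem hyp (hG : GradStmt) (hB : BptStmt) (hF : FibStmt) (hL : LowStmt) (hM : MonStmt) :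
    HypStmt := by
  intro D B η hBad hη
  by_contra hcon
  have ex : ∀ k : ℕ, ∃ (G : ℂ → V3) (h : ℂ → ℂ), Nm D (ball 0 ((k : ℝ) + 1)) G h ∧
      lam G 0 = 1 ∧ ∀ z ∈ ball (0 : ℂ) ((k : ℝ) + 1), Far B η (Complex.exp (h z)) ∧ lam G z ≤ 4 := by
    intro k
    by_contra hk
    refine hcon ⟨16 * ((k : ℝ) + 1) ^ 2, by positivity, fun F h c r hr hN hf => ?_⟩
    refine le_of_not_gt fun q => hk ?_
    obtain ⟨z₀, ρ, ρ0, ρ1, H⟩ := brody hr (by positivity) hN.crv q.le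
    have sc := (R1.scale 3 F z₀ ρ ρ0).1
    have df : DifferentiableOn ℂ (fun w : ℂ => z₀ + ρ * w) (ball 0 ((k : ℝ) + 1)) := by fun_prop
    refine ⟨fun w => F (z₀ + ρ * w), fun w => h (z₀ + ρ * w),
      ⟨hN.1.comp df fun w hw => (H w hw).1, hN.2.1.comp df fun w hw => (H w hw).1,
        fun w hw => hN.2.2 _ (H w hw).1⟩, ?_, fun w hw => ⟨hf _ (H w hw).1, ?_⟩⟩
    · rw [sc, mul_zero, add_zero, ρ1]
    · rw [sc]
      exact (H w hw).2
  choose G h hN h0 hb using ex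
  obtain ⟨u, hu⟩ : ∃ u : Ultrafilter ℕ, (u : Filter ℕ) ≤ atTop := ⟨.of atTop, Ultrafilter.of_le _⟩
  have evb : ∀ z : ℂ, ∀ᶠ k : ℕ in u, z ∈ ball (0 : ℂ) ((k : ℝ) + 1) := fun z =>
    (ev_ball u hu (‖z‖ + 1)).mono fun k hk => mem_ball_zero_iff.2 (by linarith)
  have k0 : ∀ k : ℕ, (0 : ℂ) ∈ ball (0 : ℂ) ((k : ℝ) + 1) := fun k => mem_ball_self (by positivity)
  by_cases hc : ∃ M : ℝ, ∀ᶠ k in u, ‖G k 0‖ ≤ M
  · obtain ⟨M, hM'⟩ := hc
    obtain ⟨m, m0, hm⟩ := low D.hP D.a1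
    obtain ⟨g, g1, g2, g3, g4, -⟩ := lim hG hM u hu m0 (fun k => (hN k).1)
      (fun k z hz => ⟨hm _ ((hN k).2.2 z hz).1, (hb k z hz).2⟩) h0 hM'
    have p1 : ∀ z, eval (g z) D.P = 1 := fun z => tendsto_nhds_unique (tend_ev g2 D.P z)
      (tendsto_const_nhds.congr' ((evb z).mono fun k hk => ((hN k).2.2 z hk).1.symm))
    have p2 : ∀ z, Far B η (eval (g z) D.Q) := fun z β hβ =>
      ge_of_tendsto ((tend_ev g2 D.Q z).sub_const β).norm ((evb z).mono fun k hk => by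
        rw [((hN k).2.2 z hk).2]
        exact (hb k z hk).1 β hβ)
    obtain ⟨β, hβ⟩ := hBad.1
    have ne : ∀ z, eval (g z) D.Q - β ≠ 0 := fun z => norm_pos_iff.1 (hη.trans_le (p2 z β hβ))
    have dq : Differentiable ℂ fun z => (eval (g z) D.Q - β)⁻¹ :=
      ((differentiableOn_univ.1 (H18.evd g1.differentiableOn D.Q)).sub_const β).inv ne
    have p3 : ∀ z, eval (g z) D.Q = eval (g 0) D.Q := fun z =>
      sub_left_injective (inv_injective (dq.apply_eq_apply_of_bounded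
        (isBounded_iff_forall_norm_le.2 ⟨η⁻¹, by
          rintro _ ⟨w, rfl⟩
          rw [norm_inv]
          exact inv_anti₀ hη (p2 w β hβ)⟩) z 0))
    obtain ⟨c, c0, hc⟩ := (hL D).2 B η hBad hη
    exact g4 (hF D g 1 _ m c 4 g1 m0 c0
      (fun z => ⟨p1 z, p3 z, (g3 z).1, hc _ (p1 z) (p2 z), (g3 z).2⟩) 0)
  have big : Tendsto (fun k => ‖G k 0‖) u atTop := tendsto_atTop.2 fun M =>
    (u.eventually_not.2 fun q => hc ⟨M, q⟩).mono fun _ q => (not_le.1 q).le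
  have small : Tendsto (fun k => (‖G k 0‖ ^ D.a)⁻¹) u (𝓝 0) :=
    tendsto_inv_atTop_zero.comp ((tendsto_pow_atTop (by have := D.a1; omega)).comp big)
  obtain ⟨ν, ν0, hν⟩ := hB D (1 / 2) 4 (by norm_num)
  have b0 : (D.b : ℂ) ≠ 0 := Nat.cast_ne_zero.2 (by have := D.b1; omega)
  obtain ⟨φ, hφ⟩ : ∃ φ : ℕ → ℂ → ℂ, φ = fun k z => Complex.exp (-(h k z / D.b)) := ⟨_, rfl⟩
  have φ0 : ∀ k z, φ k z ≠ 0 := fun k z => hφ ▸ Complex.exp_ne_zero _
  have φd : ∀ k : ℕ, DifferentiableOn ℂ (φ k) (ball 0 ((k : ℝ) + 1)) := fun k =>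
    hφ ▸ ((hN k).2.1.div_const _).neg.cexp
  have φb : ∀ k z, φ k z ^ D.b * Complex.exp (h k z) = 1 := fun k z => by
    rw [hφ, ← Complex.exp_nat_mul, ← Complex.exp_add, mul_neg, mul_div_cancel₀ _ b0,
      neg_add_cancel, Complex.exp_zero]
  have q1 : ∀ k : ℕ, ∀ z ∈ ball (0 : ℂ) ((k : ℝ) + 1), eval (φ k z • G k z) D.Q = 1 :=
    fun k z hz => by rw [eval_smul_hom D.hQ, ((hN k).2.2 z hz).2, φb]
  have q2 : ∀ k : ℕ, ∀ z ∈ ball (0 : ℂ) ((k : ℝ) + 1), eval (φ k z • G k z) D.P = φ k z ^ D.a :=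
    fun k z hz => by rw [eval_smul_hom D.hP, ((hN k).2.2 z hz).1, mul_one]
  have q3 : ∀ k : ℕ, ∀ z ∈ ball (0 : ℂ) ((k : ℝ) + 1),
      lam (fun w => φ k w • G k w) z = lam (G k) z := fun k z hz => by
    have d1 := ((φd k).differentiableAt (isOpen_ball.mem_nhds hz)).hasDerivAt
    have d2 := ((hN k).1.differentiableAt (isOpen_ball.mem_nhds hz)).hasDerivAt
    rw [lam, (d1.fun_smul d2).deriv]
    exact (R1.minor 3 _ _ ((hN k).crv.2 z hz)).2.2.2.1 _ _ (φ0 k z)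
  have q4 : ∀ᶠ k in u, ‖φ k 0 • G k 0‖ ≤ max 1 ν⁻¹ := by
    filter_upwards [small.eventually (ge_mem_nhds ν0), big.eventually_gt_atTop 0] with k s1 s2
    have sub : ball (0 : ℂ) 1 ⊆ ball 0 ((k : ℝ) + 1) :=
      ball_subset_ball (by linarith [(Nat.cast_nonneg k : (0 : ℝ) ≤ k)])
    have s3 : ν * ‖G k 0‖ ^ D.b < ‖Complex.exp (h k 0)‖ := lt_of_not_ge fun q => by
      have := hν (G k) 0 1 one_pos ((hN k).1.mono sub) (fun z hz => by
        rw [((hN k).2.2 z (sub hz)).1, ((hN k).2.2 z (sub hz)).2, one_pow, mul_one]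
        exact ⟨one_ne_zero, Complex.exp_ne_zero _, (hb k z (sub hz)).2⟩) (by
          rw [((hN k).2.2 0 (k0 k)).1, norm_one]
          exact (inv_le_iff_one_le_mul₀ (pow_pos s2 _)).1 s1) (by rwa [((hN k).2.2 0 (k0 k)).2])
      rw [h0] at this
      norm_num at this
    have s4 : ν * ‖φ k 0 • G k 0‖ ^ D.b < 1 := by
      have s5 := mul_lt_mul_of_pos_left s3 (pow_pos (norm_pos_iff.2 (φ0 k 0)) D.b)
      have s6 := congrArg norm (φb k 0)
      rw [norm_mul, norm_pow, norm_one] at s6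
      rw [norm_smul, mul_pow]
      linarith
    refine le_of_not_gt fun q => ?_
    have s7 := le_self_pow₀ ((le_max_left _ _).trans q.le) (by have := D.b1; omega : D.b ≠ 0)
    have s8 := mul_lt_mul_of_pos_left (((le_max_right _ _).trans_lt q).trans_le s7) ν0
    rw [mul_inv_cancel₀ ν0.ne'] at s8
    linarith
  obtain ⟨m, m0, hm⟩ := low D.hQ D.b1
  have dd : ∀ k : ℕ, DifferentiableOn ℂ (fun w => φ k w • G k w) (ball 0 ((k : ℝ) + 1)) :=
    fun k => (φd k).smul (hN k).1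
  obtain ⟨g, g1, g2, g3, g4, A, g5⟩ := lim (G := fun k w => φ k w • G k w) hG hM u hu m0 dd
    (fun k z hz => ⟨hm _ (q1 k z hz), (q3 k z hz).trans_le (hb k z hz).2⟩)
    (fun k => (q3 k 0 (k0 k)).trans (h0 k)) q4
  have p1 : ∀ z, eval (g z) D.Q = 1 := fun z => tendsto_nhds_unique (tend_ev g2 D.Q z)
    (tendsto_const_nhds.congr' ((evb z).mono fun k hk => (q1 k z hk).symm))
  have p2 : eval (g 0) D.P = 0 := by
    refine tendsto_nhds_unique (tend_ev g2 D.P 0) (squeeze_zero_norm'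
      (a := fun k => max 1 ν⁻¹ ^ D.a * (‖G k 0‖ ^ D.a)⁻¹) ?_ (by simpa using small.const_mul _))
    filter_upwards [q4, big.eventually_gt_atTop 0] with k s1 s2
    rw [q2 k 0 (k0 k), norm_pow, ← div_eq_mul_inv, le_div_iff₀ (pow_pos s2 _), ← mul_pow,
      ← norm_smul]
    exact pow_le_pow_left₀ (norm_nonneg _) s1 _
  have p3 := (H18.hurwitz_ev (A := A) isOpen_ball D.P (g5.mono fun k hk => by
      have sub : ball (0 : ℂ) 1 ⊆ ball 0 ((k : ℝ) + 1) :=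
        ball_subset_ball (by linarith [(Nat.cast_nonneg k : (0 : ℝ) ≤ k)])
      refine ⟨(dd k).mono sub, fun z hz => ⟨hk z hz, ?_⟩⟩
      rw [q2 k z (sub hz)]
      exact pow_ne_zero _ (φ0 k z))
    g2.tendstoLocallyUniformlyOn (mem_ball_self one_pos)).resolve_left (not_not.2 p2)
  have p4 : ∀ z, eval (g z) D.P = 0 := fun z =>
    ((H18.evd g1.differentiableOn D.P).analyticOnNhd
      isOpen_univ).eqOn_zero_of_preconnected_of_eventuallyEq_zero isPreconnected_univ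
        (mem_univ 0) p3 (mem_univ z)
  obtain ⟨c, c0, hc'⟩ := (hL D).1
  exact g4 (hF D g 0 1 m c 4 g1 m0 c0
    (fun z => ⟨p4 z, p1 z, (g3 z).1, hc' _ (by rw [p4, zero_mul]), (g3 z).2⟩) 0)

end Pool.Agent.MP_c69980_ag.G2
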