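import Pool.Agent.MP_c69980_ag.G2.Base

/-!
No charged sequence of discs.
-/

set_option autoImplicit false

noncomputable section

namespace Pool.Agent.MP_c69980_ag.G2

open MvPolynomial Metric Filter Topology MeasureTheory Set
open scoped ContDiff ENNReal
open H60 H4

namespace ND

lemma mu_mono (ν : ℂ → ℝ) {S S' : Set ℂ} (h : S ⊆ S') : mu ν S ≤ mu ν S' := lintegral_mono_set h

lemma per (t : ℂ) {A : ℝ} (h : |t.re| ≤ A) :
    ∃ n : ℤ, t - n * (2 * Real.pi * Complex.I) ∈ closedBall (0 : ℂ) (A + 2 * Real.pi) := by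
  refine ⟨⌊t.im / (2 * Real.pi)⌋, ?_⟩
  have p0 : 0 < 2 * Real.pi := by positivity
  have h1 := (le_div_iff₀ p0).1 (Int.floor_le (t.im / (2 * Real.pi)))
  have h2 := (div_lt_iff₀ p0).1 (Int.lt_floor_add_one (t.im / (2 * Real.pi)))
  rw [mem_closedBall_zero_iff]
  refine (Complex.norm_le_abs_re_add_abs_im _).trans (add_le_add ?_ ?_)
  · simpa using h
  · rw [abs_le]
    constructor <;> simp <;> linarith

lemma zero {P : PR 3} {a : ℕ} (h : P.IsHomogeneous a) (ha : 1 ≤ a) :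
    ∃ y : V3, y ≠ 0 ∧ eval y P = 0 := by
  obtain ⟨p, hp⟩ : ∃ p : Polynomial ℂ, ∀ t, p.eval t = eval ![1, t, 0] P := by
    refine ⟨aeval ![1, Polynomial.X, 0] P, fun t => ?_⟩
    have : (fun i => Polynomial.aeval t ((![1, Polynomial.X, 0] : Fin 3 → Polynomial ℂ) i)) =
        ![1, t, 0] := by
      funext i
      fin_cases i <;> simp
    rw [← Polynomial.coe_aeval_eq_eval, ← AlgHom.comp_apply, comp_aeval, this]
    rfl
  by_cases hd : 0 < p.degree
  · obtain ⟨t, ht⟩ := Complex.exists_root hd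
    exact ⟨![1, t, 0], fun e => one_ne_zero (congrFun e 0), (hp t).symm.trans ht⟩
  refine ⟨![0, 1, 0], fun e => one_ne_zero (congrFun e 1), ?_⟩
  have e := Polynomial.eq_C_of_degree_le_zero (not_lt.1 hd)
  have c1 : Continuous fun s : ℂ => eval ![s, 1, 0] P :=
    (MvPolynomial.continuous_eval P).comp (by fun_prop)
  have := congrFun (c1.ext_on (g := fun s => s ^ a * p.coeff 0) (dense_compl_singleton 0)
    (by fun_prop) fun s hs => by
      have e1 : (![s, 1, 0] : V3) = s • ![1, s⁻¹, 0] := by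
        funext i
        fin_cases i <;> simp [mul_inv_cancel₀ (show s ≠ 0 from hs)]
      simp only
      rw [e1, eval_smul_hom h, ← hp, e, Polynomial.eval_C, Polynomial.coeff_C_zero]) 0
  rwa [zero_pow (by omega), zero_mul] at this

lemma P_ne (D : Pr) : D.P ≠ 0 := fun e =>
  D.tr 1 one_ne_zero (by simp [e]) (by rw [e, show gd 0 1 = 0 from by funext i; simp [gd]]; simp)

lemma Q_ne (D : Pr) : D.Q ≠ 0 := fun e =>
  D.tr 1 one_ne_zero (by simp [e]) (by rw [e, show gd 0 1 = 0 from by funext i; simp [gd]]; simp)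

lemma fac_ne (D : Pr) (β : ℂ) : D.Q ^ D.a - C β * D.P ^ D.b ≠ 0 := fun e => by
  obtain ⟨y, y0, hy⟩ := zero D.hP D.a1
  have k : ∀ i, (D.a : PR 3) * D.Q ^ (D.a - 1) * pderiv i D.Q =
      C β * ((D.b : PR 3) * D.P ^ (D.b - 1)) * pderiv i D.P := fun i => by
    have := congrArg (pderiv i) (sub_eq_zero.1 e)
    rw [pderiv_C_mul, pderiv_pow, pderiv_pow] at this
    rw [this, ← mul_assoc]
  have n0 : (D.a : PR 3) * D.Q ^ (D.a - 1) ≠ 0 :=
    mul_ne_zero (Nat.cast_ne_zero.2 (by have := D.a1; omega)) (pow_ne_zero _ (Q_ne D))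
  have k2 : ∀ i j, gd D.P y i * gd D.Q y j - gd D.P y j * gd D.Q y i = 0 := fun i j => by
    have : pderiv i D.P * pderiv j D.Q - pderiv j D.P * pderiv i D.Q = 0 :=
      (mul_eq_zero.1 (by linear_combination pderiv i D.P * k j - pderiv j D.P * k i)).resolve_left
        n0
    simpa [gd] using congrArg (eval y) this
  refine D.tr y y0 (by rw [hy, zero_mul]) ?_
  rw [cross_apply, k2, k2, k2]
  funext i
  fin_cases i <;> rfl

lemma mu_fin {F : ℂ → V3} {R : ℝ} (h : Crv (ball 0 R) F) (hR : 1 < R) {S : Set ℂ}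
    (hS : S ⊆ ball 0 1) : mu (lam F) S ≠ ⊤ := by
  obtain ⟨M, hM⟩ := (isCompact_closedBall (0 : ℂ) 1).exists_bound_of_continuousOn
    ((R1.lapQ 3 _ F isOpen_ball h).2.1.1.mono (closedBall_subset_ball hR))
  refine ne_top_of_le_ne_top ?_ ((mu_mono _ hS).trans (setLIntegral_mono' measurableSet_ball
    (g := fun _ => ENNReal.ofReal M) fun z hz =>
      ENNReal.ofReal_le_ofReal ((le_abs_self _).trans (hM z (ball_subset_closedBall hz)))))
  rw [setLIntegral_const]
  exact ENNReal.mul_ne_top ENNReal.ofReal_ne_top measure_ball_lt_top.ne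

lemma cpt {P A : PR 3} {a e : ℕ} {c : ℝ} (hP : P.IsHomogeneous a) (ha : 1 ≤ a)
    (hA : A.IsHomogeneous e) (hc : 0 < c) (H : ∀ y, eval y P = 0 → eval y A = 0) :
    IsCompact {y : V3 | eval y P = 1 ∧ c * ‖y‖ ^ e ≤ ‖eval y A‖} := by
  have cP := MvPolynomial.continuous_eval P
  have cA := MvPolynomial.continuous_eval A
  obtain ⟨c', c0, hc'⟩ := ((isCompact_sphere (0 : V3) 1).inter_right
    (isClosed_le (f := fun _ => c) continuous_const cA.norm)).exists_forall_le'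
    cP.norm.continuousOn (a := 0) fun y hy => norm_pos_iff.2 fun e0 => by
      have : c ≤ ‖eval y A‖ := hy.2
      rw [H y e0, norm_zero] at this
      linarith
  refine isCompact_of_isClosed_isBounded ((isClosed_eq cP continuous_const).inter
    (isClosed_le (by fun_prop) cA.norm))
    ((isBounded_closedBall (x := 0) (r := 1 + c'⁻¹)).subset fun y hy => ?_)
  rw [mem_closedBall_zero_iff]
  by_contra h1
  have i0 := inv_pos.2 c0
  have y1 : 1 < ‖y‖ := by linarith [not_le.1 h1]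
  have y0 : 0 < ‖y‖ := by linarith
  have sc : ∀ {G : PR 3} {g : ℕ}, G.IsHomogeneous g →
      ‖eval ((‖y‖⁻¹ : ℝ) • y) G‖ * ‖y‖ ^ g = ‖eval y G‖ := fun {G g} hG => by
    rw [← Complex.coe_smul, eval_smul_hom hG, norm_mul, norm_pow, Complex.norm_real,
      Real.norm_of_nonneg (inv_pos.2 y0).le, mul_right_comm, ← mul_pow, inv_mul_cancel₀ y0.ne',
      one_pow, one_mul]
  have k := mul_le_mul_of_nonneg_right (hc' ((‖y‖⁻¹ : ℝ) • y) ⟨by
    rw [mem_sphere_zero_iff_norm, norm_smul, norm_inv, norm_norm, inv_mul_cancel₀ y0.ne'],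
      le_of_mul_le_mul_right (hy.2.trans (sc hA).ge) (pow_pos y0 e)⟩) (pow_pos y0 a).le
  rw [sc hP, hy.1, norm_one] at k
  have k1 := mul_le_mul_of_nonneg_left (le_self_pow₀ y1.le (show a ≠ 0 by omega)) c0.le
  have k2 := mul_lt_mul_of_pos_left (not_le.1 h1) c0
  rw [mul_add, mul_inv_cancel₀ c0.ne'] at k2
  linarith

lemma lowb {g : V3 → ℂ} (hg : Continuous g) {K : Set V3} (hK : IsCompact K) {B : Set ℂ}
    (hB : IsCompact B) (H : ∀ y ∈ K, ∀ β ∈ B, g y ≠ β) :
    ∃ η : ℝ, 0 < η ∧ ∀ y ∈ K, ∀ β ∈ B, η ≤ ‖g y - β‖ := by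
  obtain ⟨η, η0, hη⟩ := (hK.prod hB).exists_forall_le' (f := fun q => ‖g q.1 - q.2‖)
    (by fun_prop) (a := 0) fun q hq => norm_pos_iff.2 (sub_ne_zero.2 (H _ hq.1 _ hq.2))
  exact ⟨η, η0, fun y hy β hβ => hη (y, β) ⟨hy, hβ⟩⟩

end ND

open ND

theorem nda (h1 : HdStmt) (h2 : SelStmt) (h3 : HypStmt) (h4 : LatStmt) (h5 : CptStmt)
    (h6 : MonStmt) : NDAStmt := by
  intro D B η A Λ F h R S m hB hη ⟨hR, hN⟩ hm hk
  obtain ⟨C, C0, hC⟩ := h1 D B η A hB hη
  obtain ⟨η', η0, hη'⟩ := (h4 B hB.2.1).2.2.2 η A hη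
  obtain ⟨A₃, A0, hA⟩ := h3 D B (η / 2) hB (half_pos hη)
  let u : Ultrafilter ℕ := Ultrafilter.of atTop
  have hu : (u : Filter ℕ) ≤ atTop := Ultrafilter.of_le _
  obtain ⟨z, ρ, c, c0, hz, ρ0, hρ, hl⟩ := h2 (fun k => lam (F k)) h S m η'
    (4 * A₃ + C * (|Λ| + 1) ^ 2) η0 hm (by
      filter_upwards [hk, hR.eventually_ge_atTop 64, hm.eventually_ge_atTop 1] with k k1 k2 k3
      obtain ⟨n1, n2, -, n4⟩ := hN k
      refine ⟨n1.2.1.mono (ball_subset_ball (by linarith)), n2, k1.1, fun w hw => ?_,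
        fun z hz r r0 r1 H w hw => ?_⟩
      · obtain ⟨z, hz⟩ : (S k).Nonempty := nonempty_iff_ne_empty.2 fun e => by
          have := k1.1
          simp only [e, mu, Measure.restrict_empty, lintegral_zero_measure, nonpos_iff_eq_zero,
            ENNReal.ofReal_eq_zero] at this
          linarith
        have z1 : dist z 0 < 1 := n2 hz
        have s1 : ball z 40 ⊆ ball 0 64 := ball_subset_ball' (by linarith)
        have e1 : 1 ≤ (|Λ| + 1) * m k := by nlinarith [abs_nonneg Λ]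
        have := hC (F k) (h k) z 40 ((|Λ| + 1) * m k) (by norm_num) e1
          (n1.mono (s1.trans (ball_subset_ball k2))) (n4 z hz).1 (n4 z hz).2.1 (n4 z hz).2.2
          ((mu_mono _ s1).trans (k1.2.trans (ENNReal.ofReal_le_ofReal
            (by nlinarith [le_abs_self Λ])))) w
          (ball_subset_ball' (by rw [dist_comm]; linarith) hw)
        rw [mul_pow, ← mul_assoc] at this
        nlinarith [norm_nonneg (deriv (h k) w), mul_pos A0 (show 0 < m k ^ 2 by positivity)]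
      · have z1 : dist z 0 < 1 := n2 hz
        have s1 : ball w (r / 2) ⊆ ball z r := ball_subset_ball' (by linarith [mem_ball.1 hw])
        have := hA (F k) (h k) w (r / 2) (half_pos r0)
          (n1.mono (s1.trans (ball_subset_ball' (by linarith)))) fun v hv =>
            hη' _ _ (n4 z hz).2.1 (n4 z hz).2.2 (H v (s1 hv))
        nlinarith [mul_pos C0 (show 0 < (|Λ| + 1) ^ 2 by positivity)]) u hu
  have hn : ∀ k, ∃ n : ℤ, z k ∈ S k → h k (z k) - n * (2 * Real.pi * Complex.I) ∈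
      closedBall (0 : ℂ) (A + 2 * Real.pi) := fun k => by
    by_cases H : z k ∈ S k
    · exact (per _ ((hN k).2.2.2 _ H).2.1).imp fun _ a _ => a
    · exact ⟨0, fun a => (H a).elim⟩
  choose n hn using hn
  obtain ⟨t₀, -, ht⟩ := (isCompact_closedBall (0 : ℂ) (A + 2 * Real.pi)).ultrafilter_le_nhds
    (u.map fun k => h k (z k) - n k * (2 * Real.pi * Complex.I))
    (le_principal_iff.2 (hz.mono fun k a => hn k a))
  change Tendsto _ (u : Filter ℕ) _ at ht
  have ex : ∀ (k : ℕ) (v : ℂ), Complex.exp (v - n k * (2 * Real.pi * Complex.I)) = Complex.exp v :=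
    fun k v => by rw [Complex.exp_sub, Complex.exp_int_mul_two_pi_mul_I, div_one]
  have hR' : Tendsto (fun k => (ρ k)⁻¹) u atTop :=
    tendsto_inv_nhdsGT_zero.comp (tendsto_nhdsWithin_iff.2 ⟨hρ, Eventually.of_forall ρ0⟩)
  have hl' : TendstoLocallyUniformly
      (fun k w => h k (z k + ρ k * w) - n k * (2 * Real.pi * Complex.I)) (fun w => t₀ + c * w) u := by
    have := (ht.tendstoUniformly_const (α := ℂ)).tendstoLocallyUniformly.add hl
    convert this using 1
    · funext k w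
      simp
    · rfl
  have hNm : ∀ᶠ k in u, Nm D (ball 0 (ρ k)⁻¹) (fun w => F k (z k + ρ k * w))
      fun w => h k (z k + ρ k * w) - n k * (2 * Real.pi * Complex.I) := by
    filter_upwards [hz, hu (hR.eventually_ge_atTop 2)] with k k1 k2
    have mp : MapsTo (fun w : ℂ => z k + ρ k * w) (ball 0 (ρ k)⁻¹) (ball 0 (R k)) := fun w hw => by
      have z1 := mem_ball_zero_iff.1 ((hN k).2.1 k1)
      have z2 := mul_lt_mul_of_pos_left (mem_ball_zero_iff.1 hw) (ρ0 k)
      rw [mul_inv_cancel₀ (ρ0 k).ne'] at z2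
      have z3 := norm_add_le (z k) (ρ k * w)
      rw [norm_mul, Complex.norm_real, Real.norm_of_nonneg (ρ0 k).le] at z3
      exact mem_ball_zero_iff.2 (by linarith [show (2 : ℝ) ≤ R k from k2])
    have df : DifferentiableOn ℂ (fun w : ℂ => z k + ρ k * w) (ball 0 (ρ k)⁻¹) := by fun_prop
    exact ⟨(hN k).1.1.comp df mp, ((hN k).1.2.1.comp df mp).sub_const _, fun w hw => by
      rw [ex]
      exact (hN k).1.2.2 _ (mp hw)⟩
  have nB : Complex.exp (t₀ + c * 0) ∉ B := fun H => by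
    rw [mul_zero, add_zero] at H
    have := ge_of_tendsto ((ht.cexp.sub_const (Complex.exp t₀)).norm) (hz.mono fun k a => by
      rw [ex]
      exact ((hN k).2.2.2 _ a).2.2 _ H)
    rw [sub_self, norm_zero] at this
    linarith
  have hb := h5 D B u _ _ _ (fun _ => 0) t₀ c 0 A hB hR' hNm c0 hl' tendsto_const_nhds nB
    (hz.mono fun k a => by simpa using ((hN k).2.2.2 _ a).1)
  obtain ⟨G, G1, -, -, G2⟩ := h6 u (fun k w => F k (z k + ρ k * w)) fun r => by
    obtain ⟨A', hA'⟩ := hb r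
    refine ⟨A', ?_⟩
    filter_upwards [hA', hNm, hR'.eventually_ge_atTop r] with k k1 k2 k3
    exact ⟨k2.1.mono (ball_subset_ball k3), k1⟩
  have G3 : ∀ w, eval (G w) D.P = 1 ∧ eval (G w) D.Q = Complex.exp (t₀ + c * w) := fun w => by
    have a1 := G2 (fun _ => w) w tendsto_const_nhds
    have a2 : ∀ᶠ k in u, w ∈ ball (0 : ℂ) (ρ k)⁻¹ :=
      (hR'.eventually_gt_atTop ‖w‖).mono fun k a => mem_ball_zero_iff.2 a
    refine ⟨tendsto_nhds_unique (((MvPolynomial.continuous_eval D.P).tendsto _).comp a1)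
      (tendsto_const_nhds.congr' ?_), tendsto_nhds_unique
        (((MvPolynomial.continuous_eval D.Q).tendsto _).comp a1)
        ((hl'.tendstoLocallyUniformlyOn.tendsto_at (mem_univ w)).cexp.congr' ?_)⟩
    · filter_upwards [a2, hNm] with k k1 k2 using (k2.2.2 w k1).1.symm
    · filter_upwards [a2, hNm] with k k1 k2 using (k2.2.2 w k1).2.symm
  refine ⟨fun t => G ((t - t₀) / c), ⟨G1.comp (by fun_prop), fun t => ⟨(G3 _).1, ?_⟩⟩, t₀, ?_⟩
  · rw [(G3 _).2, mul_div_cancel₀ _ c0, add_sub_cancel]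
  · simp only [sub_self, zero_div]
    refine mem_closure_of_tendsto (G2 (fun _ => 0) 0 tendsto_const_nhds) (hz.mono fun k a => ?_)
    exact ⟨k, z k, a, by simp⟩

theorem nd (h1 : BadStmt) (h2 : NrmStmt) (h3 : CurStmt) (h4 : NDAStmt) (h5 : NDBStmt) :
    NDStmt := by
  intro D
  obtain ⟨B, hB⟩ := h1 D
  obtain ⟨R₀, e₀, hR₀, R0, hR⟩ := h3 D
  have hf : ∀ β : ℂ, (D.Q ^ D.a - C β * D.P ^ D.b).IsHomogeneous (D.a * D.b) := fun β => by
    have := D.hQ.pow D.a
    rw [mul_comm] at this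
    exact this.sub ((D.hP.pow D.b).C_mul _)
  refine ⟨D.P * D.Q * R₀ * ∏ β ∈ B, (D.Q ^ D.a - C (β ^ D.a) * D.P ^ D.b),
    D.a + D.b + e₀ + ∑ _β ∈ B, D.a * D.b, ((D.hP.mul D.hQ).mul hR₀).mul
      (IsHomogeneous.prod B _ (fun _ => D.a * D.b) fun β _ => hf _),
    mul_ne_zero (mul_ne_zero (mul_ne_zero (P_ne D) (Q_ne D)) R0)
      (Finset.prod_ne_zero_iff.2 fun β _ => fac_ne D _), ?_⟩
  rintro A e c ε F R S hA ⟨T, hT⟩ hc hε hRt hk alt
  have hK := cpt D.hP D.a1 hA hc fun y hy => by simp [hT, hy]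
  obtain ⟨K, hKd⟩ : ∃ K, K = {y : V3 | eval y D.P = 1 ∧ c * ‖y‖ ^ e ≤ ‖eval y A‖} := ⟨_, rfl⟩
  rw [← hKd] at hK
  have nz : ∀ y ∈ K, eval y R₀ ≠ 0 ∧ ∀ β ∈ insert (0 : ℂ) (B : Set ℂ), eval y D.Q ≠ β := by
    intro y hy
    rw [hKd] at hy
    have y0 : y ≠ 0 := ne_of_one D.hP D.a1 (by rw [hy.1]; exact one_ne_zero)
    have a0 : eval y A ≠ 0 := norm_pos_iff.1 ((mul_pos hc (pow_pos (norm_pos_iff.2 y0) e)).trans_le
      hy.2)
    refine ⟨fun H => a0 (by simp [hT, H]), ?_⟩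
    rintro β (rfl | hβ) H
    · exact a0 (by simp [hT, H])
    · refine a0 ?_
      rw [hT, map_mul, map_mul, map_prod, Finset.prod_eq_zero hβ (by simp [H, hy.1]), mul_zero,
        zero_mul]
  have cQ := MvPolynomial.continuous_eval D.Q
  obtain ⟨η, η0, hη⟩ := lowb cQ hK (B.finite_toSet.insert 0).isCompact fun y hy => (nz y hy).2
  obtain ⟨A₁, hA₁⟩ := hK.exists_bound_of_continuousOn continuousOn_id
  obtain ⟨A₂, hA₂⟩ := hK.exists_bound_of_continuousOn cQ.continuousOn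
  have hn := fun k => h2 D (F k) 0 (R k) (hk k).2.1.1 fun z hz => by
    obtain ⟨y0, hy⟩ := (hk k).2.1.2 z hz
    exact (eval_mk (D.hP.mul D.hQ) y0).not.1 hy
  choose φ h hN hφ using hn
  have sb : ∀ k, S k ⊆ ball 0 (R k) := fun k => (hk k).2.2.2.1.trans (ball_subset_ball (hk k).1)
  have mem : ∀ k, ∀ z ∈ S k, φ k z • F k z ∈ K := fun k z hz => by
    rw [hKd]
    refine ⟨((hN k).2.2 z (sb k hz)).1, ?_⟩
    rw [eval_smul_hom hA, norm_smul, norm_mul, norm_pow, mul_pow, mul_left_comm]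
    exact mul_le_mul_of_nonneg_left ((hk k).2.2.2.2.2 z hz) (by positivity)
  have nsq : NSq D B η (|A₁| + (|Real.log η| + |Real.log A₂|)) (fun k z => φ k z • F k z) h R S :=
    ⟨hRt, fun k => ⟨hN k, (hk k).2.2.2.1, (hk k).1, fun z hz => by
      have e1 := ((hN k).2.2 z (sb k hz)).2
      have e2 := hη _ (mem k z hz) 0 (mem_insert _ _)
      have e3 := hA₂ _ (mem k z hz)
      simp only [sub_zero] at e1 e2
      rw [e1, Complex.norm_exp] at e2 e3
      have e4 := (Real.log_le_iff_le_exp η0).2 e2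
      have e5 := (Real.le_log_iff_exp_le ((Real.exp_pos _).trans_le e3)).2 e3
      refine ⟨(hA₁ _ (mem k z hz)).trans ((le_abs_self _).trans
        (le_add_of_nonneg_right (by positivity))), abs_le.2 ⟨?_, ?_⟩, fun β hβ => ?_⟩
      · linarith [abs_nonneg A₁, abs_nonneg (Real.log A₂), neg_abs_le (Real.log η)]
      · linarith [abs_nonneg A₁, abs_nonneg (Real.log η), le_abs_self (Real.log A₂)]
      · rw [← e1]
        exact hη _ (mem k z hz) β (mem_insert_of_mem _ hβ)⟩⟩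
  have mue : ∀ k (O : Set ℂ), MeasurableSet O → O ⊆ ball 0 (R k) →
      mu (lam fun z => φ k z • F k z) O = mu (lam (F k)) O := fun k O hO hs =>
    setLIntegral_congr_fun hO fun z hz => congrArg ENNReal.ofReal (hφ k z (hs hz)).2
  have muS := fun k => mue k (S k) (hk k).2.2.1 (sb k)
  have caseA : ∀ Λ : ℝ, Tendsto (fun k => mu (lam (F k)) (S k)) atTop (𝓝 ⊤) →
      (∀ᶠ k in atTop, mu (lam (F k)) (ball 0 64) ≤ ENNReal.ofReal Λ * mu (lam (F k)) (S k)) →
      False := fun Λ H1 H2 => by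
    have fin : ∀ᶠ k in atTop, mu (lam (F k)) (S k) ≠ ⊤ :=
      (hRt.eventually_gt_atTop 1).mono fun k a => muS k ▸ mu_fin (hN k).crv a (hk k).2.2.2.1
    obtain ⟨s, hs, t, ht⟩ := h4 D B η _ Λ _ h R S (fun k => (mu (lam (F k)) (S k)).toReal) hB η0
      nsq (tendsto_atTop.2 fun M => by
        filter_upwards [fin, H1.eventually (lt_mem_nhds (ENNReal.ofReal_lt_top (r := M)))]
          with k k1 k2
        exact (ENNReal.ofReal_le_iff_le_toReal k1).1 k2.le) (by
        filter_upwards [fin, H2, hRt.eventually_ge_atTop 64] with k k1 k2 k3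
        rw [muS, mue k _ measurableSet_ball (ball_subset_ball k3),
          ENNReal.ofReal_mul' ENNReal.toReal_nonneg, ENNReal.ofReal_toReal k1]
        exact ⟨le_rfl, k2⟩)
    refine (nz _ (closure_minimal ?_ hK.isClosed ht)).1 (hR s hs t)
    rintro _ ⟨k, z, hz, rfl⟩
    exact mem k z hz
  rcases alt with ⟨H1, Λ, H2⟩ | ⟨Λ, H⟩
  · exact caseA Λ H1 H2
  by_cases hb : ∃ M : ℕ, ∃ᶠ k in atTop, mu (lam (F k)) (S k) ≤ M
  · obtain ⟨M, hM⟩ := hb
    refine h5 D B η _ (Λ * M) ε _ h R S hB η0 hε nsq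
      (fun k => ⟨(hk k).2.2.1, (hk k).2.2.2.2.1.trans (muS k).ge⟩) fun j => ?_
    refine (hM.and_eventually ((H j).and (hRt.eventually_ge_atTop (Real.exp (3 * j))))).mono ?_
    rintro k ⟨k1, k2, k3⟩
    rw [mue k _ measurableSet_ball (ball_subset_ball k3), mul_right_comm,
      ENNReal.ofReal_mul' (Nat.cast_nonneg M), ENNReal.ofReal_natCast]
    exact k2.trans (mul_le_mul_right k1 _)
  · refine caseA (Λ * 2 ^ 2) (ENNReal.tendsto_nhds_top fun M => ?_) ((H 2).mono fun k a =>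
      (mu_mono _ (ball_subset_ball ?_)).trans a)
    · exact (not_frequently.1 fun a => hb ⟨M, a⟩).mono fun k a => not_le.1 a
    · rw [show (3 : ℝ) * (2 : ℕ) = (6 : ℕ) * 1 by norm_num, Real.exp_nat_mul]
      have := pow_le_pow_left₀ zero_le_two (show 2 ≤ Real.exp 1 by
        linarith [Real.add_one_le_exp 1]) 6
      linarith

end Pool.Agent.MP_c69980_ag.G2
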