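import Pool.Agent.MP_c69980_ag.G2.Base

/-!
Maximum principles on half-planes.
-/

set_option autoImplicit false

noncomputable section

namespace Pool.Agent.MP_c69980_ag.G2

open Metric Filter Topology Set
open H4

namespace PL

variable {f g : ℂ → ℝ} {z : ℂ} {L L' : ℝ}

/-- `f` is twice differentiable at `z` with Laplacian `L`. -/
def HL (f : ℂ → ℝ) (z : ℂ) (L : ℝ) : Prop := ContDiffAt ℝ 2 f z ∧ lap f z = L

theorem HL.add (hf : HL f z L) (hg : HL g z L') : HL (fun w => f w + g w) z (L + L') :=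
  ⟨hf.1.add hg.1, by
    rw [(R1.lapRule f g id z hf.1 hg.1 contDiffAt_id).1, hf.2, hg.2]⟩

theorem HL.mul (hf : HL f z L) (c : ℝ) : HL (fun w => c * f w) z (c * L) := by
  refine ⟨contDiffAt_const.mul hf.1, ?_⟩
  have e : deriv (fun x : ℝ => c * x) = fun _ => c := by
    funext x
    simp
  rw [(R1.lapRule f f (fun x => c * x) z hf.1 hf.1 (by fun_prop)).2.2.1, e, hf.2]
  simp

theorem HL.sub (hf : HL f z L) (hg : HL g z L') : HL (fun w => f w - g w) z (L - L') := by
  have := hf.add (hg.mul (-1))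
  simpa only [neg_one_mul, ← sub_eq_add_neg] using this

theorem D_aff (a c : ℝ) (v : ℂ) : H4.D v (fun w => a + c * w.re) = fun _ => c * v.re := by
  funext w
  have := ((Complex.reCLM.hasFDerivAt (x := w)).const_mul c).const_add a
  exact (congrArg (fun T : ℂ →L[ℝ] ℝ => T v) this.fderiv).trans (by simp)

theorem aff (a c : ℝ) (z : ℂ) : HL (fun w => a + c * w.re) z 0 := by
  refine ⟨contDiffAt_const.add (contDiffAt_const.mul Complex.reCLM.contDiff.contDiffAt), ?_⟩
  rw [lap, D_aff, D_aff]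
  simp [H4.D]

theorem lg (hz : 0 ≤ z.re) : HL (fun w => Real.log (1 + w.re)) z (-((1 + z.re) ^ 2)⁻¹) := by
  have h := aff 1 1 z
  have hp : (1 + 1 * z.re) ≠ 0 := by positivity
  have c := Real.contDiffAt_log (n := 2).2 hp
  have e := (R1.lapRule _ _ Real.log z h.1 h.1 c).2.2.1
  rw [h.2, R1.grad_sq, D_aff, D_aff, Real.deriv_log', deriv_inv] at e
  have c' := ContDiffAt.comp (g := Real.log) z c h.1
  simp only [one_mul] at e c'
  exact ⟨c', by simpa using e⟩

theorem ls {a : ℂ} (hz : z ≠ a) : HL (fun w => Real.log (‖w - a‖ ^ 2)) z 0 := by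
  obtain ⟨h1, -, h2⟩ := R1.lapQ 1 {a}ᶜ (fun w _ => w - a) isOpen_compl_singleton
    ⟨by fun_prop, fun w hw e => hw (sub_eq_zero.1 (congrFun e 0))⟩
  have e : (fun w : ℂ => Real.log (H4.sq fun _ : Fin 1 => w - a)) =
      fun w => Real.log (‖w - a‖ ^ 2) := by
    funext w
    simp [H4.sq]
  rw [e] at h1 h2
  refine ⟨(h1.contDiffAt (isOpen_compl_singleton.mem_nhds hz)).of_le (by norm_cast), ?_⟩
  rw [h2 z hz]
  simp only [lam, lamv, H4.sq, ip, Fin.sum_univ_one, norm_mul, Complex.norm_conj]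
  ring

theorem shift (hf : ContDiff ℝ 2 f) (c z : ℂ) : HL (fun w => f (w + c)) z (lap f (z + c)) := by
  refine ⟨(hf.comp (contDiff_id.add contDiff_const)).contDiffAt, ?_⟩
  have e : ∀ (v : ℂ) (g : ℂ → ℝ), H4.D v (fun w => g (w + c)) = fun w => H4.D v g (w + c) :=
    fun v g => by
      funext w
      rw [H4.D, H4.D, fderiv_comp_add_right]
  simp only [lap, e]

theorem second (hf : ContDiffAt ℝ 2 f z) (hm : IsLocalMax f z) (v : ℂ) :
    H4.D v (H4.D v f) z ≤ 0 := by
  have hγ : ∀ t : ℝ, HasDerivAt (fun s : ℝ => z + s • v) v t := fun t => by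
    simpa using ((hasDerivAt_id t).smul_const v).const_add z
  have hc : Tendsto (fun s : ℝ => z + s • v) (𝓝 0) (𝓝 z) := by
    simpa using (hγ 0).continuousAt.tendsto
  have key : ∀ (u : ℂ → ℝ) (t : ℝ), DifferentiableAt ℝ u (z + t • v) →
      HasDerivAt (fun s : ℝ => u (z + s • v)) (H4.D v u (z + t • v)) t := fun u t hu =>
    hu.hasFDerivAt.comp_hasDerivAt t (hγ t)
  have e1 : deriv (fun s : ℝ => f (z + s • v)) =ᶠ[𝓝 0] fun s => H4.D v f (z + s • v) := by
    filter_upwards [hc.eventually (R1.ev_diff hf)] with t ht using (key f t ht).deriv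
  have z0 : z + (0 : ℝ) • v = z := by simp
  have e2 : deriv (deriv fun s : ℝ => f (z + s • v)) 0 = H4.D v (H4.D v f) z := by
    rw [e1.deriv_eq, (key _ 0 (by rw [z0]; exact R1.D_diff hf v)).deriv, z0]
  have hm' : IsLocalMax (fun s : ℝ => f (z + s • v)) 0 := by
    have := hc.eventually hm
    simpa only [IsLocalMax, IsMaxFilter, z0] using this
  by_contra hpos
  rw [not_le, ← e2] at hpos
  have hmin := isLocalMin_of_deriv_deriv_pos hpos hm'.deriv_eq_zero
    (key f 0 (by rw [z0]; exact hf.differentiableAt (by simp))).continuousAt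
  have e3 : (fun s : ℝ => f (z + s • v)) =ᶠ[𝓝 0] fun _ => f (z + (0 : ℝ) • v) := by
    filter_upwards [hm', hmin] with t a b using le_antisymm a b
  rw [e3.deriv.deriv_eq] at hpos
  simp at hpos

theorem lg_nn (hz : 0 ≤ z.re) : 0 ≤ Real.log (1 + z.re) := Real.log_nonneg (by linarith)

theorem one_le (hz : 0 ≤ z.re) : 1 ≤ ‖z - (-1)‖ := by
  have := Complex.re_le_norm (z - (-1))
  simp only [Complex.sub_re, Complex.neg_re, Complex.one_re] at this
  linarith

end PL

open PL in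
theorem pl : PLStmt := by
  intro O w A hO hre hc hd hl hf z₀ hz₀
  have hcl : ∀ z ∈ closure O, 0 ≤ z.re := fun z hz =>
    closure_minimal (fun y hy => (hre y hy).le) (isClosed_le continuous_const Complex.continuous_re)
      hz
  have hne : ∀ z : ℂ, 0 ≤ z.re → z ≠ -1 := fun z hz e => by
    rw [e] at hz
    norm_num at hz
  let φ : ℂ → ℝ := fun z => Real.log (‖z - (-1)‖ ^ 2) + Real.log (1 + z.re)
  have hφ : ∀ z : ℂ, 0 ≤ z.re → HL φ z (0 + -((1 + z.re) ^ 2)⁻¹) := fun z hz =>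
    (ls (hne z hz)).add (lg hz)
  have hφ0 : ∀ z : ℂ, 0 ≤ z.re → 0 ≤ φ z := fun z hz =>
    add_nonneg (Real.log_nonneg (one_le_pow₀ (one_le hz))) (lg_nn hz)
  have main : ∀ ε : ℝ, 0 < ε → w z₀ ≤ ε * φ z₀ := by
    intro ε hε
    by_contra hv
    rw [not_le, ← sub_pos] at hv
    set R := max ‖z₀‖ (Real.exp (A / ε) + 1) with hR
    have hK : IsCompact (closure O ∩ closedBall 0 R) :=
      (isCompact_closedBall 0 R).inter_left isClosed_closure
    have hz₀K : z₀ ∈ closure O ∩ closedBall 0 R :=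
      ⟨subset_closure hz₀, mem_closedBall_zero_iff.2 (le_max_left _ _)⟩
    have hvc : ContinuousOn (fun z => w z - ε * φ z) (closure O ∩ closedBall 0 R) :=
      (hc.mono inter_subset_left).sub fun z hz =>
        ((hφ z (hcl z hz.1)).mul ε).1.continuousAt.continuousWithinAt
    obtain ⟨z₁, hz₁, hmax⟩ := hK.exists_isMaxOn ⟨z₀, hz₀K⟩ hvc
    have h1 : w z₀ - ε * φ z₀ ≤ w z₁ - ε * φ z₁ := hmax hz₀K
    have hz₁O : z₁ ∈ O := by
      by_contra hn
      have h2 := hf z₁ (by rw [hO.frontier_eq]; exact ⟨hz₁.1, hn⟩)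
      have h3 := mul_nonneg hε.le (hφ0 z₁ (hcl z₁ hz₁.1))
      linarith
    have hloc : IsLocalMax (fun z => w z - ε * φ z) z₁ := by
      filter_upwards [hO.mem_nhds hz₁O] with z hz
      by_cases hzR : ‖z‖ ≤ R
      · exact hmax ⟨subset_closure hz, mem_closedBall_zero_iff.2 hzR⟩
      · have h2 : Real.exp (A / ε) + 1 < ‖z‖ := (le_max_right _ _).trans_lt (not_le.1 hzR)
        have h3 := norm_sub_norm_le z (-1)
        rw [norm_neg, norm_one] at h3
        have h4 := one_le (hre z hz).le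
        have h5 : Real.exp (A / ε) ≤ ‖z - (-1)‖ ^ 2 := by nlinarith
        have h6 : A / ε ≤ φ z :=
          ((Real.le_log_iff_exp_le (by positivity)).2 h5).trans
            (le_add_of_nonneg_right (lg_nn (hre z hz).le))
        rw [div_le_iff₀ hε] at h6
        have h7 := (hl z hz).2
        change w z - ε * φ z ≤ w z₁ - ε * φ z₁
        linarith
    have hw : HL w z₁ (lap w z₁) := ⟨hd.contDiffAt (hO.mem_nhds hz₁O), rfl⟩
    have hv' := hw.sub ((hφ z₁ (hre z₁ hz₁O).le).mul ε)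
    have h2 : lap (fun z => w z - ε * φ z) z₁ ≤ 0 :=
      add_nonpos (second hv'.1 hloc _) (second hv'.1 hloc _)
    rw [hv'.2] at h2
    have h3 := (hl z₁ hz₁O).1
    have h4 := hre z₁ hz₁O
    have h5 : 0 < ε * ((1 + z₁.re) ^ 2)⁻¹ := by positivity
    linarith
  by_contra hpos
  rw [not_le] at hpos
  have h0 := hφ0 z₀ (hre z₀ hz₀).le
  have h1 := main (w z₀ / (φ z₀ + 1)) (by positivity)
  rw [div_mul_eq_mul_div, le_div_iff₀ (by positivity)] at h1
  nlinarith

namespace PL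

theorem pl' (h : PLStmt) {O K : Set ℂ} {w : ℂ → ℝ} {A : ℝ} (hO : IsOpen O) (hK : IsClosed K)
    (hOK : O ⊆ K) (hre : ∀ z ∈ O, 0 < z.re) (hw : ∀ z ∈ K, ∃ L, HL w z L ∧ (z ∈ O → 0 ≤ L))
    (hA : ∀ z ∈ O, w z ≤ A) (hb : ∀ z ∈ K, z ∉ O → w z ≤ 0) : ∀ z ∈ O, w z ≤ 0 := by
  have hc := closure_minimal hOK hK
  refine h O w A hO hre (fun z hz => ?_) (fun z hz => ?_) (fun z hz => ⟨?_, hA z hz⟩) fun z hz => ?_
  · obtain ⟨L, a, -⟩ := hw z (hc hz)
    exact a.1.continuousAt.continuousWithinAt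
  · obtain ⟨L, a, -⟩ := hw z (hOK hz)
    exact a.1.contDiffWithinAt
  · obtain ⟨L, a, b⟩ := hw z (hOK hz)
    rw [a.2]
    exact b hz
  · rw [hO.frontier_eq] at hz
    exact hb z (hc hz.1) hz.2

theorem op0 : IsOpen {z : ℂ | 0 < z.re} := isOpen_lt continuous_const Complex.continuous_re

theorem cl0 : IsClosed {z : ℂ | 0 ≤ z.re} := isClosed_le continuous_const Complex.continuous_re

theorem log_lin {A δ : ℝ} (hA : 0 ≤ A) (hδ : 0 < δ) :
    ∃ C : ℝ, ∀ x : ℝ, 0 ≤ x → A * Real.log (1 + x) ≤ δ * x + C := by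
  refine ⟨A * (δ / (A + 1) - 1 - Real.log (δ / (A + 1))), fun x hx => ?_⟩
  have hc : 0 < δ / (A + 1) := by positivity
  have h1 := Real.log_le_sub_one_of_pos (x := δ / (A + 1) * (1 + x)) (by positivity)
  rw [Real.log_mul hc.ne' (by positivity)] at h1
  have h2 : A * (δ / (A + 1)) ≤ δ := by
    rw [← mul_div_assoc, div_le_iff₀ (by positivity)]
    nlinarith
  have h3 := mul_le_mul_of_nonneg_left h1 hA
  have h4 := mul_le_mul_of_nonneg_right h2 hx
  nlinarith

end PL

open PL in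
theorem slope (h : PLStmt) : SlopeStmt := by
  intro b A Λ κ t₁ hb hA hl h0 hΛ ht hκ
  have hB : ∀ z, HL b z (lap b z) := fun z => ⟨hb.contDiffAt, rfl⟩
  have bd : ∀ z : ℂ, 0 ≤ z.re → |b z| ≤ A + |Λ| * z.re := by
    intro z hz
    have h1 := hΛ z (z - z.re) hz (by simp)
    have h2 := h0 (z - z.re) (by simp)
    rw [sub_sub_cancel, Complex.norm_real, Real.norm_eq_abs, abs_of_nonneg hz] at h1
    have h3 := mul_le_mul_of_nonneg_right (le_abs_self Λ) hz
    have h4 := abs_add_le (b z - b (z - z.re)) (b (z - z.re))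
    rw [sub_add_cancel] at h4
    linarith
  have osc : ∀ z z' : ℂ, 0 < z.re → z'.re = z.re →
      b z' ≤ b z + 2 * A * Real.log (1 + z.re) + 2 * A := by
    intro z z' hz e
    have hc : (z' - z).re = 0 := by simp [e]
    have := pl' h (w := fun y => b (y + (z' - z)) - b y - 2 * A * Real.log (1 + y.re) -
      (2 * A + 0 * y.re)) (A := Λ * ‖z' - z‖) op0 cl0
      (fun y hy => (le_of_lt hy : 0 ≤ y.re)) (fun y hy => hy)
      (fun y hy => ⟨_, (((shift hb _ y).sub (hB y)).sub ((lg hy).mul (2 * A))).sub (aff _ _ y),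
        fun hy' => ?_⟩) (fun y hy => ?_) (fun y hy hy' => ?_) z hz
    · simp only [add_sub_cancel] at this
      linarith
    · have e' : (y + (z' - z)).re = y.re := by rw [Complex.add_re, hc, add_zero]
      have a1 := (abs_le.1 (hl (y + (z' - z)) (by rw [e']; exact hy'))).1
      have a2 := (abs_le.1 (hl y hy')).2
      rw [e', div_eq_mul_inv] at a1
      rw [div_eq_mul_inv] at a2
      linarith
    · have hy' : 0 < y.re := hy
      have a1 := (abs_le.1 (hΛ (y + (z' - z)) y (by rw [Complex.add_re, hc]; linarith) hy'.le)).2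
      rw [add_sub_cancel_left] at a1
      have a2 := mul_nonneg hA (lg_nn hy'.le)
      linarith
    · have e' : y.re = 0 := le_antisymm (not_lt.1 hy') hy
      have a1 := (abs_le.1 (h0 (y + (z' - z)) (by rw [Complex.add_re, hc, e', add_zero]))).2
      have a2 := (abs_le.1 (h0 y e')).1
      simp only [e', add_zero, Real.log_one]
      linarith
  obtain ⟨k, hk1, hk2⟩ := exists_between ((div_lt_iff₀ ht).2 hκ)
  rw [div_lt_iff₀ ht] at hk1
  have low : ∀ X : ℝ, t₁.re < X → ∃ z : ℂ, z.re = X ∧ b z < k * X - A * Real.log (1 + X) - A := by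
    intro X hX
    by_contra hn
    push Not at hn
    have := pl' h (O := {z | 0 < z.re} ∩ {z | z.re < X}) (K := {z | 0 ≤ z.re} ∩ {z | z.re ≤ X})
      (w := fun y => (-A + k * y.re) - b y - A * Real.log (1 + y.re)) (A := |k| * X + |Λ| * X)
      (op0.inter (isOpen_lt Complex.continuous_re continuous_const))
      (cl0.inter (isClosed_le Complex.continuous_re continuous_const))
      (fun y hy => ⟨(le_of_lt hy.1 : 0 ≤ y.re), (le_of_lt hy.2 : y.re ≤ X)⟩) (fun y hy => hy.1)
      (fun y hy => ⟨_, ((aff _ _ y).sub (hB y)).sub ((lg hy.1).mul A), fun hy' => ?_⟩)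
      (fun y hy => ?_) (fun y hy hy' => ?_) t₁ ⟨ht, hX⟩
    · linarith
    · have a2 := (abs_le.1 (hl y hy'.1)).2
      rw [div_eq_mul_inv] at a2
      linarith
    · have y1 : 0 < y.re := hy.1
      have y2 : y.re < X := hy.2
      have a1 := (abs_le.1 (bd y y1.le)).1
      have a2 := mul_nonneg hA (lg_nn y1.le)
      have a3 := mul_le_mul (le_abs_self k) y2.le y1.le (abs_nonneg k)
      have a4 := mul_le_mul_of_nonneg_left y2.le (abs_nonneg Λ)
      linarith
    · have y1 : 0 ≤ y.re := hy.1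
      have y2 : y.re ≤ X := hy.2
      rcases y1.eq_or_lt with e | y1
      · have a2 := (abs_le.1 (h0 y e.symm)).1
        simp only [← e, add_zero, Real.log_one, mul_zero]
        linarith
      · have e : y.re = X := le_antisymm y2 (not_lt.1 fun a => hy' ⟨y1, a⟩)
        have := hn y e
        rw [e]
        linarith
  obtain ⟨C, hC⟩ := log_lin hA (sub_pos.2 hk2)
  refine ⟨max (A + C) (A + |Λ| * t₁.re + |κ| * t₁.re), fun z hz => ?_⟩
  rcases lt_or_ge t₁.re z.re with hX | hX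
  · obtain ⟨y, hy, hy'⟩ := low z.re hX
    have a1 := osc y z (by linarith) hy.symm
    rw [hy] at a1
    have a2 := hC z.re hz
    have a3 := le_max_left (A + C) (A + |Λ| * t₁.re + |κ| * t₁.re)
    linarith
  · have a1 := (abs_le.1 (bd z hz)).2
    have a2 := mul_le_mul_of_nonneg_left hX (abs_nonneg Λ)
    have a3 := mul_le_mul (neg_le_abs κ) hX hz (abs_nonneg κ)
    have a4 := le_max_right (A + C) (A + |Λ| * t₁.re + |κ| * t₁.re)
    linarith

open PL in
theorem lin (h : PLStmt) : LinStmt := by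
  intro u A θ hu hA hθ hθ' h0 hl h2 hc
  have hU : ∀ z, HL u z (lap u z) := fun z => ⟨hu.contDiffAt, rfl⟩
  set L := Real.log ((3 / θ) ^ 2) with hL
  have h3 : 1 < 3 / θ := by
    rw [lt_div_iff₀ hθ]
    linarith
  have hL0 : 0 < L := Real.log_pos (one_lt_pow₀ h3 two_ne_zero)
  refine ⟨A + A * (A * L), fun c hc0 => ?_⟩
  have hAL : 0 ≤ A * (A * L) := by positivity
  rcases le_or_gt c.re 2 with hx | hx
  · have := h2 c hc0 hx
    nlinarith
  rcases le_or_gt (u c) A with hA' | hA'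
  · nlinarith
  set m := u c - A with hm
  have hm0 : 0 < m := sub_pos.2 hA'
  have hr : 0 < θ * c.re := by positivity
  set c' : ℂ := c - 2 * c.re with hc'
  have hre : c'.re = -c.re := by
    simp [hc']
    ring
  have him : c'.im = c.im := by simp [hc']
  have hne : ∀ y : ℂ, θ * c.re ≤ ‖y - c‖ → y ≠ c := fun y hy e => by
    rw [e, sub_self, norm_zero] at hy
    linarith
  have hne' : ∀ y : ℂ, 0 ≤ y.re → y ≠ c' := fun y hy e => by
    rw [e, hre] at hy
    linarith
  have hH : ∀ y : ℂ, 0 ≤ y.re → θ * c.re ≤ ‖y - c‖ →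
      Real.log (‖y - c'‖ ^ 2) - Real.log (‖y - c‖ ^ 2) ≤ L := by
    intro y hy hy'
    have p1 : 0 < ‖y - c‖ := hr.trans_le hy'
    have p2 : 0 < ‖y - c'‖ := norm_pos_iff.2 (sub_ne_zero.2 (hne' y hy))
    rw [sub_le_iff_le_add, hL, ← Real.log_mul (by positivity) (by positivity), ← mul_pow]
    refine Real.log_le_log (by positivity) (pow_le_pow_left₀ p2.le ?_ 2)
    have a1 := norm_add_le (y - c) (2 * c.re)
    rw [show y - c + 2 * c.re = y - c' by rw [hc']; ring, norm_mul, Complex.norm_real,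
      Real.norm_eq_abs, abs_of_nonneg hc0, Complex.norm_ofNat] at a1
    rw [div_mul_eq_mul_div, le_div_iff₀ hθ]
    nlinarith
  obtain ⟨z₀, hz₀⟩ : ∃ z₀ : ℂ, z₀ = ⟨1 / 2, c.im⟩ := ⟨_, rfl⟩
  have n1 : ‖z₀ - c‖ = c.re - 1 / 2 := by
    rw [show z₀ - c = ((-(c.re - 1 / 2) : ℝ) : ℂ) by apply Complex.ext <;> simp [hz₀],
      Complex.norm_real, norm_neg, Real.norm_eq_abs, abs_of_pos (by linarith)]
  have n2 : ‖z₀ - c'‖ = c.re + 1 / 2 := by
    rw [show z₀ - c' = ((c.re + 1 / 2 : ℝ) : ℂ) by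
        apply Complex.ext <;> simp [hz₀, hre, him, add_comm],
      Complex.norm_real, Real.norm_eq_abs, abs_of_pos (by linarith)]
  have := pl' h (O := {z | 0 < z.re} ∩ {z | θ * c.re < ‖z - c‖})
    (K := {z | 0 ≤ z.re} ∩ {z | θ * c.re ≤ ‖z - c‖})
    (w := fun y => m * (Real.log (‖y - c'‖ ^ 2) - Real.log (‖y - c‖ ^ 2)) -
      (A * L) * (u y + A * Real.log (1 + y.re))) (A := m * L)
    (op0.inter (isOpen_lt continuous_const (by fun_prop)))
    (cl0.inter (isClosed_le continuous_const (by fun_prop)))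
    (fun y hy => ⟨(le_of_lt hy.1 : 0 ≤ y.re), (le_of_lt hy.2 : θ * c.re ≤ ‖y - c‖)⟩)
    (fun y hy => hy.1)
    (fun y hy => ⟨_, (((ls (hne' y hy.1)).sub (ls (hne y hy.2))).mul m).sub
      (((hU y).add ((lg hy.1).mul A)).mul (A * L)), fun hy' => ?_⟩)
    (fun y hy => ?_) (fun y hy hy' => ?_) z₀ ⟨by simp [hz₀], by
      change _ < ‖z₀ - c‖
      rw [n1]
      nlinarith⟩
  · simp only [n1, n2] at this
    have e0 : z₀.re = 1 / 2 := by rw [hz₀]
    have a1 := h2 z₀ (by rw [e0]; norm_num) (by rw [e0]; norm_num)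
    have a2 : Real.log (1 + z₀.re) ≤ 1 := by
      have := Real.log_le_sub_one_of_pos (x := 1 + z₀.re) (by rw [e0]; norm_num)
      linarith
    have p1 : 0 < c.re - 1 / 2 := by linarith
    have p2 : 0 < c.re + 1 / 2 := by linarith
    have a3 : 2 / (c.re + 1 / 2) ≤
        Real.log ((c.re + 1 / 2) ^ 2) - Real.log ((c.re - 1 / 2) ^ 2) := by
      have := Real.log_le_sub_one_of_pos (div_pos p1 p2)
      rw [Real.log_div p1.ne' p2.ne'] at this
      have e : (c.re - 1 / 2) / (c.re + 1 / 2) - 1 = -(2 / (c.re + 1 / 2)) / 2 := by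
        field_simp
        ring
      rw [Real.log_pow, Real.log_pow]
      push_cast
      linarith
    have a4 := mul_le_mul_of_nonneg_left a3 hm0.le
    have a5 : u z₀ + A * Real.log (1 + z₀.re) ≤ 2 * A := by nlinarith
    have a6 := mul_le_mul_of_nonneg_left a5 (mul_nonneg hA hL0.le)
    have a7 : m * (2 / (c.re + 1 / 2)) ≤ A * L * (2 * A) := by linarith
    rw [← mul_div_assoc, div_le_iff₀ p2] at a7
    nlinarith
  · have a2 := hl y hy'.1
    rw [div_eq_mul_inv] at a2
    have := mul_nonneg (mul_nonneg hA hL0.le) (sub_nonneg.2 a2)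
    linarith
  · have y1 : 0 < y.re := hy.1
    have a1 := mul_le_mul_of_nonneg_left (hH y y1.le (le_of_lt hy.2)) hm0.le
    have a2 := mul_nonneg (mul_nonneg hA hL0.le)
      (add_nonneg (h0 y y1.le) (mul_nonneg hA (lg_nn y1.le)))
    linarith
  · have y1 : 0 ≤ y.re := hy.1
    have y2 : θ * c.re ≤ ‖y - c‖ := hy.2
    have a0 := mul_nonneg hA (lg_nn y1)
    rcases y1.eq_or_lt with e | y1'
    · have e' : ‖y - c'‖ ^ 2 = ‖y - c‖ ^ 2 := by
        rw [Complex.sq_norm, Complex.sq_norm, Complex.normSq_apply, Complex.normSq_apply]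
        simp only [Complex.sub_re, Complex.sub_im, hre, him, ← e]
        ring
      have a2 := mul_nonneg (mul_nonneg hA hL0.le) (add_nonneg (h0 y y1) a0)
      rw [e', sub_self, mul_zero]
      linarith
    · have e : ‖y - c‖ ≤ θ * c.re := not_lt.1 fun a => hy' ⟨y1', a⟩
      have a1 := hc c hx.le y (mem_closedBall_iff_norm.2 e)
      have a2 := mul_le_mul_of_nonneg_left (hH y y1 y2) hm0.le
      have a3 : m * L ≤ A * u y * L := mul_le_mul_of_nonneg_right (by linarith) hL0.le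
      have a4 := mul_nonneg (mul_nonneg hA hL0.le) a0
      nlinarith

end Pool.Agent.MP_c69980_ag.G2
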