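import Pool.Agent.MP_c69980_ag.G2.Base

/-!
Parallel vector functions, logarithms of a finite set, normalised lifts, and Montel's theorem.
-/

set_option autoImplicit false

noncomputable section

namespace Pool.Agent.MP_c69980_ag.G2

open MvPolynomial Metric Filter Topology MeasureTheory Set
open H60 H4

namespace Par

lemma eq_smul {A W : V3} (h : crossProduct A W = 0) {j : Fin 3} (hj : W j ≠ 0) :
    A = (A j / W j) • W := by
  have h0 := congrFun h 0
  have h1 := congrFun h 1
  have h2 := congrFun h 2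
  simp [cross_apply] at h0 h1 h2
  have key : ∀ i, A i * W j = A j * W i := fun i => by
    fin_cases i <;> fin_cases j <;> simp <;> first
      | linear_combination h0 | linear_combination -h0 | linear_combination h1
      | linear_combination -h1 | linear_combination h2 | linear_combination -h2
  funext i
  simp only [Pi.smul_apply, smul_eq_mul]
  field_simp
  exact key i

/-- A holomorphic logarithm on a disc. -/
lemma exists_log {f : ℂ → ℂ} {c : ℂ} {r : ℝ} (hf : DifferentiableOn ℂ f (ball c r))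
    (h0 : ∀ z ∈ ball c r, f z ≠ 0) :
    ∃ g : ℂ → ℂ, DifferentiableOn ℂ g (ball c r) ∧ ∀ z ∈ ball c r, Complex.exp (g z) = f z := by
  obtain ⟨g, gc, hg⟩ := (((hf.deriv isOpen_ball).div hf h0).isExactOn_ball).with_val_at c
    (Complex.log (f c))
  refine ⟨g, fun z hz => (hg z hz).differentiableAt.differentiableWithinAt, fun z hz => ?_⟩
  have hc : c ∈ ball c r := mem_ball_self (pos_of_mem_ball hz)
  have d : ∀ w ∈ ball c r, HasDerivAt (fun w => Complex.exp (g w) / f w) 0 w := fun w hw => by
    refine ((hg w hw).cexp.div (hf.differentiableAt (isOpen_ball.mem_nhds hw)).hasDerivAt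
      (h0 w hw)).congr_deriv ?_
    have := h0 w hw
    simp only [Pi.div_apply]
    field_simp
    ring
  have e := isOpen_ball.is_const_of_deriv_eq_zero (convex_ball c r).isPreconnected
    (fun w hw => (d w hw).differentiableAt.differentiableWithinAt)
    (fun w hw => (d w hw).deriv) hz hc
  simp only [gc, Complex.exp_log (h0 c hc), div_self (h0 c hc)] at e
  exact (div_eq_one_iff_eq (h0 z hz)).1 e

lemma lamv_cont {y w : V3} (hy : y ≠ 0) :
    ContinuousAt (fun q : V3 × V3 => lamv q.1 q.2) (y, w) := by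
  have h1 : Continuous fun q : V3 × V3 => H4.sq q.1 := by unfold H4.sq; fun_prop
  have h2 : Continuous fun q : V3 × V3 => H4.sq q.2 := by unfold H4.sq; fun_prop
  have h3 : Continuous fun q : V3 × V3 => ip q.2 q.1 := by unfold ip; fun_prop
  exact ((h1.mul h2).sub (h3.norm.pow 2)).continuousAt.div (h1.pow 2).continuousAt
    (pow_ne_zero _ (R1.sq_pos' hy).ne')

end Par

open Par

theorem par : ParStmt := fun O A W hO hA hW h => by
  have ex : ∀ z, ∃ m : ℂ, z ∈ O → A z = m • W z := fun z => by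
    by_cases hz : z ∈ O
    · obtain ⟨j, hj⟩ := Function.ne_iff.1 (h z hz).1
      exact ⟨_, fun _ => eq_smul (h z hz).2 hj⟩
    · exact ⟨0, fun q => absurd q hz⟩
  choose μ hμ using ex
  refine ⟨μ, fun z hz => ?_, hμ⟩
  obtain ⟨j, hj⟩ := Function.ne_iff.1 (h z hz).1
  have hj' : W z j ≠ 0 := hj
  have a := (differentiableOn_pi.1 hA j).differentiableAt (hO.mem_nhds hz)
  have b := (differentiableOn_pi.1 hW j).differentiableAt (hO.mem_nhds hz)
  refine ((a.div b hj').congr_of_eventuallyEq ?_).differentiableWithinAt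
  filter_upwards [hO.mem_nhds hz, b.continuousAt.eventually_ne hj'] with w h1 h2
  have := congrFun (hμ w h1) j
  simp only [Pi.smul_apply, smul_eq_mul] at this
  simp only [Pi.div_apply, this]
  field_simp

theorem lat : LatStmt := fun B hB => by
  have b0 : ∀ β ∈ B, β ≠ 0 := fun β h e => hB (e ▸ h)
  refine ⟨?_, fun r hr => ?_, ?_, fun η A hη => ?_⟩
  · have ev : ∀ᶠ u in 𝓝 (0 : ℂ), ∀ β ∈ B, ∀ β' ∈ B, Complex.exp u = β / β' → u = 0 := by
      simp only [eventually_all_finset]
      intro β _ β' _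
      by_cases h1 : β / β' = 1
      · filter_upwards [ball_mem_nhds (0 : ℂ) one_pos] with u hu e
        obtain ⟨n, rfl⟩ := Complex.exp_eq_one_iff.1 (e.trans h1)
        by_contra hn
        have n0 : n ≠ 0 := by rintro rfl; simp at hn
        have n1 : (1 : ℝ) ≤ |(n : ℝ)| := by exact_mod_cast Int.one_le_abs n0
        simp only [mem_ball, dist_zero_right, norm_mul, Complex.norm_intCast, Complex.norm_I,
          Complex.norm_real, Complex.norm_ofNat, Real.norm_eq_abs, abs_of_pos Real.pi_pos] at hu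
        nlinarith [Real.pi_gt_three]
      · have : Complex.exp 0 ≠ β / β' := by rw [Complex.exp_zero]; exact Ne.symm h1
        filter_upwards [Complex.continuous_exp.continuousAt.eventually_ne this] with u hu e
        exact absurd e hu
    obtain ⟨r, r0, hr⟩ := Metric.eventually_nhds_iff.1 ev
    refine ⟨r, r0, fun t t' h h' ne => le_of_not_gt fun q => ne (sub_eq_zero.1 ?_)⟩
    exact hr (by rwa [dist_zero_right]) _ h _ h' (Complex.exp_sub t t')
  · have ev : ∀ᶠ v in 𝓝 (0 : ℂ), ∀ β ∈ B, ‖Complex.log ((β + v) / β)‖ < r := by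
      simp only [eventually_all_finset]
      intro β hβ
      have c1 : ContinuousAt (fun v : ℂ => (β + v) / β) 0 := by fun_prop
      have c2 : ContinuousAt (fun v : ℂ => ‖Complex.log ((β + v) / β)‖) 0 :=
        (c1.clog (by simp [div_self (b0 β hβ)])).norm
      exact c2.eventually_lt continuousAt_const (by simpa [div_self (b0 β hβ)] using hr)
    obtain ⟨η, η0, hη⟩ := Metric.eventually_nhds_iff.1 ev
    refine ⟨η, η0, fun t ht β hβ => le_of_not_gt fun q => ?_⟩
    have h1 := hη (y := Complex.exp t - β) (by rwa [dist_zero_right]) β hβ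
    rw [add_sub_cancel] at h1
    have h2 := ht (t - Complex.log (Complex.exp t / β)) (by
      rwa [Complex.exp_sub, Complex.exp_log (div_ne_zero (Complex.exp_ne_zero t) (b0 β hβ)),
        div_div_cancel₀ (Complex.exp_ne_zero t)])
    rw [sub_sub_cancel] at h2
    linarith
  · refine ⟨∑ β ∈ B, |Real.log ‖β‖| + 1, by positivity, fun t ht t₀ h₀ => ?_⟩
    have h1 := Finset.single_le_sum (f := fun β : ℂ => |Real.log ‖β‖|)
      (fun _ _ => abs_nonneg _) h₀
    simp only [Complex.norm_exp, Real.log_exp] at h1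
    have h2 := Complex.abs_re_le_norm (t - t₀)
    rw [Complex.sub_re] at h2
    linarith [abs_sub_abs_le_abs_sub t.re t₀.re]
  · have e0 := Real.exp_pos A
    refine ⟨min 1 (η / (4 * Real.exp A)), by positivity, fun t t' ht hF h β hβ => ?_⟩
    have h1 := Complex.norm_exp_sub_one_le (h.trans (min_le_left _ _))
    have h2 : ‖t' - t‖ * (4 * Real.exp A) ≤ η :=
      (le_div_iff₀ (by positivity)).1 (h.trans (min_le_right _ _))
    have h3 : ‖Complex.exp t‖ ≤ Real.exp A := by
      rw [Complex.norm_exp]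
      exact Real.exp_le_exp.2 ((le_abs_self _).trans ht)
    have h4 : ‖Complex.exp t' - Complex.exp t‖ ≤ Real.exp A * (2 * ‖t' - t‖) := by
      rw [show Complex.exp t' - Complex.exp t = Complex.exp t * (Complex.exp (t' - t) - 1) by
        rw [mul_sub, ← Complex.exp_add, add_sub_cancel, mul_one], norm_mul]
      exact mul_le_mul h3 h1 (norm_nonneg _) e0.le
    have h5 := hF β hβ
    have h6 := norm_sub_le_norm_sub_add_norm_sub (Complex.exp t) (Complex.exp t') β
    rw [norm_sub_rev (Complex.exp t) (Complex.exp t')] at h6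
    linarith

theorem nrm : NrmStmt := fun D F c r hF h => by
  have hP : ∀ z ∈ ball c r, eval (F z) D.P ≠ 0 := fun z hz e => h z hz (by rw [map_mul, e, zero_mul])
  have hQ : ∀ z ∈ ball c r, eval (F z) D.Q ≠ 0 := fun z hz e => h z hz (by rw [map_mul, e, mul_zero])
  obtain ⟨α, α1, α2⟩ := Par.exists_log (H18.evd hF D.P) hP
  obtain ⟨β, β1, β2⟩ := Par.exists_log (H18.evd hF D.Q) hQ
  have a0 : (D.a : ℂ) ≠ 0 := by exact_mod_cast (Nat.one_le_iff_ne_zero.1 D.a1)
  have hφ : DifferentiableOn ℂ (fun z => Complex.exp (-α z / D.a)) (ball c r) :=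
    (α1.neg.div_const _).cexp
  refine ⟨fun z => Complex.exp (-α z / D.a), fun z => D.b * (-α z / D.a) + β z,
    ⟨hφ.smul hF, ((α1.neg.div_const _).const_mul _).add β1, fun z hz => ⟨?_, ?_⟩⟩,
    fun z hz => ⟨Complex.exp_ne_zero _, ?_⟩⟩
  · rw [eval_smul_hom D.hP, ← α2 z hz, ← Complex.exp_nat_mul, mul_div_cancel₀ _ a0,
      ← Complex.exp_add, neg_add_cancel, Complex.exp_zero]
  · rw [eval_smul_hom D.hQ, ← β2 z hz, ← Complex.exp_nat_mul, ← Complex.exp_add]
  · have d1 := (hφ.differentiableAt (isOpen_ball.mem_nhds hz)).hasDerivAt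
    have d2 := (hF.differentiableAt (isOpen_ball.mem_nhds hz)).hasDerivAt
    have d3 := (d1.fun_smul d2).deriv
    rw [lam, d3]
    exact (R1.minor 3 _ _ (ne_of_one D.hP D.a1 (hP z hz))).2.2.2.1 _ _ (Complex.exp_ne_zero _)

theorem mon : MonStmt := fun u F h => by
  have ex : ∀ z : ℂ, ∃ y, Tendsto (fun k => F k z) u (𝓝 y) := fun z => by
    obtain ⟨A, hA⟩ := h (‖z‖ + 1)
    obtain ⟨H, hH⟩ := H18.ulim u isOpen_ball hA
    exact ⟨H z, hH.tendsto_at (by simp)⟩
  choose G hG using ex
  have lo : ∀ z : ℂ, TendstoLocallyUniformlyOn F G u (ball 0 (‖z‖ + 1)) := fun z => by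
    obtain ⟨A, hA⟩ := h (‖z‖ + 1)
    exact H18.locu isOpen_ball hA fun w _ => hG w
  have df : ∀ z : ℂ, ∀ᶠ k in u, DifferentiableOn ℂ (F k) (ball 0 (‖z‖ + 1)) := fun z => by
    obtain ⟨A, hA⟩ := h (‖z‖ + 1)
    exact hA.mono fun _ a => a.1
  have mem : ∀ z : ℂ, z ∈ ball (0 : ℂ) (‖z‖ + 1) := fun z => by simp
  have dG : Differentiable ℂ G := fun z =>
    ((lo z).differentiableOn (df z) isOpen_ball).differentiableAt (isOpen_ball.mem_nhds (mem z))
  have lu : TendstoLocallyUniformly F G u := fun e he z => by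
    obtain ⟨t, t1, t2⟩ := lo z e he z (mem z)
    rw [nhdsWithin_eq_nhds.2 (isOpen_ball.mem_nhds (mem z))] at t1
    exact ⟨t, t1, t2⟩
  refine ⟨G, dG, lu, fun z => ?_, fun w w₀ hw => lu.tendsto_comp dG.continuous.continuousAt hw⟩
  by_cases hz : G z = 0
  · exact Or.inr hz
  have h1 : Tendsto (fun k => deriv (F k) z) u (𝓝 (deriv G z)) :=
    ((lo z).deriv (df z) isOpen_ball).tendsto_at (mem z)
  have h2 := (lamv_cont (w := deriv G z) hz).tendsto.comp ((hG z).prodMk_nhds h1)
  simp only [Function.comp_def] at h2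
  exact Or.inl h2

end Pool.Agent.MP_c69980_ag.G2
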