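import Pool.Agent.MP_c69980_ag.G2.Base
import Pool.Agent.MP_c69980_ag.H71.Affine
import Pool.Agent.MP_c69980_ag.H48.Through
import Pool.Agent.MP_c69980_ag.H44.Model
import Pool.Agent.MP_c69980_ag.H29.Bound
import Pool.Agent.MP_c69980_ag.H86.Bubble
import Pool.Agent.MP_c69980_ag.S14.HtBd
import Pool.Agent.MP_c69980_ag.S41.Cv1
import Pool.Agent.MP_c69980_ag.S35.Cd

/-!
The complement of a plane curve is affine: bounded complements have finitely many pointed maps.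
-/

set_option autoImplicit false

noncomputable section

namespace Pool.Agent.MP_c69980_ag.G2

open MvPolynomial Set
open H60 H4 H43
open Pool.Agent.MP_c4d8e2_ag.H71 (eval_rep_mk eval_aeval')

namespace Pt

/-- A Veronese type system of forms of degree `d`, starting with `G`. -/
structure Ver (G : PR 3) (d N : ℕ) where
  F : Fin (N + 1) → PR 3
  a : Fin 3 → Fin 3 → Fin (N + 1)
  b : (Fin 3 →₀ ℕ) → Fin (N + 1)
  hom : ∀ j, (F j).IsHomogeneous d
  h0 : F 0 = G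
  ha : ∀ s i, F (a s i) = X s ^ (d - 1) * X i
  hb : ∀ m ∈ G.support, F (b m) = monomial m 1

lemma ex_ver {G : PR 3} {d : ℕ} (hG : G.IsHomogeneous d) (hd : 0 < d) :
    ∃ N, Nonempty (Ver G d N) := by
  classical
  let T : Finset (PR 3) := (Finset.univ.image fun q : Fin 3 × Fin 3 => X q.1 ^ (d - 1) * X q.2) ∪
    G.support.image fun m => monomial m 1
  let F : Fin (T.card + 1) → PR 3 := Fin.cons G fun k => (T.equivFin.symm k : PR 3)
  have h1 : ∀ H ∈ T, ∃ j, F j = H := fun H hH => ⟨(T.equivFin ⟨H, hH⟩).succ, by simp [F]⟩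
  have h2 : ∀ H ∈ T, H.IsHomogeneous d := fun H hH => by
    rcases Finset.mem_union.1 hH with q | q
    · obtain ⟨u, -, rfl⟩ := Finset.mem_image.1 q
      have := (isHomogeneous_X_pow (R := ℂ) u.1 (d - 1)).mul (isHomogeneous_X ℂ u.2)
      rwa [Nat.sub_add_cancel hd] at this
    · obtain ⟨m, hm, rfl⟩ := Finset.mem_image.1 q
      refine isHomogeneous_monomial _ ?_
      rw [Finsupp.degree_eq_weight_one]
      exact hG (mem_support_iff.1 hm)
  have h3 : ∀ s i : Fin 3, ∃ j, F j = X s ^ (d - 1) * X i := fun s i =>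
    h1 _ (Finset.mem_union_left _ (Finset.mem_image.2 ⟨(s, i), Finset.mem_univ _, rfl⟩))
  have h4 : ∀ m : Fin 3 →₀ ℕ, ∃ j, m ∈ G.support → F j = monomial m 1 := fun m => by
    by_cases hm : m ∈ G.support
    · obtain ⟨j, hj⟩ := h1 _ (Finset.mem_union_right _ (Finset.mem_image.2 ⟨m, hm, rfl⟩))
      exact ⟨j, fun _ => hj⟩
    · exact ⟨0, fun q => (hm q).elim⟩
  choose a ha using h3
  choose b hb using h4
  refine ⟨_, ⟨F, a, b, fun j => ?_, rfl, ha, hb⟩⟩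
  refine Fin.cases hG (fun k => ?_) j
  exact h2 _ (T.equivFin.symm k).2

variable {G : PR 3} {d N : ℕ} (V : Ver G d N)

lemma Ver.ne {y : Fin 3 → ℂ} (hy : y ≠ 0) : (fun j => eval y (V.F j)) ≠ 0 := fun e => by
  obtain ⟨s, hs⟩ := Function.ne_iff.1 hy
  have := congrFun e (V.a s s)
  simp only [V.ha, map_mul, map_pow, eval_X, Pi.zero_apply] at this
  exact mul_ne_zero (pow_ne_zero _ hs) hs this

/-- The embedding. -/
def Ver.nu (p : PS 3) : PS (N + 1) := Projectivization.mk ℂ _ (V.ne p.rep_nonzero)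

lemma Ver.nu_mk {y : Fin 3 → ℂ} (hy : y ≠ 0) :
    V.nu (Projectivization.mk ℂ y hy) = Projectivization.mk ℂ _ (V.ne hy) := by
  obtain ⟨c, -, h⟩ := rep_mk hy
  refine (Projectivization.mk_eq_mk_iff' ℂ _ _ _ _).2 ⟨c ^ d, funext fun j => ?_⟩
  rw [h, eval_smul_hom (V.hom j)]
  rfl

lemma Ver.rep (p : PS 3) : ∃ c : ℂ, c ≠ 0 ∧ ∀ j, (V.nu p).rep j = c * eval p.rep (V.F j) := by
  obtain ⟨c, hc, h⟩ := rep_mk (V.ne p.rep_nonzero)
  exact ⟨c, hc, fun j => congrFun h j⟩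

lemma Ver.inv (p : PS 3) {s : Fin 3} (hs : (V.nu p).rep (V.a s s) ≠ 0) :
    ∃ h : (fun i => (V.nu p).rep (V.a s i)) ≠ 0, p = Projectivization.mk ℂ _ h := by
  obtain ⟨c, -, h⟩ := V.rep p
  refine ⟨fun e => hs (congrFun e s), ?_⟩
  conv_lhs => rw [← p.mk_rep]
  refine ((Projectivization.mk_eq_mk_iff' ℂ _ _ _ _).2
    ⟨c * p.rep s ^ (d - 1), _root_.funext fun i => ?_⟩).symm
  simp only [h, V.ha, map_mul, map_pow, eval_X, Pi.smul_apply, smul_eq_mul, mul_assoc]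

lemma Ver.inj : Function.Injective V.nu := fun p q e => by
  obtain ⟨s, hs⟩ := Function.ne_iff.1 p.rep_nonzero
  obtain ⟨c, hc, h⟩ := V.rep p
  have h1 : (V.nu p).rep (V.a s s) ≠ 0 := by
    simp only [h, V.ha, map_mul, map_pow, eval_X]
    exact mul_ne_zero hc (mul_ne_zero (pow_ne_zero _ hs) hs)
  obtain ⟨_, a1⟩ := V.inv p h1
  obtain ⟨_, a2⟩ := V.inv q (e ▸ h1)
  rw [a1, a2]
  simp only [e]

lemma Ver.zero (p : PS 3) : (V.nu p).rep 0 ≠ 0 ↔ eval p.rep G ≠ 0 := by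
  obtain ⟨c, hc, h⟩ := V.rep p
  rw [h, V.h0, mul_ne_zero_iff, and_iff_right hc]

/-- The closure of the image. -/
def Ver.Z : Set (PS (N + 1)) := {P | ∀ H ∈ {H : PR (N + 1) | (∃ e, H.IsHomogeneous e) ∧
  aeval V.F H = 0}, eval P.rep H = 0}

lemma Ver.closed : IsZClosed V.Z := ⟨_, fun _ h => h.1, rfl⟩

lemma Ver.mem (p : PS 3) : V.nu p ∈ V.Z := by
  rintro H ⟨⟨e, he⟩, hH⟩
  rw [Ver.nu, eval_rep_mk he, ← eval_aeval', hH, map_zero]

lemma Ver.chart (hG : G.IsHomogeneous d) (hd : 0 < d) {P : PS (N + 1)} (hP : P ∈ V.Z)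
    (h0 : P.rep 0 ≠ 0) : ∃ s, P.rep (V.a s s) ≠ 0 := by
  classical
  by_contra q
  push Not at q
  have dg : ∀ m ∈ G.support, ∑ s, m s = d := fun m hm => by
    rw [← Finsupp.degree_eq_sum, Finsupp.degree_eq_weight_one]
    exact hG (mem_support_iff.1 hm)
  have h1 : ∀ m ∈ G.support, P.rep (V.b m) = 0 := fun m hm => by
    have a1 := hP (X (V.b m) ^ d - ∏ s, X (V.a s s) ^ m s) ⟨⟨d, (isHomogeneous_X_pow _ _).sub (by
      have := IsHomogeneous.prod Finset.univ (fun s => (X (V.a s s) ^ m s : PR (N + 1))) m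
        fun s _ => isHomogeneous_X_pow _ _
      rwa [dg m hm] at this)⟩, by
        simp only [map_sub, map_pow, map_prod, aeval_X, V.hb m hm, V.ha, ← pow_succ,
          Nat.sub_add_cancel hd, monomial_eq, C_1, one_mul]
        rw [Finsupp.prod_fintype _ _ fun _ => pow_zero _, ← Finset.prod_pow]
        simp only [← pow_mul, mul_comm, sub_self]⟩
    simp only [map_sub, map_pow, map_prod, eval_X, q] at a1
    obtain ⟨s, -, hs⟩ := Finset.exists_ne_zero_of_sum_ne_zero ((dg m hm).trans_ne hd.ne')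
    rw [Finset.prod_eq_zero (Finset.mem_univ s) (zero_pow hs), sub_zero] at a1
    exact pow_eq_zero_iff hd.ne' |>.1 a1
  have a2 := hP (X 0 - ∑ m ∈ G.support, C (coeff m G) * X (V.b m)) ⟨⟨1, (isHomogeneous_X _ _).sub
    (IsHomogeneous.sum _ _ _ fun m _ => (isHomogeneous_X _ _).C_mul _)⟩, by
      rw [map_sub, map_sum, aeval_X, V.h0, sub_eq_zero]
      conv_lhs => rw [G.as_sum]
      refine Finset.sum_congr rfl fun m hm => ?_
      rw [map_mul, aeval_X, aeval_C, V.hb m hm, algebraMap_eq, C_mul_monomial, mul_one]⟩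
  rw [map_sub, map_sum, eval_X, Finset.sum_eq_zero fun m hm => by
    rw [map_mul, eval_X, h1 m hm, mul_zero], sub_zero] at a2
  exact h0 a2

lemma Ver.surj (hd : 0 < d) {P : PS (N + 1)} (hP : P ∈ V.Z) {s : Fin 3}
    (hs : P.rep (V.a s s) ≠ 0) : ∃ p, V.nu p = P := by
  have h : (fun i => P.rep (V.a s i)) ≠ 0 := fun e => hs (congrFun e s)
  refine ⟨Projectivization.mk ℂ _ h, ?_⟩
  rw [V.nu_mk]
  conv_rhs => rw [← P.mk_rep]
  refine (Projectivization.mk_eq_mk_iff' ℂ _ _ _ _).2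
    ⟨P.rep (V.a s s) ^ (d - 1), funext fun j => ?_⟩
  have a1 := hP (aeval (fun i => X (V.a s i)) (V.F j) - X (V.a s s) ^ (d - 1) * X j) ⟨⟨d, by
    have b1 := (V.hom j).aeval (fun i => (X (V.a s i) : PR (N + 1))) fun i => isHomogeneous_X _ _
    have b2 := (isHomogeneous_X_pow (R := ℂ) (V.a s s) (d - 1)).mul (isHomogeneous_X ℂ j)
    rw [one_mul] at b1
    rw [Nat.sub_add_cancel hd] at b2
    exact b1.sub b2⟩, by
      rw [map_sub, comp_aeval_apply]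
      simp only [map_mul, map_pow, aeval_X, V.ha]
      have b3 := Pool.Agent.MP_c4d8e2_ag.H71.aeval_smul_hom (V.hom j)
        (X s ^ (d - 1) : PR 3) (X : Fin 3 → PR 3)
      rw [aeval_X_left_apply] at b3
      rw [← pow_succ, Nat.sub_add_cancel hd, ← pow_mul, mul_comm d, pow_mul, ← b3]
      exact sub_self _⟩
  rw [map_sub, eval_aeval', sub_eq_zero] at a1
  simpa using a1.symm

lemma Ver.mor {m : ℕ} {Y : Set (PS m)} {f : Y → PS 3} (hf : IsMor f) :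
    IsMor fun P => V.nu (f P) :=
  Pool.Agent.MP_c4d8e2_ag.H71.IsMor.comp (T := univ) (g := fun P => V.nu P.1)
    (f := fun P => ⟨f P, trivial⟩)
    (fun _ => ⟨d, 0, 1, V.F, isHomogeneous_one _ _, V.hom, by simp, fun Q _ => ⟨_, rfl⟩⟩) hf

/-- The inverse is a morphism. -/
lemma Ver.mor_inv (hG : G.IsHomogeneous d) (hd : 0 < d) {m : ℕ} {Y : Set (PS m)} {f : Y → PS 3}
    (hf : IsMor fun P => V.nu (f P)) (hU : ∀ P, eval (f P).rep G ≠ 0) : IsMor f := by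
  have h0 : ∀ Q : ↥(V.nu '' {p | eval p.rep G ≠ 0}), ∃ p, eval p.rep G ≠ 0 ∧ V.nu p = Q.1 :=
    fun Q => Q.2
  choose π h1 h1' using h0
  have h2 : IsMor π := fun Q => by
    obtain ⟨s, hs⟩ := V.chart hG hd (V.mem (π Q)) ((V.zero _).2 (h1 Q))
    refine ⟨1, 1, X (V.a s s), fun i => X (V.a s i), isHomogeneous_X _ _,
      fun _ => isHomogeneous_X _ _, by rwa [eval_X, ← h1'], fun R hR => ?_⟩
    simp only [eval_X] at hR ⊢
    have := V.inv (π R) (s := s) (by rwa [h1'])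
    rwa [h1'] at this
  have h3 : IsMor fun P => π ⟨V.nu (f P), f P, hU P, rfl⟩ :=
    Pool.Agent.MP_c4d8e2_ag.H71.IsMor.comp (T := V.nu '' {p | eval p.rep G ≠ 0}) (g := π)
      (f := fun P => ⟨V.nu (f P), f P, hU P, rfl⟩) h2 hf
  have h4 : (fun P => π ⟨V.nu (f P), f P, hU P, rfl⟩) = f :=
    _root_.funext fun P => V.inj (h1' _)
  rwa [h4] at h3

lemma deg_aeval {n : ℕ} (R : PR n) : ∃ c : ℕ, ∀ (L : Type) [Field L] [Algebra ℂ L], FFd L →
    ∀ (w : Fin n → L) (D : ℕ), (∀ i, deg (w i) ≤ D) → deg (aeval w R) ≤ c * D := by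
  induction R using MvPolynomial.induction_on with
  | C a => exact ⟨0, fun L _ _ h w D _ => by rw [aeval_C, h.deg_const]; exact Nat.zero_le _⟩
  | add p q hp hq =>
    obtain ⟨a, ha⟩ := hp
    obtain ⟨b, hb⟩ := hq
    exact ⟨a + b, fun L _ _ h w D hw => by
      rw [map_add, add_mul]
      exact (h.deg_add _ _).trans (add_le_add (ha L h w D hw) (hb L h w D hw))⟩
  | mul_X p i hp =>
    obtain ⟨a, ha⟩ := hp
    exact ⟨a + 1, fun L _ _ h w D hw => by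
      rw [map_mul, aeval_X, add_mul, one_mul]
      exact (h.deg_mul _ _).trans (add_le_add (ha L h w D hw) (hw i))⟩

lemma Ver.ht : ∃ c : ℕ, ∀ (L : Type) [Field L] [Algebra ℂ L], FFd L → ∀ (y : Fin 3 → L) (b : Fin 3),
    ht (fun j => aeval (fun i => y i / y b) (V.F j)) ≤ c * ht y := by
  choose c hc using fun j => deg_aeval (V.F j)
  refine ⟨∑ j, ∑ k, (c j + c k), fun L _ _ h y b => ?_⟩
  rw [H43.ht, Finset.sum_mul]
  refine Finset.sum_le_sum fun j _ => ?_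
  rw [Finset.sum_mul]
  refine Finset.sum_le_sum fun k _ => (h.deg_div _ _).trans ?_
  rw [add_mul]
  exact add_le_add (hc j L h _ _ fun i => deg_le_ht y i b) (hc k L h _ _ fun i => deg_le_ht y i b)

lemma Ver.red {L : Type} [Field L] [Algebra ℂ L] (h : FFd L) {P : Pl L} {y : Fin 3 → L} {x : PS 3}
    (hr : Red P y x) {b : Fin 3} (hb : y b ≠ 0) :
    Red P (fun j => aeval (fun i => y i / y b) (V.F j)) (V.nu x) := by
  obtain ⟨c, hc, hz, rfl⟩ := hr
  have e : ∀ j, (c * y b) ^ d * aeval (fun i => y i / y b) (V.F j) =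
      aeval (fun i => c * y i) (V.F j) := fun j => by
    rw [← Pool.Agent.MP_c4d8e2_ag.H71.aeval_smul_hom (V.hom j)]
    congr 2
    funext i
    rw [Pi.smul_apply, smul_eq_mul, mul_assoc, mul_div_cancel₀ _ hb]
  have e' : (fun j => P.val ((c * y b) ^ d * aeval (fun i => y i / y b) (V.F j))) =
      fun j => eval (fun i => P.val (c * y i)) (V.F j) := funext fun j => by
    rw [e, (htBd_val h P hc _).2]
  refine ⟨(c * y b) ^ d, fun j => e j ▸ (htBd_val h P hc _).1, e' ▸ V.ne hz, ?_⟩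
  rw [V.nu_mk]
  simp only [e']

lemma Ver.bdd (hG : G.IsHomogeneous d) (hd : 0 < d) {Δ : Set (PS 3)}
    (h3 : H71.BoundedMod {p : PS 3 | eval p.rep G ≠ 0} Δ) :
    H71.BoundedMod {P | P ∈ V.Z ∧ P.rep 0 ≠ 0} (V.nu '' Δ) := by
  obtain ⟨k, hk⟩ := V.ht
  intro m C L _ _ v a1 a2 a3 a4
  obtain ⟨D, hD⟩ := h3 m C L v a1 a2 a3 a4
  obtain ⟨pl, hC⟩ := sCv1 (sHtBd sCd) m C L v ⟨a1, a2, a3, a4⟩
  refine ⟨k * (3 ^ 2 * D), fun f' f1 f2 f3 l hl => ?_⟩
  have b1 : ∀ c, ∃ p, V.nu p = f' c := fun c => by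
    obtain ⟨s, hs⟩ := V.chart hG hd (f2 ⟨c, rfl⟩).1 (f2 ⟨c, rfl⟩).2
    exact V.surj hd (f2 ⟨c, rfl⟩).1 hs
  choose f hf using b1
  have b0 : (fun c => V.nu (f c)) = f' := _root_.funext hf
  subst b0
  have b2 : ∀ c, eval (f c).rep G ≠ 0 := fun c => (V.zero _).1 (f2 ⟨c, rfl⟩).2
  have b3 : IsMor f := V.mor_inv hG hd f1 b2
  obtain ⟨y, hy⟩ := (hC.mor 3 f).1 b3
  have b6 : range f ⊆ {p : PS 3 | eval p.rep G ≠ 0} := by
    rintro _ ⟨c, rfl⟩
    exact b2 c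
  have b7 : ¬ range f ⊆ Δ := fun q => f3 (by
    rintro _ ⟨c, rfl⟩
    exact ⟨f c, q ⟨c, rfl⟩, rfl⟩)
  have b4 := (sHtBd sCd m 3 C L v pl f y hC hy).2.1 D (hD f b3 b6 b7)
  obtain ⟨c₀, -⟩ := id hl
  obtain ⟨b, b5, -⟩ := htBd_loc hC.ff (hy c₀)
  refine (htBd_one hC (fun c => V.red hC.ff (hy c) b5) l hl).trans ?_
  exact Nat.cast_le.2 ((hk L hC.ff y b).trans (Nat.mul_le_mul_left _ b4))

end Pt

theorem pt : PtStmt := by
  intro G d U K _ _ z hG hd _ hU _ _ _ _ hB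
  obtain ⟨Δ, h1, h2, h3⟩ := hB
  obtain ⟨N, ⟨V⟩⟩ := Pt.ex_ver hG hd
  subst hU
  refine ⟨Δ, h1, h2, fun m Y hY y x hx => ?_⟩
  have nx : V.nu x ∉ V.nu '' Δ := fun ⟨p, hp, e⟩ => hx.2 (V.inj e ▸ hp)
  have fin := H71.affine_finite H48.through H44.model H29.bound H86.bubble V.closed rfl
    (V.bdd hG hd h3) hY y nx
  refine Finite.of_finite_image (f := fun (f : Y → PS 3) P => V.nu (f P)) (fin.subset ?_)
    fun f _ g _ e => _root_.funext fun P => V.inj (congrFun e P)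
  rintro _ ⟨f, ⟨f1, f2, f3⟩, rfl⟩
  refine ⟨V.mor f1, ?_, congrArg V.nu f3⟩
  rintro _ ⟨P, rfl⟩
  exact ⟨V.mem _, (V.zero _).2 (f2 ⟨P, rfl⟩)⟩

end Pool.Agent.MP_c69980_ag.G2
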