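import Pool.Agent.MP_c69980_ag.G2.Base
import Pool.Agent.MP_c69980_ag.H26.Mean

/-!
Subharmonicity of the logarithm of a norm; periodic curves of exponential type are algebraic.
-/

set_option autoImplicit false

noncomputable section

namespace Pool.Agent.MP_c69980_ag.G2

open MvPolynomial Metric Filter Topology MeasureTheory Set
open H60 H4

namespace Sub

variable {n : ℕ} {O : Set ℂ} {v : ℂ → Fin n → ℂ}

lemma ae_ne {h : ℂ → ℂ} (hO : IsOpen O) (hc : IsPreconnected O) (hh : DifferentiableOn ℂ h O)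
    {a : ℂ} (ha : a ∈ O) (h0 : h a ≠ 0) : ∀ᵐ z, z ∈ O → h z ≠ 0 :=
  have A := hh.analyticOnNhd hO
  ae_of_punct hO fun z hz => (A z hz).eventually_eq_zero_or_eventually_ne_zero.resolve_left
    fun b => h0 (A.eqOn_zero_of_preconnected_of_eventuallyEq_zero hc hz b ha)

lemma li (hO : IsOpen O) (hv : DifferentiableOn ℂ v O) {j : Fin n}
    (hj : ∀ᵐ z, z ∈ O → v z j ≠ 0) : LocallyIntegrableOn (fun z => Real.log (H4.sq (v z))) O := by
  have c1 : ContinuousOn (fun z => H4.sq (v z)) O := (R1.sq_cd hO hv).continuousOn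
  have l1 := H26.li_log hO (differentiableOn_pi.1 hv j)
  rw [locallyIntegrableOn_iff hO.isLocallyClosed] at l1 ⊢
  intro K h1 h2
  have i1 := ((l1 K h1 h2).abs.const_mul 2).add ((c1.mono h1).integrableOn_compact h2)
  refine i1.mono' (Real.measurable_log.comp_aemeasurable
    ((c1.mono h1).aemeasurable h2.measurableSet)).aestronglyMeasurable ?_
  rw [ae_restrict_iff' h2.measurableSet]
  filter_upwards [hj] with z hz hK
  have p0 : 0 < ‖v z j‖ := norm_pos_iff.2 (hz (h1 hK))
  have p1 : ‖v z j‖ ^ 2 ≤ H4.sq (v z) :=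
    Finset.single_le_sum (f := fun i => ‖v z i‖ ^ 2) (fun _ _ => by positivity) (Finset.mem_univ j)
  have p2 := Real.log_le_log (by positivity) p1
  rw [Real.log_pow] at p2
  have p3 := Real.log_le_self (R1.sq_nn (v z))
  have p4 := abs_nonneg (Real.log ‖v z j‖)
  have p5 := neg_abs_le (Real.log ‖v z j‖)
  have p6 := R1.sq_nn (v z)
  push_cast at p2
  simp only [Pi.add_apply, Real.norm_eq_abs]
  rw [abs_le]
  constructor <;> linarith

lemma mean (hO : IsOpen O) (hv : DifferentiableOn ℂ v O)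
    (hl : LocallyIntegrableOn (fun z => Real.log (H4.sq (v z))) O) {c : ℂ} (h0 : v c ≠ 0) {s : ℝ}
    (hs : 0 < s) (hc : closedBall c s ⊆ O) :
    Real.pi * s ^ 2 * Real.log (H4.sq (v c)) ≤ ∫ z in ball c s, Real.log (H4.sq (v z)) := by
  have d : DifferentiableOn ℂ (fun z => ip (v z) (v c)) O :=
    DifferentiableOn.fun_sum fun i _ => (differentiableOn_pi.1 hv i).mul_const _
  have q := R1.sq_pos' h0
  obtain ⟨l1, l2⟩ := H26.logSub O _ hO d
  obtain ⟨a, b⟩ := l2 c s hs hc (by rw [← R1.sq_ip]; exact_mod_cast q.ne')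
  rw [← R1.sq_ip, Complex.norm_real, Real.norm_of_nonneg q.le] at b
  have j : ∀ {f : ℂ → ℝ}, LocallyIntegrableOn f O → IntegrableOn f (ball c s) := fun h =>
    (h.integrableOn_compact_subset hc (isCompact_closedBall c s)).mono_set ball_subset_closedBall
  have j0 : IntegrableOn (fun _ : ℂ => Real.log (H4.sq (v c))) (ball c s) :=
    integrableOn_const measure_ball_lt_top.ne
  have := setIntegral_mono_on_ae ((j l1).const_mul 2) ((j hl).add j0) measurableSet_ball (by
    filter_upwards [a] with z hz hb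
    have p0 : 0 < ‖ip (v z) (v c)‖ := norm_pos_iff.2 (hz hb)
    have p1 := R1.cs (v c) (v z)
    have p2 : H4.sq (v z) ≠ 0 := fun e => by
      rw [e, mul_zero] at p1
      exact absurd p1 (not_le.2 (by positivity))
    have p3 := Real.log_le_log (by positivity) p1
    rw [Real.log_pow, Real.log_mul q.ne' p2] at p3
    push_cast at p3
    simp only [Pi.add_apply]
    linarith)
  simp only [Pi.add_apply] at this
  rw [integral_const_mul, integral_add (j hl) j0, setIntegral_const, H26.vol_ball c hs,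
    smul_eq_mul] at this
  linarith

/-- Entire functions of polynomial growth are polynomials. -/
lemma poly (m : ℕ) : ∀ (g : ℂ → ℂ) (A : ℝ), Differentiable ℂ g →
    (∀ w, 1 ≤ ‖w‖ → ‖g w‖ ≤ A * ‖w‖ ^ m) → ∃ p : Polynomial ℂ, ∀ w, g w = p.eval w := by
  induction m with
  | zero =>
    intro g A hg H
    obtain ⟨B, hB⟩ := (isCompact_closedBall (0 : ℂ) 1).exists_bound_of_continuousOn
      hg.continuous.continuousOn
    obtain ⟨c, hc⟩ := hg.exists_const_forall_eq_of_bounded (isBounded_iff_forall_norm_le.2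
      ⟨max A B, by
        rintro _ ⟨w, rfl⟩
        rcases le_total 1 ‖w‖ with a | a
        · exact le_max_of_le_left (by simpa using H w a)
        · exact le_max_of_le_right (hB w (mem_closedBall_zero_iff.2 a))⟩)
    exact ⟨.C c, fun w => by simp [hc]⟩
  | succ m ih =>
    intro g A hg H
    obtain ⟨p, hp⟩ := ih (dslope g 0) (A + ‖g 0‖) (differentiableOn_univ.1
      ((Complex.differentiableOn_dslope univ_mem).2 hg.differentiableOn)) fun w a => by
      have w0 : 0 < ‖w‖ := one_pos.trans_le a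
      have e := congrArg norm (sub_smul_dslope g 0 w)
      rw [sub_zero, norm_smul] at e
      have h1 := norm_sub_le (g w) (g 0)
      have h2 : 1 ≤ ‖w‖ ^ (m + 1) := one_le_pow₀ a
      refine le_of_mul_le_mul_left ?_ w0
      have h3 := mul_le_mul_of_nonneg_left h2 (norm_nonneg (g 0))
      have h4 := H w a
      rw [e, show ‖w‖ * ((A + ‖g 0‖) * ‖w‖ ^ m) = A * ‖w‖ ^ (m + 1) + ‖g 0‖ * ‖w‖ ^ (m + 1) by ring]
      linarith
    refine ⟨.C (g 0) + .X * p, fun w => ?_⟩
    have e := sub_smul_dslope g 0 w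
    rw [sub_zero, hp, smul_eq_mul] at e
    simp [e]

/-- Periodic entire functions of exponential type. -/
lemma laur {f : ℂ → ℂ} {N M : ℕ} {C : ℝ} (hf : Differentiable ℂ f) (hN : 0 < N) (hM : C ≤ M)
    (hp : ∀ t, f (t + N * (2 * Real.pi * Complex.I)) = f t)
    (hb : ∀ t, ‖f t‖ ≤ C * Real.exp (C * |t.re|)) :
    ∃ p : Polynomial ℂ, ∀ t, Complex.exp (M * t) * f t = p.eval (Complex.exp (t / N)) := by
  have N0 : (0 : ℝ) < N := by exact_mod_cast hN
  have N1 : (N : ℂ) ≠ 0 := by exact_mod_cast hN.ne'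
  have C0 : 0 ≤ C := nonneg_of_mul_nonneg_left ((norm_nonneg _).trans (hb 0)) (Real.exp_pos _)
  set F : ℂ → ℂ := fun τ => Complex.exp (M * (2 * Real.pi * Complex.I * τ)) *
    f (2 * Real.pi * Complex.I * τ) with hF
  have P : Function.Periodic F ((N : ℝ) : ℂ) := fun τ => by
    have e : 2 * Real.pi * Complex.I * (τ + ((N : ℝ) : ℂ)) =
        2 * Real.pi * Complex.I * τ + N * (2 * Real.pi * Complex.I) := by push_cast; ring
    simp only [hF, e, hp]
    rw [mul_add, Complex.exp_add, ← mul_assoc (M : ℂ) N, ← Nat.cast_mul,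
      Complex.exp_nat_mul_two_pi_mul_I, mul_one]
  have dF : Differentiable ℂ F := by rw [hF]; fun_prop
  have nb : ∀ t : ℂ, ‖Complex.exp (M * t) * f t‖ ≤ C * Real.exp (M * t.re + M * |t.re|) :=
    fun t => by
    rw [norm_mul, Complex.norm_exp, Real.exp_add, mul_left_comm]
    have : ((M : ℂ) * t).re = M * t.re := by simp
    rw [this]
    gcongr
    refine (hb t).trans ?_
    gcongr
  have bd : BoundedAtFilter (comap Complex.im atTop) F := by
    refine Asymptotics.IsBigO.of_bound C ?_
    filter_upwards [preimage_mem_comap (eventually_ge_atTop (0 : ℝ))] with τ hτ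
    refine (nb _).trans ?_
    have h1 : (2 * Real.pi * Complex.I * τ).re ≤ 0 := by
      have : (0 : ℝ) ≤ τ.im := hτ
      simp
      positivity
    rw [abs_of_nonpos h1]
    simp
  have key : ∀ t, Function.Periodic.cuspFunction N F (Complex.exp (t / N)) =
      Complex.exp (M * t) * f t := fun t => by
    have e : 2 * Real.pi * Complex.I * (t / (2 * Real.pi * Complex.I)) = t :=
      mul_div_cancel₀ _ Complex.two_pi_I_ne_zero
    have := Function.Periodic.eq_cuspFunction N0.ne' P (t / (2 * Real.pi * Complex.I))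
    simpa only [Function.Periodic.qParam, hF, e, Complex.ofReal_natCast] using this
  obtain ⟨p, h⟩ := poly (2 * M * N) (Function.Periodic.cuspFunction N F) C (fun q => by
    by_cases a : q = 0
    · exact a ▸ Function.Periodic.differentiableAt_cuspFunction_zero N0 P (.of_forall dF) bd
    · rw [← Function.Periodic.qParam_right_inv N0.ne' a]
      exact Function.Periodic.differentiableAt_cuspFunction N0.ne' P (dF _)) fun q a => by
    have q0 : q ≠ 0 := norm_pos_iff.1 (one_pos.trans_le a)
    have e : q = Complex.exp (N * Complex.log q / N) := by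
      rw [mul_div_cancel_left₀ _ N1, Complex.exp_log q0]
    have e1 : ((N : ℂ) * Complex.log q).re = N * Real.log ‖q‖ := by simp [Complex.log_re]
    have e2 : 0 ≤ (N : ℝ) * Real.log ‖q‖ := mul_nonneg N0.le (Real.log_nonneg a)
    conv_lhs => rw [e, key]
    refine (nb _).trans_eq ?_
    rw [e1, abs_of_nonneg e2, ← Real.exp_log (one_pos.trans_le a), ← Real.exp_nat_mul,
      Real.log_exp]
    congr 2
    push_cast
    ring
  exact ⟨p, fun t => by rw [← key, h]⟩

/-- Three polynomials in one variable satisfy a homogeneous relation. -/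
lemma rel (p : Fin 3 → Polynomial ℂ) : ∃ (R : PR 3) (e : ℕ), R.IsHomogeneous e ∧ R ≠ 0 ∧
    ∀ (y w : ℂ), eval (y • fun i => (p i).eval w) R = 0 := by
  let φ : PR 3 →ₐ[ℂ] PR 2 := aeval fun i => X 0 * Polynomial.aeval (X 1) (p i)
  have h : ¬Function.Injective φ := fun h => by
    have := trdeg_le_of_injective φ h
    simp only [MvPolynomial.trdeg_of_isDomain, Cardinal.mk_fin, Cardinal.lift_natCast,
      Nat.cast_le] at this
    omega
  rw [injective_iff_map_eq_zero] at h
  push Not at h
  obtain ⟨G, h1, h2⟩ := h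
  have h3 : ∀ y w : ℂ, eval (y • fun i => (p i).eval w) G = 0 := fun y w => by
    have := congrArg (aeval ![y, w] : PR 2 →ₐ[ℂ] ℂ) h1
    rw [map_zero, ← AlgHom.comp_apply, comp_aeval] at this
    rw [← this, ← aeval_eq_eval]
    congr 2
    ext i
    rw [map_mul, ← Polynomial.aeval_algHom_apply]
    simp
  obtain ⟨k, hk⟩ : ∃ k, homogeneousComponent k G ≠ 0 := by
    by_contra hn
    push Not at hn
    exact h2 (by rw [← sum_homogeneousComponent G]; simp [hn])
  refine ⟨_, k, homogeneousComponent_isHomogeneous k G, hk, fun y w => by_contra fun a => ?_⟩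
  obtain ⟨t, -, ht⟩ := exists_smul_ne a
  exact ht (by rw [smul_smul, h3])

end Sub

theorem sub : SubStmt := fun n O v hO hc hv ⟨a, ha, h0⟩ => by
  obtain ⟨j, hj⟩ := Function.ne_iff.1 h0
  have h1 := Sub.ae_ne hO hc (differentiableOn_pi.1 hv j) ha hj
  have h2 : ∀ᵐ z, z ∈ O → v z ≠ 0 := h1.mono fun z b hz e => b hz (by rw [e]; rfl)
  have h3 := Sub.li hO hv h1
  refine ⟨h2, h3, fun Φ t1 t2 => ?_⟩
  simpa using (H26.subMean O _ hO h3 (h2.mono fun c b hz s s1 s2 =>
    Sub.mean hO hv h3 (b hz) s1 s2)).2.2.2 Φ t1 t2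

theorem per : PerStmt := fun s N C hs hN hp hb => by
  obtain ⟨M, hM⟩ := exists_nat_ge C
  choose p h using fun i => Sub.laur (f := fun t => s t i) (differentiable_pi.1 hs i) hN hM
    (fun t => by rw [hp]) fun t => (norm_le_pi_norm _ i).trans (hb t)
  obtain ⟨R, e, h1, h2, h3⟩ := Sub.rel p
  refine ⟨R, e, h1, h2, fun t => ?_⟩
  rw [← h3 (Complex.exp (M * t))⁻¹ (Complex.exp (t / N))]
  congr 2
  ext i
  rw [Pi.smul_apply, ← h, smul_eq_mul, inv_mul_cancel_left₀ (Complex.exp_ne_zero _)]

end Pool.Agent.MP_c69980_ag.G2
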