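import Pool.Agent.MP_c69980_ag.G2.Main0
import Pool.Agent.MP_c69980_ag.G2.AlgX
import Pool.Agent.MP_c69980_ag.G2.Par
import Pool.Agent.MP_c69980_ag.G2.Sub
import Pool.Agent.MP_c69980_ag.G2.Grad
import Pool.Agent.MP_c69980_ag.G2.Bpt
import Pool.Agent.MP_c69980_ag.G2.Hyp
import Pool.Agent.MP_c69980_ag.G2.Bub
import Pool.Agent.MP_c69980_ag.G2.PL
import Pool.Agent.MP_c69980_ag.G2.Carl
import Pool.Agent.MP_c69980_ag.G2.Esc
import Pool.Agent.MP_c69980_ag.G2.Bd
import Pool.Agent.MP_c69980_ag.G2.Unif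
import Pool.Agent.MP_c69980_ag.G2.Exp
import Pool.Agent.MP_c69980_ag.G2.Hd
import Pool.Agent.MP_c69980_ag.G2.Sel
import Pool.Agent.MP_c69980_ag.G2.ND
import Pool.Agent.MP_c69980_ag.G2.Kob
import Pool.Agent.MP_c69980_ag.G2.GT
import Pool.Agent.MP_c69980_ag.G2.Pt

/-!
The complement of two plane curves: assembly.
-/

set_option autoImplicit false

namespace Pool.Agent.MP_c69980_ag.G2

theorem aHyp : HypStmt := hyp grad bpt (fib grad par) lowX mon

theorem aCpt : CptStmt := cpt aHyp grad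

theorem aBd : BdStmt := bd badX (esc aHyp bpt (bub bpt) carl lat) aCpt mon

theorem aUnif : UnifStmt := unif badX lowX lat aHyp grad (lin pl) aBd

/-- The set of entire sections is finite. -/
theorem aFin : FinStmt := fin aBd (exps aUnif (slp aUnif (slope pl)) divX par carl sub) mon

theorem aND : NDStmt :=
  nd badX nrm (cur aFin per aUnif aBd) (nda (hd aHyp lat) sel aHyp lat aCpt mon)
    (ndb (hd aHyp lat) aHyp lat)

end Pool.Agent.MP_c69980_ag.G2
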