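import Pool.Agent.MP_c69980_ag.G2.Base
import Pool.Agent.MP_c69980_ag.H4.MainB
import Pool.Agent.MP_c4d8e2_ag.H71.Log

/-!
The complement of two plane curves: assembly from the last four statements.
-/

set_option autoImplicit false

noncomputable section

namespace Pool.Agent.MP_c69980_ag.G2

open MvPolynomial Metric Filter Topology Set
open H60 H4

lemma form_ne {G T : PR 3} {e : ℕ} {K : Type} [Field K] [Algebra ℂ K] {z : Fin 3 → K}
    (hz : GenPt {p : PS 3 | eval p.rep G ≠ 0} z) (hG : G ≠ 0) {d : ℕ} (hd : G.IsHomogeneous d)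
    (hT : T.IsHomogeneous e) (h0 : T ≠ 0) : aeval z T ≠ 0 := fun q => by
  have h1 := (hz.1 T e hT).1 q
  have h2 : T * G * X 0 = 0 := MvPolynomial.funext fun y => by
    by_cases hy : y = 0
    · simp [hy]
    · have := (eval_mk ((hT.mul hd).mul (isHomogeneous_X ℂ 0)) hy).1 (by
        by_cases g : eval (Projectivization.mk ℂ y hy).rep G = 0
        · simp [g]
        · simp [h1 _ g])
      simpa using this
  exact mul_ne_zero (mul_ne_zero h0 hG) (X_ne_zero 0) h2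

lemma Pr.ne (D : Pr) : D.P * D.Q ≠ 0 := fun q => by
  refine D.tr (fun _ => 1) (fun e => one_ne_zero (congrFun e 0)) (by rw [← map_mul, q, map_zero]) ?_
  rcases mul_eq_zero.1 q with h | h
  · have : gd D.P (fun _ => 1) = 0 := funext fun i => by simp [gd, h]
    simp [this]
  · have : gd D.Q (fun _ => 1) = 0 := funext fun i => by simp [gd, h]
    simp [this]

theorem all5 (h1 : NDStmt) (h2 : KobStmt) (h3 : GTStmt) (h4 : PtStmt) (D : Pr) {K : Type}
    [Field K] [Algebra ℂ K] {z : Fin 3 → K} (hz : GenPt D.U z) :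
    PseudoKob D.U ∧ PseudoBrody D.U ∧ H43.PseudoFin D.U ∧ LogGT D.U z ∧ PseudoBdd D.U := by
  obtain ⟨T, e, t1, t2, t3⟩ := h1 D
  obtain ⟨g1, g2⟩ := h3 D K z hz
  have hG := D.hP.mul D.hQ
  have k1 := h2 3 D.U T e K z t1 (form_ne hz D.ne hG t1 t2) (fun q =>
    form_ne hz D.ne hG (isHomogeneous_X ℂ 0) (X_ne_zero 0) (by simp [q])) hz g1 g2 t3
  have k2 := brody_of_kob k1
  have hU : D.U = {P ∈ zcl D.U | eval P.rep (D.P * D.Q) ≠ 0} := by
    ext p
    exact ⟨fun h => ⟨fun Z hZ => hZ.2 h, h⟩, fun h => h.2⟩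
  have k5 := bdd_of_brody hG hU hz g1 g2 k2
  exact ⟨k1, k2, h4 _ _ _ K z hG (by have := D.d4; omega) D.ne rfl hz g1 g2 k2 k5, g2, k5⟩

/-- Smooth and transversal curves. -/
lemma tr_of {P Q : PR 3} {a b : ℕ} (hP : P.IsHomogeneous a) (hQ : Q.IsHomogeneous b) (ha : 0 < a)
    (hb : 0 < b) (sP : ∀ y : V3, y ≠ 0 → eval y P = 0 → gd P y ≠ 0)
    (sQ : ∀ y : V3, y ≠ 0 → eval y Q = 0 → gd Q y ≠ 0)
    (tr : ∀ y : V3, y ≠ 0 → eval y P = 0 → eval y Q = 0 → crossProduct (gd P y) (gd Q y) ≠ 0)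
    (y : V3) (hy : y ≠ 0) (h : eval y P * eval y Q = 0) : crossProduct (gd P y) (gd Q y) ≠ 0 :=
  fun q => by
  have e := cross_cross_eq_smul_sub_smul (gd P y) (gd Q y) y
  rw [q, euler hP, euler hQ, map_zero, LinearMap.zero_apply] at e
  by_cases h1 : eval y P = 0
  · by_cases h2 : eval y Q = 0
    · exact tr y hy h1 h2 q
    · rw [h1, mul_zero, zero_smul, zero_sub, eq_comm, neg_eq_zero, smul_eq_zero] at e
      exact e.elim (mul_ne_zero (Nat.cast_ne_zero.2 hb.ne') h2) (sP y hy h1)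
  · have h2 := (mul_eq_zero.1 h).resolve_left h1
    rw [h2, mul_zero, zero_smul, sub_zero, eq_comm, smul_eq_zero] at e
    exact e.elim (mul_ne_zero (Nat.cast_ne_zero.2 ha.ne') h1) (sQ y hy h2)

theorem tfae_of (h1 : NDStmt) (h2 : KobStmt) (h3 : GTStmt) (h4 : PtStmt) {P Q : PR 3} {a b : ℕ}
    (hP : P.IsHomogeneous a) (hQ : Q.IsHomogeneous b) (ha : 0 < a) (hb : 0 < b)
    (tr : ∀ y : V3, y ≠ 0 → eval y P * eval y Q = 0 → crossProduct (gd P y) (gd Q y) ≠ 0)
    {U : Set (PS 3)} (hU : U = {p | eval p.rep P ≠ 0 ∧ eval p.rep Q ≠ 0}) {K : Type} [Field K]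
    [Algebra ℂ K] {z : Fin 3 → K} (hz : GenPt U z) :
    List.TFAE [PseudoKob U, PseudoBrody U, H43.PseudoFin U, LogGT U z, PseudoBdd U, 4 ≤ a + b] := by
  by_cases h : 4 ≤ a + b
  · have : PseudoKob U ∧ PseudoBrody U ∧ H43.PseudoFin U ∧ LogGT U z ∧ PseudoBdd U := by
      rcases le_total b a with q | q
      · have e : U = (⟨P, Q, a, b, hP, hQ, hb, q, h, tr⟩ : Pr).U := by simp [hU, Pr.U]
        rw [e] at hz ⊢
        exact all5 h1 h2 h3 h4 _ hz
      · have e : U = (⟨Q, P, b, a, hQ, hP, ha, q, by omega, fun y hy r s => tr y hy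
            (by rwa [mul_comm]) (by rw [← cross_anticomm, s, neg_zero])⟩ : Pr).U := by
          simp [hU, Pr.U, and_comm]
        rw [e] at hz ⊢
        exact all5 h1 h2 h3 h4 _ hz
    obtain ⟨a1, a2, a3, a4, a5⟩ := this
    simpa [List.TFAE, a1, a2, a3, a4, a5, h] using fun x hx y hy => iff_of_true hx hy
  · obtain ⟨a1, a2, a3, a4, a5⟩ := MP_c4d8e2_ag.H71.log_conditions 2 0 (a + b) Fin.elim0 Fin.elim0
      (P * Q) le_rfl (fun j => j.elim0) (by omega) (by simp; omega) (fun j => j.elim0) (hP.mul hQ) U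
      (by simp [hU])
    have b1 : ¬PseudoKob U := a1
    have b2 : ¬PseudoBrody U := a2
    have b3 : ¬H43.PseudoFin U := a3
    have b4 : ¬LogGT U z := fun ⟨n', W, z', π, k, m, D, f, r⟩ =>
      a4 ⟨K, inferInstance, inferInstance, z, n', W, z', π, k, m, D, f, hz, r⟩
    have b5 : ¬PseudoBdd U := a5
    simpa [List.TFAE, b1, b2, b3, b4, b5, h] using fun x hx y hy => iff_of_false hx hy

end Pool.Agent.MP_c69980_ag.G2
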