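import Pool.Agent.MP_c69980_ag.H4.SpecB
import Pool.Agent.MP_c69980_ag.H43.Defs2

/-!
The complement of two plane curves: definitions and statements.
-/

set_option autoImplicit false

noncomputable section

namespace Pool.Agent.MP_c69980_ag.G2

open MvPolynomial Metric Filter Topology MeasureTheory Set
open scoped ContDiff ENNReal
open H60 H4

abbrev V3 : Type := Fin 3 → ℂ

/-- The gradient. -/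
def gd (P : PR 3) (y : V3) : V3 := fun i => eval y (pderiv i P)

/-- Two smooth transversal plane curves of degrees `a ≥ b ≥ 1`, `a + b ≥ 4`. -/
structure Pr where
  P : PR 3
  Q : PR 3
  a : ℕ
  b : ℕ
  hP : P.IsHomogeneous a
  hQ : Q.IsHomogeneous b
  b1 : 1 ≤ b
  ba : b ≤ a
  d4 : 4 ≤ a + b
  tr : ∀ y : V3, y ≠ 0 → eval y P * eval y Q = 0 → crossProduct (gd P y) (gd Q y) ≠ 0

/-- The vector field tangent to the fibres. -/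
def Pr.X (D : Pr) (y : V3) : V3 := crossProduct (gd D.P y) (gd D.Q y)

/-- The complement of the two curves. -/
def Pr.U (D : Pr) : Set (PS 3) := {p | eval p.rep (D.P * D.Q) ≠ 0}

/-- Normalised holomorphic maps. -/
def Nm (D : Pr) (O : Set ℂ) (F : ℂ → V3) (h : ℂ → ℂ) : Prop :=
  DifferentiableOn ℂ F O ∧ DifferentiableOn ℂ h O ∧
    ∀ z ∈ O, eval (F z) D.P = 1 ∧ eval (F z) D.Q = Complex.exp (h z)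

/-- Entire sections. -/
def Sec (D : Pr) : Set (ℂ → V3) :=
  {s | Differentiable ℂ s ∧ ∀ t, eval (s t) D.P = 1 ∧ eval (s t) D.Q = Complex.exp t}

/-- `B` contains the critical values. -/
def Bad (D : Pr) (B : Finset ℂ) : Prop :=
  B.Nonempty ∧ 0 ∉ B ∧ ∀ y : V3, eval y D.P = 1 → D.X y = 0 → eval y D.Q ∈ B

def Far (B : Finset ℂ) (η : ℝ) (c : ℂ) : Prop := ∀ β ∈ B, η ≤ ‖c - β‖

/-- `t` is at distance at least `r` from the logarithms of the elements of `B`. -/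
def Off (B : Finset ℂ) (r : ℝ) (t : ℂ) : Prop := ∀ t₀, Complex.exp t₀ ∈ B → r ≤ ‖t - t₀‖

/-- The logarithm of the squared norm. -/
def LL (s : ℂ → V3) (t : ℂ) : ℝ := Real.log (H4.sq (s t))

/-! ### Row A: algebra -/

def BadStmt : Prop := ∀ D : Pr, ∃ B, Bad D B

def LowStmt : Prop := ∀ D : Pr,
  (∃ c : ℝ, 0 < c ∧ ∀ y : V3, eval y D.P * eval y D.Q = 0 → c * ‖y‖ ^ (D.a + D.b - 2) ≤ ‖D.X y‖) ∧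
  ∀ (B : Finset ℂ) (η : ℝ), Bad D B → 0 < η → ∃ c : ℝ, 0 < c ∧ ∀ y : V3, eval y D.P = 1 →
    Far B η (eval y D.Q) → c * ‖y‖ ^ (D.a + D.b - 2) ≤ ‖D.X y‖

/-- Divided differences. -/
def DivStmt : Prop := ∀ D : Pr, ∃ (W : V3 × V3 → V3) (C : ℝ), Differentiable ℂ W ∧ 0 < C ∧
  (∀ y y' : V3, eval y D.P = eval y' D.P → eval y D.Q = eval y' D.Q →
    crossProduct (y - y') (W (y, y')) = 0) ∧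
  (∀ y : V3, ‖D.X y‖ ≤ C * ‖y‖ ^ (D.a + D.b - 2)) ∧
  ∀ (y y' : V3) (δ : ℝ), 0 ≤ δ → δ ≤ 1 → ‖y - y'‖ ≤ δ * ‖y‖ →
    ‖W (y, y') - D.X y‖ ≤ C * δ * ‖y‖ ^ (D.a + D.b - 2)

/-- Parallel holomorphic vector functions. -/
def ParStmt : Prop := ∀ (O : Set ℂ) (A W : ℂ → V3), IsOpen O → DifferentiableOn ℂ A O →
  DifferentiableOn ℂ W O → (∀ z ∈ O, W z ≠ 0 ∧ crossProduct (A z) (W z) = 0) →
  ∃ μ : ℂ → ℂ, DifferentiableOn ℂ μ O ∧ ∀ z ∈ O, A z = μ z • W z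

/-- The logarithms of a finite set. -/
def LatStmt : Prop := ∀ B : Finset ℂ, 0 ∉ B →
  (∃ r : ℝ, 0 < r ∧ ∀ t t' : ℂ, Complex.exp t ∈ B → Complex.exp t' ∈ B → t ≠ t' → r ≤ ‖t - t'‖) ∧
  (∀ r : ℝ, 0 < r → ∃ η : ℝ, 0 < η ∧ ∀ t, Off B r t → Far B η (Complex.exp t)) ∧
  (∃ x : ℝ, 0 ≤ x ∧ ∀ t : ℂ, x ≤ |t.re| → Off B 1 t) ∧
  ∀ η A : ℝ, 0 < η → ∃ η' : ℝ, 0 < η' ∧ ∀ t t' : ℂ, |t.re| ≤ A → Far B η (Complex.exp t) →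
    ‖t' - t‖ ≤ η' → Far B (η / 2) (Complex.exp t')

/-- Lifts of discs in the complement can be normalised. -/
def NrmStmt : Prop := ∀ (D : Pr) (F : ℂ → V3) (c : ℂ) (r : ℝ), DifferentiableOn ℂ F (ball c r) →
  (∀ z ∈ ball c r, eval (F z) (D.P * D.Q) ≠ 0) → ∃ (φ h : ℂ → ℂ),
    Nm D (ball c r) (fun z => φ z • F z) h ∧
      ∀ z ∈ ball c r, φ z ≠ 0 ∧ lam (fun z => φ z • F z) z = lam F z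

/-! ### Row B: gradient estimate, base points, fibres -/

def GradStmt : Prop := ∀ m A : ℝ, 0 < m → ∃ θ C : ℝ, 0 < θ ∧ θ ≤ 1 / 2 ∧ 0 < C ∧
  ∀ (F : ℂ → V3) (c : ℂ) (r : ℝ), 0 < r → DifferentiableOn ℂ F (ball c r) →
    (∀ z ∈ ball c r, m ≤ ‖F z‖ ∧ lam F z * r ^ 2 ≤ A) → ∀ z ∈ closedBall c (θ * r),
      1 ≤ Real.log ‖F z‖ + C ∧ Real.log ‖F z‖ + C ≤ 3 * (Real.log ‖F c‖ + C) ∧
      Real.log ‖F c‖ + C ≤ 3 * (Real.log ‖F z‖ + C) ∧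
      ‖deriv F z‖ * r ≤ C * ‖F z‖ * (Real.log ‖F c‖ + C)

def BptStmt : Prop := ∀ (D : Pr) (ε A : ℝ), 0 < ε → ∃ ν : ℝ, 0 < ν ∧
  ∀ (F : ℂ → V3) (c : ℂ) (r : ℝ), 0 < r → DifferentiableOn ℂ F (ball c r) →
    (∀ z ∈ ball c r, eval (F z) D.P ≠ 0 ∧ eval (F z) D.Q ≠ 0 ∧ lam F z * r ^ 2 ≤ A) →
    ‖eval (F c) D.P‖ ≤ ν * ‖F c‖ ^ D.a → ‖eval (F c) D.Q‖ ≤ ν * ‖F c‖ ^ D.b → lam F c * r ^ 2 ≤ ε

def FibStmt : Prop := ∀ (D : Pr) (g : ℂ → V3) (c₁ c₂ : ℂ) (m c A : ℝ), Differentiable ℂ g →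
  0 < m → 0 < c → (∀ z, eval (g z) D.P = c₁ ∧ eval (g z) D.Q = c₂ ∧ m ≤ ‖g z‖ ∧
    c * ‖g z‖ ^ (D.a + D.b - 2) ≤ ‖D.X (g z)‖ ∧ lam g z ≤ A) → ∀ z, deriv g z = 0

/-! ### Row C: hyperbolicity away from the bad fibres; compactness -/

def HypStmt : Prop := ∀ (D : Pr) (B : Finset ℂ) (η : ℝ), Bad D B → 0 < η → ∃ A : ℝ, 0 < A ∧
  ∀ (F : ℂ → V3) (h : ℂ → ℂ) (c : ℂ) (r : ℝ), 0 < r → Nm D (ball c r) F h →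
    (∀ z ∈ ball c r, Far B η (Complex.exp (h z))) → lam F c * r ^ 2 ≤ A

def CptStmt : Prop := ∀ (D : Pr) (B : Finset ℂ) (l : Filter ℕ) (F : ℕ → ℂ → V3) (h : ℕ → ℂ → ℂ)
  (R : ℕ → ℝ) (w : ℕ → ℂ) (t₀ c w₀ : ℂ) (A : ℝ), Bad D B → Tendsto R l atTop →
  (∀ᶠ k in l, Nm D (ball 0 (R k)) (F k) (h k)) → c ≠ 0 →
  TendstoLocallyUniformly h (fun z => t₀ + c * z) l → Tendsto w l (𝓝 w₀) →
  Complex.exp (t₀ + c * w₀) ∉ B → (∀ᶠ k in l, ‖F k (w k)‖ ≤ A) →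
  ∀ ρ : ℝ, ∃ A' : ℝ, ∀ᶠ k in l, ∀ z ∈ ball (0 : ℂ) ρ, ‖F k z‖ ≤ A'

/-- Montel's theorem along an ultrafilter. -/
def MonStmt : Prop := ∀ (u : Ultrafilter ℕ) (F : ℕ → ℂ → V3),
  (∀ ρ : ℝ, ∃ A : ℝ, ∀ᶠ k in u, DifferentiableOn ℂ (F k) (ball 0 ρ) ∧
    ∀ z ∈ ball (0 : ℂ) ρ, ‖F k z‖ ≤ A) →
  ∃ G : ℂ → V3, Differentiable ℂ G ∧ TendstoLocallyUniformly F G u ∧
    (∀ z, Tendsto (fun k => lam (F k) z) u (𝓝 (lam G z)) ∨ G z = 0) ∧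
    ∀ (w : ℕ → ℂ) (w₀ : ℂ), Tendsto w u (𝓝 w₀) → Tendsto (fun k => F k (w k)) u (𝓝 (G w₀))

/-! ### Row D: no bubbles at the base points -/

def BubStmt : Prop := ∀ (D : Pr) (t₀ : ℂ) (A ε r : ℝ), 0 < ε → 0 < r → r * D.a ≤ 1 → ∃ N : ℝ,
  ∀ s : ℂ → V3, Nm D (ball t₀ (2 * r)) s id →
    (∀ t ∈ ball t₀ (2 * r), r / 4 < ‖t - t₀‖ → lam s t ≤ A ∧ N ≤ ‖s t‖) →
    ∀ t ∈ ball t₀ r, lam s t ≤ ε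

/-! ### Row E: half-planes -/

/-- Phragmen-Lindelof for smooth subharmonic functions bounded above. -/
def PLStmt : Prop := ∀ (O : Set ℂ) (w : ℂ → ℝ) (A : ℝ), IsOpen O → (∀ z ∈ O, 0 < z.re) →
  ContinuousOn w (closure O) → ContDiffOn ℝ 2 w O → (∀ z ∈ O, 0 ≤ lap w z ∧ w z ≤ A) →
  (∀ z ∈ frontier O, w z ≤ 0) → ∀ z ∈ O, w z ≤ 0

def SlopeStmt : Prop := ∀ (b : ℂ → ℝ) (A Λ κ : ℝ) (t₁ : ℂ), ContDiff ℝ 2 b → 0 ≤ A →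
  (∀ z : ℂ, 0 < z.re → |lap b z| ≤ A / (1 + z.re) ^ 2) → (∀ z : ℂ, z.re = 0 → |b z| ≤ A) →
  (∀ z w : ℂ, 0 ≤ z.re → 0 ≤ w.re → |b z - b w| ≤ Λ * ‖z - w‖) → 0 < t₁.re →
  b t₁ + A + A * Real.log (1 + t₁.re) < κ * t₁.re →
  ∃ C : ℝ, ∀ z : ℂ, 0 ≤ z.re → b z ≤ κ * z.re + C

def LinStmt : Prop := ∀ (u : ℂ → ℝ) (A θ : ℝ), ContDiff ℝ 2 u → 0 ≤ A → 0 < θ → θ ≤ 1 / 2 →
  (∀ z : ℂ, 0 ≤ z.re → 0 ≤ u z) → (∀ z : ℂ, 0 < z.re → lap u z ≤ A / (1 + z.re) ^ 2) →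
  (∀ z : ℂ, 0 ≤ z.re → z.re ≤ 2 → u z ≤ A) →
  (∀ c : ℂ, 2 ≤ c.re → ∀ z ∈ closedBall c (θ * c.re), u c ≤ A * (1 + u z)) →
  ∃ C : ℝ, ∀ z : ℂ, 0 ≤ z.re → u z ≤ C * (1 + z.re)

/-! ### Row F: the Carleman argument -/

def CarlStmt : Prop := ∃ (χ : ℝ → ℝ) (C : ℝ), ContDiff ℝ ∞ χ ∧ (∀ x, 0 ≤ χ x ∧ χ x ≤ 1) ∧
  (∀ x, |x| ≤ 1 / 2 → χ x = 1) ∧ (∀ x, 3 / 4 ≤ |x| → χ x = 0) ∧ 0 ≤ C ∧
  ∀ (σ : ℝ) (K : ℂ → ℝ) (e : ℝ → ℝ) (c A M : ℝ), σ = 1 ∨ σ = -1 → LocallyIntegrable K →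
    (∀ᵐ z : ℂ, 0 < σ * z.im → K z ≤ 0) → Integrable e → (∀ x, 0 ≤ e x) → 0 ≤ A → 1 ≤ M →
    (∫ x, e x) + A * C / M < c →
    (∀ Φ : ℂ → ℝ, Test {z | 0 < σ * z.im} Φ → (∀ z, 0 ≤ Φ z) →
      c * (∫ z in {z : ℂ | |z.re| ≤ 1}, Φ z) - (∫ z : ℂ, e z.re * Φ z) -
        A * (∫ z : ℂ, |lap (fun w : ℂ => χ (w.re / M) * Φ w) z|) ≤ ∫ z, K z * lap Φ z) → False

/-- The logarithm of the norm of a holomorphic vector function is subharmonic. -/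
def SubStmt : Prop := ∀ (n : ℕ) (O : Set ℂ) (v : ℂ → Fin n → ℂ), IsOpen O → IsPreconnected O →
  DifferentiableOn ℂ v O → (∃ z ∈ O, v z ≠ 0) →
  (∀ᵐ z, z ∈ O → v z ≠ 0) ∧ LocallyIntegrableOn (fun z => Real.log (H4.sq (v z))) O ∧
    ∀ Φ, Test O Φ → (∀ z, 0 ≤ Φ z) → 0 ≤ ∫ z, Real.log (H4.sq (v z)) * lap Φ z

/-! ### Row G: sections are bounded on strips -/

def EscStmt : Prop := ∀ (D : Pr) (B : Finset ℂ), Bad D B → ∃ r M N : ℝ, 0 < r ∧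
  ∀ s ∈ Sec D, ∀ σ y₀ : ℝ, σ = 1 ∨ σ = -1 →
    ∃ t : ℂ, |t.re| ≤ M ∧ y₀ < σ * t.im ∧ Off B r t ∧ ‖s t‖ < N

def BdStmt : Prop := ∀ (D : Pr) (M : ℝ), ∃ A : ℝ, ∀ s ∈ Sec D, ∀ t : ℂ, |t.re| ≤ M → ‖s t‖ ≤ A

/-! ### Row H: expansivity -/

/-- Uniform estimates for sections. -/
def UnifStmt : Prop := ∀ D : Pr, ∃ x A c : ℝ, 1 ≤ x ∧ 0 < A ∧ 0 < c ∧ ∀ s ∈ Sec D,
  (∀ t : ℂ, x ≤ |t.re| → lam s t ≤ A / (1 + |t.re| - x) ^ 2) ∧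
  (∀ t : ℂ, c * ‖s t‖ ^ (D.a + D.b - 2) ≤ ‖D.X (s t)‖) ∧ (∀ t : ℂ, |t.re| ≤ 1 → c ≤ lam s t) ∧
  (∀ t : ℂ, |t.re| = x → |LL s t| ≤ A) ∧
  ∃ Λ : ℝ, ∀ t t' : ℂ, |LL s t - LL s t'| ≤ Λ * ‖t - t'‖

def SlpStmt : Prop := ∀ (D : Pr) (ε : ℝ), 0 < ε → ∃ M₀ : ℝ, ∀ s ∈ Sec D, ∀ s' ∈ Sec D,
  ∀ t₁ t₂ : ℂ, M₀ ≤ t₁.re → t₂.re ≤ -M₀ → LL s' t₁ - LL s t₁ ≤ 10 → LL s' t₂ - LL s t₂ ≤ 10 →
    ∃ C : ℝ, ∀ t : ℂ, LL s' t - LL s t ≤ ε * |t.re| + C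

def ExpStmt : Prop := ∀ D : Pr, ∃ M δ : ℝ, 0 < δ ∧ ∀ s ∈ Sec D, ∀ s' ∈ Sec D, ∀ σ y₀ : ℝ,
  σ = 1 ∨ σ = -1 → (∀ t : ℂ, |t.re| ≤ M → y₀ < σ * t.im → ‖s t - s' t‖ ≤ δ * ‖s t‖) → s = s'

/-! ### Row I: finiteness and algebraicity -/

def FinStmt : Prop := ∀ D : Pr, (Sec D).Finite

def PerStmt : Prop := ∀ (s : ℂ → V3) (N : ℕ) (C : ℝ), Differentiable ℂ s → 0 < N →
  (∀ t, s (t + N * (2 * Real.pi * Complex.I)) = s t) →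
  (∀ t, ‖s t‖ ≤ C * Real.exp (C * |t.re|)) →
  ∃ (R : PR 3) (e : ℕ), R.IsHomogeneous e ∧ R ≠ 0 ∧ ∀ t, eval (s t) R = 0

def CurStmt : Prop := ∀ D : Pr, ∃ (R : PR 3) (e : ℕ), R.IsHomogeneous e ∧ R ≠ 0 ∧
  ∀ s ∈ Sec D, ∀ t, eval (s t) R = 0

/-! ### Row J: charged sequences of discs -/

def HdStmt : Prop := ∀ (D : Pr) (B : Finset ℂ) (η A : ℝ), Bad D B → 0 < η → ∃ C : ℝ, 0 < C ∧
  ∀ (F : ℂ → V3) (h : ℂ → ℂ) (c : ℂ) (ρ m : ℝ), 0 < ρ → 1 ≤ m → Nm D (ball c ρ) F h →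
    ‖F c‖ ≤ A → |(h c).re| ≤ A → Far B η (Complex.exp (h c)) →
    mu (lam F) (ball c ρ) ≤ ENNReal.ofReal m → ∀ z ∈ ball c (ρ / 8), ‖deriv h z‖ * ρ ≤ C * m ^ 2

/-- Selection of a scale at which `h` is almost linear. -/
def SelStmt : Prop := ∀ (ν : ℕ → ℂ → ℝ) (h : ℕ → ℂ → ℂ) (S : ℕ → Set ℂ) (m : ℕ → ℝ) (η A : ℝ),
  0 < η → Tendsto m atTop atTop →
  (∀ᶠ k in atTop, DifferentiableOn ℂ (h k) (ball 0 4) ∧ S k ⊆ ball 0 1 ∧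
    ENNReal.ofReal (m k) ≤ mu (ν k) (S k) ∧ (∀ z ∈ ball (0 : ℂ) 4, ‖deriv (h k) z‖ ≤ A * m k ^ 2) ∧
    ∀ z ∈ S k, ∀ r : ℝ, 0 < r → r ≤ 1 → (∀ w ∈ ball z r, ‖h k w - h k z‖ ≤ η) →
      ∀ w ∈ ball z (r / 2), ν k w * r ^ 2 ≤ A) →
  ∀ u : Ultrafilter ℕ, (u : Filter ℕ) ≤ atTop → ∃ (z : ℕ → ℂ) (ρ : ℕ → ℝ) (c : ℂ), c ≠ 0 ∧
    (∀ᶠ k in u, z k ∈ S k) ∧ (∀ k, 0 < ρ k) ∧ Tendsto ρ u (𝓝 0) ∧
    TendstoLocallyUniformly (fun k w => h k (z k + ρ k * w) - h k (z k)) (fun w => c * w) u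

/-- A normalised sequence of discs with marked sets that stay in a compact set. -/
def NSq (D : Pr) (B : Finset ℂ) (η A : ℝ) (F : ℕ → ℂ → V3) (h : ℕ → ℂ → ℂ) (R : ℕ → ℝ)
    (S : ℕ → Set ℂ) : Prop :=
  Tendsto R atTop atTop ∧ ∀ k, Nm D (ball 0 (R k)) (F k) (h k) ∧ S k ⊆ ball 0 1 ∧ 1 ≤ R k ∧
    ∀ z ∈ S k, ‖F k z‖ ≤ A ∧ |(h k z).re| ≤ A ∧ Far B η (Complex.exp (h k z))

def NDAStmt : Prop := ∀ (D : Pr) (B : Finset ℂ) (η A Λ : ℝ) (F : ℕ → ℂ → V3) (h : ℕ → ℂ → ℂ)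
  (R : ℕ → ℝ) (S : ℕ → Set ℂ) (m : ℕ → ℝ), Bad D B → 0 < η → NSq D B η A F h R S →
  Tendsto m atTop atTop → (∀ᶠ k in atTop, ENNReal.ofReal (m k) ≤ mu (lam (F k)) (S k) ∧
    mu (lam (F k)) (ball 0 64) ≤ ENNReal.ofReal (Λ * m k)) →
  ∃ s ∈ Sec D, ∃ t, s t ∈ closure {y | ∃ k, ∃ z ∈ S k, y = F k z}

def NDBStmt : Prop := ∀ (D : Pr) (B : Finset ℂ) (η A Λ ε : ℝ) (F : ℕ → ℂ → V3) (h : ℕ → ℂ → ℂ)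
  (R : ℕ → ℝ) (S : ℕ → Set ℂ), Bad D B → 0 < η → 0 < ε → NSq D B η A F h R S →
  (∀ k, MeasurableSet (S k) ∧ ENNReal.ofReal ε ≤ mu (lam (F k)) (S k)) →
  (∀ j : ℕ, ∃ᶠ k in atTop,
    mu (lam (F k)) (ball 0 (Real.exp (3 * j))) ≤ ENNReal.ofReal (Λ * 2 ^ j)) → False

/-- The alternative given by the selection of balls. -/
def Alt (ν : ℕ → ℂ → ℝ) (S : ℕ → Set ℂ) : Prop :=
  (Tendsto (fun k => mu (ν k) (S k)) atTop (𝓝 ⊤) ∧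
    ∃ Λ : ℝ, ∀ᶠ k in atTop, mu (ν k) (ball 0 64) ≤ ENNReal.ofReal Λ * mu (ν k) (S k)) ∨
  ∃ Λ : ℝ, ∀ j : ℕ, ∀ᶠ k in atTop,
    mu (ν k) (ball 0 (Real.exp (3 * j))) ≤ ENNReal.ofReal (Λ * 2 ^ j) * mu (ν k) (S k)

/-- No sequence of discs in `U` charges a compact set outside `T = 0`. -/
def NoChg {n : ℕ} (U : Set (PS n)) (T : PR n) : Prop :=
  ∀ (A : PR n) (e : ℕ) (c ε : ℝ) (F : ℕ → ℂ → Fin n → ℂ) (R : ℕ → ℝ) (S : ℕ → Set ℂ),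
    A.IsHomogeneous e → T ∣ A → 0 < c → 0 < ε → Tendsto R atTop atTop →
    (∀ k, 1 ≤ R k ∧ Dk U 0 (R k) (F k) ∧ MeasurableSet (S k) ∧ S k ⊆ ball 0 1 ∧
      ENNReal.ofReal ε ≤ mu (lam (F k)) (S k) ∧ ∀ z ∈ S k, c * ‖F k z‖ ^ e ≤ ‖eval (F k z) A‖) →
    ¬Alt (fun k => lam (F k)) S

def NDStmt : Prop := ∀ D : Pr, ∃ (T : PR 3) (e : ℕ), T.IsHomogeneous e ∧ T ≠ 0 ∧ NoChg D.U T

/-! ### Row K: the tautological inequality -/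

def KobStmt : Prop := ∀ (n : ℕ) (U : Set (PS n)) (T : PR n) (e : ℕ) (K : Type) [Field K]
  [Algebra ℂ K] (z : Fin n → K), T.IsHomogeneous e → aeval z T ≠ 0 → z ≠ 0 → GenPt U z →
  Algebra.trdeg ℂ K = 2 → LogGT U z → NoChg U T → PseudoKob U

/-! ### Row L: log-general type -/

def GTStmt : Prop := ∀ (D : Pr) (K : Type) [Field K] [Algebra ℂ K] (z : Fin 3 → K), GenPt D.U z →
  Algebra.trdeg ℂ K = 2 ∧ LogGT D.U z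

/-! ### Row M: pointed maps -/

def PtStmt : Prop := ∀ (G : PR 3) (d : ℕ) (U : Set (PS 3)) (K : Type) [Field K] [Algebra ℂ K]
  (z : Fin 3 → K), G.IsHomogeneous d → 0 < d → G ≠ 0 → U = {p | eval p.rep G ≠ 0} → GenPt U z →
  Algebra.trdeg ℂ K = 2 → LogGT U z → PseudoBrody U → PseudoBdd U → H43.PseudoFin U

end Pool.Agent.MP_c69980_ag.G2
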