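import Pool.Agent.MP_c69980_ag.G2.Base

/-!
Uniform estimates for sections, and the slope of the difference of two logarithmic norms.
-/

set_option autoImplicit false

noncomputable section

namespace Pool.Agent.MP_c69980_ag.G2

open MvPolynomial Metric Filter Topology MeasureTheory Set
open scoped ContDiff
open H60 H4

namespace Unif

lemma lap_addc (f : ℂ → ℝ) (c : ℝ) : lap (fun w => f w + c) = lap f := by
  have h : ∀ v, H4.D v (fun w => f w + c) = H4.D v f := fun v => by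
    funext z; simp only [H4.D, fderiv_add_const]
  funext z; simp only [lap, h]

lemma lap_neg (f : ℂ → ℝ) (z : ℂ) : lap (fun w => -f w) z = -lap f z := by
  have h : ∀ (v : ℂ) (g : ℂ → ℝ), H4.D v (fun w => -g w) = fun z => -H4.D v g z := fun v g => by
    funext z; simp only [H4.D, fderiv_fun_neg]; rfl
  simp only [lap, h]; ring

lemma lap_sub {f g : ℂ → ℝ} (hf : ContDiff ℝ 2 f) (hg : ContDiff ℝ 2 g) (z : ℂ) :
    lap (fun w => f w - g w) z = lap f z - lap g z := by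
  simp only [sub_eq_add_neg]
  rw [(R1.lapRule f (fun w => -g w) id z hf.contDiffAt hg.neg.contDiffAt contDiffAt_id).1, lap_neg]

lemma sq_le (y : V3) : H4.sq y ≤ 3 * ‖y‖ ^ 2 := by
  have h := fun i => pow_le_pow_left₀ (norm_nonneg _) (norm_le_pi_norm y i) 2
  rw [H4.sq, Fin.sum_univ_three]
  linarith [h 0, h 1, h 2]

lemma LL_cd {F : ℂ → V3} (hF : Differentiable ℂ F) (h0 : ∀ z, F z ≠ 0) :
    ContDiff ℝ 2 (LL F) ∧ ∀ z, lap (LL F) z = 4 * lam F z := by
  obtain ⟨a, -, c⟩ := R1.lapQ 3 univ F isOpen_univ ⟨hF.differentiableOn, fun z _ => h0 z⟩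
  exact ⟨(contDiffOn_univ.1 a).of_le (by norm_cast), fun t => c t trivial⟩

lemma LL_bd {y : V3} (hy : y ≠ 0) :
    2 * Real.log ‖y‖ ≤ Real.log (H4.sq y) ∧ Real.log (H4.sq y) ≤ 2 + 2 * Real.log ‖y‖ := by
  have h0 : 0 < ‖y‖ := norm_pos_iff.2 hy
  have h1 := Real.log_le_log (by positivity) (R1.norm_sq_le y)
  have h2 := Real.log_le_log (R1.sq_pos' hy) (sq_le y)
  have h3 := Real.log_le_sub_one_of_pos (show (0 : ℝ) < 3 by norm_num)
  rw [Real.log_mul (by norm_num) (by positivity)] at h2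
  rw [Real.log_pow] at h1 h2
  push_cast at h1 h2
  exact ⟨h1, by linarith⟩

lemma lip {F : ℂ → V3} {Λ : ℝ} (hF : Differentiable ℂ F) (h0 : ∀ z, F z ≠ 0) (hΛ : 0 ≤ Λ)
    (h : ∀ z, ‖deriv F z‖ ≤ Λ * ‖F z‖) (t t' : ℂ) : |LL F t - LL F t'| ≤ 4 * Λ * ‖t - t'‖ := by
  have hd := (LL_cd hF h0).1.differentiable (by norm_num)
  refine convex_univ.norm_image_sub_le_of_norm_fderiv_le (𝕜 := ℝ) (f := LL F)
    (fun z _ => hd z) (fun z _ => ?_) (mem_univ t') (mem_univ t)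
  refine ContinuousLinearMap.opNorm_le_bound _ (by positivity) fun v => ?_
  have p := R1.sq_pos' (h0 z)
  have c2 : DifferentiableAt ℝ (fun z => H4.sq (F z)) z :=
    (contDiffOn_univ.1 (R1.sq_cd isOpen_univ hF.differentiableOn)).differentiable (by simp) z
  have e : fderiv ℝ (LL F) z v = (H4.sq (F z))⁻¹ * (2 * (ip (v • deriv F z) (F z)).re) := by
    have := R1.D_comp (Θ := Real.log) (Real.differentiableAt_log p.ne') c2 v
    rw [R1.D_sq (hF z).hasDerivAt, Real.deriv_log] at this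
    exact this
  have k1 := R1.cs (F z) (v • deriv F z)
  rw [R1.sq_smul] at k1
  have k2 : H4.sq (deriv F z) ≤ 4 * Λ ^ 2 * H4.sq (F z) := by
    have a := pow_le_pow_left₀ (norm_nonneg _) (h z) 2
    have b := mul_le_mul_of_nonneg_left (R1.norm_sq_le (F z)) (sq_nonneg Λ)
    have c := mul_nonneg (sq_nonneg Λ) p.le
    rw [mul_pow] at a
    linarith [sq_le (deriv F z)]
  have k3 : ‖ip (v • deriv F z) (F z)‖ ≤ 2 * Λ * ‖v‖ * H4.sq (F z) := by
    refine (pow_le_pow_iff_left₀ (norm_nonneg _) (by positivity) two_ne_zero).1 ?_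
    refine k1.trans ((mul_le_mul_of_nonneg_left (mul_le_mul_of_nonneg_left k2 (sq_nonneg _))
      p.le).trans_eq ?_)
    ring
  rw [e, Real.norm_eq_abs, abs_mul, abs_mul, abs_of_pos (inv_pos.2 p), abs_two,
    inv_mul_le_iff₀ p]
  have := (Complex.abs_re_le_norm _).trans k3
  nlinarith

lemma triple (u v w : V3) : ‖crossProduct u v ⬝ᵥ w‖ ≤ 6 * (‖u‖ * ‖v‖ * ‖w‖) := by
  have h : ∀ i j k, ‖u i * v j * w k‖ ≤ ‖u‖ * ‖v‖ * ‖w‖ := fun i j k => by
    rw [norm_mul, norm_mul]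
    gcongr <;> exact norm_le_pi_norm _ _
  have e : crossProduct u v ⬝ᵥ w = u 1 * v 2 * w 0 - u 2 * v 1 * w 0 +
      (u 2 * v 0 * w 1 - u 0 * v 2 * w 1) + (u 0 * v 1 * w 2 - u 1 * v 0 * w 2) := by
    simp [cross_apply, dotProduct, Fin.sum_univ_three]
    ring
  rw [e]
  refine (norm_add₃_le.trans (add_le_add (add_le_add (norm_sub_le _ _) (norm_sub_le _ _))
    (norm_sub_le _ _))).trans ?_
  linarith [h 1 2 0, h 2 1 0, h 2 0 1, h 0 2 1, h 0 1 2, h 1 0 2]

lemma re_near {z c : ℂ} {r : ℝ} (h : ‖z - c‖ ≤ r) : |z.re - c.re| ≤ r := by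
  rw [← Complex.sub_re]; exact (Complex.abs_re_le_norm _).trans h

lemma cauchy {F : ℂ → V3} {M A : ℝ} (hF : Differentiable ℂ F)
    (h : ∀ z : ℂ, |z.re| ≤ M + 1 → ‖F z‖ ≤ A) {t : ℂ} (ht : |t.re| ≤ M) : ‖deriv F t‖ ≤ A := by
  have := Complex.norm_deriv_le_of_forall_mem_sphere_norm_le (c := t) (C := A) one_pos
    hF.diffContOnCl fun z hz => h z (by
      have h1 := abs_le.1 (re_near (mem_sphere_iff_norm.1 hz).le)
      have h2 := abs_le.1 ht
      exact abs_le.2 ⟨by linarith, by linarith⟩)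
  rwa [div_one] at this

/-- The curve seen from one of the two half-planes. -/
def rf (σ x : ℝ) (s : ℂ → V3) : ℂ → V3 := fun z => s (σ * (x + z))

lemma rf_diff (σ x : ℝ) {s : ℂ → V3} (h : Differentiable ℂ s) : Differentiable ℂ (rf σ x s) :=
  h.comp (by fun_prop)

lemma norm_sg {σ : ℝ} (hσ : σ = 1 ∨ σ = -1) : ‖(σ : ℂ)‖ = 1 := by
  rcases hσ with rfl | rfl <;> simp

lemma rf_deriv (σ x : ℝ) (s : ℂ → V3) (z : ℂ) :
    deriv (rf σ x s) z = (σ : ℂ) • deriv s (σ * (x + z)) := by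
  unfold rf
  rw [deriv_comp_const_add (f := fun w => s (σ * w)), deriv_comp_mul_left]

lemma rf_lam {σ : ℝ} (hσ : σ = 1 ∨ σ = -1) (x : ℝ) (s : ℂ → V3) (z : ℂ) :
    lam (rf σ x s) z = lam s (σ * (x + z)) := by
  rw [lam, rf_deriv, R1.lamv_smul, norm_sg hσ, one_pow, one_mul]; rfl

lemma rf_re {σ x : ℝ} (hσ : σ = 1 ∨ σ = -1) (hx : 0 ≤ x) {z : ℂ} (hz : 0 ≤ z.re) :
    |((σ : ℂ) * (x + z)).re| = x + z.re := by
  have : 0 ≤ x + z.re := add_nonneg hx hz
  rcases hσ with rfl | rfl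
  · simpa using this
  · rw [show (((-1 : ℝ) : ℂ) * (x + z)).re = -(x + z.re) by simp, abs_neg, abs_of_nonneg this]

lemma rf_surj (x : ℝ) (t : ℂ) : ∃ (σ : ℝ) (z : ℂ), (σ = 1 ∨ σ = -1) ∧ t = σ * (x + z) ∧
    z.re = |t.re| - x := by
  rcases le_total 0 t.re with h | h
  · exact ⟨1, t - x, Or.inl rfl, by simp, by simp [abs_of_nonneg h]⟩
  · exact ⟨-1, -t - x, Or.inr rfl, by simp, by simp [abs_of_nonpos h]⟩

lemma half (h5 : GradStmt) (h6 : LinStmt) {F : ℂ → V3} {m A B : ℝ} (hF : Differentiable ℂ F)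
    (hm : 0 < m) (hA : 0 < A) (h1 : ∀ z, m ≤ ‖F z‖)
    (h2 : ∀ z : ℂ, 0 ≤ z.re → lam F z ≤ A / (1 + z.re) ^ 2)
    (h3 : ∀ z : ℂ, 0 ≤ z.re → z.re ≤ 2 → ‖F z‖ ≤ B) :
    ∃ Λ, 0 ≤ Λ ∧ ∀ z : ℂ, 2 ≤ z.re → ‖deriv F z‖ ≤ Λ * ‖F z‖ := by
  have p : ∀ z, 0 < ‖F z‖ := fun z => hm.trans_le (h1 z)
  have h0 : ∀ z, F z ≠ 0 := fun z => norm_pos_iff.1 (p z)
  obtain ⟨θ, C, hθ, hθ', hC, hG⟩ := h5 m A hm
  have G : ∀ c : ℂ, 2 ≤ c.re → _ := fun c hc => hG F c (c.re / 2) (by linarith)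
    hF.differentiableOn fun z hz => ⟨h1 z, by
      have a := abs_le.1 (re_near (mem_ball_iff_norm.1 hz).le)
      have b := h2 z (by linarith)
      rw [le_div_iff₀ (by nlinarith)] at b
      refine le_trans (mul_le_mul_of_nonneg_left ?_ (lam_nn F z)) b
      exact pow_le_pow_left₀ (by linarith) (by linarith) 2⟩
  obtain ⟨cd, lp⟩ := LL_cd hF h0
  set C₀ := 2 * |Real.log m| with hC₀
  have c0 : 0 ≤ C₀ := by positivity
  have bd := fun z => LL_bd (h0 z)
  have lo : ∀ z, 0 ≤ LL F z + C₀ := fun z => by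
    have a := Real.log_le_log hm (h1 z)
    have b := neg_abs_le (Real.log m)
    have := (bd z).1
    unfold LL; linarith
  have lB := abs_nonneg (Real.log B)
  obtain ⟨CL, hL⟩ := h6 (fun z => LL F z + C₀) (4 * A + 3 + 4 * C + C₀ + 2 * |Real.log B|) (θ / 2)
    (cd.add contDiff_const) (by positivity) (by positivity) (by linarith) (fun z _ => lo z)
    (fun z hz => by
      rw [lap_addc, lp]
      refine (mul_le_mul_of_nonneg_left (h2 z hz.le) (by norm_num)).trans ?_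
      rw [← mul_div_assoc]
      exact div_le_div_of_nonneg_right (by linarith) (sq_nonneg _))
    (fun z a b => by
      have e1 := Real.log_le_log (p z) (h3 z a b)
      have e2 := le_abs_self (Real.log B)
      have := (bd z).2
      unfold LL; linarith)
    (fun c hc z hz => by
      have e1 := (G c hc z (by rwa [show θ * (c.re / 2) = θ / 2 * c.re by ring])).2.2.1
      have e2 := (bd c).2
      have e3 := (bd z).1
      have e4 := lo z
      have e5 := mul_nonneg (show 0 ≤ 4 * A + 4 * C + C₀ + 2 * |Real.log B| by positivity) e4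
      unfold LL at *
      nlinarith)
  refine ⟨C * (2 * |CL| + C), by positivity, fun c hc => ?_⟩
  have e1 := (G c hc c (mem_closedBall_self (by positivity))).2.2.2
  have e2 := hL c (by linarith)
  have e3 := (bd c).1
  have e4 : CL * (1 + c.re) ≤ |CL| * (1 + c.re) :=
    mul_le_mul_of_nonneg_right (le_abs_self _) (by linarith)
  have e5 := mul_nonneg (abs_nonneg CL) (show 0 ≤ c.re - 1 by linarith)
  have e6 := mul_nonneg hC.le (show 0 ≤ c.re / 2 - 1 by linarith)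
  have e7 : Real.log ‖F c‖ + C ≤ (2 * |CL| + C) * (c.re / 2) := by
    unfold LL at e2
    nlinarith
  refine le_of_mul_le_mul_right (e1.trans ?_) (show 0 < c.re / 2 by linarith)
  refine (mul_le_mul_of_nonneg_left e7 (mul_nonneg hC.le (p c).le)).trans_eq ?_
  ring

lemma xlow {D : Pr} {s : ℂ → V3} (h : s ∈ Sec D) (t : ℂ) :
    Real.exp t.re ≤ 6 * (‖D.X (s t)‖ * ‖deriv s t‖ * ‖s t‖) := by
  refine le_trans ?_ (triple _ _ _)
  rw [Sec.cross h, smul_dotProduct, euler D.hP, (h.2 t).1, mul_one, smul_eq_mul, norm_mul, norm_neg,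
    Complex.norm_exp, Complex.norm_natCast]
  exact le_mul_of_one_le_right (Real.exp_pos _).le (by exact_mod_cast D.a1)

lemma lamlow (D : Pr) : ∃ A : ℝ, 0 < A ∧ ∀ s ∈ Sec D, ∀ t : ℂ,
    Real.exp (D.a * t.re) ^ 2 ≤ A * lam s t * ‖s t‖ ^ (4 * (D.a * D.b)) := by
  obtain ⟨A, hA, h⟩ := R1.ratDer 3 (D.a * D.b) (D.Q ^ D.a) (D.P ^ D.b)
    (by rw [mul_comm]; exact D.hQ.pow _) (D.hP.pow _)
  refine ⟨A, hA, fun s hs t => le_trans ?_ (h (s t) (deriv s t) ((Sec.crv hs univ).2 t trivial))⟩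
  have d := (hs.1 t).hasDerivAt
  have e1 : gd (D.P ^ D.b) (s t) ⬝ᵥ deriv s t = 0 := (chainG d _).unique (by
    simpa only [map_pow, fun w => (hs.2 w).1, one_pow] using hasDerivAt_const t (1 : ℂ))
  have e2 : gd (D.Q ^ D.a) (s t) ⬝ᵥ deriv s t = Complex.exp (D.a * t) * D.a :=
    (chainG d _).unique (by
      have := ((hasDerivAt_id t).const_mul (D.a : ℂ)).cexp
      simpa only [map_pow, fun w => (hs.2 w).2, ← Complex.exp_nat_mul, id, mul_one] using this)
  change _ ≤ ‖(gd (D.Q ^ D.a) (s t) ⬝ᵥ deriv s t) * _ - _ * (gd (D.P ^ D.b) (s t) ⬝ᵥ deriv s t)‖ ^ 2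
  rw [e1, e2, map_pow, (hs.2 t).1, one_pow, mul_one, mul_zero, sub_zero, norm_mul,
    Complex.norm_exp, Complex.norm_natCast]
  refine pow_le_pow_left₀ (Real.exp_pos _).le ?_ 2
  rw [show ((D.a : ℂ) * t).re = D.a * t.re by simp]
  exact le_mul_of_one_le_right (Real.exp_pos _).le (by exact_mod_cast D.a1)

end Unif

open Unif

theorem unif (h1 : BadStmt) (h2 : LowStmt) (h3 : LatStmt) (h4 : HypStmt) (h5 : GradStmt)
    (h6 : LinStmt) (h7 : BdStmt) : UnifStmt := fun D => by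
  obtain ⟨B, hB⟩ := h1 D
  obtain ⟨-, hη, ⟨x₀, hx₀, hx⟩, -⟩ := h3 B hB.2.1
  obtain ⟨η, η0, hη⟩ := hη 1 one_pos
  have far : ∀ t : ℂ, x₀ ≤ |t.re| → Far B η (Complex.exp t) := fun t ht => hη t (hx t ht)
  obtain ⟨c₁, c0, hc₁⟩ := (h2 D).2 B η hB η0
  obtain ⟨A₁, A0, hA₁⟩ := h4 D B η hB η0
  obtain ⟨m, m0, hm⟩ := low D.hP D.a1
  obtain ⟨A₂, hA₂⟩ := h7 D (x₀ + 4)
  obtain ⟨A₃, A3, hA₃⟩ := lamlow D
  set K := max A₂ 1 with hK
  have K0 : 0 < K := lt_max_of_lt_right one_pos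
  set c₂ := Real.exp (-x₀) / (6 * K ^ 2 * K ^ (D.a + D.b - 2)) with hc₂
  set c₃ := Real.exp (-D.a) ^ 2 / (A₃ * K ^ (4 * (D.a * D.b))) with hc₃
  refine ⟨x₀ + 1, A₁ + 2 + 2 * |Real.log m| + 2 * |Real.log K|, min c₁ (min c₂ c₃), by linarith,
    by positivity, by positivity, fun s hs => ?_⟩
  have bK : ∀ t : ℂ, |t.re| ≤ x₀ + 3 + 1 → ‖s t‖ ≤ K := fun t ht =>
    (hA₂ s hs t (by linarith)).trans (le_max_left _ _)
  have dK : ∀ t : ℂ, |t.re| ≤ x₀ + 3 → ‖deriv s t‖ ≤ K := fun t ht => cauchy hs.1 bK ht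
  have ms : ∀ t, m ≤ ‖s t‖ := fun t => hm _ (hs.2 t).1
  have s0 : ∀ t, s t ≠ 0 := fun t => norm_pos_iff.1 (m0.trans_le (ms t))
  have l1 := abs_nonneg (Real.log m)
  have l2 := abs_nonneg (Real.log K)
  have u1 : ∀ t : ℂ, x₀ + 1 ≤ |t.re| → lam s t ≤ A₁ / (1 + |t.re| - (x₀ + 1)) ^ 2 := fun t ht => by
    have r0 : 0 < 1 + |t.re| - (x₀ + 1) := by linarith
    rw [le_div_iff₀ (by positivity)]
    refine hA₁ s id t _ r0 (Sec.nm hs _) fun z hz => far z ?_
    have a := re_near (mem_ball_iff_norm.1 hz).le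
    have b := abs_sub_abs_le_abs_sub t.re z.re
    rw [abs_sub_comm] at b
    linarith
  refine ⟨fun t ht => (u1 t ht).trans (div_le_div_of_nonneg_right (by linarith) (sq_nonneg _)),
    fun t => ?_, fun t ht => ?_, fun t ht => ?_, ?_⟩
  · rcases le_total x₀ |t.re| with h | h
    · exact le_trans (mul_le_mul_of_nonneg_right (min_le_left _ _) (by positivity))
        (hc₁ _ (hs.2 t).1 (by rw [(hs.2 t).2]; exact far t h))
    · have a := bK t (by linarith)
      have b := dK t (by linarith)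
      have e1 : Real.exp (-x₀) ≤ 6 * (‖D.X (s t)‖ * K * K) :=
        (Real.exp_le_exp.2 (abs_le.1 h).1).trans ((xlow hs t).trans (by gcongr))
      have e2 : min c₁ (min c₂ c₃) * ‖s t‖ ^ (D.a + D.b - 2) ≤ c₂ * K ^ (D.a + D.b - 2) := by
        have := (min_le_right c₁ _).trans (min_le_left c₂ c₃)
        gcongr
      refine e2.trans ?_
      rw [hc₂, div_mul_eq_mul_div, mul_div_mul_right _ _ (by positivity), div_le_iff₀ (by positivity)]
      linarith
  · refine ((min_le_right _ _).trans (min_le_right _ _)).trans ?_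
    have a := bK t (by linarith)
    have b := lam_nn s t
    have e1 : Real.exp (-D.a) ≤ Real.exp (D.a * t.re) := Real.exp_le_exp.2 (by
      have := mul_le_mul_of_nonneg_left (abs_le.1 ht).1 (Nat.cast_nonneg (α := ℝ) D.a)
      linarith)
    rw [hc₃, div_le_iff₀ (by positivity)]
    refine (pow_le_pow_left₀ (Real.exp_pos _).le e1 2).trans ((hA₃ s hs t).trans ?_)
    rw [← mul_assoc (lam s t), mul_comm (lam s t) A₃]
    gcongr
  · have a := Real.log_le_log (m0.trans_le (ms t)) (bK t (by linarith))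
    have b := Real.log_le_log m0 (ms t)
    have c := LL_bd (s0 t)
    have d := neg_abs_le (Real.log m)
    have e := le_abs_self (Real.log K)
    unfold LL
    exact abs_le.2 ⟨by linarith [c.1], by linarith [c.2]⟩
  · have H : ∀ σ : ℝ, σ = 1 ∨ σ = -1 → ∃ Λ, 0 ≤ Λ ∧ ∀ z : ℂ, 2 ≤ z.re →
        ‖deriv s (σ * ((x₀ + 1 : ℝ) + z))‖ ≤ Λ * ‖s (σ * ((x₀ + 1 : ℝ) + z))‖ := fun σ hσ => by
      obtain ⟨Λ, Λ0, hΛ⟩ := half h5 h6 (B := K) (rf_diff σ (x₀ + 1) hs.1) m0 A0 (fun z => ms _)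
        (fun z hz => by
          have e := rf_re (x := x₀ + 1) hσ (by linarith) hz
          have := u1 _ (by rw [e]; linarith)
          rwa [e, show 1 + (x₀ + 1 + z.re) - (x₀ + 1) = 1 + z.re by ring, ← rf_lam hσ] at this)
        (fun z a b => bK _ (by rw [rf_re hσ (by linarith) a]; linarith))
      refine ⟨Λ, Λ0, fun z hz => ?_⟩
      have := hΛ z hz
      rwa [rf_deriv, norm_smul, norm_sg hσ, one_mul] at this
    obtain ⟨Λ₁, Λ1, H₁⟩ := H 1 (Or.inl rfl)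
    obtain ⟨Λ₂, Λ2, H₂⟩ := H (-1) (Or.inr rfl)
    have Km : 0 ≤ K / m := by positivity
    refine ⟨_, lip (Λ := Λ₁ + Λ₂ + K / m) hs.1 s0 (by positivity) fun t => ?_⟩
    have n0 := norm_nonneg (s t)
    rcases le_total |t.re| (x₀ + 3) with h | h
    · have a : K ≤ K / m * ‖s t‖ := by
        rw [div_mul_eq_mul_div, le_div_iff₀ m0]
        exact mul_le_mul_of_nonneg_left (ms t) K0.le
      exact (dK t h).trans (a.trans (mul_le_mul_of_nonneg_right (by linarith) n0))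
    · obtain ⟨σ, z, hσ, e, hz⟩ := rf_surj (x₀ + 1) t
      rcases hσ with rfl | rfl
      · have := H₁ z (by linarith)
        rw [← e] at this
        exact this.trans (mul_le_mul_of_nonneg_right (by linarith) n0)
      · have := H₂ z (by linarith)
        rw [← e] at this
        exact this.trans (mul_le_mul_of_nonneg_right (by linarith) n0)

theorem slp (h1 : UnifStmt) (h2 : SlopeStmt) : SlpStmt := fun D ε ε0 => by
  obtain ⟨x, A, c, x1, A0, -, H⟩ := h1 D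
  obtain ⟨X₀, X0, hX⟩ : ∃ X₀ : ℝ, 0 < X₀ ∧ ∀ X, X₀ ≤ X →
      10 + 4 * A + 4 * A * Real.log (1 + X) < ε * X := by
    have h := (Real.isLittleO_log_id_atTop.comp_tendsto
      (tendsto_atTop_add_const_left atTop (1 : ℝ) tendsto_id)).bound
      (show 0 < ε / (8 * A) by positivity)
    obtain ⟨X₁, hX₁⟩ := eventually_atTop.1 h
    refine ⟨max X₁ (2 * (11 + 4 * A) / ε + 1), lt_max_of_lt_right (by positivity), fun X a => ?_⟩
    have b := hX₁ X ((le_max_left _ _).trans a)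
    have d := (le_max_right _ _).trans a
    have p : 0 < 2 * (11 + 4 * A) / ε := by positivity
    simp only [Function.comp, id, Real.norm_eq_abs] at b
    rw [abs_of_pos (show 0 < 1 + X by linarith)] at b
    have e := mul_le_mul_of_nonneg_left ((le_abs_self _).trans b) (show 0 ≤ 4 * A by positivity)
    rw [show 4 * A * (ε / (8 * A) * (1 + X)) = ε / 2 * (1 + X) by field_simp; ring] at e
    have f : 2 * (11 + 4 * A) ≤ (X - 1) * ε := (div_le_iff₀ ε0).1 (by linarith)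
    nlinarith
  refine ⟨x + X₀, fun s hs s' hs' t₁ t₂ a₁ a₂ b₁ b₂ => ?_⟩
  obtain ⟨u1, -, -, u4, Λ, u5⟩ := H s hs
  obtain ⟨v1, -, -, v4, Λ', v5⟩ := H s' hs'
  have bl : ∀ t t' : ℂ, |LL s' t - LL s t - (LL s' t' - LL s t')| ≤ (Λ + Λ') * ‖t - t'‖ :=
    fun t t' => by
      have a := abs_le.1 (u5 t t')
      have b := abs_le.1 (v5 t t')
      exact abs_le.2 ⟨by linarith [a.1, a.2, b.1, b.2], by linarith [a.1, a.2, b.1, b.2]⟩
  have bx : ∀ t : ℂ, |t.re| = x → |LL s' t - LL s t| ≤ 4 * A := fun t ht => by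
    have a := abs_le.1 (u4 t ht)
    have b := abs_le.1 (v4 t ht)
    exact abs_le.2 ⟨by linarith [a.1, a.2, b.1, b.2], by linarith [a.1, a.2, b.1, b.2]⟩
  have G : ∀ σ : ℝ, σ = 1 ∨ σ = -1 → ∀ z₁ : ℂ, X₀ ≤ z₁.re →
      LL s' (σ * (x + z₁)) - LL s (σ * (x + z₁)) ≤ 10 → ∃ C : ℝ, ∀ z : ℂ, 0 ≤ z.re →
        LL s' (σ * (x + z)) - LL s (σ * (x + z)) ≤ ε * z.re + C := fun σ hσ z₁ a b => by
    obtain ⟨c1, l1⟩ := LL_cd (rf_diff σ x hs.1) fun z => (Sec.crv hs univ).2 _ trivial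
    obtain ⟨c2, l2⟩ := LL_cd (rf_diff σ x hs'.1) fun z => (Sec.crv hs' univ).2 _ trivial
    refine h2 (fun z => LL (rf σ x s') z - LL (rf σ x s) z) (4 * A) (Λ + Λ') ε z₁ (c2.sub c1)
      (by positivity) (fun z hz => ?_) (fun z hz => bx _ ?_) (fun z w _ _ => (bl _ _).trans_eq ?_)
      (by linarith) (lt_of_le_of_lt ?_ (hX z₁.re a))
    · have e := rf_re (x := x) hσ (by linarith) hz.le
      have p := u1 _ (by rw [e]; linarith)
      have q := v1 _ (by rw [e]; linarith)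
      rw [e, show 1 + (x + z.re) - x = 1 + z.re by ring, ← rf_lam hσ] at p q
      have p0 := lam_nn (rf σ x s) z
      have q0 := lam_nn (rf σ x s') z
      rw [lap_sub c2 c1, l1, l2, mul_div_assoc]
      exact abs_le.2 ⟨by linarith, by linarith⟩
    · rw [rf_re hσ (by linarith) hz.ge, hz, add_zero]
    · rw [← mul_sub, norm_mul, norm_sg hσ, one_mul, add_sub_add_left_eq_sub]
    · change LL s' (σ * (x + z₁)) - LL s (σ * (x + z₁)) + _ + _ ≤ _
      linarith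
  obtain ⟨C₁, G₁⟩ := G 1 (Or.inl rfl) (t₁ - x) (by simp; linarith) (by simpa using b₁)
  obtain ⟨C₂, G₂⟩ := G (-1) (Or.inr rfl) (-t₂ - x) (by simp; linarith) (by simpa using b₂)
  refine ⟨|C₁| + |C₂| + 4 * A + |Λ + Λ'| * (2 * x), fun t => ?_⟩
  have n1 := abs_nonneg C₁
  have n2 := abs_nonneg C₂
  have n3 : 0 ≤ |Λ + Λ'| * (2 * x) := by positivity
  have n4 : 0 ≤ ε * x := by positivity
  rcases le_total |t.re| x with h | h
  · have a := (abs_le.1 (bl t ⟨x, t.im⟩)).2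
    have b := (abs_le.1 (bx ⟨x, t.im⟩ (abs_of_pos (by linarith)))).2
    have d : ‖t - ⟨x, t.im⟩‖ ≤ 2 * x := by
      rw [show t - ⟨x, t.im⟩ = ((t.re - x : ℝ) : ℂ) from Complex.ext (by simp) (by simp),
        Complex.norm_real, Real.norm_eq_abs]
      have := abs_le.1 h
      exact abs_le.2 ⟨by linarith, by linarith⟩
    have e : (Λ + Λ') * ‖t - ⟨x, t.im⟩‖ ≤ |Λ + Λ'| * (2 * x) :=
      mul_le_mul (le_abs_self _) d (norm_nonneg _) (abs_nonneg _)
    have f : 0 ≤ ε * |t.re| := by positivity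
    linarith
  · obtain ⟨σ, z, hσ, e, hz⟩ := rf_surj x t
    rcases hσ with rfl | rfl
    · have := G₁ z (by linarith)
      rw [← e, hz, mul_sub] at this
      linarith [le_abs_self C₁]
    · have := G₂ z (by linarith)
      rw [← e, hz, mul_sub] at this
      linarith [le_abs_self C₂]

end Pool.Agent.MP_c69980_ag.G2
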